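import Pool.Agent.H989.Est3

/-!
Probability that the self energies with and without one direction are close.
-/

set_option linter.unusedSectionVars false
set_option linter.unusedVariables false

open MeasureTheory ProbabilityTheory Finset

namespace Pool.Agent.H989

variable {V : Type*} [AddCommGroup V] [Fintype V] [DecidableEq V]
variable {N N₁ Λ : Finset V} {σ : ℝ} {z : ℂ} {L : ℕ} {e : V} {ℓ : V →+ ZMod L}

lemma P_shift (a : V) {S : Set (V → ℝ)} (hS : MeasurableSet S) :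
    (PP V).real {ξ : V → ℝ | (fun x => ξ (x + a)) ∈ S} = (PP V).real S := by
  have h := measurePreserving_comp (V := V) (Equiv.addRight a)
  exact h.measureReal_preimage hS.nullMeasurableSet

/-- the off mass at the site `e` -/
lemma off_shift (hN : Steps N) (hz : 0 < z.im) (a : V) (ξ : V → ℝ) :
    nsq (off ℓ (ℓ a) (sol N {a} (pot σ ξ) z (bx N a)))
      = nsq (off ℓ 0 (sol N {0} (pot σ fun x => ξ (x + a)) z (bx N 0))) := by
  unfold nsq
  rw [← Equiv.sum_comp (Equiv.addRight a)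
    (fun x => ‖off ℓ (ℓ a) (sol N {a} (pot σ ξ) z (bx N a)) x‖ ^ 2)]
  refine Finset.sum_congr rfl fun x _ => ?_
  have := sol_shift_bx (σ := σ) (Λ := ({a} : Finset V)) (Λ' := {0}) hN hz a a ξ (by simp) x
  rw [sub_self] at this
  simp only [Equiv.coe_addRight]
  unfold off
  rw [this]
  have e1 : (ℓ (x + a) = ℓ a) ↔ (ℓ x = 0) := by rw [map_add]; simp
  simp only [e1]

lemma nsq_bx_shift (hN : Steps N) (hz : 0 < z.im) (a : V) (ξ : V → ℝ) :
    nsq (sol N {a} (pot σ ξ) z (bx N a))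
      = nsq (sol N {0} (pot σ fun x => ξ (x + a)) z (bx N 0)) := by
  unfold nsq
  rw [← Equiv.sum_comp (Equiv.addRight a)
    (fun x => ‖(sol N {a} (pot σ ξ) z (bx N a)) x‖ ^ 2)]
  refine Finset.sum_congr rfl fun x _ => ?_
  have := sol_shift_bx (σ := σ) (Λ := ({a} : Finset V)) (Λ' := {0}) hN hz a a ξ (by simp) x
  rw [sub_self] at this
  simp only [Equiv.coe_addRight]
  rw [this]

lemma SE_shift (hN : Steps N) (hz : 0 < z.im) (a : V) (ξ : V → ℝ) :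
    SE N ∅ (pot σ ξ) z a = SE N ∅ (pot σ fun x => ξ (x + a)) z 0 := by
  unfold SE
  rw [insert_empty_eq, insert_empty_eq]
  have h2 : ∀ y, sol N {0} (pot σ fun x => ξ (x + a)) z (bx N 0) y
      = sol N {a} (pot σ ξ) z (bx N a) (y + a) := fun y => by
    have := sol_shift_bx (σ := σ) (Λ := ({a} : Finset V)) (Λ' := {0}) hN hz a a ξ (by simp) y
    rw [sub_self] at this
    exact this
  have h3 : sol N {0} (pot σ fun x => ξ (x + a)) z (bx N 0)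
      = fun y => sol N {a} (pot σ ξ) z (bx N a) (y + a) := funext h2
  rw [h3, nb_shift, zero_add]

lemma P_B₂ (hN : Steps N) (hz : 0 < z.im) {R : ℝ} (hR : 0 < R) (a : V) :
    (PP V).real {ξ : V → ℝ | R ^ 2 ≤ nsq (sol N {a} (pot σ ξ) z (bx N a))} ≤ B₂ N σ z / R ^ 2 := by
  have hn := nice_nsq (Λ := {0}) (σ := σ) hN hz (bx N 0)
  have hm : MeasurableSet {ξ : V → ℝ | R ^ 2 ≤ nsq (sol N {0} (pot σ ξ) z (bx N 0))} :=
    measurableSet_le measurable_const hn.1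
  have h1 := P_shift a hm
  have h2 : {ξ : V → ℝ | (fun x => ξ (x + a)) ∈
      {ξ : V → ℝ | R ^ 2 ≤ nsq (sol N {0} (pot σ ξ) z (bx N 0))}}
      = {ξ : V → ℝ | R ^ 2 ≤ nsq (sol N {a} (pot σ ξ) z (bx N a))} := by
    ext ξ
    simp only [Set.mem_ofPred_eq]
    rw [nsq_bx_shift hN hz a ξ]
  rw [h2] at h1
  rw [h1]
  exact markov hn (fun ξ => nsq_nonneg _) (by positivity)

lemma P_off (hN : Steps N) (hz : 0 < z.im) {ε p : ℝ}
    (hp : (PP V).real {ξ | ε ≤ nsq (off ℓ 0 (sol N {0} (pot σ ξ) z (bx N 0)))} ≤ p) (a : V) :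
    (PP V).real {ξ : V → ℝ | ε ≤ nsq (off ℓ (ℓ a) (sol N {a} (pot σ ξ) z (bx N a)))} ≤ p := by
  have hm : MeasurableSet {ξ : V → ℝ | ε ≤ nsq (off ℓ 0 (sol N {0} (pot σ ξ) z (bx N 0)))} :=
    measurableSet_le measurable_const (nice_off hN hz 0 _).1
  have h1 := P_shift a hm
  have h2 : {ξ : V → ℝ | (fun x => ξ (x + a)) ∈
      {ξ : V → ℝ | ε ≤ nsq (off ℓ 0 (sol N {0} (pot σ ξ) z (bx N 0)))}}
      = {ξ : V → ℝ | ε ≤ nsq (off ℓ (ℓ a) (sol N {a} (pot σ ξ) z (bx N a)))} := by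
    ext ξ
    simp only [Set.mem_ofPred_eq]
    rw [off_shift hN hz]
  rw [h2] at h1
  rw [h1]; exact hp

/-- closeness of the self energies at the same site -/
lemma close_same (h : Lay N N₁ e ℓ) (hz : 0 < z.im) {ε R p δ : ℝ} (hR : 1 ≤ R) (hε : 0 < ε)
    (hδ : 4 * R * √ε ≤ δ)
    (hp : (PP V).real {ξ | ε ≤ nsq (off ℓ 0 (sol N {0} (pot σ ξ) z (bx N 0)))} ≤ p) (a : V) :
    (PP V).real {ξ : V → ℝ | δ < ‖SE N ∅ (pot σ ξ) z a - SE N₁ ∅ (pot σ ξ) z a‖}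
      ≤ p + B₂ N₁ σ z / R ^ 2 := by
  have hsub : {ξ : V → ℝ | δ < ‖SE N ∅ (pot σ ξ) z a - SE N₁ ∅ (pot σ ξ) z a‖}
      ⊆ {ξ : V → ℝ | ε ≤ nsq (off ℓ (ℓ a) (sol N {a} (pot σ ξ) z (bx N a)))}
        ∪ {ξ : V → ℝ | R ^ 2 ≤ nsq (sol N₁ {a} (pot σ ξ) z (bx N₁ a))} := by
    intro ξ hξ
    by_contra hcon
    simp only [Set.mem_union, Set.mem_ofPred_eq, not_or, not_le] at hcon
    obtain ⟨c1, c2⟩ := hcon
    have d1 := h.SE_sub (v := pot σ ξ) (Λ := {a}) hz (x := a) (by simp)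
    have d2 : nrm (off ℓ (ℓ a) (sol N {a} (pot σ ξ) z (bx N a))) ≤ √ε := by
      rw [nrm_eq_sqrt]; exact Real.sqrt_le_sqrt c1.le
    have d3 : nrm (sol N₁ {a} (pot σ ξ) z (bx N₁ a)) ≤ R := nrm_le_of (by linarith) c2.le
    have d4 : ‖SE N ∅ (pot σ ξ) z a - SE N₁ ∅ (pot σ ξ) z a‖ ≤ 4 * R * √ε := by
      unfold SE
      rw [insert_empty_eq]
      refine d1.trans ?_
      calc 2 * (1 + nrm (sol N₁ {a} (pot σ ξ) z (bx N₁ a)))
            * nrm (off ℓ (ℓ a) (sol N {a} (pot σ ξ) z (bx N a)))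
          ≤ 2 * (R + R) * √ε := by
            have := nrm_nonneg (off ℓ (ℓ a) (sol N {a} (pot σ ξ) z (bx N a)))
            have := nrm_nonneg (sol N₁ {a} (pot σ ξ) z (bx N₁ a))
            gcongr
        _ = _ := by ring
    have : δ < ‖SE N ∅ (pot σ ξ) z a - SE N₁ ∅ (pot σ ξ) z a‖ := hξ
    linarith
  refine (measureReal_mono hsub).trans ((measureReal_union_le _ _).trans ?_)
  exact add_le_add (P_off h.s hz hp a) (P_B₂ h.s1 hz (by linarith) a)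

/-- the event that the site `e` sees `0` only through the edge -/
def Good (N N₁ : Finset V) (e : V) (σ : ℝ) (z : ℂ) (δ : ℝ) : Set (V → ℝ) :=
  {ξ | ‖nb N (sol N {e, 0} (pot σ ξ) z (bx N e)) 0‖ ≤ δ ∧
    ‖nb N (sol N {e, 0} (pot σ ξ) z (bx N e)) e - SE N₁ ∅ (pot σ ξ) z e‖ ≤ δ}

lemma measurable_Good (h : Lay N N₁ e ℓ) (hz : 0 < z.im) (δ : ℝ) :
    MeasurableSet (Good N N₁ e σ z δ) := by
  refine MeasurableSet.inter ?_ ?_
  · exact measurableSet_le (nice_nb h.s hz _ _ _).1.norm measurable_const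
  · exact measurableSet_le ((nice_nb h.s hz _ _ _).csub (nice_SE h.s1 hz _)).1.norm
      measurable_const

lemma Good_update (h : Lay N N₁ e ℓ) (hz : 0 < z.im) (δ : ℝ) (ξ : V → ℝ) (t : ℝ) :
    (Function.update ξ e t ∈ Good N N₁ e σ z δ) ↔ ξ ∈ Good N N₁ e σ z δ := by
  unfold Good
  simp only [Set.mem_ofPred_eq]
  rw [sol_update h.s hz (by simp), SE_update h.s1 hz]

lemma Lay.sol_pair_left (h : Lay N N₁ e ℓ) (hz : 0 < z.im) (v : V → ℝ) :
    sol N₁ {e, 0} v z (bx N₁ 0) = sol N₁ {0} v z (bx N₁ 0) := by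
  refine h.sol_bx_congr hz (fun _ _ _ => rfl) fun w hw => ?_
  rw [map_zero] at hw
  have : w ≠ e := fun hh => by rw [hh, h.le] at hw; exact h.h0 hw
  simp [this]

lemma Lay.sol_pair_right (h : Lay N N₁ e ℓ) (hz : 0 < z.im) (v : V → ℝ) :
    sol N₁ {e, 0} v z (bx N₁ e) = sol N₁ {e} v z (bx N₁ e) := by
  refine h.sol_bx_congr hz (fun _ _ _ => rfl) fun w hw => ?_
  have : w ≠ 0 := fun hh => by
    rw [hh, map_zero, h.le] at hw; exact h.h0 hw.symm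
  simp [this]

lemma P_Good (h : Lay N N₁ e ℓ) (hz : 0 < z.im) (hz1 : z.im ≤ 1) {ε R p q δ : ℝ} (hR : 1 ≤ R)
    (hε : 0 < ε) (hε1 : ε ≤ 1 / 4) (hδ : 21 * R ^ 2 * √ε / z.im ≤ δ)
    (hp : (PP V).real {ξ | ε ≤ nsq (off ℓ 0 (sol N {0} (pot σ ξ) z (bx N 0)))} ≤ p)
    (hq : ∫ ξ, ‖∑ w, sol N₁ {e, 0} (pot σ ξ) z (bx N₁ 0) w
        * sol N₁ {e, 0} (pot σ ξ) z (bx N₁ e) (w + e)‖ ∂(PP V) ≤ q) :
    (PP V).real (Good N N₁ e σ z δ)ᶜ
      ≤ 2 * p + 2 * (B₂ N σ z / R ^ 2) + 2 * (B₂ N₁ σ z / R ^ 2) + q / √ε := by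
  have hsε : 0 < √ε := Real.sqrt_pos.2 hε
  have hsε1 : √ε ≤ 1 / 2 := by
    apply Real.sqrt_le_left (by norm_num) |>.2; norm_num; exact hε1
  have hR0 : 0 < R := by linarith
  set S1 := {ξ : V → ℝ | ε ≤ nsq (off ℓ (ℓ 0) (sol N {0} (pot σ ξ) z (bx N 0)))} with hS1
  set S2 := {ξ : V → ℝ | ε ≤ nsq (off ℓ (ℓ e) (sol N {e} (pot σ ξ) z (bx N e)))} with hS2
  set S3 := {ξ : V → ℝ | R ^ 2 ≤ nsq (sol N {0} (pot σ ξ) z (bx N 0))} with hS3
  set S4 := {ξ : V → ℝ | R ^ 2 ≤ nsq (sol N {e} (pot σ ξ) z (bx N e))} with hS4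
  set S5 := {ξ : V → ℝ | R ^ 2 ≤ nsq (sol N₁ {0} (pot σ ξ) z (bx N₁ 0))} with hS5
  set S6 := {ξ : V → ℝ | R ^ 2 ≤ nsq (sol N₁ {e} (pot σ ξ) z (bx N₁ e))} with hS6
  set S7 := {ξ : V → ℝ | √ε ≤ ‖∑ w, sol N₁ {e, 0} (pot σ ξ) z (bx N₁ 0) w
        * sol N₁ {e, 0} (pot σ ξ) z (bx N₁ e) (w + e)‖} with hS7
  have hsub : (Good N N₁ e σ z δ)ᶜ ⊆ S1 ∪ S2 ∪ (S3 ∪ S4) ∪ (S5 ∪ S6) ∪ S7 := by
    intro ξ hξ
    by_contra hcon
    simp only [Set.mem_union, not_or] at hcon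
    obtain ⟨⟨⟨⟨c1, c2⟩, ⟨c3, c4⟩⟩, ⟨c5, c6⟩⟩, c7⟩ := hcon
    simp only [hS1, hS2, hS3, hS4, hS5, hS6, hS7, Set.mem_ofPred_eq, not_le, map_zero] at c1 c2 c3 c4 c5 c6 c7
    apply hξ
    have d1 : nrm (off ℓ 0 (sol N {0} (pot σ ξ) z (bx N 0))) ≤ √ε := by
      rw [nrm_eq_sqrt]; exact Real.sqrt_le_sqrt c1.le
    have d2 : nrm (off ℓ (ℓ e) (sol N {e} (pot σ ξ) z (bx N e))) ≤ √ε := by
      rw [nrm_eq_sqrt]; exact Real.sqrt_le_sqrt c2.le
    have d3 : nrm (sol N {0} (pot σ ξ) z (bx N 0)) ≤ R := nrm_le_of hR0.le c3.le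
    have d4 : nrm (sol N {e} (pot σ ξ) z (bx N e)) ≤ R := nrm_le_of hR0.le c4.le
    have d5 : nrm (sol N₁ {0} (pot σ ξ) z (bx N₁ 0)) ≤ R := nrm_le_of hR0.le c5.le
    have d6 : nrm (sol N₁ {e} (pot σ ξ) z (bx N₁ e)) ≤ R := nrm_le_of hR0.le c6.le
    have n1 := nrm_nonneg (off ℓ 0 (sol N {0} (pot σ ξ) z (bx N 0)))
    have n2 := nrm_nonneg (off ℓ (ℓ e) (sol N {e} (pot σ ξ) z (bx N e)))
    have n3 := nrm_nonneg (sol N {0} (pot σ ξ) z (bx N 0))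
    have n4 := nrm_nonneg (sol N {e} (pot σ ξ) z (bx N e))
    have n5 := nrm_nonneg (sol N₁ {0} (pot σ ξ) z (bx N₁ 0))
    have n6 := nrm_nonneg (sol N₁ {e} (pot σ ξ) z (bx N₁ e))
    obtain ⟨p1, p2, p3⟩ := h.pair_bound (v := pot σ ξ) hz (by
      calc nrm (off ℓ (ℓ e) (sol N {e} (pot σ ξ) z (bx N e)))
            * nrm (off ℓ 0 (sol N {0} (pot σ ξ) z (bx N 0))) ≤ √ε * √ε := by gcongr
        _ ≤ 1 / 2 := by nlinarith)
    have n7 := nrm_nonneg (sol N {e, 0} (pot σ ξ) z (bx N 0))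
    have n8 := nrm_nonneg (off ℓ (ℓ e) (sol N {e, 0} (pot σ ξ) z (bx N e)))
    have q1 : nrm (sol N {e, 0} (pot σ ξ) z (bx N 0)) ≤ 4 * R := by
      refine p1.trans ?_
      calc 2 * (nrm (sol N {0} (pot σ ξ) z (bx N 0))
            + nrm (off ℓ 0 (sol N {0} (pot σ ξ) z (bx N 0)))
              * nrm (sol N {e} (pot σ ξ) z (bx N e)))
          ≤ 2 * (R + √ε * R) := by gcongr
        _ ≤ 4 * R := by nlinarith
    have q2 : nrm (off ℓ (ℓ e) (sol N {e, 0} (pot σ ξ) z (bx N e))) ≤ 5 * R * √ε := by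
      refine p2.trans ?_
      calc nrm (off ℓ (ℓ e) (sol N {e} (pot σ ξ) z (bx N e)))
            * (1 + nrm (sol N {e, 0} (pot σ ξ) z (bx N 0)))
          ≤ √ε * (R + 4 * R) := by gcongr
        _ = 5 * R * √ε := by ring
    have hzi : 1 ≤ 1 / z.im := by rw [le_div_iff₀ hz]; linarith
    constructor
    · have := h.coupling (v := pot σ ξ) (Λ := {e, 0}) hz hz1 (by simp) (by simp)
      refine this.trans ?_
      rw [h.sol_pair_left hz]
      rw [h.sol_pair_left hz] at c7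
      calc ‖∑ w, sol N₁ {0} (pot σ ξ) z (bx N₁ 0) w
              * sol N₁ {e, 0} (pot σ ξ) z (bx N₁ e) (w + e)‖
            + (1 + 3 / z.im * nrm (sol N₁ {0} (pot σ ξ) z (bx N₁ 0)))
              * nrm (off ℓ (ℓ e) (sol N {e, 0} (pot σ ξ) z (bx N e)))
          ≤ √ε + (1 + 3 / z.im * R) * (5 * R * √ε) := by gcongr
        _ ≤ 21 * R ^ 2 * √ε / z.im := by
            have e1 : 21 * R ^ 2 * √ε / z.im = 21 * R ^ 2 * √ε * (1 / z.im) := by ring
            have e2 : √ε + (1 + 3 / z.im * R) * (5 * R * √ε)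
                = √ε * (1 + 5 * R) + 15 * R ^ 2 * √ε * (1 / z.im) := by ring
            rw [e1, e2]
            have e3 : √ε * (1 + 5 * R) ≤ 6 * R ^ 2 * √ε * (1 / z.im) := by
              calc √ε * (1 + 5 * R) ≤ √ε * (6 * R ^ 2) := by
                    have : 1 + 5 * R ≤ 6 * R ^ 2 := by nlinarith
                    gcongr
                _ = 6 * R ^ 2 * √ε * 1 := by ring
                _ ≤ 6 * R ^ 2 * √ε * (1 / z.im) := by gcongr
            linarith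
        _ ≤ δ := hδ
    · have := h.SE_sub (v := pot σ ξ) (Λ := {e, 0}) hz (x := e) (by simp)
      unfold SE
      rw [insert_empty_eq, ← h.sol_pair_right hz]
      refine this.trans ?_
      rw [h.sol_pair_right hz]
      calc 2 * (1 + nrm (sol N₁ {e} (pot σ ξ) z (bx N₁ e)))
            * nrm (off ℓ (ℓ e) (sol N {e, 0} (pot σ ξ) z (bx N e)))
          ≤ 2 * (R + R) * (5 * R * √ε) := by gcongr
        _ = 20 * R ^ 2 * √ε * 1 := by ring
        _ ≤ 21 * R ^ 2 * √ε * (1 / z.im) := by gcongr; norm_num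
        _ = 21 * R ^ 2 * √ε / z.im := by ring
        _ ≤ δ := hδ
  have b1 : (PP V).real S1 ≤ p := P_off h.s hz hp 0
  have b2 : (PP V).real S2 ≤ p := P_off h.s hz hp e
  have b3 := P_B₂ (σ := σ) h.s hz hR0 0
  have b4 := P_B₂ (σ := σ) h.s hz hR0 e
  have b5 := P_B₂ (σ := σ) h.s1 hz hR0 0
  have b6 := P_B₂ (σ := σ) h.s1 hz hR0 e
  have b7 : (PP V).real S7 ≤ q / √ε := by
    have hn : Nice fun ξ : V → ℝ => ‖∑ w, sol N₁ {e, 0} (pot σ ξ) z (bx N₁ 0) w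
        * sol N₁ {e, 0} (pot σ ξ) z (bx N₁ e) (w + e)‖ := by
      refine (Nice.csum _ fun w _ => ?_).norm
      obtain ⟨h1, C, hC⟩ := nice_sol (Λ := {e, 0}) (σ := σ) h.s1 hz (bx N₁ 0) w
      obtain ⟨h2, D, hD⟩ := nice_sol (Λ := {e, 0}) (σ := σ) h.s1 hz (bx N₁ e) (w + e)
      refine ⟨h1.mul h2, |C| * |D|, fun x => ?_⟩
      rw [norm_mul]
      exact mul_le_mul ((hC x).trans (le_abs_self _)) ((hD x).trans (le_abs_self _))
        (norm_nonneg _) (abs_nonneg _)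
    refine (markov hn (fun _ => norm_nonneg _) hsε).trans ?_
    gcongr
  calc (PP V).real (Good N N₁ e σ z δ)ᶜ ≤ (PP V).real (S1 ∪ S2 ∪ (S3 ∪ S4) ∪ (S5 ∪ S6) ∪ S7) :=
        measureReal_mono hsub
    _ ≤ (PP V).real S1 + (PP V).real S2 + ((PP V).real S3 + (PP V).real S4)
        + ((PP V).real S5 + (PP V).real S6) + (PP V).real S7 := by
        refine (measureReal_union_le _ _).trans (add_le_add ?_ le_rfl)
        refine (measureReal_union_le _ _).trans (add_le_add ?_ (measureReal_union_le _ _))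
        exact (measureReal_union_le _ _).trans
          (add_le_add (measureReal_union_le _ _) (measureReal_union_le _ _))
    _ ≤ _ := by linarith

end Pool.Agent.H989
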