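import Pool.Agent.H989.Spec

/-!
The energy average on the torus.
-/

set_option linter.unusedSectionVars false
set_option linter.unusedVariables false
set_option maxRecDepth 20000

open MeasureTheory ProbabilityTheory Finset
open scoped ComplexConjugate ENNReal

namespace Pool.Agent.H989

lemma ofReal_g {u v a b c : ℝ} (hu : 0 ≤ u) (hv : 0 ≤ v) (ha : 0 ≤ a) (hb : 0 ≤ b)
    (hc : 0 ≤ c) : ENNReal.ofReal (u * a + u * b + v * c)
      = ENNReal.ofReal u * ENNReal.ofReal a + ENNReal.ofReal u * ENNReal.ofReal b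
        + ENNReal.ofReal v * ENNReal.ofReal c := by
  rw [ENNReal.ofReal_add (add_nonneg (mul_nonneg hu ha) (mul_nonneg hu hb)) (mul_nonneg hv hc),
    ENNReal.ofReal_add (mul_nonneg hu ha) (mul_nonneg hu hb), ENNReal.ofReal_mul hu,
    ENNReal.ofReal_mul hu, ENNReal.ofReal_mul hv]

lemma ofReal_four {s a b c e : ℝ} (hs : 0 ≤ s) (ha : 0 ≤ a) (hb : 0 ≤ b) (hc : 0 ≤ c)
    (he : 0 ≤ e) : ENNReal.ofReal s * (ENNReal.ofReal a + ENNReal.ofReal b + ENNReal.ofReal c
      + ENNReal.ofReal e) = ENNReal.ofReal (s * (a + b + c + e)) := by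
  rw [← ENNReal.ofReal_add ha hb, ← ENNReal.ofReal_add (add_nonneg ha hb) hc,
    ← ENNReal.ofReal_add (add_nonneg (add_nonneg ha hb) hc) he, ← ENNReal.ofReal_mul hs]

lemma final_num {A σ q d : ℝ} (hA : 0 ≤ A) (hσ : 0 < σ) (hq : 0 < q) (hd : 0 < d)
    (hs1 : q * (2 * d) ≤ σ) :
    2 / σ * (2 * q * (2 * (A * σ)) + 7 * Real.pi * (2 * d) * q ^ 2
      + 7 * Real.pi * (2 * d) * q ^ 2 + 7 * Real.pi * (2 * d) * q ^ 2) ≤ (8 * A + 132) * q := by
  have hpi := Real.pi_pos
  have : 2 / σ * (2 * q * (2 * (A * σ)) + 7 * Real.pi * (2 * d) * q ^ 2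
      + 7 * Real.pi * (2 * d) * q ^ 2 + 7 * Real.pi * (2 * d) * q ^ 2)
      = 8 * A * q + 42 * Real.pi * q * ((q * (2 * d)) / σ) := by field_simp; ring
  rw [this]
  have h1 : (q * (2 * d)) / σ ≤ 1 := by rw [div_le_one hσ]; exact hs1
  have h2 : 42 * Real.pi ≤ 132 := by
    have := Real.pi_lt_d6
    linarith
  calc 8 * A * q + 42 * Real.pi * q * ((q * (2 * d)) / σ)
      ≤ 8 * A * q + 132 * q * 1 := by gcongr
    _ = _ := by ring

section general
variable {V : Type*} [AddCommGroup V] [Fintype V] [DecidableEq V]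
variable {N Λ : Finset V} {σ : ℝ}

lemma continuous_joint (hN : Steps N) {η : ℝ} (hη : 0 < η) (b : V → ℂ) (y : V) :
    Continuous fun p : ℝ × (V → ℝ) => sol N Λ (pot σ p.2) (en η p.1) b y := by
  refine continuous_sol hN (v := fun p : ℝ × (V → ℝ) => pot σ p.2) (z := fun p => en η p.1)
    ?_ ?_ (fun _ => hη) b y
  · unfold pot; fun_prop
  · exact (continuous_en η).comp continuous_fst

lemma continuous_joint_nsq (hN : Steps N) {η : ℝ} (hη : 0 < η) (b : V → ℂ) :
    Continuous fun p : ℝ × (V → ℝ) => nsq (sol N Λ (pot σ p.2) (en η p.1) b) := by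
  unfold nsq
  exact continuous_finset_sum _ fun x _ => (continuous_joint hN hη b x).norm.pow 2

lemma lint_B (hN : Steps N) {η : ℝ} (hη : 0 < η) (b : V → ℂ) :
    ∫⁻ E, ENNReal.ofReal (∫ ξ, nsq (sol N Λ (pot σ ξ) (en η E) b) ∂(PP V))
      ≤ ENNReal.ofReal (Real.pi / η * nsq b) := by
  have h1 : ∀ E, ENNReal.ofReal (∫ ξ, nsq (sol N Λ (pot σ ξ) (en η E) b) ∂(PP V))
      = ∫⁻ ξ, ENNReal.ofReal (nsq (sol N Λ (pot σ ξ) (en η E) b)) ∂(PP V) := fun E =>
    ofReal_integral_eq_lintegral_ofReal (nice_nsq hN hη b).integrable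
      (Filter.Eventually.of_forall fun ξ => nsq_nonneg _)
  simp only [h1]
  rw [lintegral_lintegral_swap]
  · calc ∫⁻ ξ, (∫⁻ E, ENNReal.ofReal (nsq (sol N Λ (pot σ ξ) (en η E) b))) ∂(PP V)
        ≤ ∫⁻ ξ : V → ℝ, ENNReal.ofReal (Real.pi / η * nsq b) ∂(PP V) :=
          lintegral_mono fun ξ => lint_nsq_le hN hη _ b
      _ = _ := by simp
  · exact (continuous_joint_nsq hN hη b).measurable.ennreal_ofReal.aemeasurable

/-- the second moment of the imaginary part -/
lemma E_im_sq (hN : Steps N) (hσ : 0 < σ) {z : ℂ} (hz : 0 < z.im) :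
    ∫ ξ, (z.im * nsq (sol N ∅ (pot σ ξ) z (Pi.single 0 1))) ^ 2 ∂(PP V)
      ≤ 2 / (σ * z.im) * ∫ ξ, z.im / (z.im + (SE N ∅ (pot σ ξ) z 0).im) ∂(PP V) := by
  have nS : Nice fun ξ : V → ℝ => SE N ∅ (pot σ ξ) z 0 := nice_SE hN hz _
  have iS : ∀ ξ : V → ℝ, 0 ≤ (SE N ∅ (pot σ ξ) z 0).im := fun ξ => SE_im_nonneg hN hz _ _
  have nq : Nice fun ξ : V → ℝ => z.im / (z.im + (SE N ∅ (pot σ ξ) z 0).im) := by
    refine ⟨measurable_const.div (measurable_const.add (Complex.measurable_im.comp nS.1)), 1,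
      fun ξ => ?_⟩
    have := iS ξ
    rw [Real.norm_eq_abs, abs_of_nonneg (by positivity), div_le_one (by positivity)]
    linarith
  have nn : Nice fun ξ : V → ℝ => (z.im * nsq (sol N ∅ (pot σ ξ) z (Pi.single 0 1))) ^ 2 :=
    ((nice_nsq hN hz _).const_mul _).pow 2
  rw [integral_resample 0 nn, ← integral_const_mul]
  refine integral_mono (nice_inner 0 nn).integrable (nq.const_mul _).integrable fun ξ => ?_
  simp only
  have him : 0 < (z + SE N ∅ (pot σ ξ) z 0).im := by rw [Complex.add_im]; linarith [iS ξ]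
  have e1 : ∀ t, (z.im * nsq (sol N ∅ (pot σ (Function.update ξ 0 t)) z (Pi.single 0 1))) ^ 2
      ≤ (‖den σ (z + SE N ∅ (pot σ ξ) z 0) t‖ ^ 2)⁻¹ := by
    intro t
    rw [← nsq_sol_single hN hz, sol_eq_tau hN hz _ (by simp), SE_update hN hz,
      tau_single_self hN hz, Function.update_self, one_mul]
    rw [← sq_abs]
    calc |((den σ (z + SE N ∅ (pot σ ξ) z 0) t)⁻¹).im| ^ 2
        ≤ ‖(den σ (z + SE N ∅ (pot σ ξ) z 0) t)⁻¹‖ ^ 2 := by
          gcongr; exact Complex.abs_im_le_norm _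
      _ = _ := by rw [norm_inv, inv_pow]
  calc ∫ t, (z.im * nsq (sol N ∅ (pot σ (Function.update ξ 0 t)) z (Pi.single 0 1))) ^ 2 ∂γ
      ≤ ∫ t, (‖den σ (z + SE N ∅ (pot σ ξ) z 0) t‖ ^ 2)⁻¹ ∂γ := by
        refine integral_mono_of_nonneg (Filter.Eventually.of_forall fun t => by positivity)
          (integrable_inv_sq hσ him) (Filter.Eventually.of_forall e1)
    _ ≤ 2 / (σ * (z + SE N ∅ (pot σ ξ) z 0).im) := int_inv_sq_le hσ him
    _ = 2 / (σ * z.im) * (z.im / (z.im + (SE N ∅ (pot σ ξ) z 0).im)) := by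
        rw [Complex.add_im] at him ⊢
        field_simp

/-- the sum of the base quantities -/
noncomputable def gN (q K : ℝ) (N : Finset V) (σ : ℝ) (z : ℂ) : ℝ :=
  q ^ 18 * B₁ N σ z + q ^ 18 * B₂ N σ z + q ^ 18 / K * B₃ N σ z

lemma Bok_or {q K : ℝ} (hq : 0 < q) (hK : 0 < K) (N : Finset V) (σ : ℝ) (z : ℂ) :
    Bok q K N σ z ∨ 1 ≤ gN q K N σ z := by
  have h1 := B₁_nonneg (N := N) (σ := σ) (z := z)
  have h2 := B₂_nonneg (N := N) (σ := σ) (z := z)
  have h3 := B₃_nonneg (N := N) (σ := σ) (z := z)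
  by_contra hcon
  push Not at hcon
  obtain ⟨c1, c2⟩ := hcon
  apply c1
  unfold gN at c2
  have q18 : 0 < q ^ 18 := pow_pos hq _
  have p1 : 0 ≤ q ^ 18 * B₁ N σ z := by positivity
  have p2 : 0 ≤ q ^ 18 * B₂ N σ z := by positivity
  have p3 : 0 ≤ q ^ 18 / K * B₃ N σ z := by positivity
  refine ⟨?_, ?_, ?_⟩
  · rw [le_div_iff₀ q18, mul_comm]; linarith
  · rw [le_div_iff₀ q18, mul_comm]; linarith
  · rw [le_div_iff₀ q18]
    have : q ^ 18 / K * B₃ N σ z ≤ 1 := by linarith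
    have e1 : q ^ 18 / K * B₃ N σ z = B₃ N σ z * q ^ 18 / K := by ring
    rw [e1, div_le_iff₀ hK, one_mul] at this
    exact this

lemma gN_nonneg {q K : ℝ} (hq : 0 < q) (hK : 0 < K) (N : Finset V) (σ : ℝ) (z : ℂ) :
    0 ≤ gN q K N σ z := by
  have h1 := B₁_nonneg (N := N) (σ := σ) (z := z)
  have h2 := B₂_nonneg (N := N) (σ := σ) (z := z)
  have h3 := B₃_nonneg (N := N) (σ := σ) (z := z)
  unfold gN
  positivity

lemma continuous_E (hN : Steps N) {η : ℝ} (hη : 0 < η) (b : V → ℂ) :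
    Measurable fun E => ∫ ξ, nsq (sol N Λ (pot σ ξ) (en η E) b) ∂(PP V) :=
  (continuous_joint_nsq hN hη b).measurable.stronglyMeasurable.integral_prod_right'.measurable

end general

section torus
variable {d L : ℕ} [NeZero L] {σ q : ℝ}

lemma lint_gN (hL : 3 ≤ L) (hd : 0 < d) (hq : 0 < q) (D : Finset (Fin d)) :
    ∫⁻ E, ENNReal.ofReal (gN q (2 * d) (ND L D) σ (en (q ^ 16) E))
      ≤ ENNReal.ofReal (7 * Real.pi * (2 * d) * q ^ 2) := by
  have hη : 0 < q ^ 16 := pow_pos hq _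
  have hN := steps_ND (d := d) hL D
  have hd' : (0:ℝ) < 2 * d := by positivity
  have hpi := Real.pi_pos
  have hc := card_ND_le (d := d) hL D
  have hn1 : nsq (bx (ND L D) (0 : Tor d L)) ≤ 2 * d := by rw [nsq_bx]; exact hc
  have hn3 := nsq_nb_bx_le hL D
  have l1 : ∫⁻ E, ENNReal.ofReal (B₁ (ND L D) σ (en (q ^ 16) E))
      ≤ ENNReal.ofReal (Real.pi / q ^ 16 * (2 * d)) := by
    refine (lint_B (Λ := ∅) (σ := σ) hN hη _).trans (ENNReal.ofReal_le_ofReal ?_)
    gcongr
  have l2 : ∫⁻ E, ENNReal.ofReal (B₂ (ND L D) σ (en (q ^ 16) E))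
      ≤ ENNReal.ofReal (Real.pi / q ^ 16 * (2 * d)) := by
    refine (lint_B (Λ := {0}) (σ := σ) hN hη _).trans (ENNReal.ofReal_le_ofReal ?_)
    gcongr
  have l3 : ∫⁻ E, ENNReal.ofReal (B₃ (ND L D) σ (en (q ^ 16) E))
      ≤ ENNReal.ofReal (Real.pi / q ^ 16 * (5 * (2 * d) ^ 2)) := by
    refine (lint_B (Λ := ∅) (σ := σ) hN hη _).trans (ENNReal.ofReal_le_ofReal ?_)
    gcongr
  have m1 : Measurable fun E => B₁ (ND L D) σ (en (q ^ 16) E) := continuous_E (Λ := ∅) hN hη _
  have m2 : Measurable fun E => B₂ (ND L D) σ (en (q ^ 16) E) := continuous_E (Λ := {0}) hN hη _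
  have m3 : Measurable fun E => B₃ (ND L D) σ (en (q ^ 16) E) := continuous_E (Λ := ∅) hN hη _
  have e1 : ∀ E, ENNReal.ofReal (gN q (2 * d) (ND L D) σ (en (q ^ 16) E))
      = ENNReal.ofReal (q ^ 18) * ENNReal.ofReal (B₁ (ND L D) σ (en (q ^ 16) E))
        + ENNReal.ofReal (q ^ 18) * ENNReal.ofReal (B₂ (ND L D) σ (en (q ^ 16) E))
        + ENNReal.ofReal (q ^ 18 / (2 * d)) * ENNReal.ofReal (B₃ (ND L D) σ (en (q ^ 16) E)) := by
    intro E
    have h1 := B₁_nonneg (N := ND L D) (σ := σ) (z := en (q ^ 16) E)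
    have h2 := B₂_nonneg (N := ND L D) (σ := σ) (z := en (q ^ 16) E)
    have h3 := B₃_nonneg (N := ND L D) (σ := σ) (z := en (q ^ 16) E)
    exact ofReal_g (pow_pos hq _).le (div_nonneg (pow_pos hq _).le hd'.le) h1 h2 h3
  simp only [e1]
  rw [lintegral_add_right _ (m3.ennreal_ofReal.const_mul _),
    lintegral_add_right _ (m2.ennreal_ofReal.const_mul _),
    lintegral_const_mul _ m1.ennreal_ofReal, lintegral_const_mul _ m2.ennreal_ofReal,
    lintegral_const_mul _ m3.ennreal_ofReal]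
  calc _ ≤ ENNReal.ofReal (q ^ 18) * ENNReal.ofReal (Real.pi / q ^ 16 * (2 * d))
        + ENNReal.ofReal (q ^ 18) * ENNReal.ofReal (Real.pi / q ^ 16 * (2 * d))
        + ENNReal.ofReal (q ^ 18 / (2 * d))
          * ENNReal.ofReal (Real.pi / q ^ 16 * (5 * (2 * d) ^ 2)) := by gcongr
    _ = _ := by
      rw [← ENNReal.ofReal_mul (by positivity), ← ENNReal.ofReal_mul (by positivity),
        ← ENNReal.ofReal_add (by positivity) (by positivity),
        ← ENNReal.ofReal_add (by positivity) (by positivity)]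
      congr 1
      field_simp
      ring

lemma exists_perm {d : ℕ} {i₀ j₀ i j : Fin d} (h0 : i₀ ≠ j₀) (h : i ≠ j) :
    ∃ π : Equiv.Perm (Fin d), π i₀ = i ∧ π j₀ = j := by
  refine ⟨(Equiv.swap i₀ i).trans (Equiv.swap (Equiv.swap i₀ i j₀) j), ?_, ?_⟩
  · rw [Equiv.trans_apply, Equiv.swap_apply_left]
    refine Equiv.swap_apply_of_ne_of_ne ?_ h
    intro hh
    have : Equiv.swap i₀ i i₀ = Equiv.swap i₀ i j₀ := by rw [Equiv.swap_apply_left]; exact hh
    exact h0 ((Equiv.swap i₀ i).injective this)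
  · rw [Equiv.trans_apply, Equiv.swap_apply_left]

lemma Bok_perm {K : ℝ} {z : ℂ} (hL : 3 ≤ L) (hz : 0 < z.im) (π : Equiv.Perm (Fin d))
    {D D' : Finset (Fin d)} (hD : ∀ i, i ∈ D' ↔ π.symm i ∈ D) (h : Bok q K (ND L D) σ z) :
    Bok q K (ND L D') σ z :=
  ⟨by rw [← B₁_perm hL hz π hD]; exact h.b1, by rw [← B₂_perm hL hz π hD]; exact h.b2,
    by rw [← B₃_perm hL hz π hD]; exact h.b3⟩

/-- the pointwise bound in the energy -/
lemma F_le {A : ℝ} {z : ℂ} (hL : 3 ≤ L) (hd : 2 ≤ d) (par : Par A σ q (2 * d) z)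
    {i₀ j₀ : Fin d} (h0 : i₀ ≠ j₀)
    {m : ℕ} (hm1 : (2:ℝ) ^ m ≤ 1 / q ^ 2)
    (hm : 32 ≤ m * (d * gaussianPDFReal 0 1 (A + 2) / (2 * σ))) :
    ∫ ξ, z.im / (z.im + (S₀ σ z ξ).im) ∂(PP (Tor d L))
      ≤ 2 * q + gN q (2 * d) (ND L (univ : Finset (Fin d))) σ z
        + gN q (2 * d) (ND L (univ.erase i₀)) σ z
        + gN q (2 * d) (ND L ((univ.erase i₀).erase j₀)) σ z := by
  have hq := par.q0
  have hz := par.z0
  have hK := par.K0
  have g0 := gN_nonneg hq hK (ND L (univ : Finset (Fin d))) σ z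
  have g1 := gN_nonneg hq hK (ND L (univ.erase i₀)) σ z
  have g2 := gN_nonneg hq hK (ND L ((univ.erase i₀).erase j₀)) σ z
  have le1 : ∫ ξ, z.im / (z.im + (S₀ σ z ξ).im) ∂(PP (Tor d L)) ≤ 1 := by
    have iS : ∀ ξ : Tor d L → ℝ, 0 ≤ (S₀ σ z ξ).im := fun ξ =>
      SE_im_nonneg (steps_ND hL _) hz _ _
    calc ∫ ξ, z.im / (z.im + (S₀ σ z ξ).im) ∂(PP (Tor d L))
        ≤ ∫ ξ : Tor d L → ℝ, (1:ℝ) ∂(PP (Tor d L)) := by
          refine integral_mono_of_nonneg (Filter.Eventually.of_forall fun ξ => ?_)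
            (integrable_const _) (Filter.Eventually.of_forall fun ξ => ?_)
          · have := iS ξ
            simp only [Pi.zero_apply]; positivity
          · have := iS ξ
            simp only
            rw [div_le_one (by positivity)]; linarith
      _ = 1 := by simp
  rcases Bok_or hq hK (ND L (univ : Finset (Fin d))) σ z with a0 | a0
  · rcases Bok_or hq hK (ND L (univ.erase i₀)) σ z with a1 | a1
    · rcases Bok_or hq hK (ND L ((univ.erase i₀).erase j₀)) σ z with a2 | a2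
      · have := fixed_q hL (by omega) par a0 (fun i => by
            refine Bok_perm hL hz (Equiv.swap i₀ i) (fun k => ?_) a1
            simp only [Finset.mem_erase, mem_univ, and_true, Equiv.symm_swap]
            rw [not_iff_not]
            constructor
            · rintro rfl; exact Equiv.swap_apply_right _ _
            · intro hh
              have : Equiv.swap i₀ i k = Equiv.swap i₀ i i := by
                rw [hh, Equiv.swap_apply_right]
              exact (Equiv.swap i₀ i).injective this)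
          (fun i j hij => by
            obtain ⟨π, h1, h2⟩ := exists_perm h0 hij
            refine Bok_perm hL hz π (fun k => ?_) a2
            simp only [Finset.mem_erase, mem_univ, and_true]
            have e1 : k = j ↔ π.symm k = j₀ := by rw [Equiv.symm_apply_eq, h2]
            have e2 : k = i ↔ π.symm k = i₀ := by rw [Equiv.symm_apply_eq, h1]
            rw [Ne, Ne, Ne, Ne, e1, e2]) hm1 hm
        linarith
      · linarith
    · linarith
  · linarith

/-- the energy average on the torus -/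
theorem torus_bound {A : ℝ} (hL : 3 ≤ L) (hd : 2 ≤ d) (hA : 0 ≤ A) (hσ : 0 < σ)
    (par : ∀ E : ℝ, |E| ≤ A * σ → Par A σ q (2 * d) (en (q ^ 16) E))
    {m : ℕ} (hm1 : (2:ℝ) ^ m ≤ 1 / q ^ 2)
    (hm : 32 ≤ m * (d * gaussianPDFReal 0 1 (A + 2) / (2 * σ))) :
    ∫⁻ ξ, (∫⁻ E in Set.Icc (-(A * σ)) (A * σ), ENNReal.ofReal (q ^ 16 * (q ^ 16
        * nsq (sol (ND L (univ : Finset (Fin d))) ∅ (pot σ ξ) (en (q ^ 16) E)
          (Pi.single 0 1))) ^ 2)) ∂(PP (Tor d L))
      ≤ ENNReal.ofReal ((8 * A + 132) * q) := by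
  have par0 := par 0 (by rw [abs_zero]; positivity)
  have hq := par0.q0
  have hη : 0 < q ^ 16 := pow_pos hq _
  set N := ND L (univ : Finset (Fin d)) with hN'
  have hN : Steps N := steps_ND hL _
  set i₀ : Fin d := ⟨0, by omega⟩ with hi₀
  set j₀ : Fin d := ⟨1, by omega⟩ with hj₀
  have h0 : i₀ ≠ j₀ := by
    intro h
    have := congrArg Fin.val h
    simp [hi₀, hj₀] at this
  rw [← lintegral_lintegral_swap]
  · have b1 : ∀ E ∈ Set.Icc (-(A * σ)) (A * σ),
        ∫⁻ ξ, ENNReal.ofReal (q ^ 16 * (q ^ 16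
          * nsq (sol N ∅ (pot σ ξ) (en (q ^ 16) E) (Pi.single 0 1))) ^ 2) ∂(PP (Tor d L))
        ≤ ENNReal.ofReal (2 / σ) * (ENNReal.ofReal (2 * q)
          + ENNReal.ofReal (gN q (2 * d) (ND L (univ : Finset (Fin d))) σ (en (q ^ 16) E))
          + ENNReal.ofReal (gN q (2 * d) (ND L (univ.erase i₀)) σ (en (q ^ 16) E))
          + ENNReal.ofReal (gN q (2 * d) (ND L ((univ.erase i₀).erase j₀)) σ
            (en (q ^ 16) E))) := by
      intro E hE
      have pE := par E (abs_le.2 hE)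
      have hz := pE.z0
      have hK := pE.K0
      have g0 := gN_nonneg hq hK (ND L (univ : Finset (Fin d))) σ (en (q ^ 16) E)
      have g1 := gN_nonneg hq hK (ND L (univ.erase i₀)) σ (en (q ^ 16) E)
      have g2 := gN_nonneg hq hK (ND L ((univ.erase i₀).erase j₀)) σ (en (q ^ 16) E)
      have nn : Nice fun ξ : Tor d L → ℝ => q ^ 16 * (q ^ 16
          * nsq (sol N ∅ (pot σ ξ) (en (q ^ 16) E) (Pi.single 0 1))) ^ 2 :=
        (((nice_nsq hN hz _).const_mul _).pow 2).const_mul _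
      rw [← ofReal_integral_eq_lintegral_ofReal nn.integrable
        (Filter.Eventually.of_forall fun ξ => mul_nonneg hη.le (sq_nonneg _)),
        ofReal_four (div_nonneg zero_le_two hσ.le) (mul_nonneg zero_le_two hq.le) g0 g1 g2]
      apply ENNReal.ofReal_le_ofReal
      rw [integral_const_mul]
      have k1 := E_im_sq hN hσ hz
      have k2 := F_le hL hd pE h0 hm1 hm
      rw [en_im] at k1
      calc q ^ 16 * ∫ ξ, (q ^ 16
            * nsq (sol N ∅ (pot σ ξ) (en (q ^ 16) E) (Pi.single 0 1))) ^ 2 ∂(PP (Tor d L))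
          ≤ q ^ 16 * (2 / (σ * q ^ 16) * ∫ ξ, q ^ 16 / (q ^ 16
            + (SE N ∅ (pot σ ξ) (en (q ^ 16) E) 0).im) ∂(PP (Tor d L))) :=
            mul_le_mul_of_nonneg_left k1 hη.le
        _ = 2 / σ * ∫ ξ, q ^ 16 / (q ^ 16
            + (SE N ∅ (pot σ ξ) (en (q ^ 16) E) 0).im) ∂(PP (Tor d L)) := by field_simp
        _ ≤ 2 / σ * _ := mul_le_mul_of_nonneg_left k2 (div_nonneg zero_le_two hσ.le)
    calc ∫⁻ E in Set.Icc (-(A * σ)) (A * σ), (∫⁻ ξ, ENNReal.ofReal (q ^ 16 * (q ^ 16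
          * nsq (sol N ∅ (pot σ ξ) (en (q ^ 16) E) (Pi.single 0 1))) ^ 2) ∂(PP (Tor d L)))
        ≤ ∫⁻ E in Set.Icc (-(A * σ)) (A * σ), ENNReal.ofReal (2 / σ) * (ENNReal.ofReal (2 * q)
          + ENNReal.ofReal (gN q (2 * d) (ND L (univ : Finset (Fin d))) σ (en (q ^ 16) E))
          + ENNReal.ofReal (gN q (2 * d) (ND L (univ.erase i₀)) σ (en (q ^ 16) E))
          + ENNReal.ofReal (gN q (2 * d) (ND L ((univ.erase i₀).erase j₀)) σ
            (en (q ^ 16) E))) := setLIntegral_mono' measurableSet_Icc b1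
      _ = ENNReal.ofReal (2 / σ) * (∫⁻ E in Set.Icc (-(A * σ)) (A * σ), (ENNReal.ofReal (2 * q)
          + ENNReal.ofReal (gN q (2 * d) (ND L (univ : Finset (Fin d))) σ (en (q ^ 16) E))
          + ENNReal.ofReal (gN q (2 * d) (ND L (univ.erase i₀)) σ (en (q ^ 16) E))
          + ENNReal.ofReal (gN q (2 * d) (ND L ((univ.erase i₀).erase j₀)) σ
            (en (q ^ 16) E)))) := lintegral_const_mul' _ _ ENNReal.ofReal_ne_top
      _ = ENNReal.ofReal (2 / σ) * ((∫⁻ E in Set.Icc (-(A * σ)) (A * σ), ENNReal.ofReal (2 * q))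
          + (∫⁻ E in Set.Icc (-(A * σ)) (A * σ),
            ENNReal.ofReal (gN q (2 * d) (ND L (univ : Finset (Fin d))) σ (en (q ^ 16) E)))
          + (∫⁻ E in Set.Icc (-(A * σ)) (A * σ),
            ENNReal.ofReal (gN q (2 * d) (ND L (univ.erase i₀)) σ (en (q ^ 16) E)))
          + (∫⁻ E in Set.Icc (-(A * σ)) (A * σ),
            ENNReal.ofReal (gN q (2 * d) (ND L ((univ.erase i₀).erase j₀)) σ
            (en (q ^ 16) E)))) := by
          have mg : ∀ D : Finset (Fin d), Measurable fun E =>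
              ENNReal.ofReal (gN q (2 * d) (ND L D) σ (en (q ^ 16) E)) := by
            intro D
            have hND := steps_ND (d := d) hL D
            have m1 : Measurable fun E => B₁ (ND L D) σ (en (q ^ 16) E) :=
              continuous_E (Λ := ∅) hND hη _
            have m2 : Measurable fun E => B₂ (ND L D) σ (en (q ^ 16) E) :=
              continuous_E (Λ := {0}) hND hη _
            have m3 : Measurable fun E => B₃ (ND L D) σ (en (q ^ 16) E) :=
              continuous_E (Λ := ∅) hND hη _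
            unfold gN
            exact (((m1.const_mul _).add (m2.const_mul _)).add (m3.const_mul _)).ennreal_ofReal
          rw [lintegral_add_right _ (mg _), lintegral_add_right _ (mg _),
            lintegral_add_right _ (mg _)]
      _ ≤ ENNReal.ofReal (2 / σ) * (ENNReal.ofReal (2 * q * (2 * (A * σ)))
          + ENNReal.ofReal (7 * Real.pi * (2 * d) * q ^ 2)
          + ENNReal.ofReal (7 * Real.pi * (2 * d) * q ^ 2)
          + ENNReal.ofReal (7 * Real.pi * (2 * d) * q ^ 2)) := by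
          have lg : ∀ D : Finset (Fin d), ∫⁻ E in Set.Icc (-(A * σ)) (A * σ),
              ENNReal.ofReal (gN q (2 * d) (ND L D) σ (en (q ^ 16) E))
              ≤ ENNReal.ofReal (7 * Real.pi * (2 * d) * q ^ 2) := fun D =>
            (setLIntegral_le_lintegral _ _).trans (lint_gN hL (by omega) hq D)
          have l0 : ∫⁻ E in Set.Icc (-(A * σ)) (A * σ), ENNReal.ofReal (2 * q)
              = ENNReal.ofReal (2 * q * (2 * (A * σ))) := by
            rw [setLIntegral_const, Real.volume_Icc,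
              ← ENNReal.ofReal_mul (mul_nonneg zero_le_two hq.le)]
            congr 1; ring
          rw [l0]
          exact mul_le_mul_right (add_le_add (add_le_add (add_le_add le_rfl (lg _)) (lg _))
            (lg _)) _
      _ ≤ ENNReal.ofReal ((8 * A + 132) * q) := by
          have hd' : (0:ℝ) < d := by
            have : 0 < d := by omega
            exact_mod_cast this
          have hpi := Real.pi_pos
          have g : 0 ≤ 7 * Real.pi * (2 * d) * q ^ 2 := by positivity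
          rw [ofReal_four (div_nonneg zero_le_two hσ.le) (by positivity) g g g]
          exact ENNReal.ofReal_le_ofReal (final_num hA hσ hq hd' par0.s1)
  · refine Measurable.aemeasurable ?_
    have := (continuous_joint_nsq (Λ := ∅) (σ := σ) hN hη (Pi.single 0 1)).measurable
    exact (((this.const_mul _).pow_const 2).const_mul _).ennreal_ofReal

end torus

end Pool.Agent.H989
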