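import Pool.Agent.H989.Prob

/-!
Estimates at a fixed energy.
-/

set_option linter.unusedSectionVars false
set_option linter.unusedVariables false

open MeasureTheory ProbabilityTheory Finset

namespace Pool.Agent.H989

variable {V : Type*} [AddCommGroup V] [Fintype V] [DecidableEq V]

/-- the potential `σ ξ` -/
def pot (σ : ℝ) (ξ : V → ℝ) : V → ℝ := fun x => σ * ξ x

variable {N Λ : Finset V} {σ : ℝ} {z : ℂ}

lemma nice_sol (hN : Steps N) (hz : 0 < z.im) (b : V → ℂ) (y : V) :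
    Nice fun ξ : V → ℝ => sol N Λ (pot σ ξ) z b y := by
  refine ⟨?_, nrm b / z.im, fun ξ => (norm_apply_le _ _).trans (nrm_sol_le hN hz b)⟩
  refine (continuous_sol hN (v := fun ξ : V → ℝ => pot σ ξ) (z := fun _ => z) ?_ continuous_const
    (fun _ => hz) b y).measurable
  unfold pot
  fun_prop

lemma nice_nb (hN : Steps N) (hz : 0 < z.im) (N' : Finset V) (b : V → ℂ) (y : V) :
    Nice fun ξ : V → ℝ => nb N' (sol N Λ (pot σ ξ) z b) y := by
  unfold nb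
  exact Nice.csum _ fun n _ => nice_sol hN hz b (y + n)

lemma nice_nsq (hN : Steps N) (hz : 0 < z.im) (b : V → ℂ) :
    Nice fun ξ : V → ℝ => nsq (sol N Λ (pot σ ξ) z b) := by
  unfold nsq
  exact Nice.sum _ fun x _ => ((nice_sol hN hz b x).norm).pow 2

lemma nice_SE (hN : Steps N) (hz : 0 < z.im) (y : V) :
    Nice fun ξ : V → ℝ => SE N Λ (pot σ ξ) z y := nice_nb hN hz N _ _

lemma sol_update (hN : Steps N) (hz : 0 < z.im) {x : V} (hx : x ∈ Λ) (b : V → ℂ) (ξ : V → ℝ)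
    (t : ℝ) : sol N Λ (pot σ (Function.update ξ x t)) z b = sol N Λ (pot σ ξ) z b := by
  refine sol_congr hN hz b fun y hy => ?_
  have hyx : y ≠ x := fun e => hy (by rw [e]; exact hx)
  simp [pot, Function.update_of_ne hyx]

lemma SE_update (hN : Steps N) (hz : 0 < z.im) (x : V) (ξ : V → ℝ) (t : ℝ) :
    SE N Λ (pot σ (Function.update ξ x t)) z x = SE N Λ (pot σ ξ) z x := by
  unfold SE
  rw [sol_update hN hz (by simp)]

/-- the numerator of the solution at `x` -/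
noncomputable def tau (N Λ : Finset V) (v : V → ℝ) (z : ℂ) (b : V → ℂ) (x : V) : ℂ :=
  b x - nb N (sol N (insert x Λ) v z b) x

lemma nice_tau (hN : Steps N) (hz : 0 < z.im) (b : V → ℂ) (y : V) :
    Nice fun ξ : V → ℝ => tau N Λ (pot σ ξ) z b y :=
  (Nice.cconst _).csub (nice_nb hN hz N _ _)

lemma tau_update (hN : Steps N) (hz : 0 < z.im) (x : V) (b : V → ℂ) (ξ : V → ℝ) (t : ℝ) :
    tau N Λ (pot σ (Function.update ξ x t)) z b x = tau N Λ (pot σ ξ) z b x := by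
  unfold tau
  rw [sol_update hN hz (by simp)]

lemma sol_eq_tau (hN : Steps N) (hz : 0 < z.im) (b : V → ℂ) {x : V} (hx : x ∉ Λ) (ξ : V → ℝ) :
    sol N Λ (pot σ ξ) z b x
      = tau N Λ (pot σ ξ) z b x * (den σ (z + SE N Λ (pot σ ξ) z x) (ξ x))⁻¹ := by
  rw [sol_apply hN hz b hx, div_eq_mul_inv]
  congr 2
  unfold den pot
  ring

lemma norm_sol_eq (hN : Steps N) (hz : 0 < z.im) (b : V → ℂ) {x : V} (hx : x ∉ Λ) (ξ : V → ℝ) :
    ‖sol N Λ (pot σ ξ) z b x‖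
      = ‖den σ (z + SE N Λ (pot σ ξ) z x) (ξ x)‖⁻¹ * ‖tau N Λ (pot σ ξ) z b x‖ := by
  rw [sol_eq_tau hN hz b hx, norm_mul, norm_inv, mul_comm]

lemma residual_eq (hN : Steps N) (hz : 0 < z.im) (b : V → ℂ) {x : V} (hx : x ∉ Λ) (ξ : V → ℝ) :
    b x - nb N (sol N Λ (pot σ ξ) z b) x = den σ z (ξ x) * sol N Λ (pot σ ξ) z b x := by
  have h := (isSol_sol (v := pot σ ξ) (Λ := Λ) hN hz b).2 x hx
  rw [← h]
  unfold den pot
  push_cast
  ring

lemma SE_im_nonneg (hN : Steps N) (hz : 0 < z.im) (v : V → ℝ) (x : V) :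
    0 ≤ (SE N Λ v z x).im := by
  rw [SE_im hN hz]; exact mul_nonneg hz.le (nsq_nonneg _)

lemma nsq_bx (N : Finset V) (x : V) : nsq (bx N x) = N.card := by
  unfold nsq bx
  have : ∀ w, ‖(if x - w ∈ N then (1:ℂ) else 0)‖ ^ 2 = if x - w ∈ N then (1:ℝ) else 0 := by
    intro w; split_ifs <;> simp
  simp only [this]
  rw [Finset.sum_boole]
  congr 1
  refine Finset.card_nbij' (fun w => x - w) (fun n => x - n) ?_ ?_ ?_ ?_
  · intro w hw; simpa using hw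
  · intro n hn; simpa using hn
  · intro w _; simp
  · intro n _; simp

lemma nrm_bx (N : Finset V) (x : V) : nrm (bx N x) = √(N.card : ℝ) := by
  rw [nrm_eq_sqrt, nsq_bx]

lemma norm_nb_le (hN : Steps N) (f : V → ℂ) (x : V) : ‖nb N f x‖ ≤ √(N.card : ℝ) * nrm f := by
  rw [nb_eq_dot _ _ hN]
  refine (norm_dot_le _ _).trans ?_
  rw [nrm_bx]

lemma norm_SE_le (hN : Steps N) (hz : 0 < z.im) (v : V → ℝ) (x : V) :
    ‖SE N Λ v z x‖ ≤ N.card / z.im := by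
  unfold SE
  refine (norm_nb_le hN _ _).trans ?_
  calc √(N.card : ℝ) * nrm (sol N (insert x Λ) v z (bx N x))
      ≤ √(N.card : ℝ) * (nrm (bx N x) / z.im) := by
        gcongr; exact nrm_sol_le hN hz _
    _ = N.card / z.im := by
        rw [nrm_bx, ← mul_div_assoc, Real.mul_self_sqrt (by positivity)]

/-- first moment bound -/
lemma first_moment (hN : Steps N) (hσ : 0 < σ) (hz : 0 < z.im) {n : ℕ}
    (hn : σ ≤ z.im * 2 ^ (n + 1)) (b : V → ℂ) {x : V} (hx : x ∉ Λ) {Φ : (V → ℝ) → ℝ}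
    (hΦ : Nice Φ) (h0 : ∀ ξ, 0 ≤ Φ ξ) (hu : ∀ ξ t, Φ (Function.update ξ x t) = Φ ξ) :
    ∫ ξ, ‖sol N Λ (pot σ ξ) z b x‖ * Φ ξ ∂(PP V)
      ≤ m₁ σ n * ∫ ξ, ‖tau N Λ (pot σ ξ) z b x‖ * Φ ξ ∂(PP V) := by
  refine E_le_of_resample x (k := fun ξ t => ‖den σ (z + SE N Λ (pot σ ξ) z x) t‖⁻¹)
    ((nice_sol hN hz b x).norm.mul hΦ) ((nice_tau hN hz b x).norm.mul hΦ)
    (fun ξ => mul_nonneg (norm_nonneg _) (h0 ξ)) (fun ξ t => ?_) (fun ξ => ?_)
  · rw [norm_sol_eq hN hz b hx, SE_update hN hz, tau_update hN hz, hu, Function.update_self]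
    ring
  · refine int_inv_le hσ hz hn ?_
    rw [Complex.add_im]
    linarith [SE_im_nonneg (Λ := Λ) hN hz (pot σ ξ) x]

/-- second moment bound -/
lemma second_moment (hN : Steps N) (hσ : 0 < σ) (hz : 0 < z.im) (b : V → ℂ) {x : V}
    (hx : x ∉ Λ) {Φ : (V → ℝ) → ℝ}
    (hΦ : Nice Φ) (h0 : ∀ ξ, 0 ≤ Φ ξ) (hu : ∀ ξ t, Φ (Function.update ξ x t) = Φ ξ) :
    ∫ ξ, ‖sol N Λ (pot σ ξ) z b x‖ ^ 2 * Φ ξ ∂(PP V)
      ≤ 2 / (σ * z.im) * ∫ ξ, ‖tau N Λ (pot σ ξ) z b x‖ ^ 2 * Φ ξ ∂(PP V) := by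
  refine E_le_of_resample x (k := fun ξ t => (‖den σ (z + SE N Λ (pot σ ξ) z x) t‖ ^ 2)⁻¹)
    (((nice_sol hN hz b x).norm.pow 2).mul hΦ) (((nice_tau hN hz b x).norm.pow 2).mul hΦ)
    (fun ξ => mul_nonneg (by positivity) (h0 ξ)) (fun ξ t => ?_) (fun ξ => ?_)
  · rw [norm_sol_eq hN hz b hx, SE_update hN hz, tau_update hN hz, hu, Function.update_self]
    rw [mul_pow, inv_pow]; ring
  · have him : 0 < (z + SE N Λ (pot σ ξ) z x).im := by
      rw [Complex.add_im]; linarith [SE_im_nonneg (Λ := Λ) hN hz (pot σ ξ) x]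
    refine (int_inv_sq_le hσ him).trans ?_
    gcongr
    rw [Complex.add_im]
    linarith [SE_im_nonneg (Λ := Λ) hN hz (pot σ ξ) x]

/-- the constant in the lower bounds -/
noncomputable def c₀ (A σ : ℝ) (z : ℂ) (B : ℝ) : ℝ :=
  gaussianPDFReal 0 1 (A + 2) * (σ / ((A + 2) * σ + ‖z‖ + B / z.im)) ^ 2

lemma c₀_pos {A B : ℝ} (hA : 0 ≤ A) (hσ : 0 < σ) (hz : 0 < z.im) (hB : 0 ≤ B) :
    0 < c₀ A σ z B := by
  unfold c₀
  have := pdf_pos (A + 2)
  have := norm_nonneg z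
  positivity

/-- lower bound for the residual -/
lemma residual_ge {A B : ℝ} (hN : Steps N) (hσ : 0 < σ) (hz : 0 < z.im) (hA : 0 ≤ A)
    (hre : |z.re| ≤ A * σ) (hB : (N.card : ℝ) ≤ B)
    (b : V → ℂ) {x : V} (hx : x ∉ Λ) :
    c₀ A σ z B * ∫ ξ, ‖tau N Λ (pot σ ξ) z b x‖ ^ 2 ∂(PP V)
      ≤ ∫ ξ, ‖b x - nb N (sol N Λ (pot σ ξ) z b) x‖ ^ 2 ∂(PP V) := by
  refine E_ge_of_resample x
    (k := fun ξ t => ‖den σ z t‖ ^ 2 * (‖den σ (z + SE N Λ (pot σ ξ) z x) t‖ ^ 2)⁻¹)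
    (((Nice.cconst _).csub (nice_nb hN hz N _ _)).norm.pow 2)
    ((nice_tau hN hz b x).norm.pow 2) (fun ξ => by positivity) (fun ξ t => ?_) (fun ξ => ?_)
  · rw [residual_eq hN hz b hx, norm_mul, norm_sol_eq hN hz b hx, SE_update hN hz,
      tau_update hN hz, Function.update_self, mul_pow, mul_pow, inv_pow]
    ring
  · refine ratio_ge hσ hA hz (SE_im_nonneg hN hz _ _) hre ?_
    refine (norm_SE_le hN hz _ _).trans ?_
    gcongr

lemma tau_single_self (hN : Steps N) (hz : 0 < z.im) (v : V → ℝ) {x : V} :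
    tau N Λ v z (Pi.single x 1) x = 1 := by
  unfold tau
  have h0 : sol N (insert x Λ) v z (Pi.single x 1) = 0 := by
    refine sol_eq hN hz ⟨fun _ _ => rfl, fun y hy => ?_⟩
    have hyx : y ≠ x := fun e => hy (by simp [e])
    rw [Pi.single_apply, if_neg hyx]
    simp [nb]
  rw [h0]; simp [nb]

lemma dot_single_sol (hN : Steps N) (hz : 0 < z.im) (v : V → ℝ) (x y : V) :
    sol N Λ v z (Pi.single x 1) y = sol N Λ v z (Pi.single y 1) x := by
  have := IsSol.dot_comm hN (isSol_sol (v := v) (Λ := Λ) hN hz (Pi.single x 1))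
    (isSol_sol (v := v) (Λ := Λ) hN hz (Pi.single y 1))
  rw [dot_single_left, dot_single_left] at this
  exact this.symm

lemma nsq_sol_single (hN : Steps N) (hz : 0 < z.im) (v : V → ℝ) (x : V) :
    (sol N Λ v z (Pi.single x 1) x).im = z.im * nsq (sol N Λ v z (Pi.single x 1)) := by
  have h := isSol_sol (v := v) (Λ := Λ) hN hz (Pi.single x 1)
  have hb : (Pi.single x (1:ℂ) : V → ℂ) = fun y => (((Pi.single x (1:ℝ) : V → ℝ) y : ℝ) : ℂ) := by
    funext y; simp only [Pi.single_apply]; split_ifs <;> simp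
  rw [hb] at h
  have h2 := h.im_dot hN
  rw [← hb, dot_single_left] at h2
  exact h2

/-- the mean square norm of a column of the resolvent -/
lemma column_le (hN : Steps N) (hσ : 0 < σ) (hz : 0 < z.im) {x : V} (hx : x ∉ Λ)
    {Φ : (V → ℝ) → ℝ}
    (hΦ : Nice Φ) (h0 : ∀ ξ, 0 ≤ Φ ξ) (hu : ∀ ξ t, Φ (Function.update ξ x t) = Φ ξ) :
    ∫ ξ, nsq (sol N Λ (pot σ ξ) z (Pi.single x 1)) * Φ ξ ∂(PP V)
      ≤ 2 / (σ * z.im) * ∫ ξ, Φ ξ ∂(PP V) := by
  refine E_le_of_resample x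
    (k := fun ξ t => (den σ (z + SE N Λ (pot σ ξ) z x) t)⁻¹.im / z.im)
    ((nice_nsq hN hz _).mul hΦ) hΦ h0 (fun ξ t => ?_) (fun ξ => ?_)
  · rw [hu]
    congr 1
    rw [eq_div_iff hz.ne', mul_comm, ← nsq_sol_single hN hz, sol_eq_tau hN hz _ hx,
      SE_update hN hz, tau_single_self hN hz, Function.update_self, one_mul]
  · have him : 0 < (z + SE N Λ (pot σ ξ) z x).im := by
      rw [Complex.add_im]; linarith [SE_im_nonneg (Λ := Λ) hN hz (pot σ ξ) x]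
    rw [integral_div]
    calc (∫ t, (den σ (z + SE N Λ (pot σ ξ) z x) t)⁻¹.im ∂γ) / z.im ≤ (2 / σ) / z.im := by
          gcongr; exact int_im_le hσ him
      _ = _ := by field_simp

lemma E_sq_le {f : (V → ℝ) → ℝ} (hf : Nice f) :
    (∫ ξ, f ξ ∂(PP V)) ^ 2 ≤ ∫ ξ, f ξ ^ 2 ∂(PP V) := by
  set m := ∫ ξ, f ξ ∂(PP V) with hm
  have h : 0 ≤ ∫ ξ, (f ξ - m) ^ 2 ∂(PP V) := integral_nonneg fun _ => sq_nonneg _
  have h2 : ∫ ξ, (f ξ - m) ^ 2 ∂(PP V) = ∫ ξ, f ξ ^ 2 ∂(PP V) - m ^ 2 := by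
    have : ∀ ξ, (f ξ - m) ^ 2 = f ξ ^ 2 - (2 * m) * f ξ + m ^ 2 := fun ξ => by ring
    simp only [this]
    rw [integral_add (((hf.pow 2).sub (hf.const_mul _)).integrable) (integrable_const _),
      integral_sub (hf.pow 2).integrable (hf.const_mul _).integrable, integral_const_mul,
      integral_const, ← hm]
    simp; ring
  linarith

end Pool.Agent.H989
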