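import Pool.Agent.H989.Est

/-!
Translation invariance, and the mass off a layer.
-/

set_option linter.unusedSectionVars false
set_option linter.unusedVariables false

open MeasureTheory ProbabilityTheory Finset

namespace Pool.Agent.H989

variable {V : Type*} [AddCommGroup V] [Fintype V] [DecidableEq V]
variable {N Λ : Finset V} {σ : ℝ} {z : ℂ}

/-- translation covariance -/
lemma sol_shift (hN : Steps N) (hz : 0 < z.im) (a : V) (b : V → ℂ) (ξ : V → ℝ) {Λ' : Finset V}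
    (hΛ : ∀ x, x ∈ Λ' ↔ x + a ∈ Λ) (y : V) :
    sol N Λ' (pot σ fun x => ξ (x + a)) z (fun x => b (x + a)) y
      = sol N Λ (pot σ ξ) z b (y + a) := by
  have h := sol_comp (v := pot σ ξ) (Λ := Λ) (Λ' := Λ') hN hN hz b (Equiv.addRight a)
    (fun f x => nb_comp_add N a f x) (fun x => by simpa using hΛ x) y
  exact h

/-- invariance of expectations -/
lemma E_shift (a : V) {F : (V → ℝ) → ℝ} (hF : Nice F) :
    ∫ ξ, F (fun x => ξ (x + a)) ∂(PP V) = ∫ ξ, F ξ ∂(PP V) := by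
  simpa using integral_comp_equiv (Equiv.addRight a) hF

lemma nb_single_sol (hN : Steps N) (hz : 0 < z.im) (v : V → ℝ) (x y : V) :
    nb N (sol N Λ v z (Pi.single x 1)) y = sol N Λ v z (bx N y) x := by
  rw [nb_eq_dot _ _ hN]
  have := IsSol.dot_comm hN (isSol_sol (v := v) (Λ := Λ) hN hz (bx N y))
    (isSol_sol (v := v) (Λ := Λ) hN hz (Pi.single x 1))
  rw [dot_single_left] at this
  exact this

lemma sol_shift_bx (hN : Steps N) (hz : 0 < z.im) (a c : V) (ξ : V → ℝ) {Λ' : Finset V}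
    (hΛ : ∀ x, x ∈ Λ' ↔ x + a ∈ Λ) (y : V) :
    sol N Λ' (pot σ fun x => ξ (x + a)) z (bx N (c - a)) y
      = sol N Λ (pot σ ξ) z (bx N c) (y + a) := by
  rw [← sol_shift hN hz a (bx N c) ξ hΛ y]
  congr 1
  funext x
  rw [bx_add]

lemma sol_shift_single (hN : Steps N) (hz : 0 < z.im) (a c : V) (ξ : V → ℝ) {Λ' : Finset V}
    (hΛ : ∀ x, x ∈ Λ' ↔ x + a ∈ Λ) (y : V) :
    sol N Λ' (pot σ fun x => ξ (x + a)) z (Pi.single (c - a) 1) y
      = sol N Λ (pot σ ξ) z (Pi.single c 1) (y + a) := by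
  rw [← sol_shift hN hz a (Pi.single c 1) ξ hΛ y]
  congr 1
  funext x
  simp only [Pi.single_apply]
  congr 1
  rw [eq_iff_iff]
  constructor
  · intro h; rw [h]; abel
  · intro h; rw [← h]; abel

/-- base quantities -/
noncomputable def B₁ (N : Finset V) (σ : ℝ) (z : ℂ) : ℝ :=
  ∫ ξ, nsq (sol N ∅ (pot σ ξ) z (bx N 0)) ∂(PP V)

noncomputable def B₂ (N : Finset V) (σ : ℝ) (z : ℂ) : ℝ :=
  ∫ ξ, nsq (sol N {0} (pot σ ξ) z (bx N 0)) ∂(PP V)

noncomputable def B₃ (N : Finset V) (σ : ℝ) (z : ℂ) : ℝ :=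
  ∫ ξ, nsq (sol N ∅ (pot σ ξ) z (nb N (bx N 0))) ∂(PP V)

lemma B₁_nonneg : 0 ≤ B₁ N σ z := integral_nonneg fun _ => nsq_nonneg _
lemma B₂_nonneg : 0 ≤ B₂ N σ z := integral_nonneg fun _ => nsq_nonneg _
lemma B₃_nonneg : 0 ≤ B₃ N σ z := integral_nonneg fun _ => nsq_nonneg _

/-- Step A, the translation identity -/
lemma sum_nb_single (hN : Steps N) (hz : 0 < z.im) :
    ∑ x, ∫ ξ, ‖nb N (sol N ∅ (pot σ ξ) z (Pi.single 0 1)) x‖ ^ 2 ∂(PP V) = B₁ N σ z := by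
  have h1 : ∀ x : V, ∫ ξ, ‖nb N (sol N ∅ (pot σ ξ) z (Pi.single 0 1)) x‖ ^ 2 ∂(PP V)
      = ∫ ξ, ‖sol N ∅ (pot σ ξ) z (bx N 0) (-x)‖ ^ 2 ∂(PP V) := by
    intro x
    have hn : Nice fun ξ : V → ℝ => ‖sol N ∅ (pot σ ξ) z (bx N 0) (-x)‖ ^ 2 :=
      (nice_sol hN hz _ _).norm.pow 2
    rw [← E_shift x hn]
    refine integral_congr_ae (Filter.Eventually.of_forall fun ξ => ?_)
    simp only
    rw [nb_single_sol hN hz]
    have := sol_shift_bx (σ := σ) (Λ := (∅ : Finset V)) (Λ' := ∅) hN hz x x ξ (by simp) (-x)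
    rw [sub_self, neg_add_cancel] at this
    rw [this]
  simp only [h1]
  rw [B₁]
  unfold nsq
  rw [integral_finsetSum _ fun x _ => ((nice_sol hN hz _ _).norm.pow 2).integrable]
  exact Equiv.sum_comp (Equiv.neg V)
    (fun x => ∫ ξ, ‖sol N ∅ (pot σ ξ) z (bx N 0) x‖ ^ 2 ∂(PP V))

/-- Step A -/
lemma sum_tau_single_le {A B : ℝ} (hN : Steps N) (hσ : 0 < σ) (hz : 0 < z.im) (hA : 0 ≤ A)
    (hre : |z.re| ≤ A * σ) (hB : (N.card : ℝ) ≤ B) :
    ∑ x ∈ univ.erase (0 : V), ∫ ξ, ‖tau N ∅ (pot σ ξ) z (Pi.single 0 1) x‖ ^ 2 ∂(PP V)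
      ≤ B₁ N σ z / c₀ A σ z B := by
  have hc := c₀_pos (σ := σ) (z := z) hA hσ hz ((Nat.cast_nonneg _).trans hB)
  rw [le_div_iff₀ hc, mul_comm, Finset.mul_sum]
  calc ∑ x ∈ univ.erase (0 : V),
        c₀ A σ z B * ∫ ξ, ‖tau N ∅ (pot σ ξ) z (Pi.single 0 1) x‖ ^ 2 ∂(PP V)
      ≤ ∑ x ∈ univ.erase (0 : V),
        ∫ ξ, ‖nb N (sol N ∅ (pot σ ξ) z (Pi.single 0 1)) x‖ ^ 2 ∂(PP V) := by
        refine Finset.sum_le_sum fun x hx => ?_
        have hx0 : x ≠ 0 := Finset.ne_of_mem_erase hx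
        refine (residual_ge hN hσ hz hA hre hB _ (by simp)).trans (le_of_eq ?_)
        refine integral_congr_ae (Filter.Eventually.of_forall fun ξ => ?_)
        simp only
        rw [Pi.single_apply, if_neg hx0, zero_sub, norm_neg]
    _ ≤ ∑ x, ∫ ξ, ‖nb N (sol N ∅ (pot σ ξ) z (Pi.single 0 1)) x‖ ^ 2 ∂(PP V) := by
        refine Finset.sum_le_sum_of_subset_of_nonneg (Finset.erase_subset _ _) fun x _ _ => ?_
        exact integral_nonneg fun _ => by positivity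
    _ = B₁ N σ z := sum_nb_single hN hz

/-- Step B -/
lemma sum_removed_single_le (hN : Steps N) (hσ : 0 < σ) (hz : 0 < z.im) {e : V} (he : e ≠ 0) :
    ∑ x ∈ univ.erase (0 : V),
      ∫ ξ, ‖sol N {x} (pot σ ξ) z (Pi.single 0 1) (x + e)‖ ^ 2 ∂(PP V)
      ≤ 2 / (σ * z.im) := by
  have h1 : ∀ x : V, ∫ ξ, ‖sol N {x} (pot σ ξ) z (Pi.single 0 1) (x + e)‖ ^ 2 ∂(PP V)
      = ∫ ξ, ‖sol N {0} (pot σ ξ) z (Pi.single e 1) (-x)‖ ^ 2 ∂(PP V) := by
    intro x
    have hn : Nice fun ξ : V → ℝ => ‖sol N {0} (pot σ ξ) z (Pi.single e 1) (-x)‖ ^ 2 :=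
      (nice_sol hN hz _ _).norm.pow 2
    rw [← E_shift x hn]
    refine integral_congr_ae (Filter.Eventually.of_forall fun ξ => ?_)
    simp only
    have := sol_shift_single (σ := σ) (Λ := ({x} : Finset V)) (Λ' := {0}) hN hz x 0 ξ
      (by simp) e
    rw [zero_sub, dot_single_sol hN hz _ (-x) e, add_comm e x] at this
    rw [this]
  simp only [h1]
  calc ∑ x ∈ univ.erase (0 : V),
        ∫ ξ, ‖sol N {0} (pot σ ξ) z (Pi.single e 1) (-x)‖ ^ 2 ∂(PP V)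
      ≤ ∑ x, ∫ ξ, ‖sol N {0} (pot σ ξ) z (Pi.single e 1) (-x)‖ ^ 2 ∂(PP V) := by
        refine Finset.sum_le_sum_of_subset_of_nonneg (Finset.erase_subset _ _) fun x _ _ => ?_
        exact integral_nonneg fun _ => by positivity
    _ = ∑ x, ∫ ξ, ‖sol N {0} (pot σ ξ) z (Pi.single e 1) x‖ ^ 2 ∂(PP V) :=
        Equiv.sum_comp (Equiv.neg V)
          (fun x => ∫ ξ, ‖sol N {0} (pot σ ξ) z (Pi.single e 1) x‖ ^ 2 ∂(PP V))
    _ = ∫ ξ, nsq (sol N {0} (pot σ ξ) z (Pi.single e 1)) * 1 ∂(PP V) := by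
        unfold nsq
        simp only [mul_one]
        rw [integral_finsetSum _ fun x _ => ((nice_sol hN hz _ _).norm.pow 2).integrable]
    _ ≤ 2 / (σ * z.im) * ∫ ξ : V → ℝ, (1 : ℝ) ∂(PP V) := by
        refine column_le hN hσ hz (by simpa using he) (Nice.const 1) (fun _ => zero_le_one)
          (fun _ _ => rfl)
    _ = 2 / (σ * z.im) := by simp

/-- Step C -/
lemma E_a0_le {A B : ℝ} (hN : Steps N) (hσ : 0 < σ) (hz : 0 < z.im) (hA : 0 ≤ A)
    (hre : |z.re| ≤ A * σ) (hB : (N.card : ℝ) ≤ B) {n : ℕ} (hn : σ ≤ z.im * 2 ^ (n + 1))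
    {x : V} (hx : x ≠ 0) :
    ∫ ξ, ‖sol N {0} (pot σ ξ) z (bx N 0) x‖ ∂(PP V)
      ≤ m₁ σ n * √((2 + 2 * B * B₂ N σ z) / c₀ A σ z B) := by
  have hB0 : 0 ≤ B := (Nat.cast_nonneg _).trans hB
  have hc := c₀_pos (σ := σ) (z := z) hA hσ hz hB0
  have h1 := first_moment (Λ := {0}) hN hσ hz hn (bx N 0) (x := x) (by simpa using hx)
    (Nice.const 1) (fun _ => zero_le_one) (fun _ _ => rfl)
  simp only [mul_one] at h1
  have h2 := E_sq_le ((nice_tau (Λ := {0}) (σ := σ) hN hz (bx N 0) x).norm)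
  have h3 := residual_ge (Λ := {0}) hN hσ hz hA hre hB (bx N 0) (x := x) (by simpa using hx)
  have h4 : ∫ ξ, ‖bx N 0 x - nb N (sol N {0} (pot σ ξ) z (bx N 0)) x‖ ^ 2 ∂(PP V)
      ≤ 2 + 2 * B * B₂ N σ z := by
    have : ∀ ξ : V → ℝ, ‖bx N 0 x - nb N (sol N {0} (pot σ ξ) z (bx N 0)) x‖ ^ 2
        ≤ 2 + 2 * B * nsq (sol N {0} (pot σ ξ) z (bx N 0)) := by
      intro ξ
      have a1 : ‖bx N 0 x‖ ≤ 1 := by unfold bx; split_ifs <;> simp
      have a2 := norm_nb_le hN (sol N {0} (pot σ ξ) z (bx N 0)) x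
      have a3 : ‖nb N (sol N {0} (pot σ ξ) z (bx N 0)) x‖ ^ 2
          ≤ B * nsq (sol N {0} (pot σ ξ) z (bx N 0)) := by
        calc ‖nb N (sol N {0} (pot σ ξ) z (bx N 0)) x‖ ^ 2
            ≤ (√(N.card : ℝ) * nrm (sol N {0} (pot σ ξ) z (bx N 0))) ^ 2 := by gcongr
          _ = N.card * nsq (sol N {0} (pot σ ξ) z (bx N 0)) := by
              rw [mul_pow, Real.sq_sqrt (by positivity), nrm_sq]
          _ ≤ _ := by
              have := nsq_nonneg (sol N {0} (pot σ ξ) z (bx N 0))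
              gcongr
      calc ‖bx N 0 x - nb N (sol N {0} (pot σ ξ) z (bx N 0)) x‖ ^ 2
          ≤ (‖bx N 0 x‖ + ‖nb N (sol N {0} (pot σ ξ) z (bx N 0)) x‖) ^ 2 := by
            gcongr; exact norm_sub_le _ _
        _ ≤ 2 * ‖bx N 0 x‖ ^ 2 + 2 * ‖nb N (sol N {0} (pot σ ξ) z (bx N 0)) x‖ ^ 2 := by
            nlinarith [sq_nonneg (‖bx N 0 x‖ - ‖nb N (sol N {0} (pot σ ξ) z (bx N 0)) x‖)]
        _ ≤ 2 * 1 ^ 2 + 2 * (B * nsq (sol N {0} (pot σ ξ) z (bx N 0))) := by gcongr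
        _ = _ := by ring
    calc ∫ ξ, ‖bx N 0 x - nb N (sol N {0} (pot σ ξ) z (bx N 0)) x‖ ^ 2 ∂(PP V)
        ≤ ∫ ξ, (2 + 2 * B * nsq (sol N {0} (pot σ ξ) z (bx N 0))) ∂(PP V) := by
          refine integral_mono ?_ ?_ this
          · exact (((Nice.cconst _).csub (nice_nb hN hz N _ _)).norm.pow 2).integrable
          · exact ((Nice.const 2).add ((nice_nsq hN hz _).const_mul _)).integrable
      _ = 2 + 2 * B * B₂ N σ z := by
          rw [integral_add (integrable_const _) ((nice_nsq hN hz _).const_mul _).integrable,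
            integral_const_mul, B₂]
          simp
  have h5 : ∫ ξ, ‖tau N {0} (pot σ ξ) z (bx N 0) x‖ ∂(PP V)
      ≤ √((2 + 2 * B * B₂ N σ z) / c₀ A σ z B) := by
    apply Real.le_sqrt_of_sq_le
    refine h2.trans ?_
    rw [le_div_iff₀ hc, mul_comm]
    exact h3.trans h4
  have hm : 0 ≤ m₁ σ n := by unfold m₁; positivity
  exact h1.trans (mul_le_mul_of_nonneg_left h5 hm)

/-- Step D -/
lemma E_off_single_le {A B : ℝ} {L : ℕ} {N₁ : Finset V} {e : V} {ℓ : V →+ ZMod L}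
    (h : Lay N N₁ e ℓ) (hσ : 0 < σ) (hz : 0 < z.im) (hA : 0 ≤ A)
    (hre : |z.re| ≤ A * σ) (hB : (N.card : ℝ) ≤ B) {n : ℕ} (hn : σ ≤ z.im * 2 ^ (n + 1))
    {α : ℝ} (hα : 0 < α) :
    z.im * ∫ ξ, nsq (off ℓ 0 (sol N ∅ (pot σ ξ) z (Pi.single 0 1))) ∂(PP V)
      ≤ m₁ σ n * (α * (B₁ N σ z / c₀ A σ z B) + α⁻¹ * (2 / (σ * z.im)))
        + 2 / (σ * z.im) * (2 * (m₁ σ n * √((2 + 2 * B * B₂ N σ z) / c₀ A σ z B))) := by
  have hN := h.s
  have he : e ≠ 0 := fun hh => by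
    have := h.le; rw [hh, map_zero] at this; exact h.h0 this.symm
  have hm : 0 ≤ m₁ σ n := by unfold m₁; positivity
  -- one neighbour
  have key : ∀ e' : V, e' ≠ 0 →
      ∑ x ∈ univ.erase (0 : V), ∫ ξ, ‖sol N ∅ (pot σ ξ) z (Pi.single 0 1) x‖
        * ‖sol N ∅ (pot σ ξ) z (Pi.single 0 1) (x + e')‖ ∂(PP V)
      ≤ m₁ σ n * (1 / 2 * (α * (B₁ N σ z / c₀ A σ z B) + α⁻¹ * (2 / (σ * z.im))))
        + 2 / (σ * z.im) * (m₁ σ n * √((2 + 2 * B * B₂ N σ z) / c₀ A σ z B)) := by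
    intro e' he'
    -- pointwise bound
    have p1 : ∀ x ∈ univ.erase (0 : V), ∀ ξ : V → ℝ,
        ‖sol N ∅ (pot σ ξ) z (Pi.single 0 1) x‖ * ‖sol N ∅ (pot σ ξ) z (Pi.single 0 1) (x + e')‖
        ≤ ‖sol N ∅ (pot σ ξ) z (Pi.single 0 1) x‖
            * ‖sol N {x} (pot σ ξ) z (Pi.single 0 1) (x + e')‖
          + ‖sol N ∅ (pot σ ξ) z (Pi.single 0 1) x‖ ^ 2
            * ‖sol N {x} (pot σ ξ) z (bx N x) (x + e')‖ := by
      intro x hx ξ
      have r := congrFun (sol_remove (v := pot σ ξ) (Λ := ∅) hN hz (Pi.single 0 1) (x := x)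
        (by simp)) (x + e')
      simp only [insert_empty_eq, Pi.add_apply, Pi.smul_apply, Pi.sub_apply, smul_eq_mul] at r
      rw [Pi.single_apply, if_neg (by simpa using he')] at r
      have : ‖sol N ∅ (pot σ ξ) z (Pi.single 0 1) (x + e')‖
          ≤ ‖sol N {x} (pot σ ξ) z (Pi.single 0 1) (x + e')‖
            + ‖sol N ∅ (pot σ ξ) z (Pi.single 0 1) x‖
              * ‖sol N {x} (pot σ ξ) z (bx N x) (x + e')‖ := by
        rw [r]
        refine (norm_add_le _ _).trans ?_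
        rw [norm_mul, zero_sub, norm_neg]
      calc ‖sol N ∅ (pot σ ξ) z (Pi.single 0 1) x‖
            * ‖sol N ∅ (pot σ ξ) z (Pi.single 0 1) (x + e')‖
          ≤ ‖sol N ∅ (pot σ ξ) z (Pi.single 0 1) x‖
            * (‖sol N {x} (pot σ ξ) z (Pi.single 0 1) (x + e')‖
            + ‖sol N ∅ (pot σ ξ) z (Pi.single 0 1) x‖
              * ‖sol N {x} (pot σ ξ) z (bx N x) (x + e')‖) := by gcongr
        _ = _ := by ring
    -- first part
    have p2 : ∀ x ∈ univ.erase (0 : V),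
        ∫ ξ, ‖sol N ∅ (pot σ ξ) z (Pi.single 0 1) x‖
            * ‖sol N {x} (pot σ ξ) z (Pi.single 0 1) (x + e')‖ ∂(PP V)
        ≤ m₁ σ n * (1 / 2 * (α * ∫ ξ, ‖tau N ∅ (pot σ ξ) z (Pi.single 0 1) x‖ ^ 2 ∂(PP V)
          + α⁻¹ * ∫ ξ, ‖sol N {x} (pot σ ξ) z (Pi.single 0 1) (x + e')‖ ^ 2 ∂(PP V))) := by
      intro x hx
      refine (first_moment hN hσ hz hn _ (by simp) (nice_sol hN hz _ _).norm
        (fun _ => norm_nonneg _) (fun ξ t => by rw [sol_update hN hz (by simp)])).trans ?_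
      refine mul_le_mul_of_nonneg_left ?_ hm
      rw [← integral_const_mul, ← integral_const_mul, ← integral_add, ← integral_const_mul]
      · refine integral_mono ?_ ?_ fun ξ => ?_
        · exact ((nice_tau hN hz _ _).norm.mul (nice_sol hN hz _ _).norm).integrable
        · exact (((((nice_tau hN hz _ _).norm.pow 2).const_mul _).add
            (((nice_sol hN hz _ _).norm.pow 2).const_mul _)).const_mul _).integrable
        · simp only
          set a := ‖tau N ∅ (pot σ ξ) z (Pi.single 0 1) x‖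
          set b := ‖sol N {x} (pot σ ξ) z (Pi.single 0 1) (x + e')‖
          have : 0 ≤ α * (a - α⁻¹ * b) ^ 2 := by positivity
          have h2 : α * (a - α⁻¹ * b) ^ 2 = α * a ^ 2 - 2 * (a * b) + α⁻¹ * b ^ 2 := by
            field_simp
            ring
          linarith
      · exact (((nice_tau hN hz _ _).norm.pow 2).const_mul _).integrable
      · exact (((nice_sol hN hz _ _).norm.pow 2).const_mul _).integrable
    -- second part
    have p3 : ∑ x ∈ univ.erase (0 : V), ∫ ξ, ‖sol N ∅ (pot σ ξ) z (Pi.single 0 1) x‖ ^ 2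
            * ‖sol N {x} (pot σ ξ) z (bx N x) (x + e')‖ ∂(PP V)
        ≤ 2 / (σ * z.im) * ∫ ξ, ‖sol N {0} (pot σ ξ) z (bx N 0) e'‖ ∂(PP V) := by
      have q1 : ∀ x : V, ∫ ξ, ‖sol N ∅ (pot σ ξ) z (Pi.single 0 1) x‖ ^ 2
            * ‖sol N {x} (pot σ ξ) z (bx N x) (x + e')‖ ∂(PP V)
          = ∫ ξ, ‖sol N ∅ (pot σ ξ) z (Pi.single 0 1) (-x)‖ ^ 2
            * ‖sol N {0} (pot σ ξ) z (bx N 0) e'‖ ∂(PP V) := by
        intro x
        have hn : Nice fun ξ : V → ℝ => ‖sol N ∅ (pot σ ξ) z (Pi.single 0 1) (-x)‖ ^ 2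
            * ‖sol N {0} (pot σ ξ) z (bx N 0) e'‖ :=
          ((nice_sol hN hz _ _).norm.pow 2).mul (nice_sol hN hz _ _).norm
        rw [← E_shift x hn]
        refine integral_congr_ae (Filter.Eventually.of_forall fun ξ => ?_)
        simp only
        have s1 := sol_shift_single (σ := σ) (Λ := (∅ : Finset V)) (Λ' := ∅) hN hz x 0 ξ
          (by simp) 0
        rw [zero_sub, dot_single_sol hN hz _ (-x) 0, zero_add] at s1
        have s2 := sol_shift_bx (σ := σ) (Λ := ({x} : Finset V)) (Λ' := {0}) hN hz x x ξ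
          (by simp) e'
        rw [sub_self, add_comm e' x] at s2
        rw [s1, s2]
      simp only [q1]
      calc ∑ x ∈ univ.erase (0 : V), ∫ ξ, ‖sol N ∅ (pot σ ξ) z (Pi.single 0 1) (-x)‖ ^ 2
            * ‖sol N {0} (pot σ ξ) z (bx N 0) e'‖ ∂(PP V)
          ≤ ∑ x, ∫ ξ, ‖sol N ∅ (pot σ ξ) z (Pi.single 0 1) (-x)‖ ^ 2
            * ‖sol N {0} (pot σ ξ) z (bx N 0) e'‖ ∂(PP V) := by
            refine Finset.sum_le_sum_of_subset_of_nonneg (Finset.erase_subset _ _)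
              fun x _ _ => ?_
            exact integral_nonneg fun _ => by positivity
        _ = ∑ x, ∫ ξ, ‖sol N ∅ (pot σ ξ) z (Pi.single 0 1) x‖ ^ 2
            * ‖sol N {0} (pot σ ξ) z (bx N 0) e'‖ ∂(PP V) :=
            Equiv.sum_comp (Equiv.neg V)
              (fun x => ∫ ξ, ‖sol N ∅ (pot σ ξ) z (Pi.single 0 1) x‖ ^ 2
                * ‖sol N {0} (pot σ ξ) z (bx N 0) e'‖ ∂(PP V))
        _ = ∫ ξ, nsq (sol N ∅ (pot σ ξ) z (Pi.single 0 1))
            * ‖sol N {0} (pot σ ξ) z (bx N 0) e'‖ ∂(PP V) := by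
            unfold nsq
            simp only [Finset.sum_mul]
            rw [integral_finsetSum _ fun x _ =>
              (((nice_sol hN hz _ _).norm.pow 2).mul (nice_sol hN hz _ _).norm).integrable]
        _ ≤ 2 / (σ * z.im) * ∫ ξ, ‖sol N {0} (pot σ ξ) z (bx N 0) e'‖ ∂(PP V) :=
            column_le hN hσ hz (by simp) (nice_sol hN hz _ _).norm (fun _ => norm_nonneg _)
              (fun ξ t => by rw [sol_update hN hz (by simp)])
    calc ∑ x ∈ univ.erase (0 : V), ∫ ξ, ‖sol N ∅ (pot σ ξ) z (Pi.single 0 1) x‖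
        * ‖sol N ∅ (pot σ ξ) z (Pi.single 0 1) (x + e')‖ ∂(PP V)
        ≤ ∑ x ∈ univ.erase (0 : V),
          (∫ ξ, ‖sol N ∅ (pot σ ξ) z (Pi.single 0 1) x‖
            * ‖sol N {x} (pot σ ξ) z (Pi.single 0 1) (x + e')‖ ∂(PP V)
          + ∫ ξ, ‖sol N ∅ (pot σ ξ) z (Pi.single 0 1) x‖ ^ 2
            * ‖sol N {x} (pot σ ξ) z (bx N x) (x + e')‖ ∂(PP V)) := by
          refine Finset.sum_le_sum fun x hx => ?_
          rw [← integral_add]
          · refine integral_mono ?_ ?_ (p1 x hx)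
            · exact ((nice_sol hN hz _ _).norm.mul (nice_sol hN hz _ _).norm).integrable
            · exact (((nice_sol hN hz _ _).norm.mul (nice_sol hN hz _ _).norm).add
                (((nice_sol hN hz _ _).norm.pow 2).mul (nice_sol hN hz _ _).norm)).integrable
          · exact ((nice_sol hN hz _ _).norm.mul (nice_sol hN hz _ _).norm).integrable
          · exact (((nice_sol hN hz _ _).norm.pow 2).mul (nice_sol hN hz _ _).norm).integrable
      _ = ∑ x ∈ univ.erase (0 : V), ∫ ξ, ‖sol N ∅ (pot σ ξ) z (Pi.single 0 1) x‖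
            * ‖sol N {x} (pot σ ξ) z (Pi.single 0 1) (x + e')‖ ∂(PP V)
          + ∑ x ∈ univ.erase (0 : V), ∫ ξ, ‖sol N ∅ (pot σ ξ) z (Pi.single 0 1) x‖ ^ 2
            * ‖sol N {x} (pot σ ξ) z (bx N x) (x + e')‖ ∂(PP V) := Finset.sum_add_distrib
      _ ≤ ∑ x ∈ univ.erase (0 : V),
          m₁ σ n * (1 / 2 * (α * ∫ ξ, ‖tau N ∅ (pot σ ξ) z (Pi.single 0 1) x‖ ^ 2 ∂(PP V)
          + α⁻¹ * ∫ ξ, ‖sol N {x} (pot σ ξ) z (Pi.single 0 1) (x + e')‖ ^ 2 ∂(PP V)))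
          + 2 / (σ * z.im) * ∫ ξ, ‖sol N {0} (pot σ ξ) z (bx N 0) e'‖ ∂(PP V) :=
          add_le_add (Finset.sum_le_sum p2) p3
      _ = m₁ σ n * (1 / 2 * (α * (∑ x ∈ univ.erase (0 : V),
            ∫ ξ, ‖tau N ∅ (pot σ ξ) z (Pi.single 0 1) x‖ ^ 2 ∂(PP V))
          + α⁻¹ * ∑ x ∈ univ.erase (0 : V),
            ∫ ξ, ‖sol N {x} (pot σ ξ) z (Pi.single 0 1) (x + e')‖ ^ 2 ∂(PP V)))
          + 2 / (σ * z.im) * ∫ ξ, ‖sol N {0} (pot σ ξ) z (bx N 0) e'‖ ∂(PP V) := by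
          rw [← Finset.mul_sum, ← Finset.mul_sum, Finset.sum_add_distrib, ← Finset.mul_sum,
            ← Finset.mul_sum]
      _ ≤ _ := by
          gcongr
          · exact sum_tau_single_le hN hσ hz hA hre hB
          · exact sum_removed_single_le hN hσ hz he'
          · exact E_a0_le hN hσ hz hA hre hB hn he'
  have flux : ∀ ξ : V → ℝ, z.im * nsq (off ℓ 0 (sol N ∅ (pot σ ξ) z (Pi.single 0 1)))
      ≤ ∑ x ∈ univ.erase (0 : V), ‖sol N ∅ (pot σ ξ) z (Pi.single 0 1) x‖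
        * (‖sol N ∅ (pot σ ξ) z (Pi.single 0 1) (x + e)‖
          + ‖sol N ∅ (pot σ ξ) z (Pi.single 0 1) (x + -e)‖) := fun ξ => by
    have := h.flux (isSol_sol (v := pot σ ξ) (Λ := ∅) hN hz (Pi.single 0 1))
    simpa only [sub_eq_add_neg] using this
  have hoff : Nice fun ξ : V → ℝ => nsq (off ℓ 0 (sol N ∅ (pot σ ξ) z (Pi.single 0 1))) := by
    unfold nsq off
    refine Nice.sum _ fun x _ => ?_
    by_cases hx : ℓ x = 0
    · simp only [hx, if_true]; simpa using Nice.const 0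
    · simp only [hx, if_false]; exact (nice_sol hN hz _ _).norm.pow 2
  calc z.im * ∫ ξ, nsq (off ℓ 0 (sol N ∅ (pot σ ξ) z (Pi.single 0 1))) ∂(PP V)
      = ∫ ξ, z.im * nsq (off ℓ 0 (sol N ∅ (pot σ ξ) z (Pi.single 0 1))) ∂(PP V) := by
        rw [integral_const_mul]
    _ ≤ ∫ ξ, ∑ x ∈ univ.erase (0 : V), (‖sol N ∅ (pot σ ξ) z (Pi.single 0 1) x‖
        * ‖sol N ∅ (pot σ ξ) z (Pi.single 0 1) (x + e)‖
          + ‖sol N ∅ (pot σ ξ) z (Pi.single 0 1) x‖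
          * ‖sol N ∅ (pot σ ξ) z (Pi.single 0 1) (x + -e)‖) ∂(PP V) := by
        refine integral_mono (hoff.const_mul _).integrable ?_ fun ξ => ?_
        · refine (Nice.sum _ fun x _ => ?_).integrable
          exact ((nice_sol hN hz _ _).norm.mul (nice_sol hN hz _ _).norm).add
            ((nice_sol hN hz _ _).norm.mul (nice_sol hN hz _ _).norm)
        · refine (flux ξ).trans (le_of_eq ?_)
          refine Finset.sum_congr rfl fun x _ => ?_
          ring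
    _ = ∑ x ∈ univ.erase (0 : V), ∫ ξ, ‖sol N ∅ (pot σ ξ) z (Pi.single 0 1) x‖
        * ‖sol N ∅ (pot σ ξ) z (Pi.single 0 1) (x + e)‖ ∂(PP V)
        + ∑ x ∈ univ.erase (0 : V), ∫ ξ, ‖sol N ∅ (pot σ ξ) z (Pi.single 0 1) x‖
        * ‖sol N ∅ (pot σ ξ) z (Pi.single 0 1) (x + -e)‖ ∂(PP V) := by
        rw [integral_finsetSum, ← Finset.sum_add_distrib]
        · refine Finset.sum_congr rfl fun x _ => ?_
          rw [integral_add]
          · exact ((nice_sol hN hz _ _).norm.mul (nice_sol hN hz _ _).norm).integrable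
          · exact ((nice_sol hN hz _ _).norm.mul (nice_sol hN hz _ _).norm).integrable
        · intro x _
          exact (((nice_sol hN hz _ _).norm.mul (nice_sol hN hz _ _).norm).add
            ((nice_sol hN hz _ _).norm.mul (nice_sol hN hz _ _).norm)).integrable
    _ ≤ _ := by
        refine (add_le_add (key e he) (key (-e) (neg_ne_zero.2 he))).trans (le_of_eq ?_)
        ring

end Pool.Agent.H989
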