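import Pool.Agent.H989.Est2

/-!
Transfer to the removed lattice, incoherence of the solutions, and the coupling.
-/

set_option linter.unusedSectionVars false
set_option linter.unusedVariables false

open MeasureTheory ProbabilityTheory Finset

namespace Pool.Agent.H989

variable {V : Type*} [AddCommGroup V] [Fintype V] [DecidableEq V]
variable {N Λ : Finset V} {σ : ℝ} {z : ℂ}

lemma markov {f : (V → ℝ) → ℝ} (hf : Nice f) (h0 : ∀ ξ, 0 ≤ f ξ) {a : ℝ} (ha : 0 < a) :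
    (PP V).real {ξ | a ≤ f ξ} ≤ (∫ ξ, f ξ ∂(PP V)) / a := by
  rw [le_div_iff₀ ha, mul_comm]
  exact mul_meas_ge_le_integral_of_nonneg (Filter.Eventually.of_forall h0) hf.integrable a

/-- lower bound by integration over one coordinate -/
lemma E_ge_of_resample' (x : V) {F Φ : (V → ℝ) → ℝ} {k : (V → ℝ) → ℝ → ℝ} {c : ℝ}
    (hF : Nice F) (hΦ : Nice Φ) (h0 : ∀ ξ, 0 ≤ Φ ξ)
    (hk : ∀ ξ t, F (Function.update ξ x t) = k ξ t * Φ ξ)
    (hc : ∀ ξ, 0 < Φ ξ → c ≤ ∫ t, k ξ t ∂γ) :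
    c * ∫ ξ, Φ ξ ∂(PP V) ≤ ∫ ξ, F ξ ∂(PP V) := by
  rw [integral_resample x hF, ← integral_const_mul]
  refine integral_mono (hΦ.const_mul c).integrable (nice_inner x hF).integrable fun ξ => ?_
  simp only [hk]
  rw [integral_mul_const]
  rcases (h0 ξ).eq_or_lt with h | h
  · rw [← h]; simp
  · exact mul_le_mul_of_nonneg_right (hc ξ h) (h0 ξ)

lemma nice_off {L : ℕ} {ℓ : V →+ ZMod L} (hN : Steps N) (hz : 0 < z.im) (c : ZMod L)
    (b : V → ℂ) : Nice fun ξ : V → ℝ => nsq (off ℓ c (sol N Λ (pot σ ξ) z b)) := by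
  unfold nsq off
  refine Nice.sum _ fun x _ => ?_
  by_cases hx : ℓ x = c
  · simp only [hx, if_true]; simpa using Nice.const 0
  · simp only [hx, if_false]; exact (nice_sol hN hz _ _).norm.pow 2

lemma sol_single_zero (hN : Steps N) (hz : 0 < z.im) (v : V → ℝ) {x : V} (hx : x ∈ Λ) :
    sol N Λ v z (Pi.single x 1) = 0 := by
  refine sol_eq hN hz ⟨fun _ _ => rfl, fun y hy => ?_⟩
  have hyx : y ≠ x := fun e => hy (by rw [e]; exact hx)
  rw [Pi.single_apply, if_neg hyx]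
  simp [nb]

lemma nsq_smul (c : ℂ) (f : V → ℂ) : nsq (c • f) = ‖c‖ ^ 2 * nsq f := by
  unfold nsq; rw [Finset.mul_sum]
  refine Finset.sum_congr rfl fun x _ => ?_
  simp [mul_pow]

lemma nsq_off_single {L : ℕ} {ℓ : V →+ ZMod L} (hN : Steps N) (hz : 0 < z.im) (v : V → ℝ) :
    nsq (off ℓ 0 (sol N ∅ v z (Pi.single 0 1)))
      = ‖sol N ∅ v z (Pi.single 0 1) 0‖ ^ 2 * nsq (off ℓ 0 (sol N {0} v z (bx N 0))) := by
  have r := sol_remove (v := v) (Λ := ∅) hN hz (Pi.single 0 1) (x := 0) (by simp)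
  simp only [insert_empty_eq] at r
  have hs0 : sol N {0} v z (Pi.single 0 1) = 0 := sol_single_zero hN hz v (by simp)
  rw [hs0, zero_add] at r
  rw [← nsq_smul]
  unfold nsq
  refine Finset.sum_congr rfl fun x _ => ?_
  congr 1
  unfold off
  by_cases hx : ℓ x = 0
  · simp [hx]
  · have hx0 : x ≠ 0 := fun e => hx (by rw [e, map_zero])
    simp only [hx, if_false, Pi.smul_apply, smul_eq_mul]
    conv_lhs => rw [r]
    simp only [Pi.smul_apply, Pi.sub_apply, smul_eq_mul]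
    rw [Pi.single_apply, if_neg hx0, zero_sub, mul_neg, norm_neg]

/-- Step E -/
lemma offmass {L : ℕ} {ℓ : V →+ ZMod L} {A M ε : ℝ} (hN : Steps N) (hσ : 0 < σ) (hz : 0 < z.im)
    (hA : 0 ≤ A) (hre : |z.re| ≤ A * σ) (hM : 0 < M) (hMσ : z.im + M ≤ σ) (hε : 0 < ε) :
    (PP V).real {ξ | ε ≤ nsq (off ℓ 0 (sol N {0} (pot σ ξ) z (bx N 0)))}
      ≤ σ * (z.im + M) / (ε * gaussianPDFReal 0 1 (A + 2))
          * ∫ ξ, nsq (off ℓ 0 (sol N ∅ (pot σ ξ) z (Pi.single 0 1))) ∂(PP V)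
        + N.card * B₂ N σ z / σ ^ 2 + z.im * B₂ N σ z / M := by
  have hp := pdf_pos (A + 2)
  set S : (V → ℝ) → ℂ := fun ξ => SE N ∅ (pot σ ξ) z 0 with hS
  have hSn : Nice S := nice_SE hN hz 0
  have hSim : ∀ ξ, (S ξ).im = z.im * nsq (sol N {0} (pot σ ξ) z (bx N 0)) := fun ξ => by
    have := SE_im (Λ := ∅) (v := pot σ ξ) hN hz 0
    simpa using this
  set Gd : Set (V → ℝ) := {ξ | |(S ξ).re| ≤ σ ∧ (S ξ).im ≤ M
    ∧ ε ≤ nsq (off ℓ 0 (sol N {0} (pot σ ξ) z (bx N 0)))} with hGd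
  have hGm : MeasurableSet Gd := by
    refine MeasurableSet.inter ?_ (MeasurableSet.inter ?_ ?_)
    · exact measurableSet_le (Complex.measurable_re.comp hSn.1).norm measurable_const
    · exact measurableSet_le (Complex.measurable_im.comp hSn.1) measurable_const
    · exact measurableSet_le measurable_const (nice_off hN hz 0 _).1
  have hind : Nice (Gd.indicator (fun _ => ε)) := by
    refine ⟨measurable_const.indicator hGm, ε, fun ξ => ?_⟩
    by_cases h : ξ ∈ Gd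
    · rw [Set.indicator_of_mem h, Real.norm_eq_abs, abs_of_pos hε]
    · rw [Set.indicator_of_notMem h]; simp [hε.le]
  have hupd : ∀ ξ t, Gd.indicator (fun _ => ε) (Function.update ξ 0 t)
      = Gd.indicator (fun _ => ε) ξ := by
    intro ξ t
    have e1 : S (Function.update ξ 0 t) = S ξ := SE_update hN hz 0 ξ t
    have e2 : sol N {0} (pot σ (Function.update ξ 0 t)) z (bx N 0)
        = sol N {0} (pot σ ξ) z (bx N 0) := sol_update hN hz (by simp) _ _ _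
    have : (Function.update ξ 0 t ∈ Gd) ↔ ξ ∈ Gd := by
      simp only [hGd, Set.mem_ofPred_eq, e1, e2]
    by_cases h : ξ ∈ Gd
    · rw [Set.indicator_of_mem h, Set.indicator_of_mem (this.2 h)]
    · rw [Set.indicator_of_notMem h, Set.indicator_of_notMem (fun hh => h (this.1 hh))]
  -- bound for the good set
  have h1 : gaussianPDFReal 0 1 (A + 2) / (σ * (z.im + M)) * (ε * (PP V).real Gd)
      ≤ ∫ ξ, nsq (off ℓ 0 (sol N ∅ (pot σ ξ) z (Pi.single 0 1))) ∂(PP V) := by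
    have e0 : ε * (PP V).real Gd = ∫ ξ, Gd.indicator (fun _ => ε) ξ ∂(PP V) := by
      rw [integral_indicator hGm, setIntegral_const, smul_eq_mul, mul_comm]
    rw [e0]
    refine le_trans (E_ge_of_resample' 0 (F := fun ξ => ‖sol N ∅ (pot σ ξ) z (Pi.single 0 1) 0‖ ^ 2
        * Gd.indicator (fun _ => ε) ξ)
      (k := fun ξ t => (‖den σ (z + SE N ∅ (pot σ ξ) z 0) t‖ ^ 2)⁻¹)
      (((nice_sol hN hz _ _).norm.pow 2).mul hind) hind
      (fun ξ => Set.indicator_nonneg (fun _ _ => hε.le) ξ) (fun ξ t => ?_) (fun ξ hξ => ?_)) ?_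
    · rw [hupd, norm_sol_eq hN hz _ (by simp), SE_update hN hz, tau_single_self hN hz,
        Function.update_self]
      simp
    · have hmem : ξ ∈ Gd := by
        by_contra hcon
        rw [Set.indicator_of_notMem hcon] at hξ
        exact lt_irrefl _ hξ
      obtain ⟨g1, g2, g3⟩ := hmem
      have him : 0 ≤ (S ξ).im := SE_im_nonneg hN hz _ _
      have hc : 0 < (z + S ξ).im := by rw [Complex.add_im]; linarith
      have hcM : (z + S ξ).im ≤ z.im + M := by rw [Complex.add_im]; linarith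
      have hre2 : |(z + S ξ).re| ≤ (A + 2 - 1) * σ := by
        rw [Complex.add_re]
        refine (abs_add_le _ _).trans ?_
        have : (A + 2 - 1) * σ = A * σ + σ := by ring
        rw [this]
        exact add_le_add hre g1
      refine le_trans ?_ (inv_sq_ge hσ hc (hcM.trans hMσ) hre2)
      gcongr
    · refine integral_mono ?_ (nice_off hN hz 0 _).integrable fun ξ => ?_
      · exact (((nice_sol hN hz _ _).norm.pow 2).mul hind).integrable
      · simp only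
        rw [nsq_off_single hN hz]
        gcongr
        by_cases h : ξ ∈ Gd
        · rw [Set.indicator_of_mem h]; exact h.2.2
        · rw [Set.indicator_of_notMem h]; exact nsq_nonneg _
  have h2 : (PP V).real Gd ≤ σ * (z.im + M) / (ε * gaussianPDFReal 0 1 (A + 2))
      * ∫ ξ, nsq (off ℓ 0 (sol N ∅ (pot σ ξ) z (Pi.single 0 1))) ∂(PP V) := by
    have hpos : 0 < σ * (z.im + M) / (ε * gaussianPDFReal 0 1 (A + 2)) := by positivity
    calc (PP V).real Gd = σ * (z.im + M) / (ε * gaussianPDFReal 0 1 (A + 2))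
          * (gaussianPDFReal 0 1 (A + 2) / (σ * (z.im + M)) * (ε * (PP V).real Gd)) := by
          field_simp
      _ ≤ _ := by gcongr
  have h3 : (PP V).real {ξ | σ ^ 2 ≤ ‖S ξ‖ ^ 2} ≤ N.card * B₂ N σ z / σ ^ 2 := by
    refine (markov (hSn.norm.pow 2) (fun _ => by positivity) (by positivity)).trans ?_
    gcongr
    rw [B₂, ← integral_const_mul]
    refine integral_mono (hSn.norm.pow 2).integrable ((nice_nsq hN hz _).const_mul _).integrable
      fun ξ => ?_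
    simp only [hS]
    unfold SE
    rw [insert_empty_eq]
    calc ‖nb N (sol N {0} (pot σ ξ) z (bx N 0)) 0‖ ^ 2
        ≤ (√(N.card : ℝ) * nrm (sol N {0} (pot σ ξ) z (bx N 0))) ^ 2 := by
          gcongr; exact norm_nb_le hN _ _
      _ = _ := by rw [mul_pow, Real.sq_sqrt (by positivity), nrm_sq]
  have h4 : (PP V).real {ξ | M ≤ (S ξ).im} ≤ z.im * B₂ N σ z / M := by
    have hn : Nice fun ξ => (S ξ).im := by
      simp only [hSim]
      exact (nice_nsq hN hz _).const_mul _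
    refine (markov hn (fun ξ => by
      rw [hSim]; exact mul_nonneg hz.le (nsq_nonneg _)) hM).trans (le_of_eq ?_)
    congr 1
    simp only [hSim]
    rw [integral_const_mul, B₂]
  have hsub : {ξ | ε ≤ nsq (off ℓ 0 (sol N {0} (pot σ ξ) z (bx N 0)))}
      ⊆ Gd ∪ {ξ | σ ^ 2 ≤ ‖S ξ‖ ^ 2} ∪ {ξ | M ≤ (S ξ).im} := by
    intro ξ hξ
    by_cases a1 : |(S ξ).re| ≤ σ
    · by_cases a2 : (S ξ).im ≤ M
      · exact Or.inl (Or.inl ⟨a1, a2, hξ⟩)
      · exact Or.inr (le_of_not_ge a2)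
    · refine Or.inl (Or.inr ?_)
      push Not at a1
      have := Complex.abs_re_le_norm (S ξ)
      exact pow_le_pow_left₀ hσ.le (a1.le.trans this) 2
  calc (PP V).real {ξ | ε ≤ nsq (off ℓ 0 (sol N {0} (pot σ ξ) z (bx N 0)))}
      ≤ (PP V).real (Gd ∪ {ξ | σ ^ 2 ≤ ‖S ξ‖ ^ 2} ∪ {ξ | M ≤ (S ξ).im}) :=
        measureReal_mono hsub
    _ ≤ (PP V).real Gd + (PP V).real {ξ | σ ^ 2 ≤ ‖S ξ‖ ^ 2} + (PP V).real {ξ | M ≤ (S ξ).im} :=
        (measureReal_union_le _ _).trans (add_le_add (measureReal_union_le _ _) le_rfl)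
    _ ≤ _ := by gcongr

/-! ### Incoherence -/

lemma frob_le (D G : Matrix V V ℂ) (hDt : D.transpose = D) (hD : D.conjTranspose = D)
    (hG : G.transpose = G) :
    ∑ i, ∑ j, ‖(D * G * D) i j‖ ^ 2 ≤ ∑ i, ∑ j, ‖(G * D * D) i j‖ ^ 2 := by
  have hDc : D.map (starRingEnd ℂ) = D := by
    calc D.map (starRingEnd ℂ) = (D.conjTranspose).transpose := by
          ext i j; simp [Matrix.conjTranspose_apply]
      _ = D := by rw [hD, hDt]
  set X := D * G * D with hX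
  set Y := G * D * D with hY
  set G' := G.map (starRingEnd ℂ) with hG'
  have e1 : X.conjTranspose = D * G' * D := by
    rw [hX, Matrix.conjTranspose_mul, Matrix.conjTranspose_mul, hD, ← Matrix.mul_assoc]
    congr 2
    ext i j
    rw [Matrix.conjTranspose_apply, hG', Matrix.map_apply]
    have := congrFun (congrFun hG i) j
    rw [Matrix.transpose_apply] at this
    rw [this]; rfl
  have e2 : ((∑ i, ∑ j, ‖X i j‖ ^ 2 : ℝ) : ℂ) = (X * X.conjTranspose).trace := by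
    rw [Matrix.trace]
    push_cast
    refine Finset.sum_congr rfl fun i _ => ?_
    rw [Matrix.diag_apply, Matrix.mul_apply]
    refine Finset.sum_congr rfl fun j _ => ?_
    rw [Matrix.conjTranspose_apply]
    have := Complex.mul_conj' (X i j)
    exact this.symm
  have e3 : (X * X.conjTranspose).trace = (Y * Y.map (starRingEnd ℂ)).trace := by
    have hY' : Y.map (starRingEnd ℂ) = G' * D * D := by
      rw [hY, Matrix.map_mul, Matrix.map_mul, hDc]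
    rw [e1, hY', hX, hY]
    calc (D * G * D * (D * G' * D)).trace = (D * (G * D * (D * G' * D))).trace := by
          simp only [Matrix.mul_assoc]
      _ = (G * D * (D * G' * D) * D).trace := Matrix.trace_mul_comm _ _
      _ = (G * D * D * (G' * D * D)).trace := by simp only [Matrix.mul_assoc]
  have e4 : ‖(Y * Y.map (starRingEnd ℂ)).trace‖ ≤ ∑ i, ∑ j, ‖Y i j‖ ^ 2 := by
    rw [Matrix.trace]
    calc ‖∑ i, (Y * Y.map (starRingEnd ℂ)).diag i‖
        ≤ ∑ i, ∑ j, ‖Y i j‖ * ‖Y j i‖ := by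
          refine (norm_sum_le _ _).trans (Finset.sum_le_sum fun i _ => ?_)
          rw [Matrix.diag_apply, Matrix.mul_apply]
          refine (norm_sum_le _ _).trans (Finset.sum_le_sum fun j _ => ?_)
          rw [norm_mul, Matrix.map_apply, Complex.norm_conj]
      _ ≤ ∑ i, ∑ j, (1 / 2 * ‖Y i j‖ ^ 2 + 1 / 2 * ‖Y j i‖ ^ 2) := by
          refine Finset.sum_le_sum fun i _ => Finset.sum_le_sum fun j _ => ?_
          nlinarith [sq_nonneg (‖Y i j‖ - ‖Y j i‖)]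
      _ = 1 / 2 * ∑ i, ∑ j, ‖Y i j‖ ^ 2 + 1 / 2 * ∑ i, ∑ j, ‖Y j i‖ ^ 2 := by
          simp only [Finset.sum_add_distrib, Finset.mul_sum]
      _ = _ := by
          rw [Finset.sum_comm (f := fun i j => ‖Y j i‖ ^ 2)]; ring
  have e5 : ∑ i, ∑ j, ‖X i j‖ ^ 2 = ‖(X * X.conjTranspose).trace‖ := by
    rw [← e2, Complex.norm_real, Real.norm_eq_abs, abs_of_nonneg]
    exact Finset.sum_nonneg fun i _ => Finset.sum_nonneg fun j _ => by positivity
  rw [e5, e3]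
  exact e4

/-- adjacency matrix -/
def adj (N : Finset V) : Matrix V V ℂ := fun x y => if y - x ∈ N then 1 else 0

lemma adj_mulVec (hN : Steps N) (f : V → ℂ) (x : V) : (adj N).mulVec f x = nb N f x := by
  rw [nb_eq_dot _ _ hN]
  unfold adj bx dot Matrix.mulVec dotProduct
  refine Finset.sum_congr rfl fun y _ => ?_
  have : (y - x ∈ N) ↔ (x - y ∈ N) := by
    constructor
    · intro hh; have := hN.neg _ hh; simpa using this
    · intro hh; have := hN.neg _ hh; simpa using this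
  simp only [this]

lemma sol_empty_eq (v : V → ℝ) (b : V → ℂ) : sol N ∅ v z b = ((mat N ∅ v z)⁻¹).mulVec b := by
  unfold sol; simp

lemma hs_bound (hN : Steps N) (v : V → ℝ) :
    ∑ x, ∑ w, ‖nb N (sol N ∅ v z (bx N x)) w‖ ^ 2 ≤ ∑ x, nsq (sol N ∅ v z (nb N (bx N x))) := by
  set G := (mat N ∅ v z)⁻¹ with hG
  have hst : ∀ x y : V, (x - y ∈ N) ↔ (y - x ∈ N) := fun x y => by
    constructor
    · intro hh; have := hN.neg _ hh; simpa using this
    · intro hh; have := hN.neg _ hh; simpa using this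
  have hDt : (adj N).transpose = adj N := by
    ext i j; simp only [Matrix.transpose_apply, adj, hst i j]
  have hD : (adj N).conjTranspose = adj N := by
    ext i j
    rw [Matrix.conjTranspose_apply]
    unfold adj
    rw [apply_ite star]
    simp only [star_one, star_zero, hst i j]
  have hMt : (mat N ∅ v z).transpose = mat N ∅ v z := by
    ext i j
    simp only [Matrix.transpose_apply, mat, notMem_empty, or_self, if_false, hst i j]
    by_cases hij : i = j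
    · subst hij; simp
    · simp [hij, Ne.symm hij]
  have hGt : G.transpose = G := by
    rw [hG, Matrix.transpose_nonsing_inv, hMt]
  have hcol : ∀ x w, bx N x w = adj N w x := fun x w => by unfold bx adj; rfl
  have h1 : ∀ x w, nb N (sol N ∅ v z (bx N x)) w = (adj N * G * adj N) w x := by
    intro x w
    rw [← adj_mulVec hN, sol_empty_eq, Matrix.mulVec_mulVec]
    unfold Matrix.mulVec dotProduct
    rw [Matrix.mul_apply]
    refine Finset.sum_congr rfl fun y _ => by rw [hcol]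
  have h2 : ∀ x w, sol N ∅ v z (nb N (bx N x)) w = (G * adj N * adj N) w x := by
    intro x w
    have : nb N (bx N x) = (adj N).mulVec (bx N x) := by
      funext y; rw [adj_mulVec hN]
    rw [this, sol_empty_eq, Matrix.mulVec_mulVec]
    unfold Matrix.mulVec dotProduct
    rw [Matrix.mul_apply]
    refine Finset.sum_congr rfl fun y _ => by rw [hcol]
  unfold nsq
  simp only [h1, h2]
  rw [Finset.sum_comm, Finset.sum_comm (f := fun x w => ‖(G * adj N * adj N) w x‖ ^ 2)]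
  exact frob_le _ _ hDt hD hGt

lemma nb_shift (f : V → ℂ) (a y : V) : nb N (fun x => f (x + a)) y = nb N f (y + a) :=
  nb_comp_add N a f y

/-- Step F2 -/
lemma sum_nb_bx_le (hN : Steps N) (hz : 0 < z.im) :
    ∑ w, ∫ ξ, ‖nb N (sol N ∅ (pot σ ξ) z (bx N 0)) w‖ ^ 2 ∂(PP V) ≤ B₃ N σ z := by
  have h1 : ∀ x : V, ∑ w, ∫ ξ, ‖nb N (sol N ∅ (pot σ ξ) z (bx N x)) w‖ ^ 2 ∂(PP V)
      = ∑ w, ∫ ξ, ‖nb N (sol N ∅ (pot σ ξ) z (bx N 0)) w‖ ^ 2 ∂(PP V) := by
    intro x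
    rw [← Equiv.sum_comp (Equiv.addRight x)
      (fun w => ∫ ξ, ‖nb N (sol N ∅ (pot σ ξ) z (bx N x)) w‖ ^ 2 ∂(PP V))]
    refine Finset.sum_congr rfl fun w _ => ?_
    have hn : Nice fun ξ : V → ℝ => ‖nb N (sol N ∅ (pot σ ξ) z (bx N 0)) w‖ ^ 2 :=
      (nice_nb hN hz _ _ _).norm.pow 2
    rw [← E_shift x hn]
    refine integral_congr_ae (Filter.Eventually.of_forall fun ξ => ?_)
    simp only [Equiv.coe_addRight]
    rw [← nb_shift]
    congr 3
    funext y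
    have := sol_shift_bx (σ := σ) (Λ := (∅ : Finset V)) (Λ' := ∅) hN hz x x ξ (by simp) y
    rw [sub_self] at this
    exact this.symm
  have h2 : ∀ x : V, ∫ ξ, nsq (sol N ∅ (pot σ ξ) z (nb N (bx N x))) ∂(PP V) = B₃ N σ z := by
    intro x
    have hE := E_shift x (nice_nsq (Λ := ∅) (σ := σ) hN hz (nb N (bx N 0)))
    rw [B₃, ← hE]
    refine integral_congr_ae (Filter.Eventually.of_forall fun ξ => ?_)
    simp only
    unfold nsq
    rw [← Equiv.sum_comp (Equiv.addRight x)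
      (fun w => ‖sol N ∅ (pot σ ξ) z (nb N (bx N x)) w‖ ^ 2)]
    refine Finset.sum_congr rfl fun w _ => ?_
    have := sol_shift (σ := σ) (Λ := (∅ : Finset V)) (Λ' := ∅) hN hz x (nb N (bx N x)) ξ
      (by simp) w
    simp only [Equiv.coe_addRight]
    rw [← this]
    congr 3
    funext y
    rw [← nb_shift]
    congr 1
    funext u
    rw [bx_add, sub_self]
  have hcard : (0 : ℝ) < Fintype.card V := by
    have : 0 < Fintype.card V := Fintype.card_pos_iff.2 ⟨0⟩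
    exact_mod_cast this
  have h3 : (Fintype.card V : ℝ) * ∑ w, ∫ ξ, ‖nb N (sol N ∅ (pot σ ξ) z (bx N 0)) w‖ ^ 2 ∂(PP V)
      ≤ (Fintype.card V : ℝ) * B₃ N σ z := by
    calc (Fintype.card V : ℝ) * ∑ w, ∫ ξ, ‖nb N (sol N ∅ (pot σ ξ) z (bx N 0)) w‖ ^ 2 ∂(PP V)
        = ∑ x, ∑ w, ∫ ξ, ‖nb N (sol N ∅ (pot σ ξ) z (bx N x)) w‖ ^ 2 ∂(PP V) := by
          simp only [h1]
          rw [Finset.sum_const, nsmul_eq_mul, Finset.card_univ]
      _ = ∫ ξ, ∑ x, ∑ w, ‖nb N (sol N ∅ (pot σ ξ) z (bx N x)) w‖ ^ 2 ∂(PP V) := by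
          rw [integral_finsetSum]
          · refine Finset.sum_congr rfl fun x _ => ?_
            rw [integral_finsetSum]
            exact fun w _ => ((nice_nb hN hz _ _ _).norm.pow 2).integrable
          · intro x _
            exact (Nice.sum _ fun w _ => (nice_nb hN hz _ _ _).norm.pow 2).integrable
      _ ≤ ∫ ξ, ∑ x, nsq (sol N ∅ (pot σ ξ) z (nb N (bx N x))) ∂(PP V) := by
          refine integral_mono ?_ ?_ fun ξ => hs_bound hN _
          · exact (Nice.sum _ fun x _ => Nice.sum _ fun w _ =>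
              (nice_nb hN hz _ _ _).norm.pow 2).integrable
          · exact (Nice.sum _ fun x _ => nice_nsq hN hz _).integrable
      _ = (Fintype.card V : ℝ) * B₃ N σ z := by
          rw [integral_finsetSum _ fun x _ => (nice_nsq hN hz _).integrable]
          simp only [h2]
          rw [Finset.sum_const, nsmul_eq_mul, Finset.card_univ]
  exact le_of_mul_le_mul_left h3 hcard

/-- Step F3 -/
lemma sum_nb_removed_le {A B : ℝ} (hN : Steps N) (hσ : 0 < σ) (hz : 0 < z.im) (hA : 0 ≤ A)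
    (hre : |z.re| ≤ A * σ) (hB : (N.card : ℝ) ≤ B) :
    ∑ w, ∫ ξ, ‖nb N (sol N {0} (pot σ ξ) z (bx N 0)) w‖ ^ 2 ∂(PP V)
      ≤ (2 * B₃ N σ z + 2 * B * (2 / (σ * z.im) * (B * B₂ N σ z))) / c₀ A σ z B := by
  have hB0 : 0 ≤ B := (Nat.cast_nonneg _).trans hB
  have hc := c₀_pos (σ := σ) (z := z) hA hσ hz hB0
  rw [le_div_iff₀ hc, mul_comm, Finset.mul_sum]
  set f : (V → ℝ) → V → ℂ := fun ξ => sol N ∅ (pot σ ξ) z (bx N 0) with hf
  set a : (V → ℝ) → V → ℂ := fun ξ => sol N {0} (pot σ ξ) z (bx N 0) with ha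
  -- relation between f and a
  have r1 : ∀ ξ w, nb N (f ξ) w = (1 - f ξ 0) * nb N (a ξ) w + f ξ 0 * bx N 0 w := by
    intro ξ w
    have r := sol_remove (v := pot σ ξ) (Λ := ∅) hN hz (bx N 0) (x := 0) (by simp)
    simp only [insert_empty_eq] at r
    have : nb N (f ξ) w = nb N (a ξ) w + f ξ 0 * (bx N 0 w - nb N (a ξ) w) := by
      simp only [hf, ha]
      conv_lhs => rw [r]
      rw [nb_add, nb_smul, nb_sub, nb_single hN]
    rw [this]; ring
  have hb0 : bx N 0 (0 : V) = 0 := by unfold bx; simp [hN.zero]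
  have r2 : ∀ ξ, f ξ 0 = -(SE N ∅ (pot σ ξ) z 0) * (den σ (z + SE N ∅ (pot σ ξ) z 0) (ξ 0))⁻¹ := by
    intro ξ
    simp only [hf]
    rw [sol_eq_tau hN hz _ (by simp)]
    congr 1
    unfold tau SE
    rw [hb0, zero_sub]
  have r3 : ∀ ξ, ‖1 - f ξ 0‖ ^ 2
      = ‖den σ z (ξ 0)‖ ^ 2 * (‖den σ (z + SE N ∅ (pot σ ξ) z 0) (ξ 0)‖ ^ 2)⁻¹ := by
    intro ξ
    have him : 0 < (z + SE N ∅ (pot σ ξ) z 0).im := by
      rw [Complex.add_im]; linarith [SE_im_nonneg (Λ := ∅) hN hz (pot σ ξ) 0]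
    have hne := den_ne σ him (ξ 0)
    have : 1 - f ξ 0 = den σ z (ξ 0) * (den σ (z + SE N ∅ (pot σ ξ) z 0) (ξ 0))⁻¹ := by
      rw [r2]
      field_simp
      unfold den; ring
    rw [this, norm_mul, norm_inv, mul_pow, inv_pow]
  have n1 : ∀ w, Nice fun ξ => ‖nb N (a ξ) w‖ ^ 2 := fun w => (nice_nb hN hz _ _ _).norm.pow 2
  have n2 : ∀ w, Nice fun ξ => ‖nb N (f ξ) w‖ ^ 2 := fun w => (nice_nb hN hz _ _ _).norm.pow 2
  have n3 : Nice fun ξ => ‖1 - f ξ 0‖ ^ 2 :=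
    ((Nice.cconst 1).csub (nice_sol hN hz _ _)).norm.pow 2
  have n4 : Nice fun ξ => ‖f ξ 0‖ ^ 2 := (nice_sol hN hz _ _).norm.pow 2
  -- resampling at 0
  have s1 : ∀ w, c₀ A σ z B * ∫ ξ, ‖nb N (a ξ) w‖ ^ 2 ∂(PP V)
      ≤ ∫ ξ, ‖1 - f ξ 0‖ ^ 2 * ‖nb N (a ξ) w‖ ^ 2 ∂(PP V) := by
    intro w
    refine E_ge_of_resample 0
      (k := fun ξ t => ‖den σ z t‖ ^ 2 * (‖den σ (z + SE N ∅ (pot σ ξ) z 0) t‖ ^ 2)⁻¹)
      (n3.mul (n1 w)) (n1 w) (fun ξ => by positivity) (fun ξ t => ?_) (fun ξ => ?_)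
    · have e2 : a (Function.update ξ 0 t) = a ξ := sol_update hN hz (by simp) _ _ _
      rw [r3, e2, SE_update hN hz, Function.update_self]
    · refine ratio_ge hσ hA hz (SE_im_nonneg hN hz _ _) hre ?_
      refine (norm_SE_le hN hz _ _).trans ?_
      gcongr
  have s2 : ∀ w, ∫ ξ, ‖1 - f ξ 0‖ ^ 2 * ‖nb N (a ξ) w‖ ^ 2 ∂(PP V)
      ≤ 2 * ∫ ξ, ‖nb N (f ξ) w‖ ^ 2 ∂(PP V)
        + 2 * (‖bx N 0 w‖ ^ 2 * ∫ ξ, ‖f ξ 0‖ ^ 2 ∂(PP V)) := by
    intro w
    rw [← integral_const_mul, ← integral_const_mul, ← integral_const_mul, ← integral_add]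
    · refine integral_mono (n3.mul (n1 w)).integrable ?_ fun ξ => ?_
      · exact (((n2 w).const_mul _).add ((n4.const_mul _).const_mul _)).integrable
      · simp only
        have : (1 - f ξ 0) * nb N (a ξ) w = nb N (f ξ) w - f ξ 0 * bx N 0 w := by
          rw [r1]; ring
        calc ‖1 - f ξ 0‖ ^ 2 * ‖nb N (a ξ) w‖ ^ 2 = ‖nb N (f ξ) w - f ξ 0 * bx N 0 w‖ ^ 2 := by
              rw [← this, norm_mul, mul_pow]
          _ ≤ (‖nb N (f ξ) w‖ + ‖f ξ 0 * bx N 0 w‖) ^ 2 := by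
              gcongr; exact norm_sub_le _ _
          _ ≤ 2 * ‖nb N (f ξ) w‖ ^ 2 + 2 * ‖f ξ 0 * bx N 0 w‖ ^ 2 := by
              nlinarith [sq_nonneg (‖nb N (f ξ) w‖ - ‖f ξ 0 * bx N 0 w‖)]
          _ = _ := by rw [norm_mul, mul_pow]; ring
    · exact ((n2 w).const_mul _).integrable
    · exact ((n4.const_mul _).const_mul _).integrable
  have s3 : ∫ ξ, ‖f ξ 0‖ ^ 2 ∂(PP V) ≤ 2 / (σ * z.im) * (B * B₂ N σ z) := by
    have := second_moment (Λ := ∅) hN hσ hz (bx N 0) (x := 0) (by simp) (Nice.const 1)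
      (fun _ => zero_le_one) (fun _ _ => rfl)
    simp only [mul_one] at this
    refine this.trans ?_
    gcongr
    rw [B₂, ← integral_const_mul]
    refine integral_mono ((nice_tau hN hz _ _).norm.pow 2).integrable
      ((nice_nsq hN hz _).const_mul _).integrable fun ξ => ?_
    simp only
    unfold tau
    rw [hb0, zero_sub, norm_neg, insert_empty_eq]
    calc ‖nb N (sol N {0} (pot σ ξ) z (bx N 0)) 0‖ ^ 2
        ≤ (√(N.card : ℝ) * nrm (sol N {0} (pot σ ξ) z (bx N 0))) ^ 2 := by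
          gcongr; exact norm_nb_le hN _ _
      _ = N.card * nsq (sol N {0} (pot σ ξ) z (bx N 0)) := by
          rw [mul_pow, Real.sq_sqrt (by positivity), nrm_sq]
      _ ≤ _ := by
          have := nsq_nonneg (sol N {0} (pot σ ξ) z (bx N 0))
          gcongr
  have s4 : ∑ w, ‖bx N 0 w‖ ^ 2 ≤ B := by
    have := nsq_bx N (0 : V)
    unfold nsq at this
    rw [this]; exact hB
  have hI : 0 ≤ ∫ ξ, ‖f ξ 0‖ ^ 2 ∂(PP V) := integral_nonneg fun _ => by positivity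
  calc ∑ w, c₀ A σ z B * ∫ ξ, ‖nb N (a ξ) w‖ ^ 2 ∂(PP V)
      ≤ ∑ w, (2 * ∫ ξ, ‖nb N (f ξ) w‖ ^ 2 ∂(PP V)
        + 2 * (‖bx N 0 w‖ ^ 2 * ∫ ξ, ‖f ξ 0‖ ^ 2 ∂(PP V))) :=
        Finset.sum_le_sum fun w _ => (s1 w).trans (s2 w)
    _ = 2 * ∑ w, ∫ ξ, ‖nb N (f ξ) w‖ ^ 2 ∂(PP V)
        + 2 * ((∑ w, ‖bx N 0 w‖ ^ 2) * ∫ ξ, ‖f ξ 0‖ ^ 2 ∂(PP V)) := by
        rw [Finset.sum_add_distrib, ← Finset.mul_sum, ← Finset.mul_sum, Finset.sum_mul]
    _ ≤ 2 * B₃ N σ z + 2 * (B * (2 / (σ * z.im) * (B * B₂ N σ z))) := by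
        gcongr
        exact sum_nb_bx_le hN hz
    _ = _ := by ring

/-- Step F5 -/
lemma sum_sq_E_a0_le {A B : ℝ} (hN : Steps N) (hσ : 0 < σ) (hz : 0 < z.im) (hA : 0 ≤ A)
    (hre : |z.re| ≤ A * σ) (hB : (N.card : ℝ) ≤ B) {n : ℕ} (hn : σ ≤ z.im * 2 ^ (n + 1)) :
    ∑ w, (∫ ξ, ‖sol N {0} (pot σ ξ) z (bx N 0) w‖ ∂(PP V)) ^ 2
      ≤ m₁ σ n ^ 2 * ((2 * B + 2 * ((2 * B₃ N σ z + 2 * B * (2 / (σ * z.im) * (B * B₂ N σ z)))
        / c₀ A σ z B)) / c₀ A σ z B) := by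
  have hB0 : 0 ≤ B := (Nat.cast_nonneg _).trans hB
  have hc := c₀_pos (σ := σ) (z := z) hA hσ hz hB0
  have h0 : ∀ ξ : V → ℝ, sol N {0} (pot σ ξ) z (bx N 0) 0 = 0 := fun ξ =>
    (isSol_sol hN hz _).1 0 (by simp)
  have h1 : ∀ w : V, w ≠ 0 → (∫ ξ, ‖sol N {0} (pot σ ξ) z (bx N 0) w‖ ∂(PP V)) ^ 2
      ≤ m₁ σ n ^ 2 * ∫ ξ, ‖tau N {0} (pot σ ξ) z (bx N 0) w‖ ^ 2 ∂(PP V) := by
    intro w hw
    have h1 := first_moment (Λ := {0}) hN hσ hz hn (bx N 0) (x := w) (by simpa using hw)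
      (Nice.const 1) (fun _ => zero_le_one) (fun _ _ => rfl)
    simp only [mul_one] at h1
    have h2 := E_sq_le ((nice_tau (Λ := {0}) (σ := σ) hN hz (bx N 0) w).norm)
    calc (∫ ξ, ‖sol N {0} (pot σ ξ) z (bx N 0) w‖ ∂(PP V)) ^ 2
        ≤ (m₁ σ n * ∫ ξ, ‖tau N {0} (pot σ ξ) z (bx N 0) w‖ ∂(PP V)) ^ 2 := by
          gcongr
      _ = m₁ σ n ^ 2 * (∫ ξ, ‖tau N {0} (pot σ ξ) z (bx N 0) w‖ ∂(PP V)) ^ 2 := by ring
      _ ≤ _ := by gcongr
  have h2 : ∀ w : V, w ≠ 0 → c₀ A σ z B * ∫ ξ, ‖tau N {0} (pot σ ξ) z (bx N 0) w‖ ^ 2 ∂(PP V)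
      ≤ 2 * ‖bx N 0 w‖ ^ 2
        + 2 * ∫ ξ, ‖nb N (sol N {0} (pot σ ξ) z (bx N 0)) w‖ ^ 2 ∂(PP V) := by
    intro w hw
    refine (residual_ge hN hσ hz hA hre hB _ (by simpa using hw)).trans ?_
    have hn : Nice fun ξ : V → ℝ => ‖nb N (sol N {0} (pot σ ξ) z (bx N 0)) w‖ ^ 2 :=
      (nice_nb hN hz _ _ _).norm.pow 2
    calc ∫ ξ, ‖bx N 0 w - nb N (sol N {0} (pot σ ξ) z (bx N 0)) w‖ ^ 2 ∂(PP V)
        ≤ ∫ ξ, (2 * ‖bx N 0 w‖ ^ 2
          + 2 * ‖nb N (sol N {0} (pot σ ξ) z (bx N 0)) w‖ ^ 2) ∂(PP V) := by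
          refine integral_mono ?_ ((Nice.const _).add (hn.const_mul _)).integrable fun ξ => ?_
          · exact (((Nice.cconst _).csub (nice_nb hN hz _ _ _)).norm.pow 2).integrable
          · simp only
            have h3 := norm_sub_le (bx N 0 w) (nb N (sol N {0} (pot σ ξ) z (bx N 0)) w)
            have h4 := norm_nonneg (bx N 0 w - nb N (sol N {0} (pot σ ξ) z (bx N 0)) w)
            nlinarith [sq_nonneg (‖bx N 0 w‖ - ‖nb N (sol N {0} (pot σ ξ) z (bx N 0)) w‖)]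
      _ = _ := by
          rw [integral_add (integrable_const _) (hn.const_mul _).integrable]
          simp only [integral_const_mul, integral_const, probReal_univ, one_smul]
  have h3 : ∑ w, ‖bx N 0 w‖ ^ 2 ≤ B := by
    have := nsq_bx N (0 : V)
    unfold nsq at this
    rw [this]; exact hB
  have h4 : ∑ w ∈ univ.erase (0 : V), ∫ ξ, ‖tau N {0} (pot σ ξ) z (bx N 0) w‖ ^ 2 ∂(PP V)
      ≤ (2 * B + 2 * ((2 * B₃ N σ z + 2 * B * (2 / (σ * z.im) * (B * B₂ N σ z)))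
        / c₀ A σ z B)) / c₀ A σ z B := by
    rw [le_div_iff₀ hc, mul_comm, Finset.mul_sum]
    calc ∑ w ∈ univ.erase (0 : V),
          c₀ A σ z B * ∫ ξ, ‖tau N {0} (pot σ ξ) z (bx N 0) w‖ ^ 2 ∂(PP V)
        ≤ ∑ w ∈ univ.erase (0 : V), (2 * ‖bx N 0 w‖ ^ 2
          + 2 * ∫ ξ, ‖nb N (sol N {0} (pot σ ξ) z (bx N 0)) w‖ ^ 2 ∂(PP V)) :=
          Finset.sum_le_sum fun w hw => h2 w (Finset.ne_of_mem_erase hw)
      _ ≤ ∑ w, (2 * ‖bx N 0 w‖ ^ 2
          + 2 * ∫ ξ, ‖nb N (sol N {0} (pot σ ξ) z (bx N 0)) w‖ ^ 2 ∂(PP V)) := by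
          refine Finset.sum_le_sum_of_subset_of_nonneg (Finset.erase_subset _ _) fun x _ _ => ?_
          have : 0 ≤ ∫ ξ, ‖nb N (sol N {0} (pot σ ξ) z (bx N 0)) x‖ ^ 2 ∂(PP V) :=
            integral_nonneg fun _ => by positivity
          positivity
      _ = 2 * ∑ w, ‖bx N 0 w‖ ^ 2
          + 2 * ∑ w, ∫ ξ, ‖nb N (sol N {0} (pot σ ξ) z (bx N 0)) w‖ ^ 2 ∂(PP V) := by
          rw [Finset.sum_add_distrib, ← Finset.mul_sum, ← Finset.mul_sum]
      _ ≤ _ := by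
          gcongr
          exact sum_nb_removed_le hN hσ hz hA hre hB
  calc ∑ w, (∫ ξ, ‖sol N {0} (pot σ ξ) z (bx N 0) w‖ ∂(PP V)) ^ 2
      = ∑ w ∈ univ.erase (0 : V),
        (∫ ξ, ‖sol N {0} (pot σ ξ) z (bx N 0) w‖ ∂(PP V)) ^ 2 := by
        rw [← Finset.add_sum_erase _ _ (mem_univ (0 : V))]
        simp [h0]
    _ ≤ ∑ w ∈ univ.erase (0 : V),
        m₁ σ n ^ 2 * ∫ ξ, ‖tau N {0} (pot σ ξ) z (bx N 0) w‖ ^ 2 ∂(PP V) :=
        Finset.sum_le_sum fun w hw => h1 w (Finset.ne_of_mem_erase hw)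
    _ = m₁ σ n ^ 2 * ∑ w ∈ univ.erase (0 : V),
        ∫ ξ, ‖tau N {0} (pot σ ξ) z (bx N 0) w‖ ^ 2 ∂(PP V) := by rw [Finset.mul_sum]
    _ ≤ _ := by gcongr

/-- Step F6 -/
lemma E_coupling_le {L : ℕ} {N₁ : Finset V} {e : V} {ℓ : V →+ ZMod L} (h : Lay N N₁ e ℓ)
    (hz : 0 < z.im) :
    ∫ ξ, ‖∑ w, sol N₁ {e, 0} (pot σ ξ) z (bx N₁ 0) w
        * sol N₁ {e, 0} (pot σ ξ) z (bx N₁ e) (w + e)‖ ∂(PP V)
      ≤ ∑ w, (∫ ξ, ‖sol N₁ {0} (pot σ ξ) z (bx N₁ 0) w‖ ∂(PP V)) ^ 2 := by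
  have hN₁ := h.s1
  have e0 : ∀ ξ : V → ℝ, sol N₁ {e, 0} (pot σ ξ) z (bx N₁ 0)
      = sol N₁ {0} (pot σ ξ) z (bx N₁ 0) := fun ξ => by
    refine h.sol_bx_congr hz (fun _ _ _ => rfl) fun w hw => ?_
    rw [map_zero] at hw
    have : w ≠ e := fun hh => by rw [hh, h.le] at hw; exact h.h0 hw
    simp [this]
  have e1 : ∀ ξ : V → ℝ, sol N₁ {e, 0} (pot σ ξ) z (bx N₁ e)
      = sol N₁ {e} (pot σ ξ) z (bx N₁ e) := fun ξ => by
    refine h.sol_bx_congr hz (fun _ _ _ => rfl) fun w hw => ?_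
    have : w ≠ 0 := fun hh => by
      rw [hh, map_zero, h.le] at hw; exact h.h0 hw.symm
    simp [this]
  simp only [e0, e1]
  have n0 : ∀ w, Nice fun ξ : V → ℝ => ‖sol N₁ {0} (pot σ ξ) z (bx N₁ 0) w‖ :=
    fun w => (nice_sol hN₁ hz _ _).norm
  have n1 : ∀ w, Nice fun ξ : V → ℝ => ‖sol N₁ {e} (pot σ ξ) z (bx N₁ e) (w + e)‖ :=
    fun w => (nice_sol hN₁ hz _ _).norm
  have i1 : ∀ w, ∫ ξ, ‖sol N₁ {0} (pot σ ξ) z (bx N₁ 0) w‖
        * ‖sol N₁ {e} (pot σ ξ) z (bx N₁ e) (w + e)‖ ∂(PP V)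
      = (∫ ξ, ‖sol N₁ {0} (pot σ ξ) z (bx N₁ 0) w‖ ∂(PP V)) ^ 2 := by
    intro w
    rw [integral_mul_of_indep (S := univ.filter fun x => ℓ x = 0)
      (T := univ.filter fun x => ℓ x = 1) ?_ (n0 w) (n1 w) ?_ ?_, pow_two]
    · congr 1
      rw [← E_shift e (n0 w)]
      refine integral_congr_ae (Filter.Eventually.of_forall fun ξ => ?_)
      simp only
      have := sol_shift_bx (σ := σ) (Λ := ({e} : Finset V)) (Λ' := {0}) hN₁ hz e e ξ
        (by simp) w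
      rw [sub_self] at this
      rw [this]
    · rw [Finset.disjoint_filter]
      intro x _ hx hx1
      rw [hx] at hx1; exact h.h0 hx1.symm
    · intro ξ ξ' hξ
      have : sol N₁ {0} (pot σ ξ) z (bx N₁ 0) = sol N₁ {0} (pot σ ξ') z (bx N₁ 0) := by
        refine h.sol_bx_congr hz (fun x hx _ => ?_) fun _ _ => Iff.rfl
        unfold pot
        rw [hξ x (by simpa using hx)]
      simp only [this]
    · intro ξ ξ' hξ
      have : sol N₁ {e} (pot σ ξ) z (bx N₁ e) = sol N₁ {e} (pot σ ξ') z (bx N₁ e) := by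
        refine h.sol_bx_congr hz (fun x hx _ => ?_) fun _ _ => Iff.rfl
        unfold pot
        rw [hξ x (by rw [h.le] at hx; simpa using hx)]
      simp only [this]
  calc ∫ ξ, ‖∑ w, sol N₁ {0} (pot σ ξ) z (bx N₁ 0) w
        * sol N₁ {e} (pot σ ξ) z (bx N₁ e) (w + e)‖ ∂(PP V)
      ≤ ∫ ξ, ∑ w, ‖sol N₁ {0} (pot σ ξ) z (bx N₁ 0) w‖
        * ‖sol N₁ {e} (pot σ ξ) z (bx N₁ e) (w + e)‖ ∂(PP V) := by
        refine integral_mono_of_nonneg (Filter.Eventually.of_forall fun ξ => norm_nonneg _)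
          (Nice.sum _ fun w _ => (n0 w).mul (n1 w)).integrable
          (Filter.Eventually.of_forall fun ξ => ?_)
        refine (norm_sum_le _ _).trans (Finset.sum_le_sum fun w _ => ?_)
        rw [norm_mul]
    _ = ∑ w, ∫ ξ, ‖sol N₁ {0} (pot σ ξ) z (bx N₁ 0) w‖
        * ‖sol N₁ {e} (pot σ ξ) z (bx N₁ e) (w + e)‖ ∂(PP V) :=
        integral_finsetSum _ fun w _ => ((n0 w).mul (n1 w)).integrable
    _ = _ := by simp only [i1]

end Pool.Agent.H989
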