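import Pool.Agent.H989.Inf2

/-!
Final assembly.
-/

set_option linter.unusedSectionVars false
set_option linter.unusedVariables false
set_option maxRecDepth 20000

open MeasureTheory ProbabilityTheory Finset Filter Topology
open scoped ComplexConjugate ENNReal

namespace Pool.Agent.H989

/-- what we need from the parameters -/
structure Good' (A : ℝ) (d : ℕ) (σ y q : ℝ) (m : ℕ) : Prop where
  hd : 2 ≤ d
  q0 : 0 < q
  q1 : q ≤ 1
  par : ∀ E : ℝ, |E| ≤ A * σ → Par A σ q (2 * d) (en (q ^ 16) E)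
  m1 : (2:ℝ) ^ m ≤ 1 / q ^ 2
  m2 : 32 ≤ m * (d * gaussianPDFReal 0 1 (A + 2) / (2 * σ))
  y2 : 50000 ≤ y
  yd : y ^ 8000 = d
  yσ : d / y ≤ σ
  yq : 4 * (8 * A + 132) * q * y ^ 2 ≤ 1

/-- basic facts on `y = d ^ (1 / 8000)` and `q = (2 d) ^ (- 1 / 2000)` -/
lemma basic_yq {d Y₀ : ℝ} (hY : 50000 ≤ Y₀) (hd : Y₀ ^ 8000 ≤ d) :
    ∃ y q : ℝ, y = d ^ (1 / 8000 : ℝ) ∧ y ^ 8000 = d ∧ Y₀ ≤ y ∧ 0 < q ∧ q ≤ 1 / y ^ 4
      ∧ 2 * d * q ^ 2000 = 1 ∧ 50000 ≤ d := by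
  have hY0 : 0 ≤ Y₀ := le_trans (by norm_num) hY
  have hd1 : Y₀ ≤ d := le_trans (le_self_pow₀ (le_trans (by norm_num) hY) (by decide)) hd
  have hd5 : 50000 ≤ d := hY.trans hd1
  have hd0 : 0 < d := lt_of_lt_of_le (by norm_num) hd5
  have h2d : 0 < 2 * d := mul_pos two_pos hd0
  obtain ⟨y, hy⟩ : ∃ y : ℝ, y = d ^ (1 / 8000 : ℝ) := ⟨_, rfl⟩
  obtain ⟨q, hq⟩ : ∃ q : ℝ, q = (2 * d) ^ (-(1 / 2000) : ℝ) := ⟨_, rfl⟩
  have hy0 : 0 < y := by rw [hy]; exact Real.rpow_pos_of_pos hd0 _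
  have hq0 : 0 < q := by rw [hq]; exact Real.rpow_pos_of_pos h2d _
  have hyd : y ^ 8000 = d := by
    rw [hy, ← Real.rpow_natCast, ← Real.rpow_mul hd0.le]
    have : (1 / 8000 : ℝ) * ((8000 : ℕ) : ℝ) = 1 := by norm_num
    rw [this, Real.rpow_one]
  have hqK : q ^ 2000 = (2 * d)⁻¹ := by
    rw [hq, ← Real.rpow_natCast, ← Real.rpow_mul h2d.le, ← Real.rpow_neg_one]
    have : (-(1 / 2000) : ℝ) * ((2000 : ℕ) : ℝ) = -1 := by norm_num
    rw [this]
  have hyY : Y₀ ≤ y := by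
    rw [← hyd] at hd
    exact (pow_le_pow_iff_left₀ hY0 hy0.le (by decide)).1 hd
  have hq4 : q ≤ 1 / y ^ 4 := by
    have h3 : (1 / y ^ 4) ^ 2000 = 1 / d := by
      rw [div_pow, one_pow, ← pow_mul, ← hyd]
    have : q ^ 2000 ≤ (1 / y ^ 4) ^ 2000 := by
      rw [h3, hqK, one_div]
      exact inv_anti₀ hd0 (by linarith)
    exact (pow_le_pow_iff_left₀ hq0.le (by positivity) (by decide)).1 this
  refine ⟨y, q, hy, hyd, hyY, hq0, hq4, ?_, hd5⟩
  rw [hqK]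
  exact mul_inv_cancel₀ h2d.ne'

/-- the number of scales -/
lemma basic_m {y q : ℝ} (hy : 50000 ≤ y) (hq : 0 < q) (hq4 : q ≤ 1 / y ^ 4) :
    ∃ m : ℕ, (2:ℝ) ^ m ≤ 1 / q ^ 2 ∧ 4 * Real.log y ≤ m := by
  have hy0 : 0 < y := by linarith
  have hy1' : 1 ≤ y := by linarith
  have hl1 : 1 ≤ Real.log y := by
    rw [Real.le_log_iff_exp_le hy0]
    have := Real.exp_one_lt_d9
    linarith
  have hq2 : y ^ 8 ≤ 1 / q ^ 2 := by
    rw [le_div_iff₀ (by positivity)]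
    calc y ^ 8 * q ^ 2 ≤ y ^ 8 * (1 / y ^ 4) ^ 2 := by gcongr
      _ = 1 := by field_simp
  set m := Nat.log 2 ⌊1 / q ^ 2⌋₊ with hm
  have hx1 : (1:ℝ) ≤ 1 / q ^ 2 := le_trans (one_le_pow₀ hy1') hq2
  have hfl : ⌊1 / q ^ 2⌋₊ ≠ 0 := by
    have : 1 ≤ ⌊1 / q ^ 2⌋₊ := Nat.le_floor (by simpa using hx1)
    omega
  have hup : 1 / q ^ 2 ≤ 2 ^ (m + 1) := by
    have h1 : ⌊1 / q ^ 2⌋₊ < 2 ^ (m + 1) := Nat.lt_pow_succ_log_self (by norm_num) _
    have h2 := Nat.lt_floor_add_one (1 / q ^ 2)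
    have h3 : ⌊1 / q ^ 2⌋₊ + 1 ≤ 2 ^ (m + 1) := h1
    have h4 : ((⌊1 / q ^ 2⌋₊ : ℝ) + 1) ≤ 2 ^ (m + 1) := by exact_mod_cast h3
    linarith
  have hlo : (2:ℝ) ^ m ≤ 1 / q ^ 2 := by
    have h1 : 2 ^ m ≤ ⌊1 / q ^ 2⌋₊ := Nat.pow_log_le_self 2 hfl
    have h2 : ((2:ℝ) ^ m) ≤ (⌊1 / q ^ 2⌋₊ : ℝ) := by exact_mod_cast h1
    exact h2.trans (Nat.floor_le (by positivity))
  refine ⟨m, hlo, ?_⟩
  have h3 : 8 * Real.log y ≤ (m + 1) * Real.log 2 := by
    have := Real.log_le_log (by positivity) (hq2.trans hup)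
    rw [Real.log_pow, Real.log_pow] at this
    push_cast at this
    exact this
  have h4 : Real.log 2 < 1 := by
    have := Real.log_two_lt_d9; linarith
  have h5 : 8 * Real.log y ≤ m + 1 := by
    refine h3.trans ?_
    have : (0:ℝ) ≤ m + 1 := by positivity
    nlinarith
  linarith

/-- numerical inequalities -/
lemma basic_num {A p y q d σ l : ℝ} (hA : 0 ≤ A) (hp : 0 < p) (hp2 : p ≤ 1)
    (hyA : 50000 + 4 / p + 4 * (8 * A + 132) ≤ y) (hq : 0 < q) (hq4 : q ≤ 1 / y ^ 4) (hd : 0 < d)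
    (hσ1 : d / y ≤ σ) (hσ2 : σ ≤ p / 128000 * (d * (8000 * l))) (hl1 : 1 ≤ l) (hly : l ≤ y) :
    q ≤ 1 / 50000 ∧ 4 * q ≤ p ∧ (2 * A + 3) * q ≤ 1 ∧ q * (2 * d) ≤ σ ∧ σ * q ≤ 2 * d
      ∧ 8 / l ≤ d * p / (2 * σ) ∧ 4 * (8 * A + 132) * q * y ^ 2 ≤ 1 := by
  have h4p : 0 < 4 / p := by positivity
  have hy1 : 50000 ≤ y := by nlinarith
  have hy0 : 0 < y := by linarith
  have hy1' : 1 ≤ y := by linarith
  have hq4' : q * y ^ 4 ≤ 1 := by rwa [le_div_iff₀ (by positivity)] at hq4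
  have hqy : q ≤ 1 / y := by
    refine hq4.trans ?_
    exact one_div_le_one_div_of_le hy0 (le_self_pow₀ hy1' (by norm_num))
  have hqy' : q * y ≤ 1 := by rwa [le_div_iff₀ hy0] at hqy
  have hσ0 : 0 < σ := lt_of_lt_of_le (by positivity) hσ1
  refine ⟨hqy.trans (one_div_le_one_div_of_le (by norm_num) hy1), ?_, ?_, ?_, ?_, ?_, ?_⟩
  · have h3 : 4 / p ≤ y := by nlinarith
    have h4 : 4 / y ≤ p := by
      rw [div_le_iff₀ hp] at h3
      rw [div_le_iff₀ hy0]; linarith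
    calc 4 * q ≤ 4 * (1 / y) := by gcongr
      _ = 4 / y := by ring
      _ ≤ p := h4
  · have h3 : 2 * A + 3 ≤ y := by nlinarith
    calc (2 * A + 3) * q ≤ y * q := by gcongr
      _ = q * y := mul_comm _ _
      _ ≤ 1 := hqy'
  · refine le_trans ?_ hσ1
    rw [le_div_iff₀ hy0]
    have h4 : 2 * (q * y) ≤ 1 := by
      have : 2 * (q * y) ≤ (q * y) * y ^ 3 := by
        have h5 : (2:ℝ) ≤ y ^ 3 := by
          have := one_le_pow₀ hy1' (n := 2)
          nlinarith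
        have h6 : 0 < q * y := by positivity
        nlinarith
      calc 2 * (q * y) ≤ (q * y) * y ^ 3 := this
        _ = q * y ^ 4 := by ring
        _ ≤ 1 := hq4'
    calc q * (2 * d) * y = (2 * (q * y)) * d := by ring
      _ ≤ 1 * d := by gcongr
      _ = d := one_mul _
  · calc σ * q ≤ (p / 128000 * (d * (8000 * l))) * (1 / y) := by gcongr
      _ = p * d * (l / y) / 16 := by ring
      _ ≤ 1 * d * 1 / 16 := by
          have : l / y ≤ 1 := by rw [div_le_one hy0]; exact hly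
          have : 0 ≤ l / y := by positivity
          gcongr
      _ ≤ 2 * d := by linarith
  · rw [div_le_div_iff₀ (by linarith) (by positivity)]
    calc 8 * (2 * σ) = 16 * σ := by ring
      _ ≤ 16 * (p / 128000 * (d * (8000 * l))) := by gcongr
      _ = d * p * l := by ring
  · have h3 : 4 * (8 * A + 132) ≤ y := by nlinarith
    calc 4 * (8 * A + 132) * q * y ^ 2 ≤ y * q * y ^ 2 := by gcongr
      _ = (q * y ^ 3) * 1 := by ring
      _ ≤ (q * y ^ 3) * y := by gcongr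
      _ = q * y ^ 4 := by ring
      _ ≤ 1 := hq4'

lemma exists_par (A : ℝ) (hA : 0 ≤ A) : ∃ d₀ : ℕ, ∀ d : ℕ, d₀ ≤ d → ∀ σ : ℝ,
    (d:ℝ) ^ (1 - 1 / 8000 : ℝ) ≤ σ →
    σ ≤ gaussianPDFReal 0 1 (A + 2) / 128000 * (d * Real.log d) →
    ∃ (q : ℝ) (m : ℕ), Good' A d σ ((d:ℝ) ^ (1 / 8000 : ℝ)) q m := by
  obtain ⟨p, hpd⟩ : ∃ p, p = gaussianPDFReal 0 1 (A + 2) := ⟨_, rfl⟩
  have hp : 0 < p := by rw [hpd]; exact pdf_pos _
  have hp2 : p ≤ 1 := by rw [hpd]; exact (pdf_le _).trans (by norm_num)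
  rw [← hpd]
  obtain ⟨Y₀, hY₀⟩ : ∃ Y₀ : ℝ, Y₀ = 50000 + 4 / p + 4 * (8 * A + 132) := ⟨_, rfl⟩
  have hY0 : 50000 ≤ Y₀ := by
    have : 0 ≤ 4 / p := by positivity
    rw [hY₀]; nlinarith
  refine ⟨⌈Y₀ ^ 8000⌉₊, fun d hd σ h1 h2 => ?_⟩
  have hdY : Y₀ ^ 8000 ≤ (d : ℝ) := (Nat.le_ceil _).trans (by exact_mod_cast hd)
  obtain ⟨y, q, hy, hyd, hyY, hq, hq4, hqK, hd5⟩ := basic_yq hY0 hdY
  clear hdY hd
  have hd0 : (0:ℝ) < d := by linarith
  have hy1 : 50000 ≤ y := hY0.trans hyY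
  have hy0 : 0 < y := by linarith
  obtain ⟨m, hm1, hm2⟩ := basic_m hy1 hq hq4
  have hσ1 : d / y ≤ σ := by
    refine le_trans (le_of_eq ?_) h1
    rw [Real.rpow_sub hd0, Real.rpow_one, hy]
  have hld : Real.log d = 8000 * Real.log y := by
    rw [← hyd, Real.log_pow]; norm_num
  rw [hld] at h2
  have hl1 : 1 ≤ Real.log y := by
    rw [Real.le_log_iff_exp_le hy0]
    have := Real.exp_one_lt_d9
    linarith
  have hly : Real.log y ≤ y := by
    have := Real.log_le_sub_one_of_pos hy0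
    linarith
  rw [hY₀] at hyY
  obtain ⟨n1, n2, n3, n4, n5, n6, n7⟩ := basic_num hA hp hp2 hyY hq hq4 hd0 hσ1 h2 hl1 hly
  refine ⟨q, m, ?_⟩
  rw [← hy]
  refine ⟨?_, hq, n1.trans (by norm_num), fun E hE => ?_, hm1, ?_, hy1, hyd, hσ1, n7⟩
  · have : (2:ℝ) ≤ d := by linarith
    exact_mod_cast this
  · exact ⟨hA, hq, n1, by rw [← hpd]; exact n2, n3, hqK, n4, n5, rfl, hE⟩
  · rw [← hpd]
    have hl0 : 0 < Real.log y := by linarith
    calc (32:ℝ) = 4 * Real.log y * (8 / Real.log y) := by field_simp; norm_num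
      _ ≤ m * (d * p / (2 * σ)) := by
          gcongr

/-- the good set of potentials -/
def GG {d : ℕ} (a : Zd d) (A σ q y : ℝ) : Set (Zd d → ℝ) :=
  {ω | YY a A σ q ω ≤ ENNReal.ofReal (1 / (4 * y))}

lemma GG_meas {d : ℕ} (a : Zd d) {A σ q y : ℝ} (hq : 0 < q) : MeasurableSet (GG a A σ q y) :=
  measurableSet_le (measurable_YY a hq) measurable_const

lemma GG_prob {d : ℕ} (a : Zd d) {A σ q y : ℝ} {m : ℕ} (hA : 0 ≤ A) (g : Good' A d σ y q m) :
    1 - 1 / y ≤ (law d).real (GG a A σ q y) := by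
  have hy : 0 < y := lt_of_lt_of_le (by norm_num) g.y2
  have hq := g.q0
  have hd : (0:ℝ) < d := by
    have := g.hd
    have : 0 < d := by omega
    exact_mod_cast this
  have hσ : 0 < σ := lt_of_lt_of_le (by positivity) g.yσ
  have hl := lint_YY g.hd hA hσ hq g.par g.m1 g.m2 a
  have hm := GG_meas (d := d) a (A := A) (σ := σ) (y := y) hq
  have hc : (law d) (GG a A σ q y)ᶜ ≤ ENNReal.ofReal (1 / y) := by
    have h1 : ENNReal.ofReal (1 / (4 * y)) * (law d) (GG a A σ q y)ᶜ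
        ≤ ENNReal.ofReal ((8 * A + 132) * q) := by
      refine le_trans ?_ hl
      refine le_trans ?_ (mul_meas_ge_le_lintegral (measurable_YY a hq)
        (ENNReal.ofReal (1 / (4 * y))))
      gcongr
      intro ω hω
      have : ¬ (YY a A σ q ω ≤ ENNReal.ofReal (1 / (4 * y))) := hω
      exact (not_le.1 this).le
    have h2 : (law d) (GG a A σ q y)ᶜ ≤ ENNReal.ofReal ((8 * A + 132) * q)
        / ENNReal.ofReal (1 / (4 * y)) := by
      rw [ENNReal.le_div_iff_mul_le]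
      · rw [mul_comm]; exact h1
      · left; simp [hy]
      · left; exact ENNReal.ofReal_ne_top
    refine h2.trans ?_
    rw [← ENNReal.ofReal_div_of_pos (by positivity)]
    apply ENNReal.ofReal_le_ofReal
    have := g.yq
    rw [le_div_iff₀ hy]
    calc (8 * A + 132) * q / (1 / (4 * y)) * y = 4 * (8 * A + 132) * q * y ^ 2 := by
          field_simp
      _ ≤ 1 := g.yq
  have h3 : (law d).real (GG a A σ q y)ᶜ ≤ 1 / y := by
    rw [Measure.real]
    exact ENNReal.toReal_le_of_le_ofReal (by positivity) hc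
  have h4 := probReal_compl_eq_one_sub (μ := law d) hm
  linarith

/-- on the good set, for nonnegative coupling -/
lemma GG_bound {d : ℕ} (a : Zd d) {A' σ q y : ℝ} {m : ℕ} (hA' : 0 ≤ A')
    (g : Good' (A' + 1) d σ y q m) {ω : Zd d → ℝ} (hω : ω ∈ GG a (A' + 1) σ q y)
    {ι : Type} [Fintype ι] (u : ι → L2 d) (hu : Orthonormal ℂ u)
    {Ej : ι → ℝ} (h : ∀ j x, anderson σ ω (u j) x = Ej j * u j x)
    (hE : ∀ j, |Ej j| ≤ A' * σ) : ∑ j, ‖u j a‖ ^ 4 ≤ 1 / (2 * y) := by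
  have hy : 0 < y := lt_of_lt_of_le (by norm_num) g.y2
  have hd : (0:ℝ) < d := by
    have := g.hd
    have : 0 < d := by omega
    exact_mod_cast this
  have hσ : 0 < σ := lt_of_lt_of_le (by positivity) g.yσ
  have par0 := g.par 0 (by rw [abs_zero]; positivity)
  have hσ1 := par0.one_le_σ
  have hq16 : q ^ 16 ≤ 1 := pow_le_one₀ g.q0.le g.q1
  have := YY_ge (A := A' + 1) (A' := A') g.q0 (by nlinarith) u hu h hE a
  have h2 := this.trans hω
  rw [ENNReal.ofReal_le_ofReal_iff (by positivity)] at h2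
  have : 1 / (4 * y) = 1 / (2 * y) / 2 := by field_simp; norm_num
  rw [this] at h2
  linarith

/-! ### the sign of the coupling -/

/-- the staggered sign -/
noncomputable def sg {d : ℕ} (x : Zd d) : ℂ := (-1 : ℂ) ^ (∑ i, x i)

lemma sg_add {d : ℕ} (x : Zd d) (i : Fin d) : sg (x + Pi.single i 1) = - sg x := by
  unfold sg
  simp only [Pi.add_apply, Finset.sum_add_distrib, Finset.sum_pi_single', mem_univ, if_true]
  rw [zpow_add₀ (by norm_num)]; simp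

lemma sg_sub {d : ℕ} (x : Zd d) (i : Fin d) : sg (x - Pi.single i 1) = - sg x := by
  unfold sg
  simp only [Pi.sub_apply, Finset.sum_sub_distrib, Finset.sum_pi_single', mem_univ, if_true]
  rw [zpow_sub₀ (by norm_num), zpow_one, div_neg, div_one]

lemma norm_sg {d : ℕ} (x : Zd d) : ‖sg x‖ = 1 := by
  unfold sg; rw [norm_zpow]; simp

lemma flip_mem {d : ℕ} (u : L2 d) : Memℓp (fun x : Zd d => sg x * u x) 2 := by
  have h := lp.memℓp u
  rw [memℓp_gen_iff (by norm_num)] at h ⊢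
  simpa only [norm_mul, norm_sg, one_mul] using h

/-- multiplication by the staggered sign -/
noncomputable def flip {d : ℕ} (u : L2 d) : L2 d := ⟨fun x => sg x * u x, flip_mem u⟩

lemma flip_apply {d : ℕ} (u : L2 d) (x : Zd d) : flip u x = sg x * u x := rfl

lemma inner_flip {d : ℕ} (u v : L2 d) : inner ℂ (flip u) (flip v) = inner ℂ u v := by
  rw [lp.inner_eq_tsum, lp.inner_eq_tsum]
  refine tsum_congr fun x => ?_
  simp only [flip_apply, RCLike.inner_apply, map_mul]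
  have : conj (sg x) * sg x = 1 := by
    rw [Complex.conj_mul', norm_sg]; norm_num
  linear_combination (v x * conj (u x)) * this

lemma orthonormal_flip {d : ℕ} {ι : Type} (u : ι → L2 d) (hu : Orthonormal ℂ u) :
    Orthonormal ℂ fun j => flip (u j) := by
  classical
  rw [orthonormal_iff_ite] at hu ⊢
  intro i j
  rw [inner_flip]; exact hu i j

lemma anderson_flip {d : ℕ} {σ : ℝ} {ω : Zd d → ℝ} {u : L2 d} {E : ℝ}
    (h : ∀ x, anderson σ ω u x = E * u x) (x : Zd d) :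
    anderson (-σ) ω (flip u) x = ((-E : ℝ) : ℂ) * flip u x := by
  have h1 := h x
  unfold anderson at h1 ⊢
  simp only [flip_apply, sg_add, sg_sub]
  have : ∑ i, (-sg x * u (x + Pi.single i 1) + -sg x * u (x - Pi.single i 1))
      = -sg x * ∑ i, (u (x + Pi.single i 1) + u (x - Pi.single i 1)) := by
    rw [Finset.mul_sum]; exact Finset.sum_congr rfl fun i _ => by ring
  rw [this]
  push_cast at h1 ⊢
  linear_combination (-sg x) * h1

lemma GG_bound_abs {d : ℕ} (a : Zd d) {A' σ q y : ℝ} {m : ℕ} (hA' : 0 ≤ A')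
    (g : Good' (A' + 1) d |σ| y q m) {ω : Zd d → ℝ} (hω : ω ∈ GG a (A' + 1) |σ| q y)
    {ι : Type} [Fintype ι] (u : ι → L2 d) (hu : Orthonormal ℂ u)
    {Ej : ι → ℝ} (h : ∀ j x, anderson σ ω (u j) x = Ej j * u j x)
    (hE : ∀ j, |Ej j| ≤ A' * |σ|) : ∑ j, ‖u j a‖ ^ 4 ≤ 1 / (2 * y) := by
  rcases abs_choice σ with hs | hs
  · rw [hs] at g hω hE
    exact GG_bound a hA' g hω u hu h hE
  · have h1 : ∀ j x, anderson |σ| ω (flip (u j)) x = ((-Ej j : ℝ) : ℂ) * flip (u j) x := by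
      intro j x
      rw [hs]
      exact anderson_flip (h j) x
    have := GG_bound a hA' g hω (fun j => flip (u j)) (orthonormal_flip u hu)
      (Ej := fun j => -Ej j) h1 (fun j => by rw [abs_neg]; exact hE j)
    simpa only [flip_apply, norm_mul, norm_sg, one_mul] using this

/-! ### large energies -/

/-- Bessel at a site -/
lemma bessel_site {d : ℕ} (a : Zd d) {ι : Type} [Fintype ι] (u : ι → L2 d)
    (hu : Orthonormal ℂ u) : ∑ j, ‖u j a‖ ^ 2 ≤ 1 := by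
  have h := hu.sum_inner_products_le (lp.single 2 a (1:ℂ)) (s := univ)
  rw [lp.norm_single (by norm_num)] at h
  simp only [norm_one, one_pow] at h
  refine le_trans (le_of_eq ?_) h
  refine Finset.sum_congr rfl fun j _ => ?_
  rw [lp.inner_single_right]
  simp

lemma norm_unit {d : ℕ} {ι : Type} {u : ι → L2 d} (hu : Orthonormal ℂ u) (j : ι) :
    ∑' x, ‖u j x‖ ^ 2 = 1 := by
  have h := lp.norm_rpow_eq_tsum (p := 2) (by norm_num) (u j)
  rw [hu.1 j] at h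
  simp only [ENNReal.toReal_ofNat, Real.rpow_ofNat, one_pow] at h
  exact h.symm

lemma sum_nbr_le {d : ℕ} (a : Zd d) {u : Zd d → ℂ} (hs : Summable fun x => ‖u x‖ ^ 2)
    (h1 : ∑' x, ‖u x‖ ^ 2 = 1) :
    ‖∑ i, (u (a + Pi.single i 1) + u (a - Pi.single i 1))‖ ^ 2 ≤ 4 * d := by
  have hinj1 : Function.Injective fun i : Fin d => a + Pi.single (M := fun _ => ℤ) i 1 := by
    intro i j hij
    have := add_left_cancel hij
    by_contra hne
    have h2 := congrFun this i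
    rw [Pi.single_eq_same, Pi.single_eq_of_ne hne] at h2
    exact one_ne_zero h2
  have hinj2 : Function.Injective fun i : Fin d => a - Pi.single (M := fun _ => ℤ) i 1 := by
    intro i j hij
    have := sub_right_injective hij
    by_contra hne
    have h2 := congrFun this i
    rw [Pi.single_eq_same, Pi.single_eq_of_ne hne] at h2
    exact one_ne_zero h2
  have s1 : ∑ i : Fin d, ‖u (a + Pi.single i 1)‖ ^ 2 ≤ 1 := by
    rw [← h1, ← Finset.sum_image (f := fun x => ‖u x‖ ^ 2) fun i _ j _ h => hinj1 h]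
    exact hs.sum_le_tsum _ fun x _ => by positivity
  have s2 : ∑ i : Fin d, ‖u (a - Pi.single i 1)‖ ^ 2 ≤ 1 := by
    rw [← h1, ← Finset.sum_image (f := fun x => ‖u x‖ ^ 2) fun i _ j _ h => hinj2 h]
    exact hs.sum_le_tsum _ fun x _ => by positivity
  have cs : ∀ f : Fin d → ℝ, (∑ i, f i) ^ 2 ≤ d * ∑ i, f i ^ 2 := fun f => by
    have := sq_sum_le_card_mul_sum_sq (s := (univ : Finset (Fin d))) (f := f)
    simpa using this
  calc ‖∑ i, (u (a + Pi.single i 1) + u (a - Pi.single i 1))‖ ^ 2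
      ≤ (∑ i, (‖u (a + Pi.single i 1)‖ + ‖u (a - Pi.single i 1)‖)) ^ 2 := by
        gcongr
        exact (norm_sum_le _ _).trans (Finset.sum_le_sum fun i _ => norm_add_le _ _)
    _ ≤ d * ∑ i, (‖u (a + Pi.single i 1)‖ + ‖u (a - Pi.single i 1)‖) ^ 2 := cs _
    _ ≤ d * ∑ i, (2 * ‖u (a + Pi.single i 1)‖ ^ 2 + 2 * ‖u (a - Pi.single i 1)‖ ^ 2) := by
        gcongr with i _
        nlinarith [sq_nonneg (‖u (a + Pi.single i 1)‖ - ‖u (a - Pi.single i 1)‖)]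
    _ = d * (2 * ∑ i, ‖u (a + Pi.single i 1)‖ ^ 2 + 2 * ∑ i, ‖u (a - Pi.single i 1)‖ ^ 2) := by
        rw [Finset.sum_add_distrib, ← Finset.mul_sum, ← Finset.mul_sum]
    _ ≤ d * (2 * 1 + 2 * 1) := by gcongr
    _ = 4 * d := by ring

/-- eigenfunctions with large energy -/
lemma high_energy {d : ℕ} (a : Zd d) {σ T E : ℝ} (hT : 0 < T) (hσ : 0 < |σ|) {ω : Zd d → ℝ}
    (hω : |ω a| ≤ T) {u : Zd d → ℂ} (hs : Summable fun x => ‖u x‖ ^ 2)
    (h1 : ∑' x, ‖u x‖ ^ 2 = 1) (h : anderson σ ω u a = E * u a) (hE : 2 * T * |σ| ≤ |E|) :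
    ‖u a‖ ^ 2 ≤ 4 * d / (T * |σ|) ^ 2 := by
  have e1 : ((E - σ * ω a : ℝ) : ℂ) * u a = ∑ i, (u (a + Pi.single i 1) + u (a - Pi.single i 1)) := by
    unfold anderson at h
    push_cast at h ⊢
    linear_combination -h
  have e2 := sum_nbr_le a hs h1
  rw [← e1, norm_mul, mul_pow, Complex.norm_real, Real.norm_eq_abs] at e2
  have e3 : T * |σ| ≤ |E - σ * ω a| := by
    have h2 : |σ * ω a| ≤ T * |σ| := by rw [abs_mul, mul_comm T]; gcongr
    have h3 := abs_sub_abs_le_abs_sub E (σ * ω a)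
    linarith
  rw [le_div_iff₀ (by positivity)]
  calc ‖u a‖ ^ 2 * (T * |σ|) ^ 2 ≤ ‖u a‖ ^ 2 * |E - σ * ω a| ^ 2 := by gcongr
    _ = |E - σ * ω a| ^ 2 * ‖u a‖ ^ 2 := mul_comm _ _
    _ ≤ 4 * (d : ℝ) := e2

end Pool.Agent.H989
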