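import Pool.Agent.H989.Second

/-!
The self-consistent inequality at a fixed energy.
-/

set_option linter.unusedSectionVars false
set_option linter.unusedVariables false

open MeasureTheory ProbabilityTheory Finset

namespace Pool.Agent.H989

/-- dyadic lower bound for the truncated square root -/
lemma dyadic_le {s₂ x : ℝ} (hs : 0 < s₂) (hx : 0 ≤ x) (m : ℕ) :
    ∑ k ∈ range m, s₂ * 2 ^ k * (if (s₂ * 2 ^ (k + 1)) ^ 2 ≤ x then 1 else 0)
      ≤ min (√x) (s₂ * 2 ^ m) := by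
  induction m with
  | zero => simp [hs.le]
  | succ m ih =>
    rw [Finset.sum_range_succ]
    by_cases h : (s₂ * 2 ^ (m + 1)) ^ 2 ≤ x
    · rw [if_pos h, mul_one]
      have h1 : s₂ * 2 ^ (m + 1) ≤ √x := Real.le_sqrt_of_sq_le h
      rw [min_eq_right h1]
      have h2 := ih.trans (min_le_right _ _)
      calc _ ≤ s₂ * 2 ^ m + s₂ * 2 ^ m := by gcongr
        _ = _ := by ring
    · rw [if_neg h, mul_zero, add_zero]
      refine ih.trans (min_le_min le_rfl ?_)
      have : (2:ℝ) ^ m ≤ 2 ^ (m + 1) := pow_le_pow_right₀ (by norm_num) (by omega)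
      gcongr

section general
variable {V : Type*} [AddCommGroup V] [Fintype V] [DecidableEq V] {σ s : ℝ} {z : ℂ}

lemma nice_min_sqrt {F : (V → ℝ) → ℂ} (hF : Nice F) {s₁ : ℝ} (hs₁ : 0 ≤ s₁) :
    Nice fun ξ => min (√(F ξ).im) s₁ := by
  refine ⟨((Complex.measurable_im.comp hF.1).sqrt).min measurable_const, s₁, fun ξ => ?_⟩
  rw [Real.norm_eq_abs, abs_of_nonneg (le_min (Real.sqrt_nonneg _) hs₁)]
  exact min_le_right _ _

lemma rate_ge (hσ : 0 < σ) (hs : 0 < s) (hz : 0 < z.im) {F F₀ : (V → ℝ) → ℂ}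
    (hF : Nice F) (hF₀ : Nice F₀) (hFi : ∀ ξ, 0 ≤ (F ξ).im) (hF₀i : ∀ ξ, 0 ≤ (F₀ ξ).im)
    {δ p₂ p₃ s₁ M T : ℝ} (hδ : 0 ≤ δ) (hs₁ : 0 < s₁)
    (h2 : (PP V).real {ξ | ¬ ((F ξ).im ≤ M ∧ |(F ξ).re| ≤ σ)} ≤ p₂)
    (h3 : (PP V).real {ξ | δ < ‖F₀ ξ - F ξ‖} ≤ p₃)
    (hM : z.im + M ≤ 1 / (6 * s ^ 2)) (hT : |z.re| + σ + 1 / s ^ 2 ≤ T * σ) :
    gaussianPDFReal 0 1 T / (2 * σ * s)
        * (∫ ξ, min (√(F₀ ξ).im) s₁ ∂(PP V) - (√δ + s₁ * p₃ + s₁ * p₂))
      ≤ ∫ ξ, rho σ s (z + F ξ) ∂(PP V)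
    ∧ gaussianPDFReal 0 1 T / (2 * σ * s) * (√z.im * (1 - p₂))
      ≤ ∫ ξ, rho σ s (z + F ξ) ∂(PP V) := by
  have hp := pdf_pos T
  set c := gaussianPDFReal 0 1 T / (2 * σ * s) with hc
  have hc0 : 0 < c := by positivity
  set B₂' := {ξ | ¬ ((F ξ).im ≤ M ∧ |(F ξ).re| ≤ σ)} with hB2
  set B₃' := {ξ | δ < ‖F₀ ξ - F ξ‖} with hB3
  have m2 : MeasurableSet B₂' := by
    refine MeasurableSet.compl (MeasurableSet.inter ?_ ?_)
    · exact measurableSet_le (Complex.measurable_im.comp hF.1) measurable_const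
    · exact measurableSet_le (Complex.measurable_re.comp hF.1).norm measurable_const
  have m3 : MeasurableSet B₃' := measurableSet_lt measurable_const (hF₀.1.sub hF.1).norm
  have nr := nice_rho hσ hs hz hF hFi
  have good : ∀ ξ, ξ ∉ B₂' → c * √((z + F ξ).im) ≤ rho σ s (z + F ξ) := by
    intro ξ hξ
    have hξ' : (F ξ).im ≤ M ∧ |(F ξ).re| ≤ σ := by
      by_contra hcon; exact hξ hcon
    obtain ⟨g1, g2⟩ := hξ'
    have i1 : 0 < (z + F ξ).im := by rw [Complex.add_im]; linarith [hFi ξ]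
    have := rho_ge (T := T) hσ hs i1 (by rw [Complex.add_im]; linarith) (by
      rw [Complex.add_re]
      have := abs_add_le z.re (F ξ).re
      linarith)
    calc c * √((z + F ξ).im) = gaussianPDFReal 0 1 T * (√(z + F ξ).im / (2 * σ * s)) := by
          rw [hc]; ring
      _ ≤ _ := this
  constructor
  · have pt : ∀ ξ, c * (min (√(F₀ ξ).im) s₁ - √δ - B₃'.indicator (fun _ => s₁) ξ
        - B₂'.indicator (fun _ => s₁) ξ) ≤ rho σ s (z + F ξ) := by
      intro ξ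
      have r0 := rho_nonneg σ s (z + F ξ)
      have sδ := Real.sqrt_nonneg δ
      have mn : min (√(F₀ ξ).im) s₁ ≤ s₁ := min_le_right _ _
      by_cases h2 : ξ ∈ B₂'
      · rw [Set.indicator_of_mem h2]
        have : 0 ≤ B₃'.indicator (fun _ => s₁) ξ := Set.indicator_nonneg (fun _ _ => hs₁.le) ξ
        have : min (√(F₀ ξ).im) s₁ - √δ - B₃'.indicator (fun _ => s₁) ξ - s₁ ≤ 0 := by linarith
        exact (mul_nonpos_of_nonneg_of_nonpos hc0.le this).trans r0
      · rw [Set.indicator_of_notMem h2]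
        by_cases h3 : ξ ∈ B₃'
        · rw [Set.indicator_of_mem h3]
          have : min (√(F₀ ξ).im) s₁ - √δ - s₁ - 0 ≤ 0 := by linarith
          exact (mul_nonpos_of_nonneg_of_nonpos hc0.le this).trans r0
        · rw [Set.indicator_of_notMem h3]
          refine le_trans ?_ (good ξ h2)
          have h3' : ‖F₀ ξ - F ξ‖ ≤ δ := not_lt.1 h3
          have h4 : (F₀ ξ).im ≤ (F ξ).im + δ := by
            have := (Complex.abs_im_le_norm (F₀ ξ - F ξ)).trans h3'
            rw [Complex.sub_im] at this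
            linarith [(abs_le.1 this).2]
          have h5 : √(F₀ ξ).im ≤ √(F ξ).im + √δ := by
            calc √(F₀ ξ).im ≤ √((F ξ).im + δ) := Real.sqrt_le_sqrt h4
              _ ≤ √(F ξ).im + √δ := by
                  rw [Real.sqrt_le_left (by positivity)]
                  have q1 := Real.sq_sqrt (hFi ξ)
                  have q2 := Real.sq_sqrt hδ
                  nlinarith [mul_nonneg (Real.sqrt_nonneg (F ξ).im) sδ]
          have h6 : √(F ξ).im ≤ √(z + F ξ).im := by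
            apply Real.sqrt_le_sqrt; rw [Complex.add_im]; linarith
          have h7 : min (√(F₀ ξ).im) s₁ ≤ √(F₀ ξ).im := min_le_left _ _
          gcongr
          linarith
    have nm := nice_min_sqrt (V := V) hF₀ hs₁.le
    have ni3 := nice_ind m3 s₁
    have ni2 := nice_ind m2 s₁
    calc c * (∫ ξ, min (√(F₀ ξ).im) s₁ ∂(PP V) - (√δ + s₁ * p₃ + s₁ * p₂))
        ≤ c * (∫ ξ, min (√(F₀ ξ).im) s₁ ∂(PP V)
          - (√δ + s₁ * (PP V).real B₃' + s₁ * (PP V).real B₂')) := by gcongr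
      _ = ∫ ξ, c * (min (√(F₀ ξ).im) s₁ - √δ - B₃'.indicator (fun _ => s₁) ξ
        - B₂'.indicator (fun _ => s₁) ξ) ∂(PP V) := by
          rw [integral_const_mul, integral_sub ((nm.sub (Nice.const _)).sub ni3).integrable
            ni2.integrable, integral_sub (nm.sub (Nice.const _)).integrable ni3.integrable,
            integral_sub nm.integrable (integrable_const _), E_ind m3, E_ind m2]
          simp
          left; ring
      _ ≤ _ := integral_mono ((((nm.sub (Nice.const _)).sub ni3).sub ni2).const_mul c).integrable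
          nr.integrable pt
  · have pt : ∀ ξ, c * (√z.im - B₂'.indicator (fun _ => √z.im) ξ) ≤ rho σ s (z + F ξ) := by
      intro ξ
      by_cases h2 : ξ ∈ B₂'
      · rw [Set.indicator_of_mem h2, sub_self, mul_zero]; exact rho_nonneg _ _ _
      · rw [Set.indicator_of_notMem h2, sub_zero]
        refine le_trans ?_ (good ξ h2)
        have h6 : √z.im ≤ √(z + F ξ).im := by
          apply Real.sqrt_le_sqrt; rw [Complex.add_im]; linarith [hFi ξ]
        gcongr
    have ni2 := nice_ind m2 (√z.im)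
    calc c * (√z.im * (1 - p₂)) ≤ c * (√z.im - √z.im * (PP V).real B₂') := by
          have := Real.sqrt_nonneg z.im
          gcongr
          nlinarith
      _ = ∫ ξ, c * (√z.im - B₂'.indicator (fun _ => √z.im) ξ) ∂(PP V) := by
          rw [integral_const_mul, integral_sub (integrable_const _) ni2.integrable, E_ind m2]
          simp
      _ ≤ _ := integral_mono (((Nice.const _).sub ni2).const_mul c).integrable nr.integrable pt

end general

section torus
variable {d L : ℕ} [NeZero L] {σ : ℝ} {z : ℂ}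

/-- the self energy at the origin -/
noncomputable def S₀ (σ : ℝ) (z : ℂ) (ξ : Tor d L → ℝ) : ℂ := SE (ND L univ) ∅ (pot σ ξ) z 0

lemma frac_mono {n₀ n e : ℝ} (h0 : 0 < n₀) (h : n₀ ≤ n) (he : 0 ≤ e) :
    n₀ ^ 2 / (n₀ + n₀ ^ 2 + e) ≤ n ^ 2 / (n + n ^ 2 + e) := by
  have hn : 0 < n := h0.trans_le h
  rw [div_le_div_iff₀ (by positivity) (by positivity)]
  have h1 : n₀ ^ 2 * n ≤ n ^ 2 * n₀ := by nlinarith [mul_pos h0 hn]
  have h2 : n₀ ^ 2 * e ≤ n ^ 2 * e := by gcongr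
  nlinarith

/-- the self-consistent inequality -/
theorem fixed_energy (hL : 3 ≤ L) (hσ : 0 < σ) (hz : 0 < z.im) (hz1 : z.im ≤ 1)
    {δ π p₂ p₃ s₁ s₂ s₃ M T : ℝ} {m : ℕ} (hs₃ : 0 < s₃) (h32 : s₃ ≤ s₂) (hs₁ : s₁ = s₂ * 2 ^ m)
    (hδ0 : 0 ≤ δ) (hδ1 : δ ≤ 1) (hδ : 4 * δ ≤ z.im ^ 2 * s₃ ^ 2)
    (hG : ∀ i : Fin d,
      (PP (Tor d L)).real (Good (ND L univ) (ND L (univ.erase i)) (ei i) σ z δ)ᶜ ≤ π)
    (hS : ∀ i j : Fin d, i ≠ j →
      (PP (Tor d L)).real {ξ | δ < ‖Si i σ z ξ - Sij i j σ z ξ‖} ≤ π)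
    (hp2 : ∀ i : Fin d, (PP (Tor d L)).real {ξ |
      ¬ ((SE (ND L (univ.erase i)) ∅ (pot σ ξ) z 0).im ≤ M
        ∧ |(SE (ND L (univ.erase i)) ∅ (pot σ ξ) z 0).re| ≤ σ)} ≤ p₂)
    (hp3 : ∀ i : Fin d, (PP (Tor d L)).real {ξ |
      δ < ‖S₀ σ z ξ - SE (ND L (univ.erase i)) ∅ (pot σ ξ) z 0‖} ≤ p₃)
    (hM : z.im + M ≤ 1 / (6 * s₁ ^ 2)) (hT : |z.re| + σ + 1 / s₃ ^ 2 ≤ T * σ)
    (hp2' : p₂ ≤ 1 / 2) (he1 : √δ + s₁ * p₃ + s₁ * p₂ < √z.im / 2)
    (hd : 0 < d)
    (he' : 4 * (2 * δ / z.im + π) * (1 / (σ * s₃ ^ 2)) ^ 2 * d ^ 2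
      ≤ d * gaussianPDFReal 0 1 T / (2 * σ) * √z.im / s₁)
    (he : d * (1 / (σ * s₃ ^ 2) * π) ≤ d * gaussianPDFReal 0 1 T / (2 * σ) * √z.im / (16 * s₁))
    (hm : 32 ≤ m * (d * gaussianPDFReal 0 1 T / (2 * σ))) :
    ∫ ξ, z.im / (z.im + (S₀ σ z ξ).im) ∂(PP (Tor d L))
      ≤ z.im / s₃ ^ 2 + s₃ / s₂ + 4 * (2 * δ / z.im + π) * (1 / (σ * s₃ ^ 2)) ^ 2 * d ^ 2
        + d * (1 / (σ * s₃ ^ 2) * π) := by
  have hp := pdf_pos T
  set lam := d * gaussianPDFReal 0 1 T / (2 * σ) with hlam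
  have hd' : (0:ℝ) < d := by exact_mod_cast hd
  have hlam0 : 0 < lam := by positivity
  have hη : 0 < √z.im := Real.sqrt_pos.2 hz
  have hs₂ : 0 < s₂ := hs₃.trans_le h32
  have hs1 : 0 < s₁ := by rw [hs₁]; positivity
  have h2m : (1:ℝ) ≤ 2 ^ m := one_le_pow₀ (by norm_num)
  have h21 : s₂ ≤ s₁ := by rw [hs₁]; nlinarith
  have hπ : 0 ≤ π := measureReal_nonneg.trans (hG ⟨0, hd⟩)
  set κ := 2 * δ / z.im + π with hκ
  have hκ0 : 0 ≤ κ := by positivity
  have nS₀ : Nice fun ξ : Tor d L → ℝ => S₀ σ z ξ := nice_SE (steps_ND hL _) hz _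
  have iS₀ : ∀ ξ : Tor d L → ℝ, 0 ≤ (S₀ σ z ξ).im := fun ξ => SE_im_nonneg (steps_ND hL _) hz _ _
  set I := ∫ ξ : Tor d L → ℝ, min (√(S₀ σ z ξ).im) s₁ ∂(PP (Tor d L)) with hI
  set e₁ := √δ + s₁ * p₃ + s₁ * p₂ with he₁
  set J := max (I - e₁) (√z.im / 2) with hJ
  have hJ1 : I - e₁ ≤ J := le_max_left _ _
  have hJ2 : √z.im / 2 ≤ J := le_max_right _ _
  have hJ0 : 0 < J := lt_of_lt_of_le (by positivity) hJ2
  -- rates
  have rate : ∀ s, s₃ ≤ s → s ≤ s₁ → ∀ i : Fin d,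
      gaussianPDFReal 0 1 T / (2 * σ * s) * J ≤ ni L i σ s z := by
    intro s h3 h1 i
    have hs : 0 < s := hs₃.trans_le h3
    have r := rate_ge (V := Tor d L) (T := T) hσ hs hz
      (nice_SE (σ := σ) (steps_ND hL (univ.erase i)) hz 0)
      nS₀ (fun ξ => SE_im_nonneg (steps_ND hL _) hz _ _) iS₀ hδ0 hs1 (hp2 i) (hp3 i)
      (by
        refine hM.trans ?_
        gcongr)
      (by
        refine le_trans ?_ hT
        gcongr)
    have c0 : 0 ≤ gaussianPDFReal 0 1 T / (2 * σ * s) := by positivity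
    rw [hJ, mul_max_of_nonneg _ _ c0]
    refine max_le r.1 (le_trans ?_ r.2)
    gcongr
    have : √z.im / 2 = √z.im * (1 - 1 / 2) := by ring
    rw [this]
    gcongr
  have total : ∀ s, s₃ ≤ s → s ≤ s₁ → lam * J / s ≤ ∑ i : Fin d, ni L i σ s z := by
    intro s h3 h1
    have hs : 0 < s := hs₃.trans_le h3
    calc lam * J / s = ∑ i : Fin d, gaussianPDFReal 0 1 T / (2 * σ * s) * J := by
          simp only [Finset.sum_const, Finset.card_univ, Fintype.card_fin, nsmul_eq_mul]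
          rw [hlam]; field_simp
      _ ≤ _ := Finset.sum_le_sum fun i _ => rate s h3 h1 i
  -- errors
  have errE' : ∀ s, s₃ ≤ s → 4 * κ * (1 / (σ * s ^ 2)) ^ 2 * d ^ 2
      ≤ 4 * κ * (1 / (σ * s₃ ^ 2)) ^ 2 * d ^ 2 := by
    intro s h3
    gcongr
  have errE : ∀ s, s₃ ≤ s → d * (1 / (σ * s ^ 2) * π) ≤ d * (1 / (σ * s₃ ^ 2) * π) := by
    intro s h3
    gcongr
  -- probability
  have prob : ∀ s, s₃ ≤ s → s ≤ s₁ →
      (lam * J / s) ^ 2 / (lam * J / s + (lam * J / s) ^ 2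
        + 4 * κ * (1 / (σ * s₃ ^ 2)) ^ 2 * d ^ 2) - d * (1 / (σ * s₃ ^ 2) * π)
      ≤ (PP (Tor d L)).real {ξ | s ^ 2 ≤ (S₀ σ z ξ).im} := by
    intro s h3 h1
    have hs : 0 < s := hs₃.trans_le h3
    have n0 : 0 < lam * J / s := by positivity
    have tt := total s h3 h1
    have pg := P_ge hL hσ hs hz hz1 hδ0 hδ1 (hδ.trans (by gcongr)) hG hS (n0.trans_le tt) rfl
    refine le_trans ?_ pg
    refine sub_le_sub ?_ (errE s h3)
    refine (frac_mono n0 tt (by positivity)).trans ?_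
    rw [← hκ]
    have := errE' s h3
    have n1 : 0 < ∑ i : Fin d, ni L i σ s z := n0.trans_le tt
    gcongr
  set Er' := 4 * κ * (1 / (σ * s₃ ^ 2)) ^ 2 * d ^ 2 with hEr'
  set Er := d * (1 / (σ * s₃ ^ 2) * π) with hEr
  have Er'0 : 0 ≤ Er' := by positivity
  have Er0 : 0 ≤ Er := by positivity
  -- main dichotomy
  have main : s₂ < lam * J := by
    by_contra hcon
    push Not at hcon
    have pr : ∀ k ∈ range m, lam * J / (8 * (s₂ * 2 ^ (k + 1)))
        ≤ (PP (Tor d L)).real {ξ | (s₂ * 2 ^ (k + 1)) ^ 2 ≤ (S₀ σ z ξ).im} := by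
      intro k hk
      have hk' : k + 1 ≤ m := Finset.mem_range.1 hk
      set s := s₂ * 2 ^ (k + 1) with hs'
      have hss : s₂ ≤ s := by
        have : (1:ℝ) ≤ 2 ^ (k + 1) := one_le_pow₀ (by norm_num)
        rw [hs']; nlinarith
      have hs : 0 < s := hs₂.trans_le hss
      have hs1' : s ≤ s₁ := by
        rw [hs', hs₁]
        have : (2:ℝ) ^ (k + 1) ≤ 2 ^ m := pow_le_pow_right₀ (by norm_num) hk'
        gcongr
      set n₀ := lam * J / s with hn₀
      have n0 : 0 < n₀ := by positivity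
      have n1 : n₀ ≤ 1 := by rw [hn₀, div_le_one hs]; exact hcon.trans hss
      have g1 : lam * √z.im / s₁ ≤ 2 * n₀ := by
        rw [hn₀]
        calc lam * √z.im / s₁ = 2 * (lam * (√z.im / 2) / s₁) := by ring
          _ ≤ 2 * (lam * J / s) := by gcongr
      have f1 : n₀ / 4 ≤ n₀ ^ 2 / (n₀ + n₀ ^ 2 + Er') := by
        rw [le_div_iff₀ (by positivity)]
        have : n₀ + n₀ ^ 2 + Er' ≤ 4 * n₀ := by nlinarith [he'.trans g1]
        calc n₀ / 4 * (n₀ + n₀ ^ 2 + Er') ≤ n₀ / 4 * (4 * n₀) := by gcongr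
          _ = n₀ ^ 2 := by ring
      have f2 : Er ≤ n₀ / 8 := by
        refine he.trans ?_
        calc lam * √z.im / (16 * s₁) = lam * √z.im / s₁ / 16 := by field_simp
          _ ≤ 2 * n₀ / 16 := by gcongr
          _ = n₀ / 8 := by ring
      have := prob s (h32.trans hss) hs1'
      calc lam * J / (8 * s) = n₀ / 8 := by rw [hn₀]; field_simp
        _ ≤ n₀ ^ 2 / (n₀ + n₀ ^ 2 + Er') - Er := by linarith
        _ ≤ _ := this
    have low : m * lam * J / 16 ≤ I := by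
      have nS : ∀ k, MeasurableSet {ξ : Tor d L → ℝ | (s₂ * 2 ^ (k + 1)) ^ 2 ≤ (S₀ σ z ξ).im} :=
        fun k => measurableSet_le measurable_const (Complex.measurable_im.comp nS₀.1)
      have step : ∑ k ∈ range m, s₂ * 2 ^ k * (PP (Tor d L)).real
          {ξ | (s₂ * 2 ^ (k + 1)) ^ 2 ≤ (S₀ σ z ξ).im} ≤ I := by
        have : ∀ k, s₂ * 2 ^ k * (PP (Tor d L)).real
          {ξ | (s₂ * 2 ^ (k + 1)) ^ 2 ≤ (S₀ σ z ξ).im}
            = ∫ ξ, {ξ : Tor d L → ℝ | (s₂ * 2 ^ (k + 1)) ^ 2 ≤ (S₀ σ z ξ).im}.indicator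
              (fun _ => s₂ * 2 ^ k) ξ ∂(PP (Tor d L)) := fun k => by rw [E_ind (nS k)]
        simp only [this]
        rw [← integral_finsetSum _ fun k _ => (nice_ind (nS k) _).integrable]
        refine integral_mono (Nice.sum _ fun k _ => nice_ind (nS k) _).integrable
          (nice_min_sqrt nS₀ hs1.le).integrable fun ξ => ?_
        simp only
        have dy := dyadic_le hs₂ (iS₀ ξ) m
        rw [← hs₁] at dy
        refine le_trans (le_of_eq ?_) dy
        refine Finset.sum_congr rfl fun k _ => ?_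
        by_cases h : (s₂ * 2 ^ (k + 1)) ^ 2 ≤ (S₀ σ z ξ).im
        · rw [Set.indicator_of_mem (by exact h), if_pos h, mul_one]
        · rw [Set.indicator_of_notMem (by exact h), if_neg h, mul_zero]
      refine le_trans ?_ step
      calc m * lam * J / 16 = ∑ k ∈ range m, s₂ * 2 ^ k * (lam * J / (8 * (s₂ * 2 ^ (k + 1)))) := by
            have : ∀ k ∈ range m, s₂ * 2 ^ k * (lam * J / (8 * (s₂ * 2 ^ (k + 1))))
                = lam * J / 16 := by
              intro k _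
              have h2k : (2:ℝ) ^ k ≠ 0 := by positivity
              rw [pow_succ]
              field_simp
              ring
            rw [Finset.sum_congr rfl this, Finset.sum_const, Finset.card_range, nsmul_eq_mul]
            ring
        _ ≤ _ := Finset.sum_le_sum fun k hk => by
            have := pr k hk
            gcongr
    have two : 2 * J ≤ I := by
      refine le_trans ?_ low
      have : 32 * J ≤ m * lam * J := by gcongr
      linarith
    linarith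
  -- conclusion
  have h31 : s₃ ≤ s₁ := h32.trans h21
  have pr := prob s₃ le_rfl h31
  set n₀ := lam * J / s₃ with hn₀
  have n0 : s₂ / s₃ ≤ n₀ := by rw [hn₀]; gcongr
  have n00 : 0 < n₀ := lt_of_lt_of_le (by positivity) n0
  have one_le : 1 ≤ n₀ := by
    refine le_trans ?_ n0
    rw [le_div_iff₀ hs₃]; linarith
  have f1 : 1 - s₃ / s₂ - Er' ≤ n₀ ^ 2 / (n₀ + n₀ ^ 2 + Er') := by
    rw [le_div_iff₀ (by positivity)]
    have a1 : 1 ≤ s₃ / s₂ * n₀ := by
      calc 1 = s₃ / s₂ * (s₂ / s₃) := by field_simp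
        _ ≤ _ := by gcongr
    have a2 : 0 ≤ s₃ / s₂ := by positivity
    have a3 : 1 ≤ n₀ ^ 2 := one_le_pow₀ one_le
    by_cases hneg : 1 - s₃ / s₂ - Er' ≤ 0
    · have : 0 ≤ n₀ + n₀ ^ 2 + Er' := by positivity
      nlinarith
    · push Not at hneg
      have : (1 - s₃ / s₂ - Er') * (n₀ + n₀ ^ 2 + Er')
          ≤ n₀ ^ 2 + (n₀ - s₃ / s₂ * n₀ * n₀) + (Er' - Er' * n₀ ^ 2) := by
        have : 0 ≤ s₃ / s₂ * n₀ + s₃ / s₂ * Er' + Er' * n₀ + Er' * Er' := by positivity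
        nlinarith
      nlinarith
  have P3 : 1 - s₃ / s₂ - Er' - Er ≤ (PP (Tor d L)).real {ξ | s₃ ^ 2 ≤ (S₀ σ z ξ).im} := by
    linarith
  have mS : MeasurableSet {ξ : Tor d L → ℝ | s₃ ^ 2 ≤ (S₀ σ z ξ).im} :=
    measurableSet_le measurable_const (Complex.measurable_im.comp nS₀.1)
  have nq : Nice fun ξ : Tor d L → ℝ => z.im / (z.im + (S₀ σ z ξ).im) := by
    refine ⟨measurable_const.div (measurable_const.add (Complex.measurable_im.comp nS₀.1)), 1,
      fun ξ => ?_⟩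
    have := iS₀ ξ
    rw [Real.norm_eq_abs, abs_of_nonneg (by positivity), div_le_one (by positivity)]
    linarith
  calc ∫ ξ, z.im / (z.im + (S₀ σ z ξ).im) ∂(PP (Tor d L))
      ≤ ∫ ξ, (z.im / s₃ ^ 2 + (1 - {ξ : Tor d L → ℝ | s₃ ^ 2 ≤ (S₀ σ z ξ).im}.indicator
        (fun _ => 1) ξ)) ∂(PP (Tor d L)) := by
        refine integral_mono nq.integrable
          ((Nice.const _).add ((Nice.const _).sub (nice_ind mS 1))).integrable fun ξ => ?_
        simp only
        have i0 := iS₀ ξ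
        by_cases h : s₃ ^ 2 ≤ (S₀ σ z ξ).im
        · rw [Set.indicator_of_mem (by exact h)]
          have : z.im / (z.im + (S₀ σ z ξ).im) ≤ z.im / s₃ ^ 2 := by
            gcongr; linarith
          linarith
        · rw [Set.indicator_of_notMem (by exact h)]
          have a1 : z.im / (z.im + (S₀ σ z ξ).im) ≤ 1 := by
            rw [div_le_one (by positivity)]; linarith
          have a2 : 0 ≤ z.im / s₃ ^ 2 := by positivity
          linarith
    _ = z.im / s₃ ^ 2 + (1 - (PP (Tor d L)).real {ξ | s₃ ^ 2 ≤ (S₀ σ z ξ).im}) := by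
        rw [integral_add (integrable_const _) ((Nice.const _).sub (nice_ind mS 1)).integrable,
          integral_sub (integrable_const _) (nice_ind mS 1).integrable, E_ind mS]
        simp
    _ ≤ _ := by linarith

end torus

end Pool.Agent.H989
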