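import Pool.Agent.H989.Lay

/-!
Flux identity, removal of the partner site, and the second order Schur formula.
-/

set_option linter.unusedSectionVars false
set_option linter.unusedVariables false

open Finset Complex
open scoped ComplexConjugate

namespace Pool.Agent.H989

variable {V : Type*} [AddCommGroup V] [Fintype V] [DecidableEq V]
variable {L : ℕ} {N N₁ Λ : Finset V} {e : V} {ℓ : V →+ ZMod L} {v : V → ℝ} {z : ℂ}

lemma im_dot_conj_trans (e : V) (g : V → ℂ) :
    (dot (fun x => conj (g x)) (fun x => g (x + e) + g (x - e))).im = 0 := by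
  have h : conj (dot (fun x => conj (g x)) (fun x => g (x + e) + g (x - e)))
      = dot (fun x => conj (g x)) (fun x => g (x + e) + g (x - e)) := by
    unfold dot
    rw [map_sum]
    have e1 : ∑ x, conj (conj (g x) * (g (x + e) + g (x - e)))
        = ∑ x, g x * conj (g (x + e)) + ∑ x, g x * conj (g (x - e)) := by
      rw [← Finset.sum_add_distrib]
      refine Finset.sum_congr rfl fun x _ => ?_
      simp; ring
    have e2 : ∑ x, g x * conj (g (x + e)) = ∑ x, conj (g x) * g (x - e) := by
      rw [← Equiv.sum_comp (Equiv.addRight e) (fun x => conj (g x) * g (x - e))]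
      refine Finset.sum_congr rfl fun x _ => ?_
      simp; ring
    have e3 : ∑ x, g x * conj (g (x - e)) = ∑ x, conj (g x) * g (x + e) := by
      rw [← Equiv.sum_comp (Equiv.addRight (-e)) (fun x => conj (g x) * g (x + e))]
      refine Finset.sum_congr rfl fun x _ => ?_
      simp [sub_eq_add_neg]; ring
    rw [e1, e2, e3, ← Finset.sum_add_distrib]
    refine Finset.sum_congr rfl fun x _ => ?_
    ring
  exact Complex.conj_eq_iff_im.1 h

/-- the mass off the layer `0` is bounded by the flux -/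
lemma Lay.flux (h : Lay N N₁ e ℓ) {u : V → ℂ}
    (hu : IsSol N ∅ v z (Pi.single 0 1) u) :
    z.im * nsq (off ℓ 0 u) ≤ ∑ x ∈ univ.erase (0 : V), ‖u x‖ * (‖u (x + e)‖ + ‖u (x - e)‖) := by
  set g := off ℓ 0 u with hg
  set w := lay ℓ 0 u with hw
  have hsum : w + g = u := lay_add_off 0 u
  have hl0 : ℓ (0 : V) = 0 := map_zero ℓ
  have hg0 : g 0 = 0 := by simp [hg, off, hl0]
  have h1 : ∑ x, conj (g x) * (((v x : ℂ) - z) * u x + nb N u x) = 0 := by
    have : ∀ x, conj (g x) * (((v x : ℂ) - z) * u x + nb N u x)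
        = conj (g x) * (Pi.single (0:V) (1:ℂ) : V → ℂ) x := fun x => by
      rw [hu.2 x (by simp)]
    simp only [this]
    refine Finset.sum_eq_zero fun x _ => ?_
    by_cases hx : x = 0
    · rw [hx, hg0]; simp
    · rw [Pi.single_apply, if_neg hx, mul_zero]
  have h2 : ∀ x, conj (g x) * (((v x : ℂ) - z) * u x + nb N u x)
      = ((v x : ℂ) - z) * ((‖g x‖ ^ 2 : ℝ) : ℂ) + conj (g x) * nb N₁ g x
        + conj (g x) * (g (x + e) + g (x - e)) + conj (g x) * (w (x + e) + w (x - e)) := by
    intro x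
    have a1 : conj (g x) * u x = ((‖g x‖ ^ 2 : ℝ) : ℂ) := by
      have : conj (g x) * u x = conj (g x) * g x := by
        by_cases hx : ℓ x = 0
        · have : g x = 0 := by simp [hg, off, hx]
          simp [this]
        · have : g x = u x := by simp [hg, off, hx]
          rw [this]
      rw [this]; push_cast; exact Complex.conj_mul' (g x)
    have a2 : conj (g x) * nb N₁ u x = conj (g x) * nb N₁ g x := by
      by_cases hx : ℓ x = 0
      · have : g x = 0 := by simp [hg, off, hx]
        simp [this]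
      · have : nb N₁ u x = nb N₁ w x + nb N₁ g x := by rw [← nb_add, hsum]
        rw [this, hw, h.nb_lay]; simp [hx]
    have a3 : ∀ y, u y = w y + g y := fun y => by rw [← hsum]; rfl
    rw [h.nbe]
    calc conj (g x) * (((v x : ℂ) - z) * u x + (nb N₁ u x + (u (x + e) + u (x - e))))
        = ((v x : ℂ) - z) * (conj (g x) * u x) + conj (g x) * nb N₁ u x
          + conj (g x) * (u (x + e) + u (x - e)) := by ring
      _ = _ := by rw [a1, a2, a3 (x + e), a3 (x - e)]; ring
  simp only [h2, Finset.sum_add_distrib] at h1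
  have h3 := congrArg Complex.im h1
  rw [Complex.add_im, Complex.add_im, Complex.add_im] at h3
  have b1 : (∑ x, ((v x : ℂ) - z) * ((‖g x‖ ^ 2 : ℝ) : ℂ)).im = -(z.im * nsq g) := by
    rw [Complex.im_sum, nsq, Finset.mul_sum, ← Finset.sum_neg_distrib]
    refine Finset.sum_congr rfl fun x _ => ?_
    rw [Complex.im_mul_ofReal]; simp
  have b2 : (∑ x, conj (g x) * nb N₁ g x).im = 0 := im_dot_conj_nb h.s1 g
  have b3 : (∑ x, conj (g x) * (g (x + e) + g (x - e))).im = 0 := im_dot_conj_trans e g
  rw [b1, b2, b3] at h3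
  have h4 : z.im * nsq g = (∑ x, conj (g x) * (w (x + e) + w (x - e))).im := by
    simp only [Complex.zero_im] at h3; linarith
  rw [h4]
  refine (le_trans (le_abs_self _) (Complex.abs_im_le_norm _)).trans ?_
  refine (norm_sum_le _ _).trans ?_
  rw [← Finset.add_sum_erase _ _ (mem_univ (0 : V)), hg0]
  simp only [map_zero, zero_mul, norm_zero, zero_add]
  refine Finset.sum_le_sum fun x _ => ?_
  rw [norm_mul, Complex.norm_conj]
  have c1 : ‖g x‖ ≤ ‖u x‖ := by rw [hg]; unfold off; split_ifs <;> simp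
  have c2 : ∀ y, ‖w y‖ ≤ ‖u y‖ := fun y => by rw [hw]; unfold lay; split_ifs <;> simp
  have c3 : ‖w (x + e) + w (x - e)‖ ≤ ‖u (x + e)‖ + ‖u (x - e)‖ :=
    (norm_add_le _ _).trans (add_le_add (c2 _) (c2 _))
  exact mul_le_mul c1 c3 (norm_nonneg _) (norm_nonneg _)

/-- removal of the partner site does not change much -/
lemma Lay.pair_bound (h : Lay N N₁ e ℓ) (hz : 0 < z.im)
    (hs : nrm (off ℓ (ℓ e) (sol N {e} v z (bx N e))) * nrm (off ℓ 0 (sol N {0} v z (bx N 0)))
      ≤ 1 / 2) :
    nrm (sol N {e, 0} v z (bx N 0))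
      ≤ 2 * (nrm (sol N {0} v z (bx N 0))
        + nrm (off ℓ 0 (sol N {0} v z (bx N 0))) * nrm (sol N {e} v z (bx N e))) ∧
    nrm (off ℓ (ℓ e) (sol N {e, 0} v z (bx N e)))
      ≤ nrm (off ℓ (ℓ e) (sol N {e} v z (bx N e))) * (1 + nrm (sol N {e, 0} v z (bx N 0))) ∧
    nrm (sol N {e, 0} v z (bx N e))
      ≤ nrm (sol N {e} v z (bx N e)) * (1 + nrm (sol N {e, 0} v z (bx N 0))) := by
  have he0 : e ≠ 0 := fun hh => by
    have := h.le; rw [hh, map_zero] at this; exact h.h0 this.symm
  set F := sol N {e} v z (bx N e) with hF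
  set G := sol N {0} v z (bx N 0) with hG
  set f := sol N {e, 0} v z (bx N e) with hf
  set a := sol N {e, 0} v z (bx N 0) with ha
  have r1 : F = f + F 0 • (Pi.single 0 1 - a) := by
    have := sol_remove (v := v) (z := z) (Λ := {e}) h.s hz (bx N e) (x := 0)
      (by simpa using he0.symm)
    have hc : insert (0 : V) {e} = ({e, 0} : Finset V) := Finset.pair_comm 0 e
    rw [hc] at this; exact this
  have r2 : G = a + G e • (Pi.single e 1 - f) := by
    exact sol_remove (v := v) (z := z) (Λ := {0}) h.s hz (bx N 0) (x := e)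
      (by simpa using he0)
  have hF0 : ‖F 0‖ ≤ nrm (off ℓ (ℓ e) F) := by
    apply norm_le_off; rw [map_zero, h.le]; exact h.h0.symm
  have hGe : ‖G e‖ ≤ nrm (off ℓ 0 G) := by
    apply norm_le_off; rw [h.le]; exact h.h0
  have hae : a e = 0 := (isSol_sol h.s hz _).1 e (by simp)
  have ha0 : a 0 = 0 := (isSol_sol h.s hz _).1 0 (by simp)
  have hfe : f e = 0 := (isSol_sol h.s hz _).1 e (by simp)
  have hf0 : f 0 = 0 := (isSol_sol h.s hz _).1 0 (by simp)
  -- norms
  have n1 : nrm f ≤ nrm F + ‖F 0‖ * nrm a := by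
    have : f = (fun x => if x = 0 then 0 else F x) + F 0 • a := by
      funext x
      have := congrFun r1 x
      simp only [Pi.add_apply, Pi.smul_apply, Pi.sub_apply, smul_eq_mul] at this ⊢
      by_cases hx : x = 0
      · subst hx; simp [hf0, ha0]
      · rw [Pi.single_apply, if_neg hx] at this
        simp only [hx, if_false]; rw [this]; ring
    calc nrm f ≤ nrm (fun x => if x = 0 then 0 else F x) + nrm (F 0 • a) := by
          conv_lhs => rw [this]
          exact nrm_add_le _ _
      _ ≤ nrm F + ‖F 0‖ * nrm a := by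
          rw [nrm_smul]
          gcongr
          exact nrm_mono fun x => by split_ifs <;> simp
  have n2 : nrm a ≤ nrm G + ‖G e‖ * nrm f := by
    have : a = (fun x => if x = e then 0 else G x) + G e • f := by
      funext x
      have := congrFun r2 x
      simp only [Pi.add_apply, Pi.smul_apply, Pi.sub_apply, smul_eq_mul] at this ⊢
      by_cases hx : x = e
      · subst hx; simp [hfe, hae]
      · rw [Pi.single_apply, if_neg hx] at this
        simp only [hx, if_false]; rw [this]; ring
    calc nrm a ≤ nrm (fun x => if x = e then 0 else G x) + nrm (G e • f) := by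
          conv_lhs => rw [this]
          exact nrm_add_le _ _
      _ ≤ nrm G + ‖G e‖ * nrm f := by
          rw [nrm_smul]
          gcongr
          exact nrm_mono fun x => by split_ifs <;> simp
  have n3 : nrm (off ℓ (ℓ e) f) ≤ nrm (off ℓ (ℓ e) F) + ‖F 0‖ * nrm a := by
    have : off ℓ (ℓ e) f = (fun x => if x = 0 then 0 else off ℓ (ℓ e) F x)
        + F 0 • off ℓ (ℓ e) a := by
      funext x
      have := congrFun r1 x
      simp only [Pi.add_apply, Pi.smul_apply, Pi.sub_apply, smul_eq_mul, off] at this ⊢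
      by_cases hx : x = 0
      · subst hx; simp [hf0, ha0]
      · rw [Pi.single_apply, if_neg hx] at this
        simp only [hx, if_false]
        split_ifs
        · simp
        · rw [this]; ring
    calc nrm (off ℓ (ℓ e) f) ≤ nrm (fun x => if x = 0 then 0 else off ℓ (ℓ e) F x)
          + nrm (F 0 • off ℓ (ℓ e) a) := by
          conv_lhs => rw [this]
          exact nrm_add_le _ _
      _ ≤ nrm (off ℓ (ℓ e) F) + ‖F 0‖ * nrm a := by
          rw [nrm_smul]
          gcongr
          · exact nrm_mono fun x => by split_ifs <;> simp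
          · exact nrm_off_le _ _
  have p0 := nrm_nonneg F
  have p1 := nrm_nonneg G
  have p2 := nrm_nonneg a
  have p3 := nrm_nonneg f
  have p4 := nrm_nonneg (off ℓ (ℓ e) F)
  have p5 := nrm_nonneg (off ℓ 0 G)
  have q1 : ‖G e‖ * ‖F 0‖ ≤ 1 / 2 := by
    calc ‖G e‖ * ‖F 0‖ ≤ nrm (off ℓ 0 G) * nrm (off ℓ (ℓ e) F) :=
          mul_le_mul hGe hF0 (norm_nonneg _) p5
      _ ≤ 1 / 2 := by rw [mul_comm]; exact hs
  refine ⟨?_, ?_, ?_⟩
  · have t1 : nrm a ≤ nrm G + ‖G e‖ * nrm F + 1 / 2 * nrm a := by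
      calc nrm a ≤ nrm G + ‖G e‖ * nrm f := n2
        _ ≤ nrm G + ‖G e‖ * (nrm F + ‖F 0‖ * nrm a) := by gcongr
        _ = nrm G + ‖G e‖ * nrm F + (‖G e‖ * ‖F 0‖) * nrm a := by ring
        _ ≤ nrm G + ‖G e‖ * nrm F + 1 / 2 * nrm a := by gcongr
    have t2 : ‖G e‖ * nrm F ≤ nrm (off ℓ 0 G) * nrm F := by gcongr
    linarith
  · calc nrm (off ℓ (ℓ e) f) ≤ nrm (off ℓ (ℓ e) F) + ‖F 0‖ * nrm a := n3
      _ ≤ nrm (off ℓ (ℓ e) F) + nrm (off ℓ (ℓ e) F) * nrm a := by gcongr
      _ = _ := by ring
  · calc nrm f ≤ nrm F + ‖F 0‖ * nrm a := n1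
      _ ≤ nrm F + nrm F * nrm a := by
        gcongr
        exact norm_apply_le F 0
      _ = _ := by ring

lemma bx_comm (hN : Steps N) (x y : V) : bx N x y = bx N y x := by
  unfold bx
  have : (x - y ∈ N) ↔ (y - x ∈ N) := by
    constructor
    · intro hh; have := hN.neg _ hh; simpa using this
    · intro hh; have := hN.neg _ hh; simpa using this
  simp [this]

lemma nb_sol_comm (hN : Steps N) (hz : 0 < z.im) (x y : V) :
    nb N (sol N Λ v z (bx N x)) y = nb N (sol N Λ v z (bx N y)) x := by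
  rw [nb_eq_dot _ _ hN, nb_eq_dot _ _ hN]
  exact IsSol.dot_comm hN (isSol_sol hN hz (bx N y)) (isSol_sol hN hz (bx N x))

lemma im_nb_sol (hN : Steps N) (hz : 0 < z.im) (x : V) :
    (nb N (sol N Λ v z (bx N x)) x).im = z.im * nsq (sol N Λ v z (bx N x)) := by
  rw [nb_eq_dot _ _ hN]
  have h := isSol_sol (Λ := Λ) (v := v) hN hz (bx N x)
  rw [bx_real] at h ⊢
  exact h.im_dot hN

/-- The contribution of the site `y` to the self energy at `x`. -/
lemma SE_decomp (hN : Steps N) (hz : 0 < z.im) {x y : V} (hxy : y ≠ x) :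
    nb N (sol N {x} v z (bx N x)) x = nb N (sol N {y, x} v z (bx N x)) x
      + (bx N x y - nb N (sol N {y, x} v z (bx N y)) x) ^ 2
        / ((v y : ℂ) - z - SE N {x} v z y) := by
  have hy : y ∉ ({x} : Finset V) := by simpa using hxy
  have r := sol_remove (v := v) (z := z) (Λ := {x}) hN hz (bx N x) hy
  have r2 := sol_apply (v := v) (z := z) (Λ := {x}) hN hz (bx N x) hy
  have hd := den_ne_zero (v := v) (z := z) (Λ := {x}) hN hz y
  have : nb N (sol N {x} v z (bx N x)) x = nb N (sol N (insert y {x}) v z (bx N x)) x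
      + sol N {x} v z (bx N x) y * (bx N y x - nb N (sol N (insert y {x}) v z (bx N y)) x) := by
    conv_lhs => rw [r]
    rw [nb_add, nb_smul, nb_sub, nb_single hN]
  rw [this, r2, nb_sol_comm hN hz x y, bx_comm hN y x]
  field_simp

end Pool.Agent.H989
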