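import Mathlib

/-!
Integrals over one standard Gaussian variable.
-/

set_option linter.unusedSectionVars false
set_option linter.unusedVariables false

open MeasureTheory ProbabilityTheory

namespace Pool.Agent.H989

/-- the standard Gaussian law -/
noncomputable abbrev γ : Measure ℝ := gaussianReal 0 1

lemma pdf_le (x : ℝ) : gaussianPDFReal 0 1 x ≤ 1 / 2 := by
  rw [gaussianPDFReal_def]
  simp only [NNReal.coe_one, mul_one, sub_zero]
  have h1 : Real.exp (-x ^ 2 / 2) ≤ 1 := Real.exp_le_one_iff.2 (by nlinarith [sq_nonneg x])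
  have h2 : (2 : ℝ) ≤ √(2 * Real.pi) := by
    apply Real.le_sqrt_of_sq_le
    nlinarith [Real.pi_gt_three]
  have h3 : (√(2 * Real.pi))⁻¹ ≤ 1 / 2 := by
    rw [one_div]; exact inv_anti₀ (by norm_num) h2
  calc (√(2 * Real.pi))⁻¹ * Real.exp (-x ^ 2 / 2) ≤ (1 / 2) * 1 := by
        gcongr
    _ = 1 / 2 := by norm_num

lemma pdf_nonneg (x : ℝ) : 0 ≤ gaussianPDFReal 0 1 x := gaussianPDFReal_nonneg 0 1 x

lemma measurable_pdf : Measurable (gaussianPDFReal 0 1) := measurable_gaussianPDFReal 0 1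

lemma gauss_le {f : ℝ → ℝ} (hf : Integrable f) (h0 : ∀ x, 0 ≤ f x) :
    ∫ x, f x ∂γ ≤ 1 / 2 * ∫ x, f x := by
  rw [integral_gaussianReal_eq_integral_smul (by norm_num), ← integral_const_mul]
  refine integral_mono ?_ (hf.const_mul _) fun x => ?_
  · refine hf.bdd_mul (c := 1 / 2) measurable_pdf.aestronglyMeasurable ?_
    exact Filter.Eventually.of_forall fun x => by
      rw [Real.norm_eq_abs, abs_of_nonneg (pdf_nonneg x)]; exact pdf_le x
  · simp only [smul_eq_mul]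
    exact mul_le_mul_of_nonneg_right (pdf_le x) (h0 x)

lemma integrable_gauss {f : ℝ → ℝ} (hf : Integrable f) : Integrable f γ := by
  have : γ ≤ (1 : ENNReal) • (volume : Measure ℝ) := by
    rw [γ, gaussianReal_of_var_ne_zero _ (by norm_num), one_smul]
    refine Measure.le_iff.2 fun s hs => ?_
    rw [withDensity_apply _ hs]
    calc ∫⁻ x in s, gaussianPDF 0 1 x ≤ ∫⁻ x in s, 1 := by
          refine lintegral_mono fun x => ?_
          unfold gaussianPDF
          rw [← ENNReal.ofReal_one]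
          exact ENNReal.ofReal_le_ofReal ((pdf_le x).trans (by norm_num))
      _ = volume s := by simp
  exact (hf.smul_measure (c := 1) (by norm_num)).mono_measure this

lemma pdf_anti {x T : ℝ} (h : |x| ≤ T) : gaussianPDFReal 0 1 T ≤ gaussianPDFReal 0 1 x := by
  rw [gaussianPDFReal_def]
  simp only [NNReal.coe_one, mul_one, sub_zero]
  have : x ^ 2 ≤ T ^ 2 := by
    rw [← sq_abs x]; exact pow_le_pow_left₀ (abs_nonneg x) h 2
  gcongr

lemma pdf_pos (T : ℝ) : 0 < gaussianPDFReal 0 1 T := gaussianPDFReal_pos 0 1 T (by norm_num)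

lemma gauss_Icc_ge {a b T : ℝ} (hab : a ≤ b) (ha : -T ≤ a) (hb : b ≤ T) :
    (b - a) * gaussianPDFReal 0 1 T ≤ γ.real (Set.Icc a b) := by
  rw [Measure.real, gaussianReal_apply_eq_integral _ (by norm_num), ENNReal.toReal_ofReal
    (setIntegral_nonneg measurableSet_Icc fun x _ => pdf_nonneg x)]
  have h1 : ∫ x in Set.Icc a b, gaussianPDFReal 0 1 T = (b - a) * gaussianPDFReal 0 1 T := by
    rw [setIntegral_const, Real.volume_real_Icc_of_le hab, smul_eq_mul]
  rw [← h1]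
  refine setIntegral_mono_on ?_ ?_ measurableSet_Icc fun x hx => ?_
  · exact integrableOn_const (by simp)
  · exact (integrable_gaussianPDFReal 0 1).integrableOn
  · exact pdf_anti (abs_le.2 ⟨ha.trans hx.1, hx.2.trans hb⟩)

lemma cauchy_aux (σ r q : ℝ) (hσ : 0 < σ) (hq : 0 < q) (t : ℝ) :
    ((σ * t - r) ^ 2 + q ^ 2)⁻¹ = (q ^ 2)⁻¹ * (1 + ((σ / q) * t - r / q) ^ 2)⁻¹ := by
  rw [← mul_inv]
  congr 1
  field_simp
  ring

lemma cauchy_integrable {σ r q : ℝ} (hσ : 0 < σ) (hq : 0 < q) :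
    Integrable (fun t : ℝ => ((σ * t - r) ^ 2 + q ^ 2)⁻¹) := by
  simp only [cauchy_aux σ r q hσ hq]
  refine Integrable.const_mul ?_ _
  have h1 : Integrable (fun y : ℝ => (1 + (y - r / q) ^ 2)⁻¹) :=
    integrable_inv_one_add_sq.comp_sub_right (r / q)
  exact h1.comp_mul_left' (by positivity)

lemma cauchy_integral {σ r q : ℝ} (hσ : 0 < σ) (hq : 0 < q) :
    ∫ t : ℝ, ((σ * t - r) ^ 2 + q ^ 2)⁻¹ = Real.pi / (σ * q) := by
  simp only [cauchy_aux σ r q hσ hq]
  rw [integral_const_mul]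
  have h1 := Measure.integral_comp_mul_left (fun y : ℝ => (1 + (y - r / q) ^ 2)⁻¹) (σ / q)
  rw [h1, integral_sub_right_eq_self (fun y : ℝ => (1 + y ^ 2)⁻¹) (r / q),
    integral_univ_inv_one_add_sq, abs_of_pos (by positivity), smul_eq_mul]
  field_simp

/-- the denominator `σ t - c` -/
noncomputable def den (σ : ℝ) (c : ℂ) (t : ℝ) : ℂ := ((σ * t : ℝ) : ℂ) - c

lemma norm_den_sq (σ : ℝ) (c : ℂ) (t : ℝ) :
    ‖den σ c t‖ ^ 2 = (σ * t - c.re) ^ 2 + c.im ^ 2 := by
  rw [Complex.sq_norm, Complex.normSq_apply]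
  simp only [den, Complex.sub_re, Complex.sub_im, Complex.ofReal_re, Complex.ofReal_im]
  ring

lemma im_le_norm_den (σ : ℝ) {c : ℂ} (hc : 0 ≤ c.im) (t : ℝ) : c.im ≤ ‖den σ c t‖ := by
  have h : c.im ^ 2 ≤ ‖den σ c t‖ ^ 2 := by
    rw [norm_den_sq]; nlinarith [sq_nonneg (σ * t - c.re)]
  exact (sq_le_sq₀ hc (norm_nonneg _)).1 h

lemma norm_den_pos (σ : ℝ) {c : ℂ} (hc : 0 < c.im) (t : ℝ) : 0 < ‖den σ c t‖ :=
  lt_of_lt_of_le hc (im_le_norm_den σ hc.le t)

lemma den_ne (σ : ℝ) {c : ℂ} (hc : 0 < c.im) (t : ℝ) : den σ c t ≠ 0 :=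
  norm_pos_iff.1 (norm_den_pos σ hc t)

lemma continuous_den (σ : ℝ) (c : ℂ) : Continuous (den σ c) := by
  unfold den; fun_prop

lemma integrable_inv_sq {σ : ℝ} (hσ : 0 < σ) {c : ℂ} (hc : 0 < c.im) :
    Integrable (fun t => (‖den σ c t‖ ^ 2)⁻¹) γ := by
  simp only [norm_den_sq]
  exact integrable_gauss (cauchy_integrable hσ hc)

lemma int_inv_sq_le {σ : ℝ} (hσ : 0 < σ) {c : ℂ} (hc : 0 < c.im) :
    ∫ t, (‖den σ c t‖ ^ 2)⁻¹ ∂γ ≤ 2 / (σ * c.im) := by
  simp only [norm_den_sq]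
  refine (gauss_le (cauchy_integrable hσ hc) fun x => by positivity).trans ?_
  rw [cauchy_integral hσ hc]
  rw [← mul_div_assoc]
  gcongr
  linarith [Real.pi_lt_four]

lemma im_inv_den (σ : ℝ) (c : ℂ) (t : ℝ) :
    ((den σ c t)⁻¹).im = c.im * (‖den σ c t‖ ^ 2)⁻¹ := by
  rw [Complex.inv_im, Complex.sq_norm]
  have : (den σ c t).im = -c.im := by simp [den]
  rw [this, neg_neg, div_eq_mul_inv]

lemma integrable_im {σ : ℝ} (hσ : 0 < σ) {c : ℂ} (hc : 0 < c.im) :
    Integrable (fun t => ((den σ c t)⁻¹).im) γ := by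
  simp only [im_inv_den]
  exact (integrable_inv_sq hσ hc).const_mul _

lemma int_im_le {σ : ℝ} (hσ : 0 < σ) {c : ℂ} (hc : 0 < c.im) :
    ∫ t, ((den σ c t)⁻¹).im ∂γ ≤ 2 / σ := by
  simp only [im_inv_den]
  rw [integral_const_mul]
  calc c.im * ∫ t, (‖den σ c t‖ ^ 2)⁻¹ ∂γ ≤ c.im * (2 / (σ * c.im)) := by
        gcongr; exact int_inv_sq_le hσ hc
    _ = 2 / σ := by field_simp

/-- the constant in the first moment bound -/
noncomputable def m₁ (σ : ℝ) (n : ℕ) : ℝ := (8 * (n + 1) + 1) / σ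

lemma inv_le_sum {σ η y : ℝ} (hσ : 0 < σ) (hη : 0 < η) {n : ℕ} (hn : σ ≤ η * 2 ^ (n + 1))
    (hy : η ≤ y) :
    y⁻¹ ≤ ∑ k ∈ Finset.range (n + 1), 4 * ((η * 2 ^ k) * (y ^ 2 + (η * 2 ^ k) ^ 2)⁻¹) + σ⁻¹ := by
  have hy0 : 0 < y := hη.trans_le hy
  have hpos : ∀ k ∈ Finset.range (n + 1),
      0 ≤ 4 * ((η * 2 ^ k) * (y ^ 2 + (η * 2 ^ k) ^ 2)⁻¹) := fun k _ => by positivity
  by_cases h : σ ≤ y
  · have h1 : y⁻¹ ≤ σ⁻¹ := inv_anti₀ hσ h
    have h2 := Finset.sum_nonneg hpos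
    linarith
  · push Not at h
    obtain ⟨k, hk1, hk2⟩ := exists_nat_pow_near (x := y / η) (y := (2 : ℝ))
      ((one_le_div hη).2 hy) (by norm_num)
    rw [le_div_iff₀ hη] at hk1
    rw [div_lt_iff₀ hη] at hk2
    have hkn : k < n + 1 := by
      by_contra hcon
      push Not at hcon
      have h3 : (2 : ℝ) ^ (n + 1) ≤ 2 ^ k := pow_le_pow_right₀ (by norm_num) hcon
      have h4 : η * 2 ^ (n + 1) ≤ 2 ^ k * η := by
        rw [mul_comm]; exact mul_le_mul_of_nonneg_right h3 hη.le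
      linarith
    have h5 : y⁻¹ ≤ 4 * ((η * 2 ^ k) * (y ^ 2 + (η * 2 ^ k) ^ 2)⁻¹) := by
      set Q := η * 2 ^ k with hQ
      have hQ0 : 0 < Q := by positivity
      have hQy : Q ≤ y := by rw [hQ, mul_comm]; exact hk1
      have hQy2 : y ≤ 2 * Q := by
        have : y < 2 ^ (k + 1) * η := hk2
        rw [pow_succ] at this
        rw [hQ]; nlinarith
      rw [inv_eq_one_div, div_le_iff₀ hy0, mul_assoc, mul_assoc, inv_mul_eq_div, mul_div_assoc',
        mul_div_assoc', le_div_iff₀ (by positivity)]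
      nlinarith
    have h6 := Finset.single_le_sum hpos (Finset.mem_range.2 hkn)
    have h7 : 0 < σ⁻¹ := by positivity
    linarith

lemma integrable_inv {σ : ℝ} (hσ : 0 < σ) {c : ℂ} (hc : 0 < c.im) :
    Integrable (fun t => ‖den σ c t‖⁻¹) γ := by
  refine Integrable.of_bound (C := c.im⁻¹)
    ((continuous_den σ c).norm.measurable.inv).aestronglyMeasurable
    (Filter.Eventually.of_forall fun t => ?_)
  rw [Real.norm_eq_abs, abs_of_nonneg (by positivity)]
  exact inv_anti₀ hc (im_le_norm_den σ hc.le t)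

lemma int_inv_le {σ η : ℝ} (hσ : 0 < σ) (hη : 0 < η) {n : ℕ} (hn : σ ≤ η * 2 ^ (n + 1)) {c : ℂ}
    (hc : η ≤ c.im) : ∫ t, ‖den σ c t‖⁻¹ ∂γ ≤ m₁ σ n := by
  have hc0 : 0 < c.im := hη.trans_le hc
  set c' : ℕ → ℂ := fun k => ⟨c.re, η * 2 ^ k⟩ with hc'
  have hck : ∀ k, 0 < (c' k).im := fun k => by simp only [hc']; positivity
  have h1 : ∀ t, ‖den σ c t‖⁻¹
      ≤ ∑ k ∈ Finset.range (n + 1), 4 * ((den σ (c' k) t)⁻¹).im + σ⁻¹ := by
    intro t
    have h := inv_le_sum hσ hη hn (hc.trans (im_le_norm_den σ hc0.le t))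
    refine h.trans ?_
    gcongr with k hk
    rw [im_inv_den, norm_den_sq σ (c' k)]
    simp only [hc']
    refine mul_le_mul_of_nonneg_left (inv_anti₀ (by positivity) ?_) (by positivity)
    rw [norm_den_sq]
    nlinarith [sq_nonneg c.im]
  calc ∫ t, ‖den σ c t‖⁻¹ ∂γ
      ≤ ∫ t, (∑ k ∈ Finset.range (n + 1), 4 * ((den σ (c' k) t)⁻¹).im + σ⁻¹) ∂γ := by
        refine integral_mono (integrable_inv hσ hc0) ?_ h1
        refine Integrable.add ?_ (integrable_const _)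
        exact integrable_finsetSum _ fun k _ => (integrable_im hσ (hck k)).const_mul _
    _ = ∑ k ∈ Finset.range (n + 1), 4 * ∫ t, ((den σ (c' k) t)⁻¹).im ∂γ + σ⁻¹ := by
        rw [integral_add (integrable_finsetSum _ fun k _ => (integrable_im hσ (hck k)).const_mul _)
          (integrable_const _), integral_finsetSum _
          fun k _ => (integrable_im hσ (hck k)).const_mul _]
        simp only [integral_const_mul, integral_const, probReal_univ, one_smul]
    _ ≤ ∑ k ∈ Finset.range (n + 1), 4 * (2 / σ) + σ⁻¹ := by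
        gcongr with k hk
        exact int_im_le hσ (hck k)
    _ = m₁ σ n := by
        rw [Finset.sum_const, Finset.card_range, nsmul_eq_mul, m₁]
        push_cast
        field_simp
        ring

/-- the ratio bound -/
lemma ratio_ge {σ A B : ℝ} (hσ : 0 < σ) (hA : 0 ≤ A) {z S : ℂ} (hz : 0 < z.im) (hS : 0 ≤ S.im)
    (hre : |z.re| ≤ A * σ) (hB : ‖S‖ ≤ B) :
    gaussianPDFReal 0 1 (A + 2) * (σ / ((A + 2) * σ + ‖z‖ + B)) ^ 2
      ≤ ∫ t, ‖den σ z t‖ ^ 2 * (‖den σ (z + S) t‖ ^ 2)⁻¹ ∂γ := by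
  have hB0 : 0 ≤ B := (norm_nonneg _).trans hB
  have hzS : 0 < (z + S).im := by rw [Complex.add_im]; linarith
  have hzn := norm_nonneg z
  have hD : 0 < (A + 2) * σ + ‖z‖ + B := by positivity
  set κ : ℝ := (σ / ((A + 2) * σ + ‖z‖ + B)) ^ 2 with hκ
  have h1 : ∀ t ∈ Set.Icc (A + 1) (A + 2), κ ≤ ‖den σ z t‖ ^ 2 * (‖den σ (z + S) t‖ ^ 2)⁻¹ := by
    intro t ht
    have a1 : σ ≤ ‖den σ z t‖ := by
      have : |σ * t - z.re| ≤ ‖den σ z t‖ := by
        have := Complex.abs_re_le_norm (den σ z t)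
        simpa [den] using this
      refine le_trans ?_ this
      have h2 := (abs_le.1 hre).2
      have h3 : σ * (A + 1) ≤ σ * t := by gcongr; exact ht.1
      rw [le_abs]; left; nlinarith
    have a2 : ‖den σ (z + S) t‖ ≤ (A + 2) * σ + ‖z‖ + B := by
      have ht0 : 0 ≤ t := by linarith [ht.1]
      calc ‖den σ (z + S) t‖ ≤ ‖((σ * t : ℝ) : ℂ)‖ + ‖z + S‖ := norm_sub_le _ _
        _ ≤ (A + 2) * σ + (‖z‖ + B) := by
            gcongr
            · rw [Complex.norm_real, Real.norm_eq_abs, abs_of_nonneg (by positivity), mul_comm]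
              gcongr
              exact ht.2
            · exact (norm_add_le _ _).trans (by gcongr)
        _ = _ := by ring
    have a3 := norm_den_pos σ hzS t
    rw [hκ, div_pow, div_eq_mul_inv]
    gcongr
  have h2 : Integrable (fun t => ‖den σ z t‖ ^ 2 * (‖den σ (z + S) t‖ ^ 2)⁻¹) γ := by
    refine Integrable.of_bound (C := (1 + ‖S‖ / (z + S).im) ^ 2) ?_
      (Filter.Eventually.of_forall fun t => ?_)
    · exact ((((continuous_den σ z).norm.pow 2).measurable).mul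
        (((continuous_den σ (z + S)).norm.pow 2).measurable.inv)).aestronglyMeasurable
    · rw [Real.norm_eq_abs, abs_of_nonneg (by positivity), ← inv_pow, ← mul_pow]
      gcongr
      have a3 := norm_den_pos σ hzS t
      have a4 : ‖den σ z t‖ ≤ ‖den σ (z + S) t‖ + ‖S‖ := by
        have : den σ z t = den σ (z + S) t + S := by unfold den; ring
        rw [this]; exact norm_add_le _ _
      rw [← div_eq_mul_inv, div_le_iff₀ a3]
      calc ‖den σ z t‖ ≤ ‖den σ (z + S) t‖ + ‖S‖ := a4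
        _ ≤ ‖den σ (z + S) t‖ + ‖S‖ / (z + S).im * ‖den σ (z + S) t‖ := by
            gcongr
            rw [div_mul_eq_mul_div, le_div_iff₀ hzS]
            gcongr
            exact im_le_norm_den σ hzS.le t
        _ = _ := by ring
  calc gaussianPDFReal 0 1 (A + 2) * κ ≤ γ.real (Set.Icc (A + 1) (A + 2)) * κ := by
        gcongr
        have := gauss_Icc_ge (a := A + 1) (b := A + 2) (T := A + 2) (by linarith) (by linarith)
          le_rfl
        linarith
    _ = ∫ t in Set.Icc (A + 1) (A + 2), κ ∂γ := by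
        rw [setIntegral_const, smul_eq_mul]
    _ ≤ ∫ t in Set.Icc (A + 1) (A + 2), ‖den σ z t‖ ^ 2 * (‖den σ (z + S) t‖ ^ 2)⁻¹ ∂γ := by
        refine setIntegral_mono_on ?_ h2.integrableOn measurableSet_Icc h1
        exact integrableOn_const (by simp)
    _ ≤ _ := by
        refine setIntegral_le_integral h2 (Filter.Eventually.of_forall fun t => ?_)
        simp only [Pi.zero_apply]
        positivity

lemma inv_sq_ge {σ T : ℝ} (hσ : 0 < σ) {c : ℂ} (hc : 0 < c.im) (hcσ : c.im ≤ σ)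
    (hre : |c.re| ≤ (T - 1) * σ) :
    gaussianPDFReal 0 1 T / (σ * c.im) ≤ ∫ t, (‖den σ c t‖ ^ 2)⁻¹ ∂γ := by
  have h2 := integrable_inv_sq hσ hc
  set a := (c.re - c.im) / σ with ha
  set b := (c.re + c.im) / σ with hb
  have hab : a ≤ b := by rw [ha, hb]; gcongr; linarith
  have hre' := abs_le.1 hre
  have haT : -T ≤ a := by rw [ha, le_div_iff₀ hσ]; nlinarith
  have hbT : b ≤ T := by rw [hb, div_le_iff₀ hσ]; nlinarith
  have h1 : ∀ t ∈ Set.Icc a b, (2 * c.im ^ 2)⁻¹ ≤ (‖den σ c t‖ ^ 2)⁻¹ := by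
    intro t ht
    have a3 := norm_den_pos σ hc t
    apply inv_anti₀ (by positivity)
    rw [norm_den_sq]
    have b1 : c.re - c.im ≤ σ * t := by
      have := ht.1; rw [ha, div_le_iff₀ hσ] at this; linarith
    have b2 : σ * t ≤ c.re + c.im := by
      have := ht.2; rw [hb, le_div_iff₀ hσ] at this; linarith
    have : (σ * t - c.re) ^ 2 ≤ c.im ^ 2 := sq_le_sq' (by linarith) (by linarith)
    linarith
  calc gaussianPDFReal 0 1 T / (σ * c.im)
      = ((b - a) * gaussianPDFReal 0 1 T) * (2 * c.im ^ 2)⁻¹ := by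
        rw [ha, hb]; field_simp; ring
    _ ≤ γ.real (Set.Icc a b) * (2 * c.im ^ 2)⁻¹ := by
        gcongr
        exact gauss_Icc_ge hab haT hbT
    _ = ∫ t in Set.Icc a b, (2 * c.im ^ 2)⁻¹ ∂γ := by
        rw [setIntegral_const, smul_eq_mul]
    _ ≤ ∫ t in Set.Icc a b, (‖den σ c t‖ ^ 2)⁻¹ ∂γ := by
        refine setIntegral_mono_on ?_ h2.integrableOn measurableSet_Icc h1
        exact integrableOn_const (by simp)
    _ ≤ _ := by
        refine setIntegral_le_integral h2 (Filter.Eventually.of_forall fun t => ?_)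
        simp only [Pi.zero_apply]
        positivity

/-- a Lipschitz version of the indicator function of `[2 s², ∞)` -/
noncomputable def hfun (s x : ℝ) : ℝ := max 0 (min 1 ((x - 2 * s ^ 2) / s ^ 2))

lemma hfun_nonneg (s x : ℝ) : 0 ≤ hfun s x := le_max_left _ _

lemma hfun_le_one (s x : ℝ) : hfun s x ≤ 1 := max_le zero_le_one (min_le_left _ _)

lemma continuous_hfun (s : ℝ) : Continuous (hfun s) := by
  unfold hfun; fun_prop

lemma hfun_eq_zero {s x : ℝ} (hs : 0 < s) (hx : x ≤ 2 * s ^ 2) : hfun s x = 0 := by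
  unfold hfun
  apply max_eq_left
  refine (min_le_right _ _).trans ?_
  apply div_nonpos_of_nonpos_of_nonneg <;> [linarith; positivity]

lemma hfun_eq_one {s x : ℝ} (hs : 0 < s) (hx : 3 * s ^ 2 ≤ x) : hfun s x = 1 := by
  unfold hfun
  rw [min_eq_left, max_eq_right zero_le_one]
  rw [le_div_iff₀ (by positivity)]; linarith

lemma hfun_le {s x : ℝ} (hs : 0 < s) (hx : 0 ≤ x) : hfun s x ≤ x / (2 * s ^ 2) := by
  by_cases h : x ≤ 2 * s ^ 2
  · rw [hfun_eq_zero hs h]; positivity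
  · push Not at h
    refine (hfun_le_one s x).trans ?_
    rw [le_div_iff₀ (by positivity)]; linarith

lemma hfun_lip {s : ℝ} (hs : 0 < s) (x y : ℝ) : |hfun s x - hfun s y| ≤ |x - y| / s ^ 2 := by
  unfold hfun
  have h0 := abs_max_sub_max_le_abs (min 1 ((x - 2 * s ^ 2) / s ^ 2))
    (min 1 ((y - 2 * s ^ 2) / s ^ 2)) 0
  rw [max_comm _ (0:ℝ), max_comm _ (0:ℝ)] at h0
  refine h0.trans ?_
  · have : (x - 2 * s ^ 2) / s ^ 2 - (y - 2 * s ^ 2) / s ^ 2 = (x - y) / s ^ 2 := by ring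
    calc |min 1 ((x - 2 * s ^ 2) / s ^ 2) - min 1 ((y - 2 * s ^ 2) / s ^ 2)|
        ≤ |(x - 2 * s ^ 2) / s ^ 2 - (y - 2 * s ^ 2) / s ^ 2| := by
          have := abs_min_sub_min_le_max (1:ℝ) ((x - 2 * s ^ 2) / s ^ 2) 1 ((y - 2 * s ^ 2) / s ^ 2)
          simpa using this
      _ = |x - y| / s ^ 2 := by rw [this, abs_div, abs_of_pos (by positivity : 0 < s ^ 2)]

/-- the mean number of resonances -/
noncomputable def rho (σ s : ℝ) (c : ℂ) : ℝ := ∫ t, hfun s (((den σ c t)⁻¹).im) ∂γ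

lemma measurable_im_inv_den (σ : ℝ) (c : ℂ) : Measurable fun t => ((den σ c t)⁻¹).im :=
  Complex.measurable_im.comp ((continuous_den σ c).measurable.inv)

lemma integrable_hfun (σ s : ℝ) (c : ℂ) : Integrable (fun t => hfun s (((den σ c t)⁻¹).im)) γ := by
  refine Integrable.of_bound (C := 1)
    (((continuous_hfun s).measurable.comp (measurable_im_inv_den σ c))).aestronglyMeasurable
    (Filter.Eventually.of_forall fun t => ?_)
  rw [Real.norm_eq_abs, abs_of_nonneg (hfun_nonneg _ _)]; exact hfun_le_one _ _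

lemma rho_nonneg (σ s : ℝ) (c : ℂ) : 0 ≤ rho σ s c := integral_nonneg fun t => hfun_nonneg _ _

lemma im_inv_den_nonneg (σ : ℝ) {c : ℂ} (hc : 0 < c.im) (t : ℝ) : 0 ≤ ((den σ c t)⁻¹).im := by
  rw [im_inv_den]; positivity

lemma rho_le {σ s : ℝ} (hσ : 0 < σ) (hs : 0 < s) {c : ℂ} (hc : 0 < c.im) :
    rho σ s c ≤ 1 / (σ * s ^ 2) := by
  unfold rho
  calc ∫ t, hfun s (((den σ c t)⁻¹).im) ∂γ ≤ ∫ t, ((den σ c t)⁻¹).im / (2 * s ^ 2) ∂γ := by
        refine integral_mono (integrable_hfun σ s c) ((integrable_im hσ hc).div_const _) fun t => ?_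
        exact hfun_le hs (im_inv_den_nonneg σ hc t)
    _ = (∫ t, ((den σ c t)⁻¹).im ∂γ) / (2 * s ^ 2) := integral_div _ _
    _ ≤ (2 / σ) / (2 * s ^ 2) := by gcongr; exact int_im_le hσ hc
    _ = _ := by field_simp

lemma rho_lip {σ s η : ℝ} (hσ : 0 < σ) (hs : 0 < s) (hη : 0 < η) {c c' : ℂ} (hc : η ≤ c.im)
    (hc' : η ≤ c'.im) : |rho σ s c - rho σ s c'| ≤ 2 / (σ * η * s ^ 2) * ‖c - c'‖ := by
  have h0 : 0 < c.im := hη.trans_le hc
  have h0' : 0 < c'.im := hη.trans_le hc'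
  unfold rho
  rw [← integral_sub (integrable_hfun σ s c) (integrable_hfun σ s c')]
  have h1 : ∀ t, |hfun s (((den σ c t)⁻¹).im) - hfun s (((den σ c' t)⁻¹).im)|
      ≤ ‖c - c'‖ / s ^ 2 * (1 / 2 * ((‖den σ c t‖ ^ 2)⁻¹ + (‖den σ c' t‖ ^ 2)⁻¹)) := by
    intro t
    have p := norm_den_pos σ h0 t
    have p' := norm_den_pos σ h0' t
    refine (hfun_lip hs _ _).trans ?_
    have e1 : ((den σ c t)⁻¹).im - ((den σ c' t)⁻¹).im = ((den σ c t)⁻¹ - (den σ c' t)⁻¹).im := by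
      rw [Complex.sub_im]
    have e2 : (den σ c t)⁻¹ - (den σ c' t)⁻¹ = (c - c') * ((den σ c t)⁻¹ * (den σ c' t)⁻¹) := by
      have n1 := den_ne σ h0 t
      have n2 := den_ne σ h0' t
      field_simp
      unfold den; ring
    rw [e1]
    have e3 : |((den σ c t)⁻¹ - (den σ c' t)⁻¹).im|
        ≤ ‖c - c'‖ * (1 / 2 * ((‖den σ c t‖ ^ 2)⁻¹ + (‖den σ c' t‖ ^ 2)⁻¹)) := by
      refine (Complex.abs_im_le_norm _).trans ?_
      rw [e2, norm_mul, norm_mul, norm_inv, norm_inv]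
      refine mul_le_mul_of_nonneg_left ?_ (norm_nonneg _)
      have := two_mul_le_add_sq (‖den σ c t‖⁻¹) (‖den σ c' t‖⁻¹)
      rw [inv_pow, inv_pow] at this
      linarith
    calc |((den σ c t)⁻¹ - (den σ c' t)⁻¹).im| / s ^ 2
        ≤ ‖c - c'‖ * (1 / 2 * ((‖den σ c t‖ ^ 2)⁻¹ + (‖den σ c' t‖ ^ 2)⁻¹)) / s ^ 2 := by gcongr
      _ = _ := by ring
  have hint : Integrable (fun t => ‖c - c'‖ / s ^ 2 *
      (1 / 2 * ((‖den σ c t‖ ^ 2)⁻¹ + (‖den σ c' t‖ ^ 2)⁻¹))) γ :=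
    (((integrable_inv_sq hσ h0).add (integrable_inv_sq hσ h0')).const_mul _).const_mul _
  calc |∫ t, (hfun s (((den σ c t)⁻¹).im) - hfun s (((den σ c' t)⁻¹).im)) ∂γ|
      ≤ ∫ t, |hfun s (((den σ c t)⁻¹).im) - hfun s (((den σ c' t)⁻¹).im)| ∂γ :=
        abs_integral_le_integral_abs
    _ ≤ ∫ t, ‖c - c'‖ / s ^ 2 *
          (1 / 2 * ((‖den σ c t‖ ^ 2)⁻¹ + (‖den σ c' t‖ ^ 2)⁻¹)) ∂γ :=
        integral_mono ((integrable_hfun σ s c).sub (integrable_hfun σ s c')).abs hint h1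
    _ = ‖c - c'‖ / s ^ 2 * (1 / 2 * (∫ t, (‖den σ c t‖ ^ 2)⁻¹ ∂γ
          + ∫ t, (‖den σ c' t‖ ^ 2)⁻¹ ∂γ)) := by
        rw [integral_const_mul, integral_const_mul,
          integral_add (integrable_inv_sq hσ h0) (integrable_inv_sq hσ h0')]
    _ ≤ ‖c - c'‖ / s ^ 2 * (1 / 2 * (2 / (σ * η) + 2 / (σ * η))) := by
        gcongr
        · exact (int_inv_sq_le hσ h0).trans (by gcongr)
        · exact (int_inv_sq_le hσ h0').trans (by gcongr)
    _ = _ := by field_simp; ring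

lemma rho_ge {σ s T : ℝ} (hσ : 0 < σ) (hs : 0 < s) {c : ℂ} (hc : 0 < c.im)
    (hc6 : c.im ≤ 1 / (6 * s ^ 2)) (hre : |c.re| + 1 / s ^ 2 ≤ T * σ) :
    gaussianPDFReal 0 1 T * (√c.im / (2 * σ * s)) ≤ rho σ s c := by
  set w := √c.im / (3 * s) with hw
  have hw0 : 0 ≤ w := by positivity
  have hsq : √c.im ^ 2 = c.im := Real.sq_sqrt hc.le
  have hws : w ≤ 1 / s ^ 2 := by
    have h1 : √c.im ≤ 1 / s := by
      apply Real.sqrt_le_left (by positivity) |>.2
      rw [div_pow, one_pow]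
      refine hc6.trans ?_
      apply one_div_le_one_div_of_le (by positivity); nlinarith [sq_nonneg s, hs]
    rw [hw, div_le_div_iff₀ (by positivity) (by positivity)]
    rw [le_div_iff₀ hs] at h1
    nlinarith
  set a := (c.re - w) / σ with ha
  set b := (c.re + w) / σ with hb
  have hab : a ≤ b := by rw [ha, hb]; gcongr; linarith
  have hr1 := neg_abs_le c.re
  have hr2 := le_abs_self c.re
  have haT : -T ≤ a := by rw [ha, le_div_iff₀ hσ]; linarith
  have hbT : b ≤ T := by rw [hb, div_le_iff₀ hσ]; linarith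
  have h1 : ∀ t ∈ Set.Icc a b, (1 : ℝ) ≤ hfun s (((den σ c t)⁻¹).im) := by
    intro t ht
    rw [hfun_eq_one hs]
    rw [im_inv_den, norm_den_sq]
    have b1 : c.re - w ≤ σ * t := by
      have := ht.1; rw [ha, div_le_iff₀ hσ] at this; linarith
    have b2 : σ * t ≤ c.re + w := by
      have := ht.2; rw [hb, le_div_iff₀ hσ] at this; linarith
    have b3 : (σ * t - c.re) ^ 2 ≤ w ^ 2 := sq_le_sq' (by linarith) (by linarith)
    have b4 : w ^ 2 = c.im / (9 * s ^ 2) := by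
      rw [hw, div_pow, hsq]; ring
    have b5 : c.im ^ 2 ≤ c.im / (6 * s ^ 2) := by
      rw [pow_two]
      calc c.im * c.im ≤ c.im * (1 / (6 * s ^ 2)) := by gcongr
        _ = _ := by ring
    rw [← div_eq_mul_inv, le_div_iff₀ (by positivity)]
    have b6 : (σ * t - c.re) ^ 2 + c.im ^ 2 ≤ c.im / (9 * s ^ 2) + c.im / (6 * s ^ 2) := by
      linarith
    calc 3 * s ^ 2 * ((σ * t - c.re) ^ 2 + c.im ^ 2)
        ≤ 3 * s ^ 2 * (c.im / (9 * s ^ 2) + c.im / (6 * s ^ 2)) := by gcongr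
      _ = (5 / 6) * c.im := by field_simp; ring
      _ ≤ c.im := by linarith
  calc gaussianPDFReal 0 1 T * (√c.im / (2 * σ * s))
      ≤ ((b - a) * gaussianPDFReal 0 1 T) * 1 := by
        rw [mul_one, mul_comm (b - a)]
        gcongr
        · exact (pdf_pos T).le
        · have : b - a = 2 * w / σ := by rw [ha, hb]; ring
          rw [this, hw, div_le_div_iff₀ (by positivity) hσ]
          have : 2 * (√c.im / (3 * s)) * (2 * σ * s) = 4 / 3 * (√c.im * σ) := by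
            field_simp; ring
          rw [this]
          nlinarith [Real.sqrt_nonneg c.im, mul_nonneg (Real.sqrt_nonneg c.im) hσ.le]
    _ ≤ γ.real (Set.Icc a b) * 1 := by
        gcongr
        exact gauss_Icc_ge hab haT hbT
    _ = ∫ t in Set.Icc a b, (1 : ℝ) ∂γ := by
        rw [setIntegral_const, smul_eq_mul]
    _ ≤ ∫ t in Set.Icc a b, hfun s (((den σ c t)⁻¹).im) ∂γ := by
        refine setIntegral_mono_on ?_ (integrable_hfun σ s c).integrableOn measurableSet_Icc h1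
        exact integrableOn_const (by simp)
    _ ≤ rho σ s c := by
        refine setIntegral_le_integral (integrable_hfun σ s c)
          (Filter.Eventually.of_forall fun t => ?_)
        exact hfun_nonneg _ _

end Pool.Agent.H989
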