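import Pool.Agent.H989.Energy

/-!
From the torus to `ℤ^d`.
-/

set_option linter.unusedSectionVars false
set_option linter.unusedVariables false

open MeasureTheory ProbabilityTheory Finset
open scoped ComplexConjugate ENNReal

namespace Pool.Agent.H989

/-- the lattice -/
abbrev Zd (d : ℕ) := Fin d → ℤ

/-- the Anderson operator `Δ + σ ω` acting on functions on `ℤ^d` -/
noncomputable def anderson {d : ℕ} (σ : ℝ) (ω : Zd d → ℝ) (u : Zd d → ℂ) (x : Zd d) : ℂ :=
  ∑ i, (u (x + Pi.single i 1) + u (x - Pi.single i 1)) + ((σ * ω x : ℝ) : ℂ) * u x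

/-- square summable functions on `ℤ^d` -/
noncomputable abbrev L2 (d : ℕ) := lp (fun _ : Zd d => ℂ) 2

section lift
variable {d L : ℕ} [NeZero L]

/-- reduction -/
def red (L : ℕ) (y : Zd d) : Tor d L := fun i => ((y i : ℤ) : ZMod L)

/-- the lift, centred at `a` -/
def lf (L : ℕ) (a : Zd d) (x : Tor d L) : Zd d := fun i => (x i).valMinAbs + a i

lemma red_lf (a : Zd d) (x : Tor d L) : red L (lf L a x - a) = x := by
  funext i
  simp [red, lf]

lemma lf_inj (a : Zd d) : Function.Injective (lf (d := d) L a) := by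
  intro x y h
  rw [← red_lf a x, ← red_lf a y, h]

lemma lf_zero (a : Zd d) : lf L a 0 = a := by
  funext i
  simp [lf]

lemma lf_red {a y : Zd d} (h : ∀ i, |y i - a i| * 2 < L) : lf L a (red L (y - a)) = y := by
  funext i
  have h1 : ((red L (y - a) : Tor d L) i).valMinAbs = y i - a i := by
    rw [ZMod.valMinAbs_spec]
    refine ⟨rfl, ?_⟩
    have := h i
    have h2 : |(y i - a i) * 2| < L := by rw [abs_mul]; simpa using this
    rw [abs_lt] at h2
    exact ⟨h2.1, h2.2.le⟩
  unfold lf
  rw [h1]; ring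

lemma red_add_single (y : Zd d) (i : Fin d) : red L (y + Pi.single i 1) = red L y + ei i := by
  funext j
  simp only [red, Pi.add_apply, ei_apply, Pi.single_apply]
  split_ifs <;> simp

lemma red_sub_single (y : Zd d) (i : Fin d) : red L (y - Pi.single i 1) = red L y - ei i := by
  funext j
  simp only [red, Pi.sub_apply, ei_apply, Pi.single_apply]
  split_ifs <;> simp

/-- `F` is well inside the box of side `L` around `a` -/
def Inside (L : ℕ) (a : Zd d) (F : Finset (Zd d)) : Prop :=
  ∀ y ∈ F, ∀ i, |y i - a i| * 2 + 2 < L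

lemma lf_add_ne {a : Zd d} {F : Finset (Zd d)} (hF : Inside L a F) {x : Tor d L} {i : Fin d}
    (h : lf L a (x + ei i) ≠ lf L a x + Pi.single i 1) :
    lf L a (x + ei i) ∉ F ∧ lf L a x + Pi.single i 1 ∉ F := by
  constructor
  · intro hy
    apply h
    set y := lf L a (x + ei i) with hyd
    have h1 : lf L a (red L (y - Pi.single i 1 - a)) = y - Pi.single i 1 := by
      refine lf_red fun k => ?_
      have := hF y hy k
      rw [Pi.sub_apply, Pi.single_apply]
      have hs : |(if k = i then (1:ℤ) else 0)| ≤ 1 := by split_ifs <;> simp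
      have h2 : |y k - (if k = i then 1 else 0) - a k| ≤ |y k - a k| + 1 := by
        calc |y k - (if k = i then (1:ℤ) else 0) - a k|
            = |(y k - a k) - (if k = i then (1:ℤ) else 0)| := by congr 1; ring
          _ ≤ |y k - a k| + |(if k = i then (1:ℤ) else 0)| := abs_sub _ _
          _ ≤ _ := by linarith
      linarith
    have h2 : red L (y - Pi.single i 1 - a) = x := by
      have : y - Pi.single i 1 - a = (y - a) - Pi.single i 1 := by abel
      rw [this, red_sub_single, hyd, red_lf]; abel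
    rw [h2] at h1
    rw [h1]; abel
  · intro hy
    apply h
    set y := lf L a x + Pi.single i 1 with hyd
    have h1 : lf L a (red L (y - a)) = y := by
      refine lf_red fun k => ?_
      have := hF y hy k
      linarith
    have h2 : red L (y - a) = x + ei i := by
      have : y - a = (lf L a x - a) + Pi.single i 1 := by rw [hyd]; abel
      rw [this, red_add_single, red_lf]
    rw [h2] at h1
    exact h1

lemma lf_sub_ne {a : Zd d} {F : Finset (Zd d)} (hF : Inside L a F) {x : Tor d L} {i : Fin d}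
    (h : lf L a (x - ei i) ≠ lf L a x - Pi.single i 1) :
    lf L a (x - ei i) ∉ F ∧ lf L a x - Pi.single i 1 ∉ F := by
  constructor
  · intro hy
    apply h
    set y := lf L a (x - ei i) with hyd
    have h1 : lf L a (red L (y + Pi.single i 1 - a)) = y + Pi.single i 1 := by
      refine lf_red fun k => ?_
      have := hF y hy k
      rw [Pi.add_apply, Pi.single_apply]
      have hs : |(if k = i then (1:ℤ) else 0)| ≤ 1 := by split_ifs <;> simp
      have h2 : |y k + (if k = i then 1 else 0) - a k| ≤ |y k - a k| + 1 := by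
        calc |y k + (if k = i then (1:ℤ) else 0) - a k|
            = |(y k - a k) + (if k = i then (1:ℤ) else 0)| := by congr 1; ring
          _ ≤ |y k - a k| + |(if k = i then (1:ℤ) else 0)| := abs_add_le _ _
          _ ≤ _ := by linarith
      linarith
    have h2 : red L (y + Pi.single i 1 - a) = x := by
      have : y + Pi.single i 1 - a = (y - a) + Pi.single i 1 := by abel
      rw [this, red_add_single, hyd, red_lf]; abel
    rw [h2] at h1
    rw [h1]; abel
  · intro hy
    apply h
    set y := lf L a x - Pi.single i 1 with hyd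
    have h1 : lf L a (red L (y - a)) = y := by
      refine lf_red fun k => ?_
      have := hF y hy k
      linarith
    have h2 : red L (y - a) = x - ei i := by
      have : y - a = (lf L a x - a) - Pi.single i 1 := by rw [hyd]; abel
      rw [this, red_sub_single, red_lf]
    rw [h2] at h1
    exact h1

/-- the tail of `u` off `F` -/
noncomputable def tl (u : Zd d → ℂ) (F : Finset (Zd d)) (y : Zd d) : ℝ :=
  if y ∈ F then 0 else ‖u y‖ ^ 2

lemma tl_nonneg (u : Zd d → ℂ) (F : Finset (Zd d)) (y : Zd d) : 0 ≤ tl u F y := by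
  unfold tl; split_ifs <;> positivity

lemma tl_summable {u : Zd d → ℂ} (hu : Summable fun y => ‖u y‖ ^ 2) (F : Finset (Zd d)) :
    Summable (tl u F) := by
  refine Summable.of_nonneg_of_le (tl_nonneg u F) (fun y => ?_) hu
  unfold tl; split_ifs
  · positivity
  · exact le_rfl

lemma sum_tl_le {u : Zd d → ℂ} (hu : Summable fun y => ‖u y‖ ^ 2) (F : Finset (Zd d))
    {φ : Tor d L → Zd d} (hφ : Function.Injective φ) : ∑ x, tl u F (φ x) ≤ ∑' y, tl u F y := by
  have h1 : ∑ x, tl u F (φ x) = ∑ y ∈ univ.image φ, tl u F y :=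
    (Finset.sum_image fun a _ b _ h => hφ h).symm
  rw [h1]
  exact (tl_summable hu F).sum_le_tsum _ fun y _ => tl_nonneg u F y

lemma nsq_defect_le {u : Zd d → ℂ} (hu : Summable fun y => ‖u y‖ ^ 2) {F : Finset (Zd d)}
    {φ ψ : Tor d L → Zd d} (hφ : Function.Injective φ) (hψ : Function.Injective ψ)
    (h : ∀ x, φ x ≠ ψ x → φ x ∉ F ∧ ψ x ∉ F) :
    nrm (fun x => u (φ x) - u (ψ x)) ≤ 2 * √(∑' y, tl u F y) := by
  have hT : 0 ≤ ∑' y, tl u F y := tsum_nonneg (tl_nonneg u F)
  refine nrm_le_of (by positivity) ?_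
  rw [mul_pow, Real.sq_sqrt hT]
  unfold nsq
  calc ∑ x, ‖u (φ x) - u (ψ x)‖ ^ 2 ≤ ∑ x, (2 * tl u F (φ x) + 2 * tl u F (ψ x)) := by
        refine Finset.sum_le_sum fun x _ => ?_
        by_cases hx : φ x = ψ x
        · rw [hx, sub_self, norm_zero]
          have := tl_nonneg u F (ψ x)
          nlinarith
        · obtain ⟨h1, h2⟩ := h x hx
          unfold tl
          rw [if_neg h1, if_neg h2]
          have h3 := norm_sub_le (u (φ x)) (u (ψ x))
          have h4 := norm_nonneg (u (φ x) - u (ψ x))
          nlinarith [sq_nonneg (‖u (φ x)‖ - ‖u (ψ x)‖)]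
    _ = 2 * ∑ x, tl u F (φ x) + 2 * ∑ x, tl u F (ψ x) := by
        rw [Finset.sum_add_distrib, Finset.mul_sum, Finset.mul_sum]
    _ ≤ 2 * ∑' y, tl u F y + 2 * ∑' y, tl u F y := by
        have := sum_tl_le hu F hφ
        have := sum_tl_le hu F hψ
        linarith
    _ = _ := by ring

/-- the restriction of `u` to the box -/
def rst (L : ℕ) [NeZero L] (a : Zd d) (u : Zd d → ℂ) (x : Tor d L) : ℂ := u (lf L a x)

/-- the boundary defect -/
noncomputable def dfc (L : ℕ) [NeZero L] (a : Zd d) (u : Zd d → ℂ) (x : Tor d L) : ℂ :=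
  ∑ i, ((u (lf L a (x + ei i)) - u (lf L a x + Pi.single i 1))
    + (u (lf L a (x - ei i)) - u (lf L a x - Pi.single i 1)))

lemma nrm_dfc_le {u : Zd d → ℂ} (hu : Summable fun y => ‖u y‖ ^ 2) {F : Finset (Zd d)} {a : Zd d}
    (hF : Inside L a F) : nrm (dfc L a u) ≤ d * (4 * √(∑' y, tl u F y)) := by
  have h1 : dfc L a u = ∑ i, ((fun x => u (lf L a (x + ei i)) - u (lf L a x + Pi.single i 1))
      + (fun x => u (lf L a (x - ei i)) - u (lf L a x - Pi.single i 1))) := by
    funext x
    simp [dfc, Finset.sum_apply]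
  rw [h1]
  refine (Finset.le_sum_of_subadditive nrm (by
    have := nrm_smul (V := Tor d L) 0 0
    have h0 : nrm (0 : Tor d L → ℂ) = 0 := by simpa using this
    exact h0.le) nrm_add_le univ _).trans ?_
  calc _ ≤ ∑ i : Fin d, (2 * √(∑' y, tl u F y) + 2 * √(∑' y, tl u F y)) := by
        refine Finset.sum_le_sum fun i _ => (nrm_add_le _ _).trans (add_le_add ?_ ?_)
        · refine nsq_defect_le hu ?_ ?_ fun x hx => lf_add_ne hF hx
          · exact (lf_inj a).comp (add_left_injective _)
          · exact (add_left_injective _).comp (lf_inj a)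
        · refine nsq_defect_le hu ?_ ?_ fun x hx => lf_sub_ne hF hx
          · exact (lf_inj a).comp (sub_left_injective)
          · exact (sub_left_injective).comp (lf_inj a)
    _ = _ := by simp; ring

/-- the eigenvalue equation on the torus, with defect -/
lemma eig_torus (hL : 3 ≤ L) {σ : ℝ} {ω : Zd d → ℝ} {u : Zd d → ℂ} {E : ℝ} (a : Zd d)
    (h : ∀ x, anderson σ ω u x = E * u x) (x : Tor d L) :
    nb (ND L univ) (rst L a u) x + ((σ * ω (lf L a x) : ℝ) : ℂ) * rst L a u x
      = E * rst L a u x + dfc L a u x := by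
  have h1 := h (lf L a x)
  unfold anderson at h1
  rw [nb_ND hL]
  unfold rst dfc
  rw [← h1]
  have : ∀ i : Fin d, ((u (lf L a (x + ei i)) - u (lf L a x + Pi.single i 1))
      + (u (lf L a (x - ei i)) - u (lf L a x - Pi.single i 1)))
      = (u (lf L a (x + ei i)) + u (lf L a (x - ei i)))
        - (u (lf L a x + Pi.single i 1) + u (lf L a x - Pi.single i 1)) := fun i => by ring
  simp only [this, Finset.sum_sub_distrib]
  ring

/-- the overlap with the resolvent column -/
lemma overlap (hL : 3 ≤ L) {σ : ℝ} {ω : Zd d → ℝ} {u : Zd d → ℂ} {E : ℝ} (a : Zd d)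
    (h : ∀ x, anderson σ ω u x = E * u x) {z : ℂ} (hz : 0 < z.im) {g : Tor d L → ℂ}
    (hg : IsSol (ND L univ) ∅ (pot σ fun x => ω (lf L a x)) z (Pi.single 0 1) g) :
    ((E : ℂ) - z) * dot (fun x => conj (rst L a u x)) g
      + dot (fun x => conj (dfc L a u x)) g = conj (u a) := by
  set U := rst L a u with hU
  set D := dfc L a u with hD
  set N := ND L (univ : Finset (Fin d)) with hN
  have hNs : Steps N := steps_ND hL _
  have e1 : conj (u a) = dot (fun x => conj (U x)) (Pi.single 0 1) := by
    rw [dot_symm, dot_single_left, hU]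
    unfold rst; rw [lf_zero]
  have e2 : ∀ x, (Pi.single 0 1 : Tor d L → ℂ) x
      = ((pot σ (fun x => ω (lf L a x)) x : ℂ) - z) * g x + nb N g x := fun x =>
    (hg.2 x (by simp)).symm
  have e3 : (Pi.single 0 1 : Tor d L → ℂ)
      = (fun x => ((pot σ (fun x => ω (lf L a x)) x : ℂ) - z) * g x) + nb N g := by
    funext x; rw [e2]; rfl
  have e4 : nb N (fun x => conj (U x)) = fun x => conj (nb N U x) := by
    funext x; unfold nb; rw [map_sum]
  rw [e1, e3, dot_add_right, dot_nb hNs, e4]
  unfold dot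
  rw [Finset.mul_sum, ← Finset.sum_add_distrib, ← Finset.sum_add_distrib]
  refine Finset.sum_congr rfl fun x _ => ?_
  have e5 := congrArg conj (eig_torus hL a h x)
  rw [← hU, ← hD, ← hN] at e5
  simp only [map_add, map_mul, Complex.conj_ofReal] at e5
  have e6 : ((pot σ (fun x => ω (lf L a x)) x : ℝ) : ℂ) = ((σ * ω (lf L a x) : ℝ) : ℂ) := rfl
  beta_reduce
  rw [e6]
  linear_combination (-g x) * e5

/-- extension by zero -/
noncomputable def ext0 (a : Zd d) (g : Tor d L → ℂ) : L2 d := ∑ x, lp.single 2 (lf L a x) (g x)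

lemma inner_ext0 (a : Zd d) (g : Tor d L → ℂ) (u : L2 d) :
    inner ℂ u (ext0 a g) = dot (fun x => conj (rst L a u x)) g := by
  unfold ext0 dot rst
  rw [inner_sum]
  refine Finset.sum_congr rfl fun x _ => ?_
  rw [lp.inner_single_right]
  simp [mul_comm]

lemma norm_ext0 (a : Zd d) (g : Tor d L → ℂ) : ‖ext0 a g‖ ^ 2 = nsq g := by
  have h1 : inner ℂ (ext0 a g) (ext0 a g) = ((‖ext0 a g‖ ^ 2 : ℝ) : ℂ) := by
    rw [inner_self_eq_norm_sq_to_K]; norm_cast
  rw [inner_ext0] at h1
  have h2 : ∀ x, rst L a (ext0 a g) x = g x := by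
    intro x
    unfold rst ext0
    rw [lp.coeFn_sum, Finset.sum_apply]
    rw [Finset.sum_eq_single x]
    · simp
    · intro y _ hy
      rw [lp.single_apply, Pi.single_apply, if_neg]
      intro hh; exact hy (lf_inj a hh).symm
    · simp
  simp only [h2] at h1
  have h3 : dot (fun x => conj (g x)) g = ((nsq g : ℝ) : ℂ) := by
    unfold dot nsq
    push_cast
    refine Finset.sum_congr rfl fun x _ => ?_
    exact Complex.conj_mul' (g x)
  rw [h3] at h1
  exact_mod_cast h1.symm

end lift

end Pool.Agent.H989
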