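import Pool.Agent.H989.Inf

/-!
Eigenfunctions on `ℤ^d` against the resolvents of the tori.
-/

set_option linter.unusedSectionVars false
set_option linter.unusedVariables false

open MeasureTheory ProbabilityTheory Finset Filter Topology
open scoped ComplexConjugate ENNReal

namespace Pool.Agent.H989

lemma l2_summable {d : ℕ} (u : L2 d) : Summable fun y => ‖u y‖ ^ 2 := by
  have := (lp.memℓp u).summable (by norm_num)
  simpa using this

section tail
variable {d : ℕ}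

lemma tl_tendsto {u : Zd d → ℂ} (hu : Summable fun y => ‖u y‖ ^ 2) :
    Tendsto (fun F : Finset (Zd d) => ∑' y, tl u F y) atTop (𝓝 0) := by
  have h := tendsto_tsum_compl_atTop_zero (fun y => ‖u y‖ ^ 2)
  refine h.congr fun F => ?_
  have h2 := tsum_subtype {y : Zd d | y ∉ F} (fun y => ‖u y‖ ^ 2)
  refine h2.trans (tsum_congr fun y => ?_)
  unfold tl
  by_cases hy : y ∈ F
  · rw [if_pos hy, Set.indicator_of_notMem]; simpa using hy
  · rw [if_neg hy, Set.indicator_of_mem]; exact hy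

lemma exists_inside (a : Zd d) (F : Finset (Zd d)) : ∃ L₀ : ℕ, ∀ L, L₀ ≤ L → Inside L a F := by
  refine ⟨∑ y ∈ F, ∑ i, (|y i - a i| * 2 + 3).toNat, fun L hL y hy i => ?_⟩
  have h1 : (|y i - a i| * 2 + 3).toNat ≤ ∑ i, (|y i - a i| * 2 + 3).toNat :=
    Finset.single_le_sum (f := fun i => (|y i - a i| * 2 + 3).toNat) (fun _ _ => Nat.zero_le _)
      (mem_univ i)
  have h2 : ∑ i, (|y i - a i| * 2 + 3).toNat
      ≤ ∑ y ∈ F, ∑ i, (|y i - a i| * 2 + 3).toNat :=
    Finset.single_le_sum (f := fun y : Zd d => ∑ i, (|y i - a i| * 2 + 3).toNat)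
      (fun _ _ => Nat.zero_le _) hy
  have h3 : |y i - a i| * 2 + 3 ≤ ((|y i - a i| * 2 + 3).toNat : ℤ) := Int.self_le_toNat _
  have h4 : (((|y i - a i| * 2 + 3).toNat : ℕ) : ℤ) ≤ (L : ℤ) := by
    exact_mod_cast h1.trans (h2.trans hL)
  linarith

lemma exists_L₀ {ι : Type} [Finite ι] (u : ι → L2 d) (a : Zd d) {ε : ℝ} (hε : 0 < ε) :
    ∃ L₀ : ℕ, ∀ L (_ : NeZero L), L₀ ≤ L → ∀ j, nrm (dfc L a (u j)) ≤ ε := by
  have h1 : ∀ j, ∀ᶠ F : Finset (Zd d) in atTop, d * (4 * √(∑' y, tl (u j) F y)) < ε := by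
    intro j
    have ht := tl_tendsto (l2_summable (u j))
    have h2 : Tendsto (fun F : Finset (Zd d) => (d : ℝ) * (4 * √(∑' y, tl (u j) F y))) atTop
        (𝓝 (d * (4 * √0))) :=
      ((Real.continuous_sqrt.tendsto 0).comp ht).const_mul 4 |>.const_mul (d : ℝ)
    rw [Real.sqrt_zero, mul_zero, mul_zero] at h2
    exact h2.eventually_lt_const hε
  obtain ⟨F, hF⟩ := (Filter.eventually_all.2 h1).exists
  obtain ⟨L₀, hL₀⟩ := exists_inside a F
  exact ⟨L₀, fun L hL hLL j => (nrm_dfc_le (l2_summable (u j)) (hL₀ L hLL)).trans (hF j).le⟩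

end tail

section lower
variable {d : ℕ}

/-- the energy integral of the squared imaginary part of the Green function of the torus -/
noncomputable def YL (L : ℕ) [NeZero L] (a : Zd d) (A σ q : ℝ) (ω : Zd d → ℝ) : ℝ≥0∞ :=
  ∫⁻ E in Set.Icc (-(A * σ)) (A * σ), ENNReal.ofReal (q ^ 16 * (q ^ 16
    * nsq (sol (ND L (univ : Finset (Fin d))) ∅ (pot σ fun x => ω (lf L a x)) (en (q ^ 16) E)
      (Pi.single 0 1))) ^ 2)

lemma nrm_single_one {V : Type*} [AddCommGroup V] [Fintype V] [DecidableEq V] (x : V) :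
    nrm (Pi.single x (1:ℂ) : V → ℂ) = 1 := by
  rw [nrm_eq_sqrt]
  have : nsq (Pi.single x (1:ℂ) : V → ℂ) = 1 := by
    unfold nsq
    rw [Finset.sum_eq_single x]
    · simp
    · intro y _ hy; rw [Pi.single_apply, if_neg hy]; simp
    · simp
  rw [this, Real.sqrt_one]

lemma nsq_ge (L : ℕ) [NeZero L] (hL : 3 ≤ L) {σ : ℝ} {ω : Zd d → ℝ} {ι : Type} [Fintype ι]
    (u : ι → L2 d) (hu : Orthonormal ℂ u)
    {Ej : ι → ℝ} (h : ∀ j x, anderson σ ω (u j) x = Ej j * u j x) (a : Zd d) {η ε : ℝ}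
    (hη : 0 < η) (hε : 0 ≤ ε) (hD : ∀ j, nrm (dfc L a (u j)) ≤ ε * η) (E : ℝ) :
    ∑ j, (if |E - Ej j| ≤ η then (max 0 (‖u j a‖ - ε)) ^ 4 / (4 * η) else 0)
      ≤ η * (η * nsq (sol (ND L (univ : Finset (Fin d))) ∅ (pot σ fun x => ω (lf L a x)) (en η E)
        (Pi.single 0 1))) ^ 2 := by
  have hz : 0 < (en η E).im := hη
  have hNs : Steps (ND L (univ : Finset (Fin d))) := steps_ND hL _
  set g := sol (ND L (univ : Finset (Fin d))) ∅ (pot σ fun x => ω (lf L a x)) (en η E)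
        (Pi.single 0 1) with hg
  have hgs := isSol_sol (v := pot σ fun x => ω (lf L a x)) (Λ := ∅) hNs hz (Pi.single 0 1)
  rw [← hg] at hgs
  have hgn : nrm g ≤ 1 / η := by
    have := nrm_sol_le (Λ := ∅) (v := pot σ fun x => ω (lf L a x)) hNs hz (Pi.single 0 1)
    rw [nrm_single_one] at this
    exact this
  set t : ι → ℝ := fun j => ‖inner ℂ (u j) (ext0 a g)‖ ^ 2 with ht
  have ht0 : ∀ j, 0 ≤ t j := fun j => by positivity
  have bessel : ∑ j, t j ≤ nsq g := by
    have := hu.sum_inner_products_le (ext0 a g) (s := univ)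
    rw [norm_ext0] at this
    exact this
  have hng : 0 ≤ nsq g := nsq_nonneg g
  have h4 : ∀ j, |E - Ej j| ≤ η → (max 0 (‖u j a‖ - ε)) ^ 4 / (4 * η) ≤ η ^ 3 * t j ^ 2 := by
    intro j hj
    have ov := overlap hL a (h j) hz hgs
    rw [← inner_ext0] at ov
    have c1 : ‖u j a‖ - ε ≤ ‖(Ej j : ℂ) - en η E‖ * ‖inner ℂ (u j) (ext0 a g)‖ := by
      have e1 : ‖u j a‖ = ‖conj (u j a)‖ := (Complex.norm_conj _).symm
      have e2 : ‖dot (fun x => conj (dfc L a (u j) x)) g‖ ≤ ε := by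
        refine (norm_dot_le _ _).trans ?_
        have e3 : nrm (fun x => conj (dfc L a (u j) x)) ≤ nrm (dfc L a (u j)) :=
          nrm_mono fun x => by rw [Complex.norm_conj]
        calc nrm (fun x => conj (dfc L a (u j) x)) * nrm g ≤ (ε * η) * (1 / η) := by
              have := nrm_nonneg g
              have := e3.trans (hD j)
              gcongr
          _ = ε := by field_simp
      rw [e1, ← ov, ← norm_mul]
      have := norm_add_le (((Ej j : ℂ) - en η E) * inner ℂ (u j) (ext0 a g))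
        (dot (fun x => conj (dfc L a (u j) x)) g)
      linarith
    have c2 : max 0 (‖u j a‖ - ε) ≤ ‖(Ej j : ℂ) - en η E‖ * ‖inner ℂ (u j) (ext0 a g)‖ :=
      max_le (by positivity) c1
    have c3 : ‖(Ej j : ℂ) - en η E‖ ^ 2 ≤ 2 * η ^ 2 := by
      rw [Complex.sq_norm, Complex.normSq_apply]
      simp only [Complex.sub_re, Complex.sub_im, Complex.ofReal_re, Complex.ofReal_im, en]
      have : (E - Ej j) ^ 2 ≤ η ^ 2 := by
        rw [← sq_abs]; exact pow_le_pow_left₀ (abs_nonneg _) hj 2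
      nlinarith
    have c4 : (max 0 (‖u j a‖ - ε)) ^ 2 ≤ 2 * η ^ 2 * t j := by
      calc (max 0 (‖u j a‖ - ε)) ^ 2
          ≤ (‖(Ej j : ℂ) - en η E‖ * ‖inner ℂ (u j) (ext0 a g)‖) ^ 2 :=
            pow_le_pow_left₀ (le_max_left _ _) c2 2
        _ = ‖(Ej j : ℂ) - en η E‖ ^ 2 * t j := by rw [mul_pow]
        _ ≤ _ := by have := ht0 j; gcongr
    rw [div_le_iff₀ (by positivity)]
    calc (max 0 (‖u j a‖ - ε)) ^ 4 = ((max 0 (‖u j a‖ - ε)) ^ 2) ^ 2 := by ring
      _ ≤ (2 * η ^ 2 * t j) ^ 2 := by gcongr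
      _ = η ^ 3 * t j ^ 2 * (4 * η) := by ring
  calc ∑ j, (if |E - Ej j| ≤ η then (max 0 (‖u j a‖ - ε)) ^ 4 / (4 * η) else 0)
      ≤ ∑ j, η ^ 3 * t j ^ 2 := by
        refine Finset.sum_le_sum fun j _ => ?_
        split_ifs with hj
        · exact h4 j hj
        · have := ht0 j; positivity
    _ = η ^ 3 * ∑ j, t j ^ 2 := by rw [Finset.mul_sum]
    _ ≤ η ^ 3 * (∑ j, t j) ^ 2 := by
        gcongr
        exact Finset.sum_sq_le_sq_sum_of_nonneg fun j _ => ht0 j
    _ ≤ η ^ 3 * (nsq g) ^ 2 := by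
        have : 0 ≤ ∑ j, t j := Finset.sum_nonneg fun j _ => ht0 j
        gcongr
    _ = η * (η * nsq g) ^ 2 := by ring

lemma YL_ge (L : ℕ) [NeZero L] (hL : 3 ≤ L) {A A' σ q : ℝ} (hq : 0 < q)
    (hA : A' * σ + q ^ 16 ≤ A * σ) {ω : Zd d → ℝ} {ι : Type} [Fintype ι]
    (u : ι → L2 d) (hu : Orthonormal ℂ u)
    {Ej : ι → ℝ} (h : ∀ j x, anderson σ ω (u j) x = Ej j * u j x)
    (hE : ∀ j, |Ej j| ≤ A' * σ) (a : Zd d) {ε : ℝ}
    (hε : 0 ≤ ε) (hD : ∀ j, nrm (dfc L a (u j)) ≤ ε * q ^ 16) :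
    ∑ j, ENNReal.ofReal ((max 0 (‖u j a‖ - ε)) ^ 4 / 2) ≤ YL L a A σ q ω := by
  have hη : 0 < q ^ 16 := pow_pos hq _
  set η := q ^ 16 with hηd
  have hmax : ∀ j, 0 ≤ max 0 (‖u j a‖ - ε) := fun j => le_max_left _ _
  have hsub : ∀ j, Set.Icc (Ej j - η) (Ej j + η) ⊆ Set.Icc (-(A * σ)) (A * σ) := by
    intro j x hx
    have := abs_le.1 (hE j)
    exact ⟨by linarith [hx.1], by linarith [hx.2]⟩
  calc ∑ j, ENNReal.ofReal ((max 0 (‖u j a‖ - ε)) ^ 4 / 2)
      = ∑ j, ∫⁻ E in Set.Icc (-(A * σ)) (A * σ), (Set.Icc (Ej j - η) (Ej j + η)).indicator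
        (fun _ => ENNReal.ofReal ((max 0 (‖u j a‖ - ε)) ^ 4 / (4 * η))) E := by
        refine Finset.sum_congr rfl fun j _ => ?_
        rw [lintegral_indicator measurableSet_Icc, Measure.restrict_restrict measurableSet_Icc,
          Set.inter_eq_left.2 (hsub j), setLIntegral_const, Real.volume_Icc,
          ← ENNReal.ofReal_mul (by have := hmax j; positivity)]
        congr 1
        field_simp
        ring
    _ = ∫⁻ E in Set.Icc (-(A * σ)) (A * σ), ∑ j, (Set.Icc (Ej j - η) (Ej j + η)).indicator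
        (fun _ => ENNReal.ofReal ((max 0 (‖u j a‖ - ε)) ^ 4 / (4 * η))) E := by
        rw [lintegral_finsetSum]
        intro j _
        exact measurable_const.indicator measurableSet_Icc
    _ ≤ _ := by
        unfold YL
        refine lintegral_mono fun E => ?_
        have key := nsq_ge L hL u hu h a hη hε hD E
        refine le_trans (le_of_eq ?_) (ENNReal.ofReal_le_ofReal key)
        rw [ENNReal.ofReal_sum_of_nonneg]
        · refine Finset.sum_congr rfl fun j _ => ?_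
          by_cases hj : |E - Ej j| ≤ η
          · rw [if_pos hj, Set.indicator_of_mem]
            have := abs_le.1 hj
            exact ⟨by linarith, by linarith⟩
          · rw [if_neg hj, Set.indicator_of_notMem]
            · simp
            · intro hm
              apply hj
              rw [abs_le]
              exact ⟨by linarith [hm.1], by linarith [hm.2]⟩
        · intro j _
          have := hmax j
          split_ifs <;> positivity

/-- the limit quantity -/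
noncomputable def YY (a : Zd d) (A σ q : ℝ) (ω : Zd d → ℝ) : ℝ≥0∞ :=
  liminf (fun k : ℕ => YL (k + 3) a A σ q ω) atTop

lemma YY_ge {A A' σ q : ℝ} (hq : 0 < q)
    (hA : A' * σ + q ^ 16 ≤ A * σ) {ω : Zd d → ℝ} {ι : Type} [Fintype ι]
    (u : ι → L2 d) (hu : Orthonormal ℂ u)
    {Ej : ι → ℝ} (h : ∀ j x, anderson σ ω (u j) x = Ej j * u j x)
    (hE : ∀ j, |Ej j| ≤ A' * σ) (a : Zd d) :
    ENNReal.ofReal ((∑ j, ‖u j a‖ ^ 4) / 2) ≤ YY a A σ q ω := by
  have step : ∀ ε > 0, ∑ j, ENNReal.ofReal ((max 0 (‖u j a‖ - ε)) ^ 4 / 2) ≤ YY a A σ q ω := by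
    intro ε hε
    obtain ⟨L₀, hL₀⟩ := exists_L₀ u a (ε := ε * q ^ 16) (by positivity)
    unfold YY
    refine le_liminf_of_le (by isBoundedDefault) ?_
    filter_upwards [eventually_ge_atTop L₀] with k hk
    exact YL_ge (k + 3) (by omega) hq hA u hu h hE a hε.le
      (hL₀ (k + 3) inferInstance (by omega))
  have hcont : Tendsto (fun ε : ℝ => ∑ j, ENNReal.ofReal ((max 0 (‖u j a‖ - ε)) ^ 4 / 2))
      (𝓝[>] 0) (𝓝 (∑ j, ENNReal.ofReal ((max 0 (‖u j a‖ - 0)) ^ 4 / 2))) := by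
    refine tendsto_finsetSum _ fun j _ => ?_
    refine (ENNReal.continuous_ofReal.tendsto _).comp ?_
    have : Continuous fun ε : ℝ => (max 0 (‖u j a‖ - ε)) ^ 4 / 2 := by fun_prop
    exact (this.tendsto 0).mono_left nhdsWithin_le_nhds
  have hlim := le_of_tendsto hcont (by
    filter_upwards [self_mem_nhdsWithin] with ε hε
    exact step ε hε)
  refine le_trans (le_of_eq ?_) hlim
  rw [Finset.sum_div, ENNReal.ofReal_sum_of_nonneg (fun j _ => by positivity)]
  refine Finset.sum_congr rfl fun j _ => ?_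
  rw [sub_zero, max_eq_right (norm_nonneg _)]

end lower

section measure
variable {d : ℕ}

/-- the law of the potential on `ℤ^d`: independent standard Gaussians -/
noncomputable abbrev law (d : ℕ) : Measure (Zd d → ℝ) :=
  Measure.infinitePi fun _ : Zd d => gaussianReal 0 1

lemma measurable_lf (L : ℕ) [NeZero L] (a : Zd d) :
    Measurable fun (ω : Zd d → ℝ) (x : Tor d L) => ω (lf L a x) :=
  measurable_pi_lambda _ fun _ => measurable_pi_apply _

lemma map_lf (L : ℕ) [NeZero L] (a : Zd d) :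
    (law d).map (fun (ω : Zd d → ℝ) (x : Tor d L) => ω (lf L a x)) = PP (Tor d L) := by
  symm
  refine Measure.pi_eq fun s hs => ?_
  rw [Measure.map_apply (measurable_lf L a) (MeasurableSet.univ_pi hs)]
  have : (fun (ω : Zd d → ℝ) (x : Tor d L) => ω (lf L a x)) ⁻¹' (Set.univ.pi s)
      = Set.pi ((univ.image (lf L a) : Finset (Zd d)) : Set (Zd d))
        (fun y => s (red L (y - a))) := by
    ext ω
    simp only [Set.mem_preimage, Set.mem_univ_pi, Set.mem_pi, Finset.coe_image, coe_univ,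
      Set.image_univ, Set.mem_range, forall_exists_index, forall_apply_eq_imp_iff, red_lf,
      Set.mem_univ, forall_true_left]
  rw [this, Measure.infinitePi_pi _ (fun y _ => hs _)]
  rw [Finset.prod_image fun x _ y _ h => lf_inj a h]
  refine Finset.prod_congr rfl fun x _ => ?_
  rw [red_lf]

lemma measurable_inner (L : ℕ) [NeZero L] (hL : 3 ≤ L) {σ q : ℝ} (hq : 0 < q) :
    Measurable fun p : (Tor d L → ℝ) × ℝ => ENNReal.ofReal (q ^ 16 * (q ^ 16
      * nsq (sol (ND L (univ : Finset (Fin d))) ∅ (pot σ p.1) (en (q ^ 16) p.2)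
        (Pi.single 0 1))) ^ 2) := by
  have hη : 0 < q ^ 16 := pow_pos hq _
  have h1 := (continuous_joint_nsq (Λ := ∅) (σ := σ)
    (steps_ND hL (univ : Finset (Fin d))) hη (Pi.single 0 1)).comp continuous_swap
  exact (((h1.measurable.const_mul _).pow_const 2).const_mul _).ennreal_ofReal

lemma measurable_YL (L : ℕ) [NeZero L] (hL : 3 ≤ L) (a : Zd d) {A σ q : ℝ} (hq : 0 < q) :
    Measurable (YL L a A σ q) := by
  have h1 := (measurable_inner (d := d) L hL (σ := σ) hq).lintegral_prod_right'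
    (ν := volume.restrict (Set.Icc (-(A * σ)) (A * σ)))
  exact h1.comp (measurable_lf L a)

lemma lint_YL (L : ℕ) [NeZero L] (hL : 3 ≤ L) (hd : 2 ≤ d) {A σ q : ℝ} (hA : 0 ≤ A) (hσ : 0 < σ)
    (hq : 0 < q) (par : ∀ E : ℝ, |E| ≤ A * σ → Par A σ q (2 * d) (en (q ^ 16) E))
    {m : ℕ} (hm1 : (2:ℝ) ^ m ≤ 1 / q ^ 2)
    (hm : 32 ≤ m * (d * gaussianPDFReal 0 1 (A + 2) / (2 * σ))) (a : Zd d) :
    ∫⁻ ω, YL L a A σ q ω ∂(law d) ≤ ENNReal.ofReal ((8 * A + 132) * q) := by
  have h1 := (measurable_inner (d := d) L hL (σ := σ) hq).lintegral_prod_right'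
    (ν := volume.restrict (Set.Icc (-(A * σ)) (A * σ)))
  have h2 := lintegral_map (μ := law d) h1 (measurable_lf L a)
  rw [map_lf] at h2
  have h3 := torus_bound (L := L) hL hd hA hσ par hm1 hm
  rw [h2] at h3
  exact h3

lemma measurable_YY (a : Zd d) {A σ q : ℝ} (hq : 0 < q) : Measurable (YY a A σ q) :=
  Measurable.liminf fun k => measurable_YL (k + 3) (by omega) a hq

lemma lint_YY (hd : 2 ≤ d) {A σ q : ℝ} (hA : 0 ≤ A) (hσ : 0 < σ)
    (hq : 0 < q) (par : ∀ E : ℝ, |E| ≤ A * σ → Par A σ q (2 * d) (en (q ^ 16) E))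
    {m : ℕ} (hm1 : (2:ℝ) ^ m ≤ 1 / q ^ 2)
    (hm : 32 ≤ m * (d * gaussianPDFReal 0 1 (A + 2) / (2 * σ))) (a : Zd d) :
    ∫⁻ ω, YY a A σ q ω ∂(law d) ≤ ENNReal.ofReal ((8 * A + 132) * q) := by
  unfold YY
  refine (lintegral_liminf_le fun k => measurable_YL (k + 3) (by omega) a hq).trans ?_
  refine liminf_le_of_le (by isBoundedDefault) fun b hb => ?_
  obtain ⟨k, hk⟩ := hb.exists
  exact hk.trans (lint_YL (k + 3) (by omega) hd hA hσ hq par hm1 hm a)

end measure

end Pool.Agent.H989
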