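import Pool.Agent.H989.Sol

/-!
Deterministic comparison of the operators with and without the hopping in one direction.
-/

set_option linter.unusedSectionVars false
set_option linter.unusedVariables false

open Finset Complex
open scoped ComplexConjugate

namespace Pool.Agent.H989

variable {V : Type*} [AddCommGroup V] [Fintype V] [DecidableEq V]

/-- the `ℓ²` norm -/
noncomputable def nrm (f : V → ℂ) : ℝ := ‖(WithLp.toLp 2 f : EuclideanSpace ℂ V)‖

lemma nrm_sq (f : V → ℂ) : nrm f ^ 2 = nsq f := by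
  unfold nrm nsq
  rw [EuclideanSpace.norm_sq_eq]

lemma nrm_nonneg (f : V → ℂ) : 0 ≤ nrm f := norm_nonneg _

lemma nrm_eq_sqrt (f : V → ℂ) : nrm f = Real.sqrt (nsq f) := by
  rw [← nrm_sq, Real.sqrt_sq (nrm_nonneg f)]

lemma nrm_add_le (f g : V → ℂ) : nrm (f + g) ≤ nrm f + nrm g := by
  unfold nrm; rw [WithLp.toLp_add]; exact norm_add_le _ _

lemma nrm_sub_le (f g : V → ℂ) : nrm (f - g) ≤ nrm f + nrm g := by
  unfold nrm; rw [WithLp.toLp_sub]; exact norm_sub_le _ _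

lemma nrm_smul (c : ℂ) (f : V → ℂ) : nrm (c • f) = ‖c‖ * nrm f := by
  unfold nrm; rw [WithLp.toLp_smul]; exact norm_smul _ _

lemma nrm_le_of {f : V → ℂ} {c : ℝ} (hc : 0 ≤ c) (h : nsq f ≤ c ^ 2) : nrm f ≤ c := by
  rw [nrm_eq_sqrt]; exact Real.sqrt_le_left hc |>.2 h |> fun h => h

lemma norm_apply_le (f : V → ℂ) (x : V) : ‖f x‖ ≤ nrm f := by
  have h : ‖f x‖ ^ 2 ≤ nrm f ^ 2 := by
    rw [nrm_sq]; exact Finset.single_le_sum (f := fun x => ‖f x‖ ^ 2)
      (fun _ _ => by positivity) (mem_univ x)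
  exact (sq_le_sq₀ (norm_nonneg _) (nrm_nonneg f)).1 h

lemma norm_dot_le (f g : V → ℂ) : ‖dot f g‖ ≤ nrm f * nrm g := by
  unfold dot
  calc ‖∑ x, f x * g x‖ ≤ ∑ x, ‖f x‖ * ‖g x‖ := by
        refine (norm_sum_le _ _).trans (Finset.sum_le_sum fun x _ => ?_)
        rw [norm_mul]
    _ ≤ Real.sqrt (∑ x, ‖f x‖ ^ 2) * Real.sqrt (∑ x, ‖g x‖ ^ 2) :=
        Real.sum_mul_le_sqrt_mul_sqrt _ _ _
    _ = nrm f * nrm g := by rw [nrm_eq_sqrt, nrm_eq_sqrt]; rfl

lemma nsq_mono {f g : V → ℂ} (h : ∀ x, ‖f x‖ ≤ ‖g x‖) : nsq f ≤ nsq g :=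
  Finset.sum_le_sum fun x _ => pow_le_pow_left₀ (norm_nonneg _) (h x) 2

lemma nrm_mono {f g : V → ℂ} (h : ∀ x, ‖f x‖ ≤ ‖g x‖) : nrm f ≤ nrm g := by
  rw [nrm_eq_sqrt, nrm_eq_sqrt]; exact Real.sqrt_le_sqrt (nsq_mono h)

lemma nrm_shift (f : V → ℂ) (e : V) : nrm (fun x => f (x + e)) = nrm f := by
  rw [nrm_eq_sqrt, nrm_eq_sqrt]
  congr 1
  unfold nsq
  exact Equiv.sum_comp (Equiv.addRight e) (fun x => ‖f x‖ ^ 2)

/-- The step set `N` is `N₁` together with `± e`, where `ℓ` vanishes on `N₁` and `ℓ e = 1`. -/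
structure Lay {L : ℕ} (N N₁ : Finset V) (e : V) (ℓ : V →+ ZMod L) : Prop where
  s : Steps N
  s1 : Steps N₁
  nbe : ∀ (f : V → ℂ) (x : V), nb N f x = nb N₁ f x + (f (x + e) + f (x - e))
  l1 : ∀ n ∈ N₁, ℓ n = 0
  le : ℓ e = 1
  h0 : (1 : ZMod L) ≠ 0
  h2 : (1 : ZMod L) + 1 ≠ 0

variable {L : ℕ} {N N₁ Λ : Finset V} {e : V} {ℓ : V →+ ZMod L} {v : V → ℝ} {z : ℂ}

/-- the part of `f` in the layer `c` -/
def lay (ℓ : V →+ ZMod L) (c : ZMod L) (f : V → ℂ) : V → ℂ := fun x => if ℓ x = c then f x else 0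

/-- the part of `f` off the layer `c` -/
def off (ℓ : V →+ ZMod L) (c : ZMod L) (f : V → ℂ) : V → ℂ := fun x => if ℓ x = c then 0 else f x

lemma lay_add_off (c : ZMod L) (f : V → ℂ) : lay ℓ c f + off ℓ c f = f := by
  funext x; unfold lay off; simp only [Pi.add_apply]; split_ifs <;> simp

lemma nrm_off_le (c : ZMod L) (f : V → ℂ) : nrm (off ℓ c f) ≤ nrm f :=
  nrm_mono fun x => by unfold off; split_ifs <;> simp

lemma nrm_lay_le (c : ZMod L) (f : V → ℂ) : nrm (lay ℓ c f) ≤ nrm f :=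
  nrm_mono fun x => by unfold lay; split_ifs <;> simp

lemma norm_le_off {c : ZMod L} (f : V → ℂ) {x : V} (hx : ℓ x ≠ c) : ‖f x‖ ≤ nrm (off ℓ c f) := by
  have := norm_apply_le (off ℓ c f) x
  simpa [off, hx] using this

lemma Lay.nb_lay (h : Lay N N₁ e ℓ) (c : ZMod L) (f : V → ℂ) (x : V) :
    nb N₁ (lay ℓ c f) x = if ℓ x = c then nb N₁ f x else 0 := by
  unfold nb lay
  have : ∀ n ∈ N₁, (if ℓ (x + n) = c then f (x + n) else 0)
      = if ℓ x = c then f (x + n) else 0 := fun n hn => by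
    rw [map_add, h.l1 n hn, add_zero]
  rw [Finset.sum_congr rfl this]
  split_ifs <;> simp

/-- solutions of the cut operator stay in their layer -/
lemma Lay.isSol_lay (h : Lay N N₁ e ℓ) {c : ZMod L} {b f : V → ℂ}
    (hf : IsSol N₁ Λ v z b f) : IsSol N₁ Λ v z (lay ℓ c b) (lay ℓ c f) := by
  refine ⟨fun x hx => by unfold lay; split_ifs <;> simp [hf.1 x hx], fun x hx => ?_⟩
  rw [h.nb_lay]
  have := hf.2 x hx
  unfold lay
  split_ifs
  · exact this
  · simp

lemma Lay.sol_lay (h : Lay N N₁ e ℓ) (hz : 0 < z.im) (c : ZMod L) (b : V → ℂ) :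
    sol N₁ Λ v z (lay ℓ c b) = lay ℓ c (sol N₁ Λ v z b) :=
  sol_eq h.s1 hz (h.isSol_lay (isSol_sol h.s1 hz b))

lemma Lay.lay_bx (h : Lay N N₁ e ℓ) (x : V) : lay ℓ (ℓ x) (bx N₁ x) = bx N₁ x := by
  funext w
  unfold lay bx
  by_cases hw : x - w ∈ N₁
  · have := h.l1 _ hw
    rw [map_sub, sub_eq_zero] at this
    simp [this]
  · simp [hw]

lemma Lay.sol_bx_off (h : Lay N N₁ e ℓ) (hz : 0 < z.im) {x w : V} (hw : ℓ w ≠ ℓ x) :
    sol N₁ Λ v z (bx N₁ x) w = 0 := by
  have := h.sol_lay (Λ := Λ) (v := v) hz (ℓ x) (bx N₁ x)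
  rw [h.lay_bx] at this
  rw [this]; simp [lay, hw]

/-- dependence on the potential in the layer only -/
lemma Lay.sol_bx_congr (h : Lay N N₁ e ℓ) (hz : 0 < z.im) {x : V} {v' : V → ℝ} {Λ' : Finset V}
    (hv : ∀ w, ℓ w = ℓ x → w ∉ Λ → v w = v' w) (hΛ : ∀ w, ℓ w = ℓ x → (w ∈ Λ ↔ w ∈ Λ')) :
    sol N₁ Λ v z (bx N₁ x) = sol N₁ Λ' v' z (bx N₁ x) := by
  have hs := isSol_sol (Λ := Λ') (v := v') h.s1 hz (bx N₁ x)
  refine sol_eq h.s1 hz ⟨fun w hw => ?_, fun w hw => ?_⟩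
  · by_cases hl : ℓ w = ℓ x
    · exact hs.1 w ((hΛ w hl).1 hw)
    · exact h.sol_bx_off hz hl
  · by_cases hl : ℓ w = ℓ x
    · rw [hv w hl hw]
      exact hs.2 w (fun hh => hw ((hΛ w hl).2 hh))
    · rw [h.sol_bx_off hz hl]
      have h1 : nb N₁ (sol N₁ Λ' v' z (bx N₁ x)) w = 0 := by
        unfold nb
        refine Finset.sum_eq_zero fun n hn => ?_
        apply h.sol_bx_off hz
        rw [map_add, h.l1 n hn, add_zero]; exact hl
      have h2 : bx N₁ x w = 0 := by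
        have := congrFun (h.lay_bx x) w
        rw [← this]; simp [lay, hl]
      rw [h1, h2]; ring

/-- the basic identity comparing the operator and the cut operator -/
lemma Lay.dot_cut (h : Lay N N₁ e ℓ) {b b₁ f f₁ : V → ℂ} (hf : IsSol N Λ v z b f)
    (hf₁ : IsSol N₁ Λ v z b₁ f₁) :
    dot b₁ f = dot f₁ b - dot f₁ (fun x => f (x + e) + f (x - e)) := by
  have e1 : dot b₁ f = dot (fun x => ((v x : ℂ) - z) * f₁ x) f + dot (nb N₁ f₁) f := by
    unfold dot
    rw [← Finset.sum_add_distrib]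
    refine Finset.sum_congr rfl fun x _ => ?_
    by_cases hx : x ∈ Λ
    · simp [hf.1 x hx]
    · rw [← hf₁.2 x hx]; ring
  rw [e1, ← dot_nb h.s1 f₁ f]
  unfold dot
  rw [← Finset.sum_add_distrib, ← Finset.sum_sub_distrib]
  refine Finset.sum_congr rfl fun x _ => ?_
  by_cases hx : x ∈ Λ
  · simp [hf₁.1 x hx]
  · rw [← hf.2 x hx, h.nbe]; ring

/-- norm of the transversal hopping seen from a layer -/
lemma norm_dot_cut_le (h : Lay N N₁ e ℓ) {c : ZMod L} {f g : V → ℂ}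
    (hg : ∀ x, ℓ x ≠ c → g x = 0) :
    ‖dot g (fun x => f (x + e) + f (x - e))‖ ≤ nrm g * (2 * nrm (off ℓ c f)) := by
  have h1 : dot g (fun x => f (x + e) + f (x - e))
      = dot g ((fun x => off ℓ c f (x + e)) + (fun x => off ℓ c f (x + -e))) := by
    unfold dot
    refine Finset.sum_congr rfl fun x _ => ?_
    by_cases hx : ℓ x = c
    · have e1 : ℓ (x + e) ≠ c := by
        rw [map_add, h.le, hx]; intro hh; exact h.h0 (by simpa using hh)
      have e2 : ℓ (x + -e) ≠ c := by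
        rw [map_add, map_neg, h.le, hx]; intro hh
        exact h.h0 (by simpa using hh)
      simp only [Pi.add_apply, off, e1, e2, if_false, sub_eq_add_neg]
    · simp [hg x hx]
  rw [h1]
  refine (norm_dot_le _ _).trans (mul_le_mul_of_nonneg_left ?_ (nrm_nonneg _))
  refine (nrm_add_le _ _).trans ?_
  rw [nrm_shift, nrm_shift]; linarith

lemma Lay.bx_eq (h : Lay N N₁ e ℓ) (x : V) :
    bx N x = bx N₁ x + (Pi.single (x + e) 1 + Pi.single (x - e) 1) := by
  funext w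
  rw [← nb_single h.s, h.nbe, nb_single h.s1]
  simp only [Pi.add_apply, Pi.single_apply]
  have e1 : (w + e = x) ↔ (w = x - e) := by
    constructor
    · intro hh; rw [← hh]; abel
    · intro hh; rw [hh]; abel
  have e2 : (w - e = x) ↔ (w = x + e) := by
    constructor
    · intro hh; rw [← hh]; abel
    · intro hh; rw [hh]; abel
  simp only [e1, e2]
  ring

lemma dot_add_right (f g h : V → ℂ) : dot f (g + h) = dot f g + dot f h := by
  unfold dot; rw [← Finset.sum_add_distrib]; exact Finset.sum_congr rfl fun x _ => by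
    simp only [Pi.add_apply]; ring

lemma dot_add_left (f g h : V → ℂ) : dot (f + g) h = dot f h + dot g h := by
  unfold dot; rw [← Finset.sum_add_distrib]; exact Finset.sum_congr rfl fun x _ => by
    simp only [Pi.add_apply]; ring

lemma dot_sub_right (f g h : V → ℂ) : dot f (g - h) = dot f g - dot f h := by
  unfold dot; rw [← Finset.sum_sub_distrib]; exact Finset.sum_congr rfl fun x _ => by
    simp only [Pi.sub_apply]; ring

lemma dot_smul_right (f g : V → ℂ) (c : ℂ) : dot f (c • g) = c * dot f g := by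
  unfold dot; rw [Finset.mul_sum]; exact Finset.sum_congr rfl fun x _ => by
    simp only [Pi.smul_apply, smul_eq_mul]; ring

lemma dot_symm (f g : V → ℂ) : dot f g = dot g f := by
  unfold dot; exact Finset.sum_congr rfl fun x _ => mul_comm _ _

lemma dot_single_left (f : V → ℂ) (x : V) : dot (Pi.single x 1) f = f x := by
  unfold dot; simp [Pi.single_apply]

/-- self energies with and without the direction `e` -/
lemma Lay.SE_sub (h : Lay N N₁ e ℓ) (hz : 0 < z.im) {x : V} (hx : x ∈ Λ) :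
    ‖nb N (sol N Λ v z (bx N x)) x - nb N₁ (sol N₁ Λ v z (bx N₁ x)) x‖
      ≤ 2 * (1 + nrm (sol N₁ Λ v z (bx N₁ x))) * nrm (off ℓ (ℓ x) (sol N Λ v z (bx N x))) := by
  set f := sol N Λ v z (bx N x)
  set f₁ := sol N₁ Λ v z (bx N₁ x)
  have hf := isSol_sol (v := v) (Λ := Λ) h.s hz (bx N x)
  have hf₁ := isSol_sol (v := v) (Λ := Λ) h.s1 hz (bx N₁ x)
  have key := h.dot_cut hf hf₁
  have l1 : ℓ (x + e) ≠ ℓ x := by
    rw [map_add, h.le]; intro hh; exact h.h0 (by simpa using hh)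
  have l2 : ℓ (x - e) ≠ ℓ x := by
    rw [map_sub, h.le]; intro hh; exact h.h0 (by simpa using hh)
  have e1 : nb N₁ f x = dot (bx N₁ x) f := nb_eq_dot _ _ h.s1
  have e2 : nb N₁ f₁ x = dot f₁ (bx N₁ x) := by rw [nb_eq_dot _ _ h.s1, dot_symm]
  have z1 : f₁ (x + e) = 0 := h.sol_bx_off hz l1
  have z2 : f₁ (x - e) = 0 := h.sol_bx_off hz l2
  have e3 : dot f₁ (bx N x) = dot f₁ (bx N₁ x) := by
    rw [h.bx_eq, dot_add_right, dot_add_right, dot_symm f₁ (Pi.single (x + e) 1),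
      dot_symm f₁ (Pi.single (x - e) 1), dot_single_left, dot_single_left, z1, z2]; ring
  have e4 : nb N f x - nb N₁ f₁ x
      = f (x + e) + f (x - e) - dot f₁ (fun x => f (x + e) + f (x - e)) := by
    rw [h.nbe, e1, key, e2, e3]; ring
  rw [e4]
  have b1 := norm_le_off (ℓ := ℓ) f l1
  have b2 := norm_le_off (ℓ := ℓ) f l2
  have b3 := norm_dot_cut_le h (f := f) (g := f₁) (c := ℓ x)
    (fun w hw => h.sol_bx_off hz hw)
  calc ‖f (x + e) + f (x - e) - dot f₁ (fun x => f (x + e) + f (x - e))‖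
      ≤ ‖f (x + e)‖ + ‖f (x - e)‖ + ‖dot f₁ (fun x => f (x + e) + f (x - e))‖ := by
        refine (norm_sub_le _ _).trans ?_
        gcongr
        exact norm_add_le _ _
    _ ≤ nrm (off ℓ (ℓ x) f) + nrm (off ℓ (ℓ x) f) + nrm f₁ * (2 * nrm (off ℓ (ℓ x) f)) := by
        gcongr
    _ = _ := by ring

/-- the coupling between `0` and its neighbour `e`, with both sites removed -/
lemma Lay.coupling (h : Lay N N₁ e ℓ) (hz : 0 < z.im) (hz1 : z.im ≤ 1) (h0 : (0 : V) ∈ Λ)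
    (he : e ∈ Λ) :
    ‖nb N (sol N Λ v z (bx N e)) 0‖
      ≤ ‖∑ w, sol N₁ Λ v z (bx N₁ 0) w * sol N₁ Λ v z (bx N₁ e) (w + e)‖
        + (1 + 3 / z.im * nrm (sol N₁ Λ v z (bx N₁ 0)))
          * nrm (off ℓ (ℓ e) (sol N Λ v z (bx N e))) := by
  set f := sol N Λ v z (bx N e) with hfdef
  set f₀ := sol N₁ Λ v z (bx N₁ 0) with hf0def
  set f₁ := sol N₁ Λ v z (bx N₁ e) with hf1def
  have hf := isSol_sol (v := v) (Λ := Λ) h.s hz (bx N e)
  have hf₀ := isSol_sol (v := v) (Λ := Λ) h.s1 hz (bx N₁ 0)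
  have hf₁ := isSol_sol (v := v) (Λ := Λ) h.s1 hz (bx N₁ e)
  rw [← hfdef] at hf
  rw [← hf0def] at hf₀
  rw [← hf1def] at hf₁
  have hl0 : ℓ (0 : V) = 0 := map_zero ℓ
  have key := h.dot_cut hf hf₀
  have hfe : f e = 0 := hf.1 e he
  have hf00 : f₀ 0 = 0 := hf₀.1 0 h0
  -- the inhomogeneity does not see the layer `0`
  have z1 : dot f₀ (bx N e) = 0 := by
    rw [h.bx_eq, dot_add_right, dot_add_right, dot_symm f₀ (Pi.single (e + e) 1),
      dot_symm f₀ (Pi.single (e - e) 1), dot_single_left, dot_single_left, sub_self, hf00]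
    have a1 : f₀ (e + e) = 0 := by
      apply h.sol_bx_off hz
      rw [map_add, h.le, hl0]; exact h.h2
    rw [a1]
    have a2 : dot f₀ (bx N₁ e) = 0 := by
      unfold dot
      refine Finset.sum_eq_zero fun w _ => ?_
      by_cases hw : ℓ w = ℓ (0 : V)
      · have : bx N₁ e w = 0 := by
          rw [← congrFun (h.lay_bx e) w]
          have : ℓ w ≠ ℓ e := by rw [hw, hl0, h.le]; exact h.h0.symm
          simp [lay, this]
        rw [this, mul_zero]
      · have : f₀ w = 0 := h.sol_bx_off hz hw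
        rw [this, zero_mul]
    rw [a2]; ring
  -- the part of `f` in the layer `1`
  set C : V → ℂ := fun x => f (x + e) + f (x - e) with hC
  have hQ : IsSol N₁ Λ v z (bx N₁ e - lay ℓ (ℓ e) C) (lay ℓ (ℓ e) f) := by
    refine ⟨fun w hw => by unfold lay; split_ifs <;> simp [hf.1 w hw], fun w hw => ?_⟩
    rw [h.nb_lay]
    by_cases hl : ℓ w = ℓ e
    · have h1 := hf.2 w hw
      rw [h.nbe, h.bx_eq] at h1
      have hw0 : w ≠ 0 := fun hh => hw (by rw [hh]; exact h0)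
      have hwe : w ≠ e + e := fun hh => by
        rw [hh, map_add, h.le] at hl
        exact h.h0 (by simpa using hl)
      have s1 : (Pi.single (e + e) (1:ℂ) : V → ℂ) w = 0 := by rw [Pi.single_apply, if_neg hwe]
      have s2 : (Pi.single (e - e) (1:ℂ) : V → ℂ) w = 0 := by
        rw [sub_self, Pi.single_apply, if_neg hw0]
      simp only [Pi.add_apply, s1, s2] at h1
      simp only [lay, hl, if_true, Pi.sub_apply, hC]
      linear_combination h1
    · have : bx N₁ e w = 0 := by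
        rw [← congrFun (h.lay_bx e) w]; simp [lay, hl]
      simp [lay, hl, this]
  have hdiff : IsSol N₁ Λ v z (lay ℓ (ℓ e) C) (f₁ - lay ℓ (ℓ e) f) := by
    have := hf₁.sub hQ
    rwa [sub_sub_cancel] at this
  set g := f₁ - lay ℓ (ℓ e) f with hg
  have hCn : nrm (lay ℓ (ℓ e) C) ≤ 2 * nrm (off ℓ (ℓ e) f) := by
    have : lay ℓ (ℓ e) C = lay ℓ (ℓ e) ((fun x => off ℓ (ℓ e) f (x + e))
        + (fun x => off ℓ (ℓ e) f (x + -e))) := by
      funext w
      unfold lay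
      split_ifs with hl
      · have e1 : ℓ (w + e) ≠ ℓ e := by
          rw [map_add, hl]; intro hh; rw [h.le] at hh; exact h.h0 (by simpa using hh)
        have e2 : ℓ (w + -e) ≠ ℓ e := by
          rw [map_add, map_neg, hl, h.le]; intro hh
          exact h.h0 (by simpa using hh.symm)
        simp only [hC, Pi.add_apply, off, e1, e2, if_false, sub_eq_add_neg]
      · rfl
    rw [this]
    refine (nrm_lay_le _ _).trans ((nrm_add_le _ _).trans ?_)
    rw [nrm_shift, nrm_shift]; linarith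
  have hgn : nrm g ≤ 2 / z.im * nrm (off ℓ (ℓ e) f) := by
    have h1 := hdiff.nsq_le h.s1 hz
    have h2 : (z.im * nrm g) ^ 2 ≤ nrm (lay ℓ (ℓ e) C) ^ 2 := by
      rw [mul_pow, nrm_sq, nrm_sq]; exact h1
    have h3 : z.im * nrm g ≤ nrm (lay ℓ (ℓ e) C) :=
      (sq_le_sq₀ (mul_nonneg hz.le (nrm_nonneg _)) (nrm_nonneg _)).1 h2
    rw [div_mul_eq_mul_div, le_div_iff₀ hz, mul_comm]
    exact h3.trans hCn
  -- decomposition
  have e5 : nb N f 0 = f (-e) - ∑ w, f₀ w * f₁ (w + e) + dot f₀ (fun w => g (w + e))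
      - dot f₀ (fun w => off ℓ (ℓ e) f (w + -e)) := by
    have t1 : nb N f 0 = dot (bx N₁ 0) f + f (-e) := by
      rw [h.nbe, nb_eq_dot _ _ h.s1]; simp [hfe]
    rw [t1, key, z1]
    have t2 : dot f₀ (fun x => f (x + e) + f (x - e))
        = ∑ w, f₀ w * f₁ (w + e) - dot f₀ (fun w => g (w + e))
          + dot f₀ (fun w => off ℓ (ℓ e) f (w + -e)) := by
      unfold dot
      rw [← Finset.sum_sub_distrib, ← Finset.sum_add_distrib]
      refine Finset.sum_congr rfl fun w _ => ?_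
      by_cases hw : ℓ w = ℓ (0 : V)
      · have a1 : ℓ (w + e) = ℓ e := by rw [map_add, hw, hl0, zero_add]
        have a2 : ℓ (w + -e) ≠ ℓ e := by
          rw [map_add, hw, hl0, map_neg, h.le, zero_add]
          intro hh
          apply h.h2
          calc (1 : ZMod L) + 1 = 1 - (-1) := by ring
            _ = 1 - 1 := by rw [hh]
            _ = 0 := by ring
        have a3 : g (w + e) = f₁ (w + e) - f (w + e) := by
          simp [hg, lay, a1]
        have a4 : off ℓ (ℓ e) f (w + -e) = f (w - e) := by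
          simp only [off, a2, if_false, sub_eq_add_neg]
        beta_reduce
        rw [a3, a4]
        ring
      · have : f₀ w = 0 := h.sol_bx_off hz hw
        simp [this]
    rw [t2]; ring
  rw [e5]
  have c1 : ‖f (-e)‖ ≤ nrm (off ℓ (ℓ e) f) := by
    apply norm_le_off
    rw [map_neg, h.le]; intro hh
    apply h.h2
    calc (1 : ZMod L) + 1 = 1 - (-1) := by ring
      _ = 1 - 1 := by rw [hh]
      _ = 0 := by ring
  have c2 : ‖dot f₀ (fun w => g (w + e))‖ ≤ nrm f₀ * (2 / z.im * nrm (off ℓ (ℓ e) f)) := by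
    refine (norm_dot_le _ _).trans ?_
    rw [nrm_shift]
    exact mul_le_mul_of_nonneg_left hgn (nrm_nonneg _)
  have c3 : ‖dot f₀ (fun w => off ℓ (ℓ e) f (w + -e))‖ ≤ nrm f₀ * nrm (off ℓ (ℓ e) f) := by
    refine (norm_dot_le _ _).trans ?_
    rw [nrm_shift]
  have c4 : nrm f₀ * nrm (off ℓ (ℓ e) f) ≤ 1 / z.im * (nrm f₀ * nrm (off ℓ (ℓ e) f)) := by
    have h1 : 1 ≤ 1 / z.im := by rw [le_div_iff₀ hz]; linarith
    have h2 : 0 ≤ nrm f₀ * nrm (off ℓ (ℓ e) f) := mul_nonneg (nrm_nonneg _) (nrm_nonneg _)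
    nlinarith
  calc ‖f (-e) - ∑ w, f₀ w * f₁ (w + e) + dot f₀ (fun w => g (w + e))
      - dot f₀ (fun w => off ℓ (ℓ e) f (w + -e))‖
      ≤ ‖f (-e)‖ + ‖∑ w, f₀ w * f₁ (w + e)‖ + ‖dot f₀ (fun w => g (w + e))‖
        + ‖dot f₀ (fun w => off ℓ (ℓ e) f (w + -e))‖ := by
        refine (norm_sub_le _ _).trans ?_
        gcongr
        refine (norm_add_le _ _).trans ?_
        gcongr
        exact norm_sub_le _ _
    _ ≤ nrm (off ℓ (ℓ e) f) + ‖∑ w, f₀ w * f₁ (w + e)‖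
        + nrm f₀ * (2 / z.im * nrm (off ℓ (ℓ e) f))
        + 1 / z.im * (nrm f₀ * nrm (off ℓ (ℓ e) f)) := by
        gcongr
        exact c3.trans c4
    _ = _ := by ring

end Pool.Agent.H989
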