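import Pool.Agent.H989.Fixed

/-!
The choice of the parameters.
-/

set_option linter.unusedSectionVars false
set_option linter.unusedVariables false

open MeasureTheory ProbabilityTheory Finset

namespace Pool.Agent.H989

/-- the parameters: `q` small, `K = q ^ (-2000)`, `σ` between `q K` and `K / q` -/
structure Par (A σ q K : ℝ) (z : ℂ) : Prop where
  hA : 0 ≤ A
  q0 : 0 < q
  q1 : q ≤ 1 / 50000
  qp : 4 * q ≤ gaussianPDFReal 0 1 (A + 2)
  qA : (2 * A + 3) * q ≤ 1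
  hK : K * q ^ 2000 = 1
  s1 : q * K ≤ σ
  s2 : σ * q ≤ K
  im : z.im = q ^ 16
  re : |z.re| ≤ A * σ

variable {A σ q K : ℝ} {z : ℂ}

namespace Par

lemma K0 (h : Par A σ q K z) : 0 < K := by
  have := h.hK
  have h2 : 0 < q ^ 2000 := pow_pos h.q0 _
  by_contra hcon
  push Not at hcon
  nlinarith

lemma Keq (h : Par A σ q K z) : K = 1 / q ^ 2000 := by
  have := pow_pos h.q0 2000
  rw [eq_div_iff this.ne']; exact h.hK

lemma σ0 (h : Par A σ q K z) : 0 < σ := lt_of_lt_of_le (mul_pos h.q0 h.K0) h.s1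

lemma z0 (h : Par A σ q K z) : 0 < z.im := by rw [h.im]; exact pow_pos h.q0 _

lemma qle (h : Par A σ q K z) : q ≤ 1 := h.q1.trans (by norm_num)

lemma pw (h : Par A σ q K z) {a b : ℕ} (hab : a ≤ b) : q ^ b ≤ q ^ a :=
  pow_le_pow_of_le_one h.q0.le h.qle hab

/-- absorbing a constant -/
lemma cst (h : Par A σ q K z) {c : ℝ} (hc : c ≤ 50000) (a : ℕ) : c * q ^ (a + 1) ≤ q ^ a := by
  have h1 := pow_pos h.q0 a
  have h2 := h.q1
  have h3 := h.q0
  rw [pow_succ]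
  have : c * q ≤ 1 := by
    calc c * q ≤ 50000 * q := by gcongr
      _ ≤ 50000 * (1 / 50000) := by gcongr
      _ = 1 := by norm_num
  nlinarith

lemma z1 (h : Par A σ q K z) : z.im ≤ 1 := by rw [h.im]; exact pow_le_one₀ h.q0.le h.qle

lemma inv_σ (h : Par A σ q K z) : 1 / σ ≤ q ^ 1999 := by
  have hq := h.q0
  rw [div_le_iff₀ h.σ0]
  calc (1:ℝ) = q ^ 1999 * (q * K) := by
        have := h.hK
        calc (1:ℝ) = K * q ^ 2000 := this.symm
          _ = _ := by ring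
    _ ≤ _ := by have := h.s1; gcongr

lemma σ_le (h : Par A σ q K z) : σ ≤ 1 / q ^ 2001 := by
  have hq := h.q0
  rw [le_div_iff₀ (pow_pos hq _)]
  calc σ * q ^ 2001 = (σ * q) * q ^ 2000 := by ring
    _ ≤ K * q ^ 2000 := by have := h.s2; gcongr
    _ = 1 := h.hK

lemma σ_ge (h : Par A σ q K z) : 1 / q ^ 1999 ≤ σ := by
  have hq := h.q0
  rw [div_le_iff₀ (pow_pos hq _)]
  calc (1:ℝ) = (q * K) * q ^ 1999 := by
        calc (1:ℝ) = K * q ^ 2000 := h.hK.symm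
          _ = _ := by ring
    _ ≤ _ := by have := h.s1; gcongr

lemma one_le_σ (h : Par A σ q K z) : 1 ≤ σ := by
  refine le_trans ?_ h.σ_ge
  rw [le_div_iff₀ (pow_pos h.q0 _), one_mul]
  exact pow_le_one₀ h.q0.le h.qle

lemma p0 (h : Par A σ q K z) : 0 < gaussianPDFReal 0 1 (A + 2) := pdf_pos _

lemma c₀_ge (h : Par A σ q K z) : q ^ 35 ≤ c₀ A σ z K := by
  have hq := h.q0
  have hσ := h.σ0
  have hK := h.K0
  have hA := h.hA
  have hn : ‖z‖ ≤ A * σ + 1 := by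
    refine (Complex.norm_le_abs_re_add_abs_im z).trans ?_
    rw [abs_of_pos h.z0]
    linarith [h.re, h.z1]
  have hB : K / z.im ≤ σ / q ^ 17 := by
    rw [h.im, div_le_div_iff₀ (pow_pos hq _) (pow_pos hq _)]
    calc K * q ^ 17 = (q * K) * q ^ 16 := by ring
      _ ≤ σ * q ^ 16 := by have := h.s1; gcongr
  have hden : (A + 2) * σ + ‖z‖ + K / z.im ≤ 2 * σ / q ^ 17 := by
    have h1 : (A + 2) * σ + ‖z‖ ≤ (2 * A + 3) * σ := by
      have := h.one_le_σ
      nlinarith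
    have h2 : (2 * A + 3) * σ ≤ σ / q ^ 17 := by
      rw [le_div_iff₀ (pow_pos hq _)]
      calc (2 * A + 3) * σ * q ^ 17 = ((2 * A + 3) * q) * (σ * q ^ 16) := by ring
        _ ≤ 1 * (σ * 1) := by
            have := h.qA
            have h16 : q ^ 16 ≤ 1 := pow_le_one₀ hq.le h.qle
            gcongr
        _ = σ := by ring
    have h3 : 2 * σ / q ^ 17 = σ / q ^ 17 + σ / q ^ 17 := by ring
    rw [h3]; linarith
  have hden0 : 0 < (A + 2) * σ + ‖z‖ + K / z.im := by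
    have := norm_nonneg z
    have := h.z0
    positivity
  have hr : q ^ 17 / 2 ≤ σ / ((A + 2) * σ + ‖z‖ + K / z.im) := by
    rw [le_div_iff₀ hden0]
    calc q ^ 17 / 2 * ((A + 2) * σ + ‖z‖ + K / z.im) ≤ q ^ 17 / 2 * (2 * σ / q ^ 17) := by gcongr
      _ = σ := by field_simp
  unfold c₀
  calc q ^ 35 = (4 * q) * (q ^ 17 / 2) ^ 2 := by ring
    _ ≤ gaussianPDFReal 0 1 (A + 2) * (σ / ((A + 2) * σ + ‖z‖ + K / z.im)) ^ 2 := by
        have := h.qp
        have := h.p0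
        gcongr

lemma c₀_pos' (h : Par A σ q K z) : 0 < c₀ A σ z K := lt_of_lt_of_le (pow_pos h.q0 _) h.c₀_ge

/-- the number of scales -/
lemma exists_n (h : Par A σ q K z) : ∃ n : ℕ, σ ≤ z.im * 2 ^ (n + 1) ∧ m₁ σ n ≤ q ^ 1997 := by
  have hq := h.q0
  have hσ := h.σ0
  -- `x = 1 / q ^ 2017`
  set n := Nat.log 2 ⌊1 / q ^ 2017⌋₊ with hn
  have hx1 : (1:ℝ) ≤ 1 / q ^ 2017 := by
    rw [le_div_iff₀ (pow_pos hq _), one_mul]; exact pow_le_one₀ hq.le h.qle
  have hfl : ⌊1 / q ^ 2017⌋₊ ≠ 0 := by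
    have : 1 ≤ ⌊1 / q ^ 2017⌋₊ := Nat.le_floor (by simpa using hx1)
    omega
  have hup : 1 / q ^ 2017 ≤ 2 ^ (n + 1) := by
    have h1 : ⌊1 / q ^ 2017⌋₊ < 2 ^ (n + 1) := Nat.lt_pow_succ_log_self (by norm_num) _
    have h2 := Nat.lt_floor_add_one (1 / q ^ 2017)
    have h3 : ⌊1 / q ^ 2017⌋₊ + 1 ≤ 2 ^ (n + 1) := h1
    have h4 : ((⌊1 / q ^ 2017⌋₊ : ℝ) + 1) ≤ 2 ^ (n + 1) := by exact_mod_cast h3
    linarith
  have hlo : (2:ℝ) ^ n ≤ 1 / q ^ 2017 := by
    have h1 : 2 ^ n ≤ ⌊1 / q ^ 2017⌋₊ := Nat.pow_log_le_self 2 hfl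
    have h2 : ((2:ℝ) ^ n) ≤ (⌊1 / q ^ 2017⌋₊ : ℝ) := by exact_mod_cast h1
    exact h2.trans (Nat.floor_le (by positivity))
  refine ⟨n, ?_, ?_⟩
  · rw [h.im]
    calc σ ≤ 1 / q ^ 2001 := h.σ_le
      _ = q ^ 16 * (1 / q ^ 2017) := by field_simp
      _ ≤ _ := by gcongr
  · -- `n ≤ 2017 log 2 (1 / q) ≤ 4034 / q`
    have hn1 : (n : ℝ) ≤ 4034 / q := by
      have h1 : (n : ℝ) * Real.log 2 ≤ 2017 * Real.log (1 / q) := by
        have := Real.log_le_log (by positivity) hlo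
        rw [Real.log_pow] at this
        have e1 : (1:ℝ) / q ^ 2017 = (1 / q) ^ 2017 := by rw [div_pow, one_pow]
        rw [e1, Real.log_pow] at this
        exact_mod_cast this
      have h2 : Real.log (1 / q) ≤ 1 / q := by
        have := Real.log_le_sub_one_of_pos (show 0 < 1 / q by positivity)
        linarith
      have h3 : (1:ℝ) / 2 ≤ Real.log 2 := by
        have := Real.log_two_gt_d9; linarith
      have h4 : (n : ℝ) * (1 / 2) ≤ 2017 * (1 / q) := by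
        calc (n : ℝ) * (1 / 2) ≤ n * Real.log 2 := by gcongr
          _ ≤ 2017 * Real.log (1 / q) := h1
          _ ≤ _ := by gcongr
      have h5 : (4034:ℝ) / q = 2 * (2017 * (1 / q)) := by ring
      rw [h5]; linarith
    unfold m₁
    have h6 : 8 * ((n : ℝ) + 1) + 1 ≤ 1 / q ^ 2 * 1 := by
      have hq2 : 1 ≤ 1 / q := by rw [le_div_iff₀ hq]; linarith [h.qle]
      have h30 : (50000 : ℝ) ≤ 1 / q := by
        rw [le_div_iff₀ hq]
        calc 50000 * q ≤ 50000 * (1 / 50000) := by have := h.q1; gcongr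
          _ = 1 := by norm_num
      have h7 : (1:ℝ) / q ^ 2 = (1 / q) * (1 / q) := by field_simp
      have h8 : (4034:ℝ) / q = 4034 * (1 / q) := by ring
      rw [h8] at hn1
      rw [h7, mul_one]
      set y := 1 / q
      nlinarith
    calc (8 * ((n : ℝ) + 1) + 1) / σ = (8 * ((n : ℝ) + 1) + 1) * (1 / σ) := by ring
      _ ≤ (1 / q ^ 2 * 1) * q ^ 1999 := by
          have := h.inv_σ
          gcongr
      _ = q ^ 1997 := by field_simp

end Par

end Pool.Agent.H989
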