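import Pool.Agent.H989.Num

/-!
Error probabilities for the chosen parameters.
-/

set_option linter.unusedSectionVars false
set_option linter.unusedVariables false
set_option maxRecDepth 20000

open MeasureTheory ProbabilityTheory Finset

namespace Pool.Agent.H989

section general
variable {V : Type*} [AddCommGroup V] [Fintype V] [DecidableEq V]
variable {A σ q K : ℝ} {z : ℂ} {N N₁ : Finset V} {L : ℕ} {e : V} {ℓ : V →+ ZMod L}

/-- bounds for the base quantities -/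
structure Bok (q K : ℝ) (N : Finset V) (σ : ℝ) (z : ℂ) : Prop where
  b1 : B₁ N σ z ≤ 1 / q ^ 18
  b2 : B₂ N σ z ≤ 1 / q ^ 18
  b3 : B₃ N σ z ≤ K / q ^ 18

lemma two_div (h : Par A σ q K z) : 2 / (σ * z.im) ≤ 2 * q ^ 1983 := by
  have hq := h.q0
  rw [h.im]
  calc 2 / (σ * q ^ 16) = 2 * (1 / σ) / q ^ 16 := by field_simp
    _ ≤ 2 * q ^ 1999 / q ^ 16 := by have := h.inv_σ; gcongr
    _ = _ := by field_simp

lemma E_off_le (h : Lay N N₁ e ℓ) (par : Par A σ q K z) (hK : (N.card : ℝ) ≤ K)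
    (ok : Bok q K N σ z) :
    ∫ ξ, nsq (off ℓ 0 (sol N ∅ (pot σ ξ) z (Pi.single 0 1))) ∂(PP V) ≤ q ^ 2927 := by
  have hq := par.q0
  have hσ := par.σ0
  have hz := par.z0
  have hK0 := par.K0
  have hc := par.c₀_pos'
  obtain ⟨n, hn, hm⟩ := par.exists_n
  have hm0 : 0 ≤ m₁ σ n := by unfold m₁; positivity
  have key := E_off_single_le h hσ hz par.hA par.re hK hn (α := q ^ 1000) (pow_pos hq _)
  have b10 := B₁_nonneg (N := N) (σ := σ) (z := z)
  have b20 := B₂_nonneg (N := N) (σ := σ) (z := z)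
  have t1 : B₁ N σ z / c₀ A σ z K ≤ 1 / q ^ 53 := by
    calc B₁ N σ z / c₀ A σ z K ≤ (1 / q ^ 18) / q ^ 35 := by
          have := ok.b1
          have := par.c₀_ge
          gcongr
      _ = _ := by field_simp
  have t3 : √((2 + 2 * K * B₂ N σ z) / c₀ A σ z K) ≤ 1 / q ^ 1028 := by
    rw [Real.sqrt_le_left (by positivity)]
    have hle : (1:ℝ) ≤ 1 / q ^ 2018 := by
      rw [le_div_iff₀ (pow_pos hq _), one_mul]; exact pow_le_one₀ hq.le par.qle
    calc (2 + 2 * K * B₂ N σ z) / c₀ A σ z K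
        ≤ (2 * (1 / q ^ 2018) + 2 * (1 / q ^ 2000) * (1 / q ^ 18)) / q ^ 35 := by
          have := ok.b2
          have := par.c₀_ge
          rw [par.Keq] at *
          gcongr
          linarith
      _ = 4 * q ^ 3 / (q ^ 1028) ^ 2 := by field_simp; ring
      _ ≤ (1 / q ^ 1028) ^ 2 := by
          rw [div_pow, one_pow]
          have : 4 * q ^ 3 ≤ 1 := by
            have h1 : 4 * q ^ 3 ≤ q ^ 2 := par.cst (c := 4) (by norm_num) 2
            have := pow_le_one₀ hq.le par.qle (n := 2)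
            linarith
          gcongr
  have t2 := two_div par
  have fin : z.im * ∫ ξ, nsq (off ℓ 0 (sol N ∅ (pot σ ξ) z (Pi.single 0 1))) ∂(PP V)
      ≤ q ^ 2943 := by
    refine key.trans ?_
    calc m₁ σ n * (q ^ 1000 * (B₁ N σ z / c₀ A σ z K) + (q ^ 1000)⁻¹ * (2 / (σ * z.im)))
          + 2 / (σ * z.im) * (2 * (m₁ σ n * √((2 + 2 * K * B₂ N σ z) / c₀ A σ z K)))
        ≤ q ^ 1997 * (q ^ 1000 * (1 / q ^ 53) + (q ^ 1000)⁻¹ * (2 * q ^ 1983))
          + 2 * q ^ 1983 * (2 * (q ^ 1997 * (1 / q ^ 1028))) := by gcongr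
      _ = q ^ 2944 + 2 * q ^ 2980 + 4 * q ^ 2952 := by field_simp; ring
      _ ≤ q ^ 2944 + 2 * q ^ 2944 + 4 * q ^ 2944 := by
          have := par.pw (a := 2944) (b := 2980) (by norm_num)
          have := par.pw (a := 2944) (b := 2952) (by norm_num)
          gcongr
      _ = 7 * q ^ (2943 + 1) := by ring
      _ ≤ q ^ 2943 := par.cst (by norm_num) 2943
  rw [par.im, mul_comm, ← le_div_iff₀ (pow_pos hq _)] at fin
  refine fin.trans (le_of_eq ?_)
  field_simp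

lemma P_off_le (h : Lay N N₁ e ℓ) (par : Par A σ q K z) (hK : (N.card : ℝ) ≤ K)
    (ok : Bok q K N σ z) :
    (PP V).real {ξ | q ^ 320 ≤ nsq (off ℓ 0 (sol N {0} (pot σ ξ) z (bx N 0)))} ≤ q ^ 67 := by
  have hq := par.q0
  have hσ := par.σ0
  have hz := par.z0
  have hK0 := par.K0
  have hp := par.p0
  have hM1 : (1:ℝ) ≤ 1 / q ^ 70 := by
    rw [le_div_iff₀ (pow_pos hq _), one_mul]; exact pow_le_one₀ hq.le par.qle
  have hz1 := par.z1
  have hMσ : z.im + 1 / q ^ 70 ≤ σ := by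
    refine le_trans ?_ par.σ_ge
    calc z.im + 1 / q ^ 70 ≤ 1 / q ^ 70 + 1 / q ^ 70 := by linarith
      _ = 2 * q ^ 1929 / q ^ 1999 := by field_simp; norm_num
      _ ≤ 1 / q ^ 1999 := by
          have h1 : 2 * q ^ 1929 ≤ q ^ 1928 := par.cst (c := 2) (by norm_num) 1928
          have := pow_le_one₀ hq.le par.qle (n := 1928)
          gcongr
          linarith
  have key := offmass (ℓ := ℓ) (M := 1 / q ^ 70) (ε := q ^ 320) h.s hσ hz par.hA par.re
    (by positivity) hMσ (pow_pos hq _)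
  have eo := E_off_le h par hK ok
  have b20 := B₂_nonneg (N := N) (σ := σ) (z := z)
  refine key.trans ?_
  have e1 : σ * (z.im + 1 / q ^ 70) / (q ^ 320 * gaussianPDFReal 0 1 (A + 2))
      * ∫ ξ, nsq (off ℓ 0 (sol N ∅ (pot σ ξ) z (Pi.single 0 1))) ∂(PP V) ≤ q ^ 68 := by
    calc σ * (z.im + 1 / q ^ 70) / (q ^ 320 * gaussianPDFReal 0 1 (A + 2))
          * ∫ ξ, nsq (off ℓ 0 (sol N ∅ (pot σ ξ) z (Pi.single 0 1))) ∂(PP V)
        ≤ (1 / q ^ 2001) * (1 / q ^ 70 + 1 / q ^ 70) / (q ^ 320 * (4 * q)) * q ^ 2927 := by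
          have := par.σ_le
          have := par.qp
          have := hz1.trans hM1
          have : 0 ≤ ∫ ξ, nsq (off ℓ 0 (sol N ∅ (pot σ ξ) z (Pi.single 0 1))) ∂(PP V) :=
            integral_nonneg fun _ => nsq_nonneg _
          gcongr
      _ = 1 / 2 * q ^ 535 := by field_simp; ring
      _ ≤ 1 * q ^ 68 := by
          have := par.pw (a := 68) (b := 535) (by norm_num)
          gcongr; norm_num
      _ = q ^ 68 := one_mul _
  have e2 : N.card * B₂ N σ z / σ ^ 2 ≤ q ^ 68 := by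
    calc N.card * B₂ N σ z / σ ^ 2 = N.card * B₂ N σ z * (1 / σ) ^ 2 := by field_simp
      _ ≤ (1 / q ^ 2000) * (1 / q ^ 18) * (q ^ 1999) ^ 2 := by
          have := par.inv_σ
          have := ok.b2
          rw [par.Keq] at hK
          gcongr
      _ = q ^ 1980 := by field_simp
      _ ≤ q ^ 68 := par.pw (by norm_num)
  have e3 : z.im * B₂ N σ z / (1 / q ^ 70) ≤ q ^ 68 := by
    rw [par.im]
    calc q ^ 16 * B₂ N σ z / (1 / q ^ 70) = q ^ 86 * B₂ N σ z := by field_simp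
      _ ≤ q ^ 86 * (1 / q ^ 18) := by have := ok.b2; gcongr
      _ = q ^ 68 := by field_simp
  calc _ ≤ q ^ 68 + q ^ 68 + q ^ 68 := by linarith
    _ = 3 * q ^ (67 + 1) := by ring
    _ ≤ q ^ 67 := par.cst (by norm_num) 67

lemma E_D_le (h : Lay N N₁ e ℓ) (par : Par A σ q K z) (hK : (N₁.card : ℝ) ≤ K)
    (ok : Bok q K N₁ σ z) :
    ∫ ξ, ‖∑ w, sol N₁ {e, 0} (pot σ ξ) z (bx N₁ 0) w
        * sol N₁ {e, 0} (pot σ ξ) z (bx N₁ e) (w + e)‖ ∂(PP V) ≤ q ^ 1888 := by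
  have hq := par.q0
  have hσ := par.σ0
  have hz := par.z0
  have hK0 := par.K0
  have hc := par.c₀_pos'
  obtain ⟨n, hn, hm⟩ := par.exists_n
  have hm0 : 0 ≤ m₁ σ n := by unfold m₁; positivity
  refine (E_coupling_le h hz).trans ?_
  refine (sum_sq_E_a0_le h.s1 hσ hz par.hA par.re hK hn).trans ?_
  have b20 := B₂_nonneg (N := N₁) (σ := σ) (z := z)
  have b30 := B₃_nonneg (N := N₁) (σ := σ) (z := z)
  have t2 := two_div par
  have hcge := par.c₀_ge
  have q20 := pow_pos hq 2000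
  have x1 : 2 * B₃ N₁ σ z + 2 * K * (2 / (σ * z.im) * (K * B₂ N₁ σ z)) ≤ 6 / q ^ 2035 := by
    calc 2 * B₃ N₁ σ z + 2 * K * (2 / (σ * z.im) * (K * B₂ N₁ σ z))
        ≤ 2 * (K / q ^ 18) + 2 * K * (2 * q ^ 1983 * (K * (1 / q ^ 18))) := by
          have := ok.b2
          have := ok.b3
          gcongr
      _ = 2 * q ^ 17 / q ^ 2035 + 4 / q ^ 2035 := by rw [par.Keq]; field_simp; ring
      _ ≤ 2 * 1 / q ^ 2035 + 4 / q ^ 2035 := by
          have := pow_le_one₀ hq.le par.qle (n := 17)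
          gcongr
      _ = _ := by ring
  have x2 : (2 * B₃ N₁ σ z + 2 * K * (2 / (σ * z.im) * (K * B₂ N₁ σ z))) / c₀ A σ z K
      ≤ 6 / q ^ 2070 := by
    calc _ ≤ (6 / q ^ 2035) / q ^ 35 := by gcongr
      _ = _ := by field_simp
  have x3 : (2 * K + 2 * ((2 * B₃ N₁ σ z + 2 * K * (2 / (σ * z.im) * (K * B₂ N₁ σ z)))
      / c₀ A σ z K)) ≤ 14 / q ^ 2070 := by
    calc _ ≤ 2 * (1 / q ^ 2000) + 2 * (6 / q ^ 2070) := by
          rw [par.Keq] at *
          gcongr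
      _ = (2 * q ^ 70 + 12) / q ^ 2070 := by field_simp; ring
      _ ≤ (2 * 1 + 12) / q ^ 2070 := by
          have := pow_le_one₀ hq.le par.qle (n := 70)
          gcongr
      _ = _ := by norm_num
  have x30 : 0 ≤ (2 * K + 2 * ((2 * B₃ N₁ σ z + 2 * K * (2 / (σ * z.im) * (K * B₂ N₁ σ z)))
      / c₀ A σ z K)) := by positivity
  calc m₁ σ n ^ 2 * ((2 * K + 2 * ((2 * B₃ N₁ σ z + 2 * K * (2 / (σ * z.im) * (K * B₂ N₁ σ z)))
        / c₀ A σ z K)) / c₀ A σ z K)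
      ≤ (q ^ 1997) ^ 2 * ((14 / q ^ 2070) / q ^ 35) := by gcongr
    _ = 14 * q ^ (1888 + 1) := by field_simp
    _ ≤ q ^ 1888 := par.cst (by norm_num) 1888

lemma sqrt_pow (hq : 0 < q) (a : ℕ) : √(q ^ (2 * a)) = q ^ a := by
  rw [show q ^ (2 * a) = (q ^ a) ^ 2 by ring, Real.sqrt_sq (pow_pos hq _).le]

lemma B₂_div (par : Par A σ q K z) (ok : Bok q K N σ z) :
    B₂ N σ z / (1 / q ^ 40) ^ 2 ≤ q ^ 62 := by
  have hq := par.q0
  calc B₂ N σ z / (1 / q ^ 40) ^ 2 ≤ (1 / q ^ 18) / (1 / q ^ 40) ^ 2 := by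
        have := ok.b2; gcongr
    _ = q ^ 62 := by field_simp

lemma P_Good_le (h : Lay N N₁ e ℓ) (par : Par A σ q K z) (hK : (N.card : ℝ) ≤ K)
    (hK₁ : (N₁.card : ℝ) ≤ K) (ok : Bok q K N σ z) (ok₁ : Bok q K N₁ σ z) :
    (PP V).real (Good N N₁ e σ z (q ^ 60))ᶜ ≤ q ^ 61 := by
  have hq := par.q0
  have hz := par.z0
  have hs : √(q ^ 320) = q ^ 160 := sqrt_pow hq 160
  have hR : 1 ≤ 1 / q ^ 40 := by
    rw [le_div_iff₀ (pow_pos hq _), one_mul]; exact pow_le_one₀ hq.le par.qle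
  have key := P_Good (R := 1 / q ^ 40) (ε := q ^ 320) (δ := q ^ 60) h hz par.z1 hR
    (pow_pos hq _)
    (by
      have h1 : 4 * q ^ 320 ≤ q ^ 319 := par.cst (c := 4) (by norm_num) 319
      have := pow_le_one₀ hq.le par.qle (n := 319)
      linarith)
    (by
      rw [hs, par.im]
      calc 21 * (1 / q ^ 40) ^ 2 * q ^ 160 / q ^ 16 = 21 * q ^ (63 + 1) := by field_simp
        _ ≤ q ^ 63 := par.cst (by norm_num) 63
        _ ≤ q ^ 60 := par.pw (by norm_num))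
    (P_off_le h par hK ok) (E_D_le h par hK₁ ok₁)
  refine key.trans ?_
  rw [hs]
  have a1 := B₂_div par ok
  have a2 := B₂_div par ok₁
  have a3 : q ^ 1888 / q ^ 160 ≤ q ^ 62 := by
    calc q ^ 1888 / q ^ 160 = q ^ 1728 := by field_simp
      _ ≤ q ^ 62 := par.pw (by norm_num)
  have a4 := par.pw (a := 62) (b := 67) (by norm_num)
  calc _ ≤ 2 * q ^ 62 + 2 * q ^ 62 + 2 * q ^ 62 + q ^ 62 := by linarith
    _ = 7 * q ^ (61 + 1) := by ring
    _ ≤ q ^ 61 := par.cst (by norm_num) 61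

lemma P_same_le (h : Lay N N₁ e ℓ) (par : Par A σ q K z) (hK : (N.card : ℝ) ≤ K)
    (ok : Bok q K N σ z) (ok₁ : Bok q K N₁ σ z) (a : V) :
    (PP V).real {ξ : V → ℝ | q ^ 60 < ‖SE N ∅ (pot σ ξ) z a - SE N₁ ∅ (pot σ ξ) z a‖}
      ≤ q ^ 61 := by
  have hq := par.q0
  have hz := par.z0
  have hs : √(q ^ 320) = q ^ 160 := sqrt_pow hq 160
  have hR : 1 ≤ 1 / q ^ 40 := by
    rw [le_div_iff₀ (pow_pos hq _), one_mul]; exact pow_le_one₀ hq.le par.qle
  refine (close_same (R := 1 / q ^ 40) (ε := q ^ 320) (δ := q ^ 60) h hz hR (pow_pos hq _)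
    (by
      rw [hs]
      calc 4 * (1 / q ^ 40) * q ^ 160 = 4 * q ^ (119 + 1) := by field_simp
        _ ≤ q ^ 119 := par.cst (by norm_num) 119
        _ ≤ q ^ 60 := par.pw (by norm_num)) (P_off_le h par hK ok) a).trans ?_
  have a2 := B₂_div par ok₁
  have a4 := par.pw (a := 62) (b := 67) (by norm_num)
  calc _ ≤ q ^ 62 + q ^ 62 := by linarith
    _ = 2 * q ^ (61 + 1) := by ring
    _ ≤ q ^ 61 := par.cst (by norm_num) 61

lemma P_rate_le (hN : Steps N) (par : Par A σ q K z) (hK : (N.card : ℝ) ≤ K)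
    (ok : Bok q K N σ z) :
    (PP V).real {ξ : V → ℝ | ¬ ((SE N ∅ (pot σ ξ) z 0).im ≤ 1 / q ^ 7
      ∧ |(SE N ∅ (pot σ ξ) z 0).re| ≤ σ)} ≤ 2 * q ^ 5 := by
  have hq := par.q0
  have hz := par.z0
  have hσ := par.σ0
  have b20 := B₂_nonneg (N := N) (σ := σ) (z := z)
  have hSn : Nice fun ξ : V → ℝ => SE N ∅ (pot σ ξ) z 0 := nice_SE hN hz 0
  have hSim : ∀ ξ : V → ℝ, (SE N ∅ (pot σ ξ) z 0).im
      = z.im * nsq (sol N {0} (pot σ ξ) z (bx N 0)) := fun ξ => by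
    have := SE_im (Λ := ∅) (v := pot σ ξ) hN hz 0
    simpa using this
  have h3 : (PP V).real {ξ : V → ℝ | σ ^ 2 ≤ ‖SE N ∅ (pot σ ξ) z 0‖ ^ 2} ≤ q ^ 5 := by
    have : (PP V).real {ξ : V → ℝ | σ ^ 2 ≤ ‖SE N ∅ (pot σ ξ) z 0‖ ^ 2}
        ≤ N.card * B₂ N σ z / σ ^ 2 := by
      refine (markov (hSn.norm.pow 2) (fun _ => by positivity) (by positivity)).trans ?_
      gcongr
      rw [B₂, ← integral_const_mul]
      refine integral_mono (hSn.norm.pow 2).integrable ((nice_nsq hN hz _).const_mul _).integrable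
        fun ξ => ?_
      simp only
      unfold SE
      rw [insert_empty_eq]
      calc ‖nb N (sol N {0} (pot σ ξ) z (bx N 0)) 0‖ ^ 2
          ≤ (√(N.card : ℝ) * nrm (sol N {0} (pot σ ξ) z (bx N 0))) ^ 2 := by
            gcongr; exact norm_nb_le hN _ _
        _ = _ := by rw [mul_pow, Real.sq_sqrt (by positivity), nrm_sq]
    refine this.trans ?_
    calc N.card * B₂ N σ z / σ ^ 2 = N.card * B₂ N σ z * (1 / σ) ^ 2 := by field_simp
      _ ≤ (1 / q ^ 2000) * (1 / q ^ 18) * (q ^ 1999) ^ 2 := by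
          have := par.inv_σ
          have := ok.b2
          rw [par.Keq] at hK
          gcongr
      _ = q ^ 1980 := by field_simp
      _ ≤ q ^ 5 := par.pw (by norm_num)
  have h4 : (PP V).real {ξ : V → ℝ | 1 / q ^ 7 ≤ (SE N ∅ (pot σ ξ) z 0).im} ≤ q ^ 5 := by
    have hn : Nice fun ξ : V → ℝ => (SE N ∅ (pot σ ξ) z 0).im := by
      simp only [hSim]
      exact (nice_nsq hN hz _).const_mul _
    refine (markov hn (fun ξ => by
      rw [hSim]; exact mul_nonneg hz.le (nsq_nonneg _)) (by positivity)).trans ?_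
    simp only [hSim]
    rw [integral_const_mul, par.im]
    change q ^ 16 * B₂ N σ z / (1 / q ^ 7) ≤ _
    calc q ^ 16 * B₂ N σ z / (1 / q ^ 7) = q ^ 23 * B₂ N σ z := by field_simp
      _ ≤ q ^ 23 * (1 / q ^ 18) := by have := ok.b2; gcongr
      _ = q ^ 5 := by field_simp
  have hsub : {ξ : V → ℝ | ¬ ((SE N ∅ (pot σ ξ) z 0).im ≤ 1 / q ^ 7
      ∧ |(SE N ∅ (pot σ ξ) z 0).re| ≤ σ)}
      ⊆ {ξ : V → ℝ | σ ^ 2 ≤ ‖SE N ∅ (pot σ ξ) z 0‖ ^ 2}
        ∪ {ξ : V → ℝ | 1 / q ^ 7 ≤ (SE N ∅ (pot σ ξ) z 0).im} := by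
    intro ξ hξ
    by_cases a2 : (SE N ∅ (pot σ ξ) z 0).im ≤ 1 / q ^ 7
    · left
      have a1 : σ < |(SE N ∅ (pot σ ξ) z 0).re| := by
        by_contra hcon
        exact hξ ⟨a2, not_lt.1 hcon⟩
      have := Complex.abs_re_le_norm (SE N ∅ (pot σ ξ) z 0)
      exact pow_le_pow_left₀ hσ.le (a1.le.trans this) 2
    · exact Or.inr (le_of_not_ge a2)
  refine (measureReal_mono hsub).trans ((measureReal_union_le _ _).trans ?_)
  linarith

end general

end Pool.Agent.H989
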