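import Pool.Agent.H989.Num2

/-!
The fixed energy estimate with the chosen parameters.
-/

set_option linter.unusedSectionVars false
set_option linter.unusedVariables false
set_option maxRecDepth 20000

open MeasureTheory ProbabilityTheory Finset

namespace Pool.Agent.H989

variable {d L : ℕ} [NeZero L] {A σ q : ℝ} {z : ℂ}

lemma inv_σ_ge {K : ℝ} (par : Par A σ q K z) : q ^ 2001 ≤ 1 / σ := by
  have hq := par.q0
  have hσ := par.σ0
  rw [le_div_iff₀ hσ]
  calc q ^ 2001 * σ ≤ q ^ 2001 * (1 / q ^ 2001) := by have := par.σ_le; gcongr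
    _ = 1 := by field_simp

theorem fixed_q (hL : 3 ≤ L) (hd : 0 < d) (par : Par A σ q (2 * d) z)
    (ok₀ : Bok q (2 * d) (ND L (univ : Finset (Fin d))) σ z)
    (ok₁ : ∀ i : Fin d, Bok q (2 * d) (ND L (univ.erase i)) σ z)
    (ok₂ : ∀ i j : Fin d, i ≠ j → Bok q (2 * d) (ND L ((univ.erase i).erase j)) σ z)
    {m : ℕ} (hm1 : (2:ℝ) ^ m ≤ 1 / q ^ 2)
    (hm : 32 ≤ m * (d * gaussianPDFReal 0 1 (A + 2) / (2 * σ))) :
    ∫ ξ, z.im / (z.im + (S₀ σ z ξ).im) ∂(PP (Tor d L)) ≤ 2 * q := by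
  have hq := par.q0
  have hσ := par.σ0
  have hz := par.z0
  have hp := par.p0
  have hqle := par.qle
  have cK : ∀ D : Finset (Fin d), ((ND L D).card : ℝ) ≤ 2 * d := fun D => card_ND_le hL D
  have h2m : (0:ℝ) < 2 ^ m := by positivity
  have hs16 : √z.im = q ^ 8 := by rw [par.im]; exact sqrt_pow hq 8
  have hs60 : √(q ^ 60) = q ^ 30 := sqrt_pow hq 30
  have hdK : (d : ℝ) = 1 / (2 * q ^ 2000) := by
    have := par.Keq
    have hq2 := pow_pos hq 2000
    field_simp at this ⊢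
    linarith
  have hs2 : q ^ 6 ≤ q ^ 4 / 2 ^ m := by
    rw [le_div_iff₀ h2m]
    calc q ^ 6 * 2 ^ m ≤ q ^ 6 * (1 / q ^ 2) := by gcongr
      _ = q ^ 4 := by field_simp
  have inv1 := par.inv_σ
  have inv2 := inv_σ_ge par
  have hlam : q ^ 2 ≤ d * gaussianPDFReal 0 1 (A + 2) / (2 * σ) := by
    calc q ^ 2 = (1 / (2 * q ^ 2000)) * (4 * q) / 2 * q ^ 2001 := by field_simp; norm_num
      _ ≤ d * gaussianPDFReal 0 1 (A + 2) / 2 * (1 / σ) := by
          rw [← hdK]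
          have := par.qp
          gcongr
      _ = _ := by field_simp
  have hE' : 4 * (2 * q ^ 60 / z.im + q ^ 61) * (1 / (σ * (q ^ 7) ^ 2)) ^ 2 * d ^ 2
      ≤ 3 * q ^ 14 := by
    rw [par.im]
    calc 4 * (2 * q ^ 60 / q ^ 16 + q ^ 61) * (1 / (σ * (q ^ 7) ^ 2)) ^ 2 * d ^ 2
        = 4 * (2 * q ^ 44 + q ^ 61) * ((1 / σ) ^ 2 / q ^ 28) * d ^ 2 := by field_simp
      _ ≤ 4 * (2 * q ^ 44 + q ^ 44) * ((q ^ 1999) ^ 2 / q ^ 28) * (1 / (2 * q ^ 2000)) ^ 2 := by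
          rw [← hdK]
          have := par.pw (a := 44) (b := 61) (by norm_num)
          gcongr
      _ = 3 * q ^ 14 := by field_simp; ring
  have hE : d * (1 / (σ * (q ^ 7) ^ 2) * q ^ 61) ≤ q ^ 46 := by
    calc d * (1 / (σ * (q ^ 7) ^ 2) * q ^ 61) = d * ((1 / σ) / q ^ 14 * q ^ 61) := by field_simp
      _ ≤ (1 / (2 * q ^ 2000)) * (q ^ 1999 / q ^ 14 * q ^ 61) := by
          rw [← hdK]
          gcongr
      _ = 1 / 2 * q ^ 46 := by field_simp
      _ ≤ 1 * q ^ 46 := by gcongr; norm_num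
      _ = q ^ 46 := one_mul _
  have main := fixed_energy (δ := q ^ 60) (π := q ^ 61) (p₂ := 2 * q ^ 5) (p₃ := q ^ 61)
    (s₁ := q ^ 4) (s₂ := q ^ 4 / 2 ^ m) (s₃ := q ^ 7) (M := 1 / q ^ 7) (T := A + 2) (m := m)
    hL hσ hz par.z1 (pow_pos hq _) ((par.pw (by norm_num)).trans hs2) (by field_simp)
    (pow_pos hq _).le (pow_le_one₀ hq.le hqle)
    (by
      rw [par.im]
      have h1 : 4 * q ^ 60 ≤ q ^ 59 := par.cst (c := 4) (by norm_num) 59
      calc 4 * q ^ 60 ≤ q ^ 59 := h1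
        _ ≤ q ^ 46 := par.pw (by norm_num)
        _ = (q ^ 16) ^ 2 * (q ^ 7) ^ 2 := by ring)
    (fun i => P_Good_le (lay_ND hL (mem_univ i)) par (cK _) (cK _) ok₀ (ok₁ i))
    (fun i j hij => P_same_le (lay_ND hL (by simp [hij.symm] : j ∈ univ.erase i)) par (cK _)
      (ok₁ i) (ok₂ i j hij) (ei i))
    (fun i => P_rate_le (steps_ND hL _) par (cK _) (ok₁ i))
    (fun i => P_same_le (lay_ND hL (mem_univ i)) par (cK _) ok₀ (ok₁ i) 0)
    (by
      rw [par.im]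
      have h1 : 12 * q ^ 1 ≤ q ^ 0 := par.cst (c := 12) (by norm_num) 0
      have h2 : q ^ 16 ≤ 1 / q ^ 7 := by
        rw [le_div_iff₀ (pow_pos hq _)]
        calc q ^ 16 * q ^ 7 = q ^ 23 := by ring
          _ ≤ 1 := pow_le_one₀ hq.le hqle
      calc q ^ 16 + 1 / q ^ 7 ≤ 1 / q ^ 7 + 1 / q ^ 7 := by linarith
        _ = (12 * q ^ 1) / (6 * (q ^ 4) ^ 2) := by field_simp; norm_num
        _ ≤ q ^ 0 / (6 * (q ^ 4) ^ 2) := by gcongr
        _ = _ := by rw [pow_zero])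
    (by
      have h1 := par.re
      have h2 : 1 / (q ^ 7) ^ 2 ≤ σ := by
        refine le_trans ?_ par.σ_ge
        have : q ^ 1999 ≤ (q ^ 7) ^ 2 := by rw [← pow_mul]; exact par.pw (by norm_num)
        exact one_div_le_one_div_of_le (pow_pos hq _) this
      have : (A + 2) * σ = A * σ + σ + σ := by ring
      linarith)
    (by
      have h1 : 2 * q ^ 5 ≤ q ^ 4 := par.cst (c := 2) (by norm_num) 4
      have h2 : q ^ 4 ≤ q ^ 1 := par.pw (by norm_num)
      have h3 := par.q1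
      rw [pow_one] at h2
      linarith)
    (by
      rw [hs60, hs16]
      have h1 := par.pw (a := 9) (b := 30) (by norm_num)
      have h2 : q ^ 4 * q ^ 61 ≤ q ^ 9 := by
        rw [← pow_add]; exact par.pw (by norm_num)
      have h3 : 9 * q ^ 9 ≤ q ^ 8 := par.cst (c := 9) (by norm_num) 8
      have h4 : q ^ 4 * (2 * q ^ 5) = 2 * q ^ 9 := by ring
      have h5 := pow_pos hq 9
      rw [h4]
      linarith)
    hd
    (by
      rw [hs16]
      refine hE'.trans ?_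
      calc 3 * q ^ 14 ≤ q ^ 13 := par.cst (c := 3) (by norm_num) 13
        _ ≤ q ^ 6 := par.pw (by norm_num)
        _ = q ^ 2 * q ^ 8 / q ^ 4 := by field_simp
        _ ≤ _ := by gcongr)
    (by
      rw [hs16]
      refine hE.trans ?_
      have h1 : 16 * q ^ 7 ≤ q ^ 6 := par.cst (c := 16) (by norm_num) 6
      calc q ^ 46 ≤ q ^ 7 := par.pw (by norm_num)
        _ ≤ q ^ 6 / 16 := by linarith
        _ = q ^ 2 * q ^ 8 / (16 * q ^ 4) := by field_simp
        _ ≤ _ := by gcongr)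
    hm
  refine main.trans ?_
  have f1 : z.im / (q ^ 7) ^ 2 = q ^ 2 := by rw [par.im]; field_simp
  have f2 : q ^ 7 / (q ^ 4 / 2 ^ m) ≤ q := by
    calc q ^ 7 / (q ^ 4 / 2 ^ m) ≤ q ^ 7 / q ^ 6 := by gcongr
      _ = q := by field_simp
  have g1 : 9 * q ^ 2 ≤ q ^ 1 := par.cst (c := 9) (by norm_num) 1
  have g2 := par.pw (a := 2) (b := 14) (by norm_num)
  have g3 := par.pw (a := 2) (b := 46) (by norm_num)
  have g4 := pow_pos hq 2
  rw [f1]
  rw [pow_one] at g1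
  linarith

end Pool.Agent.H989
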