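import Pool.Agent.H989.Flux
import Pool.Agent.H989.Gauss

/-!
Expectations over an i.i.d. Gaussian potential on a finite abelian group.
-/

set_option linter.unusedSectionVars false
set_option linter.unusedVariables false

open MeasureTheory ProbabilityTheory Finset

namespace Pool.Agent.H989

variable {V : Type*} [AddCommGroup V] [Fintype V] [DecidableEq V]

/-- the law of the potential -/
noncomputable abbrev PP (V : Type*) [Fintype V] : Measure (V → ℝ) := Measure.pi fun _ : V => γ

/-- measurable and bounded -/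
def Nice {α F : Type*} [MeasurableSpace α] [MeasurableSpace F] [Norm F] (f : α → F) : Prop :=
  Measurable f ∧ ∃ C : ℝ, ∀ x, ‖f x‖ ≤ C

section nice
variable {α : Type*} [MeasurableSpace α]

lemma Nice.integrable {f : α → ℝ} (hf : Nice f) {μ : Measure α} [IsFiniteMeasure μ] :
    Integrable f μ := by
  obtain ⟨h1, C, hC⟩ := hf
  exact Integrable.of_bound h1.aestronglyMeasurable (C := C) (Filter.Eventually.of_forall hC)

lemma Nice.add {f g : α → ℝ} (hf : Nice f) (hg : Nice g) : Nice fun x => f x + g x := by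
  obtain ⟨h1, C, hC⟩ := hf
  obtain ⟨h2, D, hD⟩ := hg
  exact ⟨h1.add h2, C + D, fun x => (norm_add_le _ _).trans (add_le_add (hC x) (hD x))⟩

lemma Nice.sub {f g : α → ℝ} (hf : Nice f) (hg : Nice g) : Nice fun x => f x - g x := by
  obtain ⟨h1, C, hC⟩ := hf
  obtain ⟨h2, D, hD⟩ := hg
  exact ⟨h1.sub h2, C + D, fun x => (norm_sub_le _ _).trans (add_le_add (hC x) (hD x))⟩

lemma Nice.mul {f g : α → ℝ} (hf : Nice f) (hg : Nice g) : Nice fun x => f x * g x := by
  obtain ⟨h1, C, hC⟩ := hf
  obtain ⟨h2, D, hD⟩ := hg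
  refine ⟨h1.mul h2, |C| * |D|, fun x => ?_⟩
  rw [norm_mul]
  exact mul_le_mul ((hC x).trans (le_abs_self _)) ((hD x).trans (le_abs_self _)) (norm_nonneg _)
    (abs_nonneg _)

lemma Nice.const (c : ℝ) : Nice fun _ : α => c := ⟨measurable_const, ‖c‖, fun _ => le_rfl⟩

lemma Nice.const_mul (c : ℝ) {f : α → ℝ} (hf : Nice f) : Nice fun x => c * f x :=
  (Nice.const c).mul hf

lemma Nice.sum {ι : Type*} (s : Finset ι) {f : ι → α → ℝ} (hf : ∀ i ∈ s, Nice (f i)) :
    Nice fun x => ∑ i ∈ s, f i x := by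
  classical
  induction s using Finset.induction_on with
  | empty => simpa using Nice.const 0
  | insert a s ha ih =>
    simp only [Finset.sum_insert ha]
    exact (hf a (by simp)).add (ih fun i hi => hf i (by simp [hi]))

lemma Nice.pow {f : α → ℝ} (hf : Nice f) (n : ℕ) : Nice fun x => f x ^ n := by
  induction n with
  | zero => simpa using Nice.const 1
  | succ n ih => simp only [pow_succ]; exact ih.mul hf

lemma Nice.norm {f : α → ℂ} (hf : Nice f) : Nice fun x => ‖f x‖ := by
  obtain ⟨h1, C, hC⟩ := hf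
  exact ⟨h1.norm, C, fun x => by rw [norm_norm]; exact hC x⟩

lemma Nice.comp {β : Type*} [MeasurableSpace β] {F : Type*} [MeasurableSpace F] [Norm F]
    {f : β → F} (hf : Nice f) {g : α → β} (hg : Measurable g) : Nice fun x => f (g x) := by
  obtain ⟨h1, C, hC⟩ := hf
  exact ⟨h1.comp hg, C, fun x => hC _⟩

lemma Nice.cadd {f g : α → ℂ} (hf : Nice f) (hg : Nice g) : Nice fun x => f x + g x := by
  obtain ⟨h1, C, hC⟩ := hf
  obtain ⟨h2, D, hD⟩ := hg
  exact ⟨h1.add h2, C + D, fun x => (norm_add_le _ _).trans (add_le_add (hC x) (hD x))⟩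

lemma Nice.csub {f g : α → ℂ} (hf : Nice f) (hg : Nice g) : Nice fun x => f x - g x := by
  obtain ⟨h1, C, hC⟩ := hf
  obtain ⟨h2, D, hD⟩ := hg
  exact ⟨h1.sub h2, C + D, fun x => (norm_sub_le _ _).trans (add_le_add (hC x) (hD x))⟩

lemma Nice.cconst (c : ℂ) : Nice fun _ : α => c := ⟨measurable_const, ‖c‖, fun _ => le_rfl⟩

lemma Nice.csum {ι : Type*} (s : Finset ι) {f : ι → α → ℂ} (hf : ∀ i ∈ s, Nice (f i)) :
    Nice fun x => ∑ i ∈ s, f i x := by
  classical
  induction s using Finset.induction_on with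
  | empty => simpa using Nice.cconst 0
  | insert a s ha ih =>
    simp only [Finset.sum_insert ha]
    exact (hf a (by simp)).cadd (ih fun i hi => hf i (by simp [hi]))

end nice

/-! ### resampling of one coordinate -/

lemma measurePreserving_update (x : V) :
    MeasurePreserving (fun p : (V → ℝ) × ℝ => Function.update p.1 x p.2) ((PP V).prod γ) (PP V) := by
  have hm : Measurable (fun p : (V → ℝ) × ℝ => Function.update p.1 x p.2) := by
    refine measurable_pi_lambda _ fun y => ?_
    by_cases hy : y = x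
    · subst hy; simpa using measurable_snd
    · simp only [Function.update_of_ne hy]
      exact (measurable_pi_apply y).comp measurable_fst
  refine ⟨hm, ?_⟩
  symm
  refine Measure.pi_eq fun s hs => ?_
  rw [Measure.map_apply hm (MeasurableSet.univ_pi hs)]
  have : (fun p : (V → ℝ) × ℝ => Function.update p.1 x p.2) ⁻¹' (Set.univ.pi s)
      = (Set.univ.pi (Function.update s x Set.univ)) ×ˢ s x := by
    ext p
    simp only [Set.mem_preimage, Set.mem_univ_pi, Set.mem_prod]
    constructor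
    · intro h
      refine ⟨fun y => ?_, by simpa using h x⟩
      by_cases hy : y = x
      · subst hy; simp
      · have := h y; simpa [Function.update_of_ne hy] using this
    · rintro ⟨h1, h2⟩ y
      by_cases hy : y = x
      · subst hy; simpa using h2
      · have := h1 y; simpa [Function.update_of_ne hy] using this
  rw [this, Measure.prod_prod, Measure.pi_pi]
  rw [← Finset.mul_prod_erase univ _ (mem_univ x), ← Finset.mul_prod_erase univ (fun i => γ (s i))
    (mem_univ x)]
  have h1 : ∏ i ∈ univ.erase x, γ (Function.update s x Set.univ i) = ∏ i ∈ univ.erase x, γ (s i) :=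
    Finset.prod_congr rfl fun i hi => by
      rw [Function.update_of_ne (Finset.ne_of_mem_erase hi)]
  rw [h1]
  simp [mul_comm]

lemma measurable_update' (x : V) (t : ℝ) : Measurable fun ξ : V → ℝ => Function.update ξ x t := by
  refine measurable_pi_lambda _ fun y => ?_
  by_cases hy : y = x
  · subst hy; simp
  · simp only [Function.update_of_ne hy]
    exact measurable_pi_apply y

lemma integral_resample (x : V) {F : (V → ℝ) → ℝ} (hF : Nice F) :
    ∫ ξ, F ξ ∂(PP V) = ∫ ξ, ∫ t, F (Function.update ξ x t) ∂γ ∂(PP V) := by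
  have h := measurePreserving_update (V := V) x
  have h1 := integral_map (μ := (PP V).prod γ) h.measurable.aemeasurable
    (f := F) hF.1.aestronglyMeasurable
  rw [h.map_eq] at h1
  rw [h1, integral_prod]
  exact (hF.comp h.measurable).integrable

lemma nice_inner (x : V) {F : (V → ℝ) → ℝ} (hF : Nice F) :
    Nice fun ξ : V → ℝ => ∫ t, F (Function.update ξ x t) ∂γ := by
  have h := measurePreserving_update (V := V) x
  obtain ⟨h1, C, hC⟩ := hF
  refine ⟨?_, C, fun ξ => ?_⟩
  · exact (h1.comp h.measurable).stronglyMeasurable.integral_prod_right'.measurable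
  · refine (norm_integral_le_of_norm_le_const (C := C)
      (Filter.Eventually.of_forall fun t => hC _)).trans ?_
    simp

/-- upper bound by integration over one coordinate -/
lemma E_le_of_resample (x : V) {F Φ : (V → ℝ) → ℝ} {k : (V → ℝ) → ℝ → ℝ} {c : ℝ}
    (hF : Nice F) (hΦ : Nice Φ) (h0 : ∀ ξ, 0 ≤ Φ ξ)
    (hk : ∀ ξ t, F (Function.update ξ x t) = k ξ t * Φ ξ) (hc : ∀ ξ, ∫ t, k ξ t ∂γ ≤ c) :
    ∫ ξ, F ξ ∂(PP V) ≤ c * ∫ ξ, Φ ξ ∂(PP V) := by
  rw [integral_resample x hF, ← integral_const_mul]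
  refine integral_mono (nice_inner x hF).integrable (hΦ.const_mul c).integrable fun ξ => ?_
  simp only [hk]
  rw [integral_mul_const]
  exact mul_le_mul_of_nonneg_right (hc ξ) (h0 ξ)

/-- lower bound by integration over one coordinate -/
lemma E_ge_of_resample (x : V) {F Φ : (V → ℝ) → ℝ} {k : (V → ℝ) → ℝ → ℝ} {c : ℝ}
    (hF : Nice F) (hΦ : Nice Φ) (h0 : ∀ ξ, 0 ≤ Φ ξ)
    (hk : ∀ ξ t, F (Function.update ξ x t) = k ξ t * Φ ξ) (hc : ∀ ξ, c ≤ ∫ t, k ξ t ∂γ) :
    c * ∫ ξ, Φ ξ ∂(PP V) ≤ ∫ ξ, F ξ ∂(PP V) := by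
  rw [integral_resample x hF, ← integral_const_mul]
  refine integral_mono (hΦ.const_mul c).integrable (nice_inner x hF).integrable fun ξ => ?_
  simp only [hk]
  rw [integral_mul_const]
  exact mul_le_mul_of_nonneg_right (hc ξ) (h0 ξ)

/-! ### symmetries -/

lemma measurePreserving_comp (φ : V ≃ V) :
    MeasurePreserving (fun (ξ : V → ℝ) x => ξ (φ x)) (PP V) (PP V) := by
  have hm : Measurable (fun (ξ : V → ℝ) x => ξ (φ x)) :=
    measurable_pi_lambda _ fun y => measurable_pi_apply _
  refine ⟨hm, ?_⟩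
  symm
  refine Measure.pi_eq fun s hs => ?_
  rw [Measure.map_apply hm (MeasurableSet.univ_pi hs)]
  have : (fun (ξ : V → ℝ) x => ξ (φ x)) ⁻¹' (Set.univ.pi s)
      = Set.univ.pi (fun y => s (φ.symm y)) := by
    ext ξ
    simp only [Set.mem_preimage, Set.mem_univ_pi]
    constructor
    · intro h y; have := h (φ.symm y); simpa using this
    · intro h y; have := h (φ y); simpa using this
  rw [this, Measure.pi_pi]
  exact Equiv.prod_comp φ.symm (fun y => γ (s y))

lemma integral_comp_equiv (φ : V ≃ V) {F : (V → ℝ) → ℝ} (hF : Nice F) :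
    ∫ ξ, F (fun x => ξ (φ x)) ∂(PP V) = ∫ ξ, F ξ ∂(PP V) := by
  have h := measurePreserving_comp (V := V) φ
  have h1 := integral_map (μ := PP V) h.measurable.aemeasurable
    (f := F) hF.1.aestronglyMeasurable
  rw [h.map_eq] at h1
  exact h1.symm

lemma IsSol.comp {N N' Λ Λ' : Finset V} {v : V → ℝ} {z : ℂ} {b f : V → ℂ}
    (h : IsSol N Λ v z b f) (φ : V ≃ V)
    (hφ : ∀ (f : V → ℂ) x, nb N' (fun y => f (φ y)) x = nb N f (φ x))
    (hΛ : ∀ x, x ∈ Λ' ↔ φ x ∈ Λ) :
    IsSol N' Λ' (fun x => v (φ x)) z (fun x => b (φ x)) (fun x => f (φ x)) := by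
  refine ⟨fun x hx => h.1 _ ((hΛ x).1 hx), fun x hx => ?_⟩
  rw [hφ]
  exact h.2 _ (fun hh => hx ((hΛ x).2 hh))

lemma sol_comp {N N' Λ Λ' : Finset V} {v : V → ℝ} {z : ℂ} (hN : Steps N) (hN' : Steps N')
    (hz : 0 < z.im) (b : V → ℂ) (φ : V ≃ V)
    (hφ : ∀ (f : V → ℂ) x, nb N' (fun y => f (φ y)) x = nb N f (φ x))
    (hΛ : ∀ x, x ∈ Λ' ↔ φ x ∈ Λ) (x : V) :
    sol N' Λ' (fun x => v (φ x)) z (fun x => b (φ x)) x = sol N Λ v z b (φ x) :=
  congrFun (sol_eq hN' hz ((isSol_sol hN hz b).comp φ hφ hΛ)) x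

lemma nb_comp_add (N : Finset V) (a : V) (f : V → ℂ) (x : V) :
    nb N (fun y => f (Equiv.addRight a y)) x = nb N f (Equiv.addRight a x) := by
  unfold nb
  refine Finset.sum_congr rfl fun n _ => ?_
  simp only [Equiv.coe_addRight]
  congr 1; abel

lemma bx_add (N : Finset V) (a x y : V) : bx N x (y + a) = bx N (x - a) y := by
  unfold bx
  have : x - (y + a) = x - a - y := by abel
  rw [this]

/-! ### independence -/

/-- `F` depends only on the coordinates in `S` -/
def DepOn (S : Finset V) {β : Type*} (F : (V → ℝ) → β) : Prop :=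
  ∀ ξ ξ' : V → ℝ, (∀ x ∈ S, ξ x = ξ' x) → F ξ = F ξ'

lemma DepOn.update {S : Finset V} {β : Type*} {F : (V → ℝ) → β} (h : DepOn S F) {x : V}
    (hx : x ∉ S) (ξ : V → ℝ) (t : ℝ) : F (Function.update ξ x t) = F ξ :=
  h _ _ fun y hy => Function.update_of_ne (fun e => hx (by rw [← e]; exact hy)) _ _

lemma integral_mul_of_indep {S T : Finset V} (hST : Disjoint S T) {F G : (V → ℝ) → ℝ}
    (hF : Nice F) (hG : Nice G) (hFS : DepOn S F) (hGT : DepOn T G) :
    ∫ ξ, F ξ * G ξ ∂(PP V) = (∫ ξ, F ξ ∂(PP V)) * ∫ ξ, G ξ ∂(PP V) := by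
  have hind : iIndepFun (fun (i : V) (ω : V → ℝ) => ω i) (PP V) :=
    iIndepFun_pi (X := fun _ => id) fun i => aemeasurable_id
  have h2 := hind.indepFun_finset S T hST fun i => measurable_pi_apply i
  have ext_meas : ∀ U : Finset V,
      Measurable (fun (y : U → ℝ) (x : V) => if h : x ∈ U then y ⟨x, h⟩ else 0) := fun U => by
    refine measurable_pi_lambda _ fun x => ?_
    by_cases h : x ∈ U
    · simp only [h, dif_pos]; exact measurable_pi_apply _
    · simp only [h, dif_neg, not_false_eq_true]; exact measurable_const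
  have h3 := h2.comp (hF.1.comp (ext_meas S)) (hG.1.comp (ext_meas T))
  have e1 : (F ∘ fun (y : S → ℝ) (x : V) => if h : x ∈ S then y ⟨x, h⟩ else 0)
      ∘ (fun (a : V → ℝ) (i : S) => a i) = F := by
    funext ξ
    apply hFS
    intro x hx
    simp [hx]
  have e2 : (G ∘ fun (y : T → ℝ) (x : V) => if h : x ∈ T then y ⟨x, h⟩ else 0)
      ∘ (fun (a : V → ℝ) (i : T) => a i) = G := by
    funext ξ
    apply hGT
    intro x hx
    simp [hx]
  rw [e1, e2] at h3
  exact h3.integral_fun_mul_eq_mul_integral hF.1.aestronglyMeasurable hG.1.aestronglyMeasurable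

/-! ### continuity and boundedness of the solutions -/

lemma continuous_sol {X : Type*} [TopologicalSpace X] {N Λ : Finset V} (hN : Steps N)
    {v : X → V → ℝ} {z : X → ℂ} (hv : Continuous v) (hz : Continuous z)
    (him : ∀ x, 0 < (z x).im) (b : V → ℂ) (y : V) :
    Continuous fun x => sol N Λ (v x) (z x) b y := by
  have hM : Continuous fun x => mat N Λ (v x) (z x) := by
    refine continuous_matrix fun i j => ?_
    unfold mat
    have hvi : ∀ i, Continuous fun x => v x i := fun i => (continuous_apply i).comp hv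
    split_ifs <;> first | exact continuous_const | skip
    · exact continuous_const.add ((Complex.continuous_ofReal.comp (hvi i)).sub hz)
    · exact continuous_const.add ((Complex.continuous_ofReal.comp (hvi i)).sub hz)
  have hinv : Continuous fun x => (mat N Λ (v x) (z x))⁻¹ := by
    have hd : Continuous fun x => ((mat N Λ (v x) (z x)).det)⁻¹ :=
      hM.matrix_det.inv₀ fun x => mat_det_ne_zero hN (him x)
    have ha : Continuous fun x => (mat N Λ (v x) (z x)).adjugate := hM.matrix_adjugate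
    have he : ∀ x, (mat N Λ (v x) (z x))⁻¹
        = ((mat N Λ (v x) (z x)).det)⁻¹ • (mat N Λ (v x) (z x)).adjugate := fun x => by
      rw [Matrix.inv_def, Ring.inverse_eq_inv']
    simp only [he]
    exact hd.smul ha
  unfold sol
  exact (continuous_apply y).comp (hinv.matrix_mulVec continuous_const)

lemma nrm_sol_le {N Λ : Finset V} (hN : Steps N) {v : V → ℝ} {z : ℂ} (hz : 0 < z.im)
    (b : V → ℂ) : nrm (sol N Λ v z b) ≤ nrm b / z.im := by
  rw [le_div_iff₀ hz]
  have h := (isSol_sol (v := v) (Λ := Λ) hN hz b).nsq_le hN hz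
  rw [← nrm_sq, ← nrm_sq, ← mul_pow] at h
  have := (sq_le_sq₀ (mul_nonneg hz.le (nrm_nonneg _)) (nrm_nonneg _)).1 h
  linarith

end Pool.Agent.H989
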