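import Pool.Agent.H989.Num3

/-!
The integral over the energy.
-/

set_option linter.unusedSectionVars false
set_option linter.unusedVariables false

open MeasureTheory ProbabilityTheory Finset
open scoped ComplexConjugate

namespace Pool.Agent.H989

section spectral
variable {V : Type*} [AddCommGroup V] [Fintype V] [DecidableEq V]
variable {N Λ : Finset V} {v : V → ℝ} {z : ℂ}

/-- the hermitian matrix of the operator restricted to the complement of `Λ` -/
def Hm (N Λ : Finset V) (v : V → ℝ) : Matrix V V ℂ := fun x y =>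
  if x ∈ Λ ∨ y ∈ Λ then 0 else (if y - x ∈ N then 1 else 0) + (if x = y then (v x : ℂ) else 0)

lemma Hm_herm (hN : Steps N) (v : V → ℝ) : (Hm N Λ v).IsHermitian := by
  refine Matrix.IsHermitian.ext fun i j => ?_
  have hst : (i - j ∈ N) ↔ (j - i ∈ N) := by
    constructor
    · intro hh; have := hN.neg _ hh; simpa using this
    · intro hh; have := hN.neg _ hh; simpa using this
  unfold Hm
  by_cases h : i ∈ Λ ∨ j ∈ Λ
  · rw [if_pos h, if_pos h.symm]; simp
  · rw [if_neg h, if_neg (fun hh => h hh.symm)]
    by_cases hij : i = j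
    · subst hij
      simp only [if_true]
      split_ifs <;> simp
    · rw [if_neg hij, if_neg (Ne.symm hij)]
      simp only [hst]
      split_ifs <;> simp

lemma Hm_mulVec {f : V → ℂ} (hf : ∀ x ∈ Λ, f x = 0) (x : V) :
    (Hm N Λ v).mulVec f x = if x ∈ Λ then 0 else (v x : ℂ) * f x + nb N f x := by
  by_cases hx : x ∈ Λ
  · rw [if_pos hx]; simp [Matrix.mulVec, dotProduct, Hm, hx]
  · rw [if_neg hx]
    have h1 : ∀ y, Hm N Λ v x y * f y
        = (if y - x ∈ N then f y else 0) + (if x = y then (v x : ℂ) * f y else 0) := by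
      intro y
      by_cases hy : y ∈ Λ
      · simp [hf y hy]
      · simp only [Hm, hx, hy, or_self, if_false, add_mul, ite_mul, one_mul, zero_mul]
    simp only [Matrix.mulVec, dotProduct, h1, Finset.sum_add_distrib]
    rw [Finset.sum_ite_eq univ x (fun y => (v x : ℂ) * f y)]
    simp only [mem_univ, if_true]
    rw [add_comm]
    congr 1
    rw [← Finset.sum_filter]
    unfold nb
    refine Finset.sum_nbij' (fun w => w - x) (fun n => x + n) ?_ ?_ ?_ ?_ ?_
    · intro w hw; simpa using hw
    · intro n hn; simpa using hn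
    · intro w _; simp
    · intro n _; simp
    · intro w _; simp

lemma exists_eig (hN : Steps N) (v : V → ℝ) : ∃ (w : V → V → ℂ) (lam : V → ℝ),
    (∀ f : V → ℂ, ∑ j, ‖∑ x, conj (w j x) * f x‖ ^ 2 = nsq f) ∧
    ∀ (f : V → ℂ) (j : V), ∑ x, conj (w j x) * (Hm N Λ v).mulVec f x
      = lam j * ∑ x, conj (w j x) * f x := by
  have hH := Hm_herm (Λ := Λ) hN v
  refine ⟨fun j x => hH.eigenvectorBasis j x, hH.eigenvalues, fun f => ?_, fun f j => ?_⟩
  · have h1 := hH.eigenvectorBasis.sum_sq_norm_inner_right (WithLp.toLp 2 f)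
    have h2 : nsq f = ‖(WithLp.toLp 2 f : EuclideanSpace ℂ V)‖ ^ 2 := by
      rw [← nrm_sq]; rfl
    rw [h2, ← h1]
    refine Finset.sum_congr rfl fun j _ => ?_
    congr 2
    rw [EuclideanSpace.inner_eq_star_dotProduct]
    unfold dotProduct
    refine Finset.sum_congr rfl fun x _ => ?_
    rw [mul_comm]; rfl
  · have h1 := hH.mulVec_eigenvectorBasis j
    have h2 : ∀ y, ∑ x, conj (hH.eigenvectorBasis j x) * Hm N Λ v x y
        = hH.eigenvalues j * conj (hH.eigenvectorBasis j y) := by
      intro y
      have h3 := congrFun h1 y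
      have h4 := congrArg conj h3
      simp only [Matrix.mulVec, dotProduct, map_sum, map_mul] at h4
      have h5 : conj ((hH.eigenvalues j • ⇑(hH.eigenvectorBasis j)) y)
          = hH.eigenvalues j * conj (hH.eigenvectorBasis j y) := by
        simp
      rw [h5] at h4
      rw [← h4]
      refine Finset.sum_congr rfl fun x _ => ?_
      have h6 := congrFun (congrFun hH x) y
      rw [Matrix.conjTranspose_apply] at h6
      rw [← h6, mul_comm]
      rfl
    calc ∑ x, conj (hH.eigenvectorBasis j x) * (Hm N Λ v).mulVec f x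
        = ∑ y, (∑ x, conj (hH.eigenvectorBasis j x) * Hm N Λ v x y) * f y := by
          simp only [Matrix.mulVec, dotProduct, Finset.mul_sum, Finset.sum_mul]
          rw [Finset.sum_comm]
          refine Finset.sum_congr rfl fun y _ => Finset.sum_congr rfl fun x _ => ?_
          ring
      _ = _ := by
          simp only [h2]
          rw [Finset.mul_sum]
          refine Finset.sum_congr rfl fun y _ => ?_
          ring

/-- the energy `E + i η` -/
noncomputable def en (η E : ℝ) : ℂ := ⟨E, η⟩

lemma en_re (η E : ℝ) : (en η E).re = E := rfl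
lemma en_im (η E : ℝ) : (en η E).im = η := rfl

lemma continuous_en (η : ℝ) : Continuous (en η) := by
  have : en η = fun E : ℝ => (E : ℂ) + (η : ℂ) * Complex.I := by
    funext E; apply Complex.ext <;> simp [en]
  rw [this]
  fun_prop

/-- the integral over the energy of the squared norm of a solution -/
lemma lint_nsq_le (hN : Steps N) {η : ℝ} (hη : 0 < η) (v : V → ℝ) (b : V → ℂ) :
    ∫⁻ E, ENNReal.ofReal (nsq (sol N Λ v (en η E) b)) ≤ ENNReal.ofReal (Real.pi / η * nsq b) := by
  obtain ⟨w, lam, hw1, hw2⟩ := exists_eig (Λ := Λ) hN v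
  set b' : V → ℂ := fun x => if x ∈ Λ then 0 else b x with hb'
  have hform : ∀ E, nsq (sol N Λ v (en η E) b)
      = ∑ j, ‖∑ x, conj (w j x) * b' x‖ ^ 2 * ((1 * E - lam j) ^ 2 + η ^ 2)⁻¹ := by
    intro E
    have him : 0 < (en η E).im := hη
    set f := sol N Λ v (en η E) b with hf
    have hs := isSol_sol (v := v) (Λ := Λ) hN him b
    rw [← hf] at hs
    have e1 : ∀ x, (Hm N Λ v).mulVec f x - (en η E) * f x = b' x := by
      intro x
      rw [Hm_mulVec hs.1]
      simp only [hb']
      by_cases hx : x ∈ Λ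
      · rw [if_pos hx, if_pos hx, hs.1 x hx]; simp
      · rw [if_neg hx, if_neg hx, ← hs.2 x hx]; ring
    rw [← hw1 f]
    refine Finset.sum_congr rfl fun j _ => ?_
    have e2 : ((lam j : ℂ) - en η E) * ∑ x, conj (w j x) * f x = ∑ x, conj (w j x) * b' x := by
      simp only [← e1, mul_sub, Finset.sum_sub_distrib]
      rw [hw2, sub_mul]
      congr 1
      rw [Finset.mul_sum]
      refine Finset.sum_congr rfl fun x _ => ?_
      ring
    have e3 : ‖(lam j : ℂ) - en η E‖ ^ 2 = (1 * E - lam j) ^ 2 + η ^ 2 := by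
      rw [Complex.sq_norm, Complex.normSq_apply]
      simp only [Complex.sub_re, Complex.sub_im, Complex.ofReal_re, Complex.ofReal_im, en]
      ring
    have e4 : 0 < (1 * E - lam j) ^ 2 + η ^ 2 := by positivity
    rw [← e2, norm_mul, mul_pow, e3]
    field_simp
  simp only [hform]
  have hint : ∀ j, Integrable fun E : ℝ => ‖∑ x, conj (w j x) * b' x‖ ^ 2
      * ((1 * E - lam j) ^ 2 + η ^ 2)⁻¹ := fun j =>
    (cauchy_integrable one_pos hη).const_mul _
  rw [← ofReal_integral_eq_lintegral_ofReal (integrable_finset_sum _ fun j _ => hint j)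
    (Filter.Eventually.of_forall fun E => Finset.sum_nonneg fun j _ => by positivity)]
  apply ENNReal.ofReal_le_ofReal
  rw [integral_finsetSum _ fun j _ => hint j]
  have : ∀ j, ∫ E : ℝ, ‖∑ x, conj (w j x) * b' x‖ ^ 2 * ((1 * E - lam j) ^ 2 + η ^ 2)⁻¹
      = ‖∑ x, conj (w j x) * b' x‖ ^ 2 * (Real.pi / (1 * η)) := fun j => by
    rw [integral_const_mul, cauchy_integral one_pos hη]
  simp only [this]
  rw [← Finset.sum_mul, hw1, one_mul, mul_comm]
  have hpi := Real.pi_pos
  gcongr
  refine nsq_mono fun x => ?_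
  simp only [hb']
  split_ifs <;> simp

end spectral

end Pool.Agent.H989
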