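import Pool.Agent.H989.Est3

/-!
The torus `(ℤ/L)^d` and its step sets.
-/

set_option linter.unusedSectionVars false
set_option linter.unusedVariables false

open MeasureTheory ProbabilityTheory Finset

namespace Pool.Agent.H989

/-- the torus -/
abbrev Tor (d L : ℕ) := Fin d → ZMod L

variable {d L : ℕ} [NeZero L]

/-- unit vector -/
def ei (i : Fin d) : Tor d L := Pi.single i 1

/-- the steps in the directions `D` -/
def ND (L : ℕ) [NeZero L] (D : Finset (Fin d)) : Finset (Tor d L) :=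
  D.image (fun i => ei i) ∪ D.image (fun i => -ei i)

lemma mem_ND {D : Finset (Fin d)} {x : Tor d L} :
    x ∈ ND L D ↔ ∃ i ∈ D, x = ei i ∨ x = -ei i := by
  unfold ND
  simp only [Finset.mem_union, Finset.mem_image]
  constructor
  · rintro (⟨i, hi, rfl⟩ | ⟨i, hi, rfl⟩)
    · exact ⟨i, hi, Or.inl rfl⟩
    · exact ⟨i, hi, Or.inr rfl⟩
  · rintro ⟨i, hi, rfl | rfl⟩
    · exact Or.inl ⟨i, hi, rfl⟩
    · exact Or.inr ⟨i, hi, rfl⟩

lemma one_ne (hL : 3 ≤ L) : (1 : ZMod L) ≠ 0 := by
  have : Fact (1 < L) := ⟨by omega⟩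
  exact one_ne_zero

lemma two_ne (hL : 3 ≤ L) : (1 : ZMod L) + 1 ≠ 0 := by
  have h : ((2 : ℕ) : ZMod L) ≠ 0 := by
    rw [Ne, ZMod.natCast_eq_zero_iff]
    intro h
    have := Nat.le_of_dvd (by norm_num) h
    omega
  have e : (1 : ZMod L) + 1 = ((2 : ℕ) : ZMod L) := by push_cast; norm_num
  rw [e]; exact h

lemma neg_one_ne (hL : 3 ≤ L) : (-1 : ZMod L) ≠ 1 := by
  intro h
  apply two_ne hL
  calc (1 : ZMod L) + 1 = 1 - (-1) := by ring
    _ = 0 := by rw [h]; ring

lemma ei_apply (i j : Fin d) : (ei i : Tor d L) j = if j = i then 1 else 0 := by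
  unfold ei; rw [Pi.single_apply]

lemma ei_ne (hL : 3 ≤ L) {i j : Fin d} (hij : i ≠ j) : (ei i : Tor d L) ≠ ei j := by
  intro h
  have := congrFun h i
  rw [ei_apply, ei_apply, if_pos rfl, if_neg hij] at this
  exact one_ne hL this

lemma ei_inj (hL : 3 ≤ L) : Function.Injective (fun i : Fin d => (ei i : Tor d L)) := by
  intro i j h
  by_contra hij
  exact ei_ne hL hij h

lemma ei_ne_neg (hL : 3 ≤ L) (i j : Fin d) : (ei i : Tor d L) ≠ -ei j := by
  intro h
  have := congrFun h i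
  rw [Pi.neg_apply, ei_apply, ei_apply, if_pos rfl] at this
  by_cases hij : i = j
  · rw [if_pos hij] at this; exact neg_one_ne hL this.symm
  · rw [if_neg hij, neg_zero] at this; exact one_ne hL this

lemma ei_ne_zero (hL : 3 ≤ L) (i : Fin d) : (ei i : Tor d L) ≠ 0 := by
  intro h
  have := congrFun h i
  rw [ei_apply, if_pos rfl] at this
  exact one_ne hL this

lemma steps_ND (hL : 3 ≤ L) (D : Finset (Fin d)) : Steps (ND L D) := by
  refine ⟨fun n hn => ?_, fun h => ?_⟩
  · rw [mem_ND] at hn ⊢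
    obtain ⟨i, hi, rfl | rfl⟩ := hn
    · exact ⟨i, hi, Or.inr rfl⟩
    · exact ⟨i, hi, Or.inl (by simp)⟩
  · rw [mem_ND] at h
    obtain ⟨i, hi, h | h⟩ := h
    · exact ei_ne_zero hL i h.symm
    · exact ei_ne_zero hL i (by rw [eq_comm, neg_eq_zero] at h; exact h)

lemma disj_ND (hL : 3 ≤ L) (D : Finset (Fin d)) :
    Disjoint (D.image (fun i => (ei i : Tor d L))) (D.image (fun i => -ei i)) := by
  rw [Finset.disjoint_left]
  intro x hx hx'
  obtain ⟨i, hi, rfl⟩ := Finset.mem_image.1 hx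
  obtain ⟨j, hj, hij⟩ := Finset.mem_image.1 hx'
  exact ei_ne_neg hL i j hij.symm

lemma nb_ND (hL : 3 ≤ L) (D : Finset (Fin d)) (f : Tor d L → ℂ) (x : Tor d L) :
    nb (ND L D) f x = ∑ i ∈ D, (f (x + ei i) + f (x - ei i)) := by
  unfold nb ND
  rw [Finset.sum_union (disj_ND hL D), Finset.sum_image fun a _ b _ h => ei_inj hL h,
    Finset.sum_image fun a _ b _ h => ei_inj hL (neg_injective h), ← Finset.sum_add_distrib]
  simp only [sub_eq_add_neg]

lemma card_ND (hL : 3 ≤ L) (D : Finset (Fin d)) : (ND L D).card = 2 * D.card := by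
  unfold ND
  rw [Finset.card_union_of_disjoint (disj_ND hL D),
    Finset.card_image_of_injective _ (ei_inj hL),
    Finset.card_image_of_injective _ (show Function.Injective fun i : Fin d => -(ei i : Tor d L) from
      fun a b h => ei_inj hL (neg_injective h))]
  ring

lemma card_ND_le (hL : 3 ≤ L) (D : Finset (Fin d)) : ((ND L D).card : ℝ) ≤ 2 * d := by
  rw [card_ND hL]
  have : D.card ≤ d := by simpa using D.card_le_univ
  push_cast
  have : (D.card : ℝ) ≤ d := by exact_mod_cast this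
  linarith

/-- coordinate homomorphism -/
def evi (L : ℕ) (i : Fin d) : Tor d L →+ ZMod L := Pi.evalAddMonoidHom _ i

lemma evi_apply (i : Fin d) (x : Tor d L) : evi L i x = x i := rfl

lemma lay_ND (hL : 3 ≤ L) {D : Finset (Fin d)} {i : Fin d} (hi : i ∈ D) :
    Lay (ND L D) (ND L (D.erase i)) (ei i) (evi L i) where
  s := steps_ND hL D
  s1 := steps_ND hL _
  nbe := fun f x => by
    rw [nb_ND hL, nb_ND hL, ← Finset.add_sum_erase D _ hi, add_comm]
  l1 := fun n hn => by
    rw [mem_ND] at hn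
    obtain ⟨j, hj, h⟩ := hn
    have hji : i ≠ j := (Finset.ne_of_mem_erase hj).symm
    rw [evi_apply]
    rcases h with rfl | rfl
    · rw [ei_apply, if_neg hji]
    · rw [Pi.neg_apply, ei_apply, if_neg hji, neg_zero]
  le := by rw [evi_apply, ei_apply, if_pos rfl]
  h0 := one_ne hL
  h2 := two_ne hL

/-! ### the fourth order trace -/

lemma nb_bx_apply (hL : 3 ≤ L) (D : Finset (Fin d)) (w : Tor d L) :
    nb (ND L D) (bx (ND L D) 0) w = ((ND L D).filter fun n => -(w + n) ∈ ND L D).card := by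
  unfold nb bx
  simp only [zero_sub]
  rw [Finset.sum_boole]

/-- pairs of steps with a given nonzero sum -/
lemma count_le (hL : 3 ≤ L) (D : Finset (Fin d)) {w n₀ : Tor d L} (hn₀ : n₀ ∈ ND L D)
    (hw : -(w + n₀) ∈ ND L D) (hw0 : w ≠ 0) :
    ((ND L D).filter fun n => -(w + n) ∈ ND L D).card ≤ 4 := by
  set m₀ := -(w + n₀) with hm₀
  have hsub : ((ND L D).filter fun n => -(w + n) ∈ ND L D) ⊆ {n₀, -n₀, m₀, -m₀} := by
    intro n hn
    rw [Finset.mem_filter] at hn
    obtain ⟨hn1, hn2⟩ := hn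
    simp only [Finset.mem_insert, Finset.mem_singleton]
    by_contra hcon
    push Not at hcon
    obtain ⟨c1, c2, c3, c4⟩ := hcon
    rw [mem_ND] at hn₀ hw hn1 hn2
    obtain ⟨i, hi, h1⟩ := hn₀
    obtain ⟨j, hj, h2⟩ := hw
    obtain ⟨k, hk, h3⟩ := hn1
    obtain ⟨l, hl, h4⟩ := hn2
    have hki : k ≠ i := by
      rintro rfl
      rcases h1 with h1 | h1 <;> rcases h3 with h3 | h3
      · exact c1 (h3.trans h1.symm)
      · exact c2 (by rw [h3, h1])
      · exact c2 (by rw [h3, h1, neg_neg])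
      · exact c1 (h3.trans h1.symm)
    have hkj : k ≠ j := by
      rintro rfl
      rcases h2 with h2 | h2 <;> rcases h3 with h3 | h3
      · exact c3 (h3.trans h2.symm)
      · exact c4 (by rw [h3, h2])
      · exact c4 (by rw [h3, h2, neg_neg])
      · exact c3 (h3.trans h2.symm)
    -- the coordinate `k` of `w` vanishes
    have hwk : w k = 0 := by
      have e1 : w = -m₀ - n₀ := by rw [hm₀]; abel
      have e2 : m₀ k = 0 := by
        rcases h2 with h2 | h2
        · rw [h2, ei_apply, if_neg hkj]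
        · rw [h2, Pi.neg_apply, ei_apply, if_neg hkj, neg_zero]
      have e3 : n₀ k = 0 := by
        rcases h1 with h1 | h1
        · rw [h1, ei_apply, if_neg hki]
        · rw [h1, Pi.neg_apply, ei_apply, if_neg hki, neg_zero]
      rw [e1, Pi.sub_apply, Pi.neg_apply, e2, e3]; simp
    have hnk : n k ≠ 0 := by
      rcases h3 with h3 | h3
      · rw [h3, ei_apply, if_pos rfl]; exact one_ne hL
      · rw [h3, Pi.neg_apply, ei_apply, if_pos rfl]; exact neg_ne_zero.2 (one_ne hL)
    have h4k : (-(w + n)) k = - n k := by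
      rw [Pi.neg_apply, Pi.add_apply, hwk, zero_add]
    have hlk : l = k := by
      by_contra hlk
      apply hnk
      have : (-(w + n)) k = 0 := by
        rcases h4 with h4 | h4
        · rw [h4, ei_apply, if_neg (Ne.symm hlk)]
        · rw [h4, Pi.neg_apply, ei_apply, if_neg (Ne.symm hlk), neg_zero]
      rw [h4k] at this
      exact neg_eq_zero.1 this
    subst hlk
    apply hw0
    have h5 : -(w + n) = -n := by
      rcases h4 with h4 | h4
      · rcases h3 with h3 | h3
        · exfalso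
          rw [h4, h3, ei_apply, if_pos rfl] at h4k
          exact neg_one_ne hL h4k.symm
        · rw [h4, h3, neg_neg]
      · rcases h3 with h3 | h3
        · rw [h4, h3]
        · exfalso
          rw [h4, h3, Pi.neg_apply, ei_apply, if_pos rfl, neg_neg] at h4k
          exact neg_one_ne hL h4k
    have h6 : w + n = n := neg_injective h5
    simpa using h6
  exact (Finset.card_le_card hsub).trans (Finset.card_le_four)

lemma nsq_nb_bx_le (hL : 3 ≤ L) (D : Finset (Fin d)) :
    nsq (nb (ND L D) (bx (ND L D) 0)) ≤ 5 * (2 * d : ℝ) ^ 2 := by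
  set N := ND L D with hN
  have hK := card_ND_le (L := L) hL D
  rw [← hN] at hK
  set c : Tor d L → ℝ := fun w => ((N.filter fun n => -(w + n) ∈ N).card : ℝ) with hc
  have h1 : nsq (nb N (bx N 0)) = ∑ w, c w ^ 2 := by
    unfold nsq
    refine Finset.sum_congr rfl fun w _ => ?_
    rw [nb_bx_apply hL, Complex.norm_natCast]
  have h2 : ∀ w, c w = ∑ n ∈ N, if -(w + n) ∈ N then (1:ℝ) else 0 := fun w => by
    rw [Finset.sum_boole]
  have hsum : ∑ w, c w = (N.card : ℝ) ^ 2 := by
    simp only [h2]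
    rw [Finset.sum_comm]
    have : ∀ n ∈ N, ∑ w, (if -(w + n) ∈ N then (1:ℝ) else 0) = N.card := by
      intro n _
      rw [Finset.sum_boole]
      congr 1
      refine Finset.card_nbij' (fun w => -(w + n)) (fun m => -m - n) ?_ ?_ ?_ ?_
      · intro w hw; simpa using hw
      · intro m hm; simpa using hm
      · intro w _; simp
      · intro m _; simp
    rw [Finset.sum_congr rfl this, Finset.sum_const, nsmul_eq_mul]; ring
  have hc0 : ∀ w, 0 ≤ c w := fun w => Nat.cast_nonneg _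
  have hcle : ∀ w, c w ≤ N.card := fun w => by
    simp only [hc]; exact_mod_cast Finset.card_filter_le _ _
  have h3 : ∀ w, w ≠ 0 → c w ^ 2 ≤ 4 * c w := by
    intro w hw
    rcases Finset.eq_empty_or_nonempty (N.filter fun n => -(w + n) ∈ N) with he | hne
    · have h0 : c w = 0 := by simp only [hc]; rw [he]; simp
      rw [h0]; norm_num
    · obtain ⟨n₀, hn₀⟩ := hne
      rw [Finset.mem_filter] at hn₀
      have h4 := count_le hL D hn₀.1 hn₀.2 hw
      have h5 : c w ≤ 4 := by simp only [hc]; exact_mod_cast h4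
      nlinarith [hc0 w]
  rw [h1]
  have hK0 : (0:ℝ) ≤ N.card := Nat.cast_nonneg _
  calc ∑ w, c w ^ 2 = c 0 ^ 2 + ∑ w ∈ univ.erase (0 : Tor d L), c w ^ 2 :=
        (Finset.add_sum_erase univ (fun w => c w ^ 2) (mem_univ 0)).symm
    _ ≤ (N.card : ℝ) ^ 2 + ∑ w ∈ univ.erase (0 : Tor d L), 4 * c w :=
        add_le_add (pow_le_pow_left₀ (hc0 0) (hcle 0) 2)
          (Finset.sum_le_sum fun w hw => h3 w (Finset.ne_of_mem_erase hw))
    _ ≤ (N.card : ℝ) ^ 2 + ∑ w, 4 * c w := by
        refine add_le_add le_rfl ?_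
        refine Finset.sum_le_sum_of_subset_of_nonneg (Finset.erase_subset _ _) fun w _ _ => ?_
        have := hc0 w; positivity
    _ = 5 * (N.card : ℝ) ^ 2 := by rw [← Finset.mul_sum, hsum]; ring
    _ ≤ 5 * (2 * d : ℝ) ^ 2 := by gcongr

/-! ### permutations of the coordinates -/

/-- permutation of the coordinates -/
def permE (π : Equiv.Perm (Fin d)) : Tor d L ≃ Tor d L where
  toFun x := fun i => x (π i)
  invFun x := fun i => x (π.symm i)
  left_inv x := by funext i; simp
  right_inv x := by funext i; simp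

lemma permE_add (π : Equiv.Perm (Fin d)) (x y : Tor d L) :
    permE π (x + y) = permE π x + permE π y := rfl

lemma permE_neg (π : Equiv.Perm (Fin d)) (x : Tor d L) : permE π (-x) = -permE π x := rfl

lemma permE_zero (π : Equiv.Perm (Fin d)) : permE π (0 : Tor d L) = 0 := rfl

lemma permE_ei (π : Equiv.Perm (Fin d)) (i : Fin d) :
    permE π (ei i : Tor d L) = ei (π.symm i) := by
  funext j
  change (ei i : Tor d L) (π j) = _
  rw [ei_apply, ei_apply]
  congr 1
  rw [eq_iff_iff]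
  exact ⟨fun h => by rw [← h]; simp, fun h => by rw [h]; simp⟩

lemma permE_mem (π : Equiv.Perm (Fin d)) {D D' : Finset (Fin d)}
    (hD : ∀ i, i ∈ D' ↔ π.symm i ∈ D) (x : Tor d L) :
    permE π x ∈ ND L D ↔ x ∈ ND L D' := by
  rw [mem_ND, mem_ND]
  constructor
  · rintro ⟨i, hi, h⟩
    refine ⟨π i, (hD _).2 (by simpa using hi), ?_⟩
    rcases h with h | h
    · left
      apply (permE π).injective
      rw [h, permE_ei]; simp
    · right
      apply (permE π).injective
      rw [h, permE_neg, permE_ei]; simp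
  · rintro ⟨i, hi, h⟩
    refine ⟨π.symm i, (hD i).1 hi, ?_⟩
    rcases h with h | h
    · left; rw [h, permE_ei]
    · right; rw [h, permE_neg, permE_ei]

lemma nb_permE (hL : 3 ≤ L) (π : Equiv.Perm (Fin d)) {D D' : Finset (Fin d)}
    (hD : ∀ i, i ∈ D' ↔ π.symm i ∈ D) (f : Tor d L → ℂ) (x : Tor d L) :
    nb (ND L D') (fun y => f (permE π y)) x = nb (ND L D) f (permE π x) := by
  unfold nb
  refine Finset.sum_nbij' (fun n => permE π n) (fun n => (permE π).symm n) ?_ ?_ ?_ ?_ ?_
  · intro n hn; exact (permE_mem π hD n).2 hn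
  · intro n hn
    rw [← permE_mem π hD]; simpa using hn
  · intro n _; simp
  · intro n _; simp
  · intro n _; beta_reduce; rw [permE_add]

lemma bx_permE (π : Equiv.Perm (Fin d)) {D D' : Finset (Fin d)}
    (hD : ∀ i, i ∈ D' ↔ π.symm i ∈ D) (x : Tor d L) :
    bx (ND L D) 0 (permE π x) = bx (ND L D') 0 x := by
  unfold bx
  have : (0 - permE π x ∈ ND L D) ↔ (0 - x ∈ ND L D') := by
    rw [zero_sub, zero_sub, ← permE_neg]; exact permE_mem π hD _
  simp only [this]

lemma nsq_permE (π : Equiv.Perm (Fin d)) (f : Tor d L → ℂ) :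
    nsq (fun x => f (permE π x)) = nsq f := by
  unfold nsq
  exact Equiv.sum_comp (permE π) (fun x => ‖f x‖ ^ 2)

variable {σ : ℝ} {z : ℂ}

lemma E_perm (hL : 3 ≤ L) (hz : 0 < z.im) (π : Equiv.Perm (Fin d)) {D D' : Finset (Fin d)}
    (hD : ∀ i, i ∈ D' ↔ π.symm i ∈ D) {Λ : Finset (Tor d L)} (hΛ : ∀ x, x ∈ Λ ↔ permE π x ∈ Λ)
    {b b' : Tor d L → ℂ} (hb : ∀ x, b (permE π x) = b' x) :
    ∫ ξ, nsq (sol (ND L D) Λ (pot σ ξ) z b) ∂(PP (Tor d L))
      = ∫ ξ, nsq (sol (ND L D') Λ (pot σ ξ) z b') ∂(PP (Tor d L)) := by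
  rw [← integral_comp_equiv (permE π) (nice_nsq (steps_ND hL D') hz b')]
  refine integral_congr_ae (Filter.Eventually.of_forall fun ξ => ?_)
  simp only
  rw [← nsq_permE π]
  congr 1
  funext x
  have := sol_comp (v := pot σ ξ) (Λ := Λ) (Λ' := Λ) (steps_ND hL D) (steps_ND hL D') hz b
    (permE π) (nb_permE hL π hD) hΛ x
  rw [← this]
  congr 1
  funext y
  exact hb y

lemma B₁_perm (hL : 3 ≤ L) (hz : 0 < z.im) (π : Equiv.Perm (Fin d)) {D D' : Finset (Fin d)}
    (hD : ∀ i, i ∈ D' ↔ π.symm i ∈ D) : B₁ (ND L D) σ z = B₁ (ND L D') σ z :=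
  E_perm hL hz π hD (by simp) (bx_permE π hD)

lemma B₂_perm (hL : 3 ≤ L) (hz : 0 < z.im) (π : Equiv.Perm (Fin d)) {D D' : Finset (Fin d)}
    (hD : ∀ i, i ∈ D' ↔ π.symm i ∈ D) : B₂ (ND L D) σ z = B₂ (ND L D') σ z := by
  refine E_perm hL hz π hD (fun x => ?_) (bx_permE π hD)
  simp only [Finset.mem_singleton]
  constructor
  · intro h; rw [h]; rfl
  · intro h; apply (permE π).injective; rw [h]; rfl

lemma B₃_perm (hL : 3 ≤ L) (hz : 0 < z.im) (π : Equiv.Perm (Fin d)) {D D' : Finset (Fin d)}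
    (hD : ∀ i, i ∈ D' ↔ π.symm i ∈ D) : B₃ (ND L D) σ z = B₃ (ND L D') σ z := by
  refine E_perm hL hz π hD (by simp) fun x => ?_
  rw [← nb_permE hL π hD]
  congr 1
  funext y
  exact bx_permE π hD y

end Pool.Agent.H989
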