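import Pool.Agent.H989.Close
import Pool.Agent.H989.Torus

/-!
The second moment over the directions, at a fixed energy.
-/

set_option linter.unusedSectionVars false
set_option linter.unusedVariables false

open MeasureTheory ProbabilityTheory Finset

namespace Pool.Agent.H989

lemma measurable_rho (σ s : ℝ) : Measurable (rho σ s) := by
  unfold rho
  have : Measurable fun p : ℂ × ℝ => hfun s (((den σ p.1 p.2)⁻¹).im) := by
    refine (continuous_hfun s).measurable.comp (Complex.measurable_im.comp (Measurable.inv ?_))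
    unfold den
    fun_prop
  exact this.stronglyMeasurable.integral_prod_right'.measurable

section general
variable {V : Type*} [AddCommGroup V] [Fintype V] [DecidableEq V] {σ s : ℝ} {z : ℂ}

lemma nice_rho (hσ : 0 < σ) (hs : 0 < s) (hz : 0 < z.im) {F : (V → ℝ) → ℂ} (hF : Nice F)
    (hF0 : ∀ ξ, 0 ≤ (F ξ).im) : Nice fun ξ => rho σ s (z + F ξ) := by
  refine ⟨(measurable_rho σ s).comp (measurable_const.add hF.1), 1 / (σ * s ^ 2), fun ξ => ?_⟩
  rw [Real.norm_eq_abs, abs_of_nonneg (rho_nonneg _ _ _)]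
  refine rho_le hσ hs ?_
  rw [Complex.add_im]; linarith [hF0 ξ]

lemma nice_ind {S : Set (V → ℝ)} (hS : MeasurableSet S) (c : ℝ) :
    Nice (S.indicator fun _ => c) := by
  refine ⟨measurable_const.indicator hS, |c|, fun ξ => ?_⟩
  by_cases h : ξ ∈ S
  · rw [Set.indicator_of_mem h, Real.norm_eq_abs]
  · rw [Set.indicator_of_notMem h]; simp

lemma E_ind {S : Set (V → ℝ)} (hS : MeasurableSet S) (c : ℝ) :
    ∫ ξ, S.indicator (fun _ => c) ξ ∂(PP V) = c * (PP V).real S := by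
  rw [integral_indicator hS, setIntegral_const, smul_eq_mul, mul_comm]

/-- comparison of mean rates -/
lemma rho_close (hσ : 0 < σ) (hs : 0 < s) (hz : 0 < z.im) {F F' : (V → ℝ) → ℂ}
    (hF : Nice F) (hF' : Nice F') (hF0 : ∀ ξ, 0 ≤ (F ξ).im) (hF0' : ∀ ξ, 0 ≤ (F' ξ).im)
    {δ π : ℝ} (hδ : 0 ≤ δ) (h : (PP V).real {ξ | δ < ‖F ξ - F' ξ‖} ≤ π) :
    ∫ ξ, |rho σ s (z + F ξ) - rho σ s (z + F' ξ)| ∂(PP V)
      ≤ (2 * δ / z.im + π) * (1 / (σ * s ^ 2)) := by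
  have hm : MeasurableSet {ξ | δ < ‖F ξ - F' ξ‖} :=
    measurableSet_lt measurable_const (hF.1.sub hF'.1).norm
  have n1 := nice_rho hσ hs hz hF hF0
  have n2 := nice_rho hσ hs hz hF' hF0'
  have habs : Nice fun ξ => |rho σ s (z + F ξ) - rho σ s (z + F' ξ)| := by
    obtain ⟨h1, C, hC⟩ := n1.sub n2
    refine ⟨h1.abs, C, fun ξ => ?_⟩
    have := hC ξ
    rw [Real.norm_eq_abs] at this ⊢
    rwa [abs_abs]
  have hni := nice_ind hm (1 / (σ * s ^ 2))
  calc ∫ ξ, |rho σ s (z + F ξ) - rho σ s (z + F' ξ)| ∂(PP V)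
      ≤ ∫ ξ, (2 * δ / z.im * (1 / (σ * s ^ 2))
        + {ξ | δ < ‖F ξ - F' ξ‖}.indicator (fun _ => 1 / (σ * s ^ 2)) ξ) ∂(PP V) := by
        refine integral_mono habs.integrable ((Nice.const _).add hni).integrable fun ξ => ?_
        simp only
        have i1 : z.im ≤ (z + F ξ).im := by rw [Complex.add_im]; linarith [hF0 ξ]
        have i2 : z.im ≤ (z + F' ξ).im := by rw [Complex.add_im]; linarith [hF0' ξ]
        by_cases hξ : δ < ‖F ξ - F' ξ‖
        · rw [Set.indicator_of_mem (show ξ ∈ {ξ | δ < ‖F ξ - F' ξ‖} from hξ)]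
          have a1 := rho_le (s := s) hσ hs (hz.trans_le i1)
          have a2 := rho_le (s := s) hσ hs (hz.trans_le i2)
          have a3 := rho_nonneg σ s (z + F ξ)
          have a4 := rho_nonneg σ s (z + F' ξ)
          have a5 : 0 ≤ 2 * δ / z.im * (1 / (σ * s ^ 2)) := by positivity
          have : |rho σ s (z + F ξ) - rho σ s (z + F' ξ)| ≤ 1 / (σ * s ^ 2) := by
            rw [abs_le]; constructor <;> linarith
          linarith
        · rw [Set.indicator_of_notMem (show ξ ∉ {ξ | δ < ‖F ξ - F' ξ‖} from hξ), add_zero]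
          refine (rho_lip hσ hs hz i1 i2).trans ?_
          have e1 : z + F ξ - (z + F' ξ) = F ξ - F' ξ := by ring
          rw [e1]
          push Not at hξ
          calc 2 / (σ * z.im * s ^ 2) * ‖F ξ - F' ξ‖ ≤ 2 / (σ * z.im * s ^ 2) * δ := by gcongr
            _ = _ := by field_simp
    _ = 2 * δ / z.im * (1 / (σ * s ^ 2))
        + 1 / (σ * s ^ 2) * (PP V).real {ξ | δ < ‖F ξ - F' ξ‖} := by
        rw [integral_add (integrable_const _) hni.integrable, E_ind hm]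
        simp
    _ ≤ 2 * δ / z.im * (1 / (σ * s ^ 2)) + 1 / (σ * s ^ 2) * π := by gcongr
    _ = _ := by ring

/-- decorrelation -/
lemma decor (hσ : 0 < σ) (hs : 0 < s) (hz : 0 < z.im) {F G F' G' : (V → ℝ) → ℂ}
    (hF : Nice F) (hF' : Nice F') (hG : Nice G) (hG' : Nice G')
    (hF0 : ∀ ξ, 0 ≤ (F ξ).im) (hF0' : ∀ ξ, 0 ≤ (F' ξ).im)
    (hG0 : ∀ ξ, 0 ≤ (G ξ).im) (hG0' : ∀ ξ, 0 ≤ (G' ξ).im)
    {δ π : ℝ} (hδ : 0 ≤ δ) (h1 : (PP V).real {ξ | δ < ‖F ξ - F' ξ‖} ≤ π)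
    (h2 : (PP V).real {ξ | δ < ‖G ξ - G' ξ‖} ≤ π) {S T : Finset V} (hST : Disjoint S T)
    (hS : DepOn S F') (hT : DepOn T G') :
    ∫ ξ, rho σ s (z + F ξ) * rho σ s (z + G ξ) ∂(PP V)
      ≤ (∫ ξ, rho σ s (z + F ξ) ∂(PP V)) * (∫ ξ, rho σ s (z + G ξ) ∂(PP V))
        + 4 * (2 * δ / z.im + π) * (1 / (σ * s ^ 2)) ^ 2 := by
  set ρ₀ := 1 / (σ * s ^ 2) with hρ₀
  set κ := 2 * δ / z.im + π with hκ
  have hρ0 : 0 < ρ₀ := by positivity
  have n1 := nice_rho hσ hs hz hF hF0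
  have n2 := nice_rho hσ hs hz hF' hF0'
  have n3 := nice_rho hσ hs hz hG hG0
  have n4 := nice_rho hσ hs hz hG' hG0'
  have habs : ∀ {f g : (V → ℝ) → ℝ}, Nice f → Nice g → Nice fun ξ => |f ξ - g ξ| := by
    intro f g hf hg
    obtain ⟨h1, C, hC⟩ := hf.sub hg
    refine ⟨h1.abs, C, fun ξ => ?_⟩
    have := hC ξ
    rw [Real.norm_eq_abs] at this ⊢
    rwa [abs_abs]
  have c1 := rho_close hσ hs hz hF hF' hF0 hF0' hδ h1
  have c2 := rho_close hσ hs hz hG hG' hG0 hG0' hδ h2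
  rw [← hρ₀, ← hκ] at c1 c2
  have le1 : ∀ {F : (V → ℝ) → ℂ}, (∀ ξ, 0 ≤ (F ξ).im) → ∀ ξ, rho σ s (z + F ξ) ≤ ρ₀ := by
    intro F hF0 ξ
    refine rho_le hσ hs ?_
    rw [Complex.add_im]; linarith [hF0 ξ]
  have ind := integral_mul_of_indep hST n2 n4
    (fun ξ ξ' h => by simp only [hS ξ ξ' h]) (fun ξ ξ' h => by simp only [hT ξ ξ' h])
  have s1 : ∫ ξ, rho σ s (z + F ξ) * rho σ s (z + G ξ) ∂(PP V)
      ≤ (∫ ξ, rho σ s (z + F' ξ) ∂(PP V)) * (∫ ξ, rho σ s (z + G' ξ) ∂(PP V))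
        + 2 * κ * ρ₀ ^ 2 := by
    calc ∫ ξ, rho σ s (z + F ξ) * rho σ s (z + G ξ) ∂(PP V)
        ≤ ∫ ξ, (rho σ s (z + F' ξ) * rho σ s (z + G' ξ)
          + (ρ₀ * |rho σ s (z + F ξ) - rho σ s (z + F' ξ)|
            + ρ₀ * |rho σ s (z + G ξ) - rho σ s (z + G' ξ)|)) ∂(PP V) := by
          refine integral_mono (n1.mul n3).integrable
            ((n2.mul n4).add (((habs n1 n2).const_mul _).add
              ((habs n3 n4).const_mul _))).integrable fun ξ => ?_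
          simp only
          set a := rho σ s (z + F ξ)
          set b := rho σ s (z + G ξ)
          set a' := rho σ s (z + F' ξ)
          set b' := rho σ s (z + G' ξ)
          have ha : 0 ≤ a := rho_nonneg _ _ _
          have hb : 0 ≤ b := rho_nonneg _ _ _
          have ha' : 0 ≤ a' := rho_nonneg _ _ _
          have hbρ : b ≤ ρ₀ := le1 hG0 ξ
          have haρ : a' ≤ ρ₀ := le1 hF0' ξ
          have e1 : a * b = a' * b' + ((a - a') * b + a' * (b - b')) := by ring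
          rw [e1]
          have e2 : (a - a') * b ≤ ρ₀ * |a - a'| := by
            calc (a - a') * b ≤ |a - a'| * b := by gcongr; exact le_abs_self _
              _ ≤ |a - a'| * ρ₀ := by gcongr
              _ = _ := mul_comm _ _
          have e3 : a' * (b - b') ≤ ρ₀ * |b - b'| := by
            calc a' * (b - b') ≤ a' * |b - b'| := by gcongr; exact le_abs_self _
              _ ≤ ρ₀ * |b - b'| := by gcongr
          linarith
      _ = (∫ ξ, rho σ s (z + F' ξ) ∂(PP V)) * (∫ ξ, rho σ s (z + G' ξ) ∂(PP V))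
          + (ρ₀ * ∫ ξ, |rho σ s (z + F ξ) - rho σ s (z + F' ξ)| ∂(PP V)
            + ρ₀ * ∫ ξ, |rho σ s (z + G ξ) - rho σ s (z + G' ξ)| ∂(PP V)) := by
          rw [integral_add (n2.mul n4).integrable (((habs n1 n2).const_mul _).add
              ((habs n3 n4).const_mul _)).integrable,
            integral_add ((habs n1 n2).const_mul _).integrable
              ((habs n3 n4).const_mul _).integrable,
            integral_const_mul, integral_const_mul, ind]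
      _ ≤ (∫ ξ, rho σ s (z + F' ξ) ∂(PP V)) * (∫ ξ, rho σ s (z + G' ξ) ∂(PP V))
          + (ρ₀ * (κ * ρ₀) + ρ₀ * (κ * ρ₀)) := by gcongr
      _ = _ := by ring
  have s2 : ∫ ξ, rho σ s (z + F' ξ) ∂(PP V) ≤ ∫ ξ, rho σ s (z + F ξ) ∂(PP V) + κ * ρ₀ := by
    have : ∫ ξ, rho σ s (z + F' ξ) ∂(PP V)
        ≤ ∫ ξ, (rho σ s (z + F ξ) + |rho σ s (z + F ξ) - rho σ s (z + F' ξ)|) ∂(PP V) := by
      refine integral_mono n2.integrable (n1.add (habs n1 n2)).integrable fun ξ => ?_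
      simp only
      have := neg_abs_le (rho σ s (z + F ξ) - rho σ s (z + F' ξ))
      linarith
    rw [integral_add n1.integrable (habs n1 n2).integrable] at this
    linarith
  have s3 : ∫ ξ, rho σ s (z + G' ξ) ∂(PP V) ≤ ∫ ξ, rho σ s (z + G ξ) ∂(PP V) + κ * ρ₀ := by
    have : ∫ ξ, rho σ s (z + G' ξ) ∂(PP V)
        ≤ ∫ ξ, (rho σ s (z + G ξ) + |rho σ s (z + G ξ) - rho σ s (z + G' ξ)|) ∂(PP V) := by
      refine integral_mono n4.integrable (n3.add (habs n3 n4)).integrable fun ξ => ?_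
      simp only
      have := neg_abs_le (rho σ s (z + G ξ) - rho σ s (z + G' ξ))
      linarith
    rw [integral_add n3.integrable (habs n3 n4).integrable] at this
    linarith
  have bd : ∀ {F : (V → ℝ) → ℂ}, Nice (fun ξ => rho σ s (z + F ξ)) → (∀ ξ, 0 ≤ (F ξ).im) →
      ∫ ξ, rho σ s (z + F ξ) ∂(PP V) ≤ ρ₀ := by
    intro F hn hF0
    calc ∫ ξ, rho σ s (z + F ξ) ∂(PP V) ≤ ∫ ξ : V → ℝ, ρ₀ ∂(PP V) :=
          integral_mono hn.integrable (integrable_const _) (le1 hF0)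
      _ = ρ₀ := by simp
  have hκ0 : 0 ≤ κ := by
    have : 0 ≤ π := measureReal_nonneg.trans h1
    have : 0 ≤ 2 * δ / z.im := by positivity
    linarith
  set a := ∫ ξ, rho σ s (z + F ξ) ∂(PP V) with ha
  set a' := ∫ ξ, rho σ s (z + F' ξ) ∂(PP V) with ha'
  set b := ∫ ξ, rho σ s (z + G ξ) ∂(PP V) with hb
  set b' := ∫ ξ, rho σ s (z + G' ξ) ∂(PP V) with hb'
  have a0 : 0 ≤ a := integral_nonneg fun _ => rho_nonneg _ _ _
  have b0' : 0 ≤ b' := integral_nonneg fun _ => rho_nonneg _ _ _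
  have aρ : a ≤ ρ₀ := bd n1 hF0
  have bρ : b' ≤ ρ₀ := bd n4 hG0'
  have s4 : a' * b' ≤ a * b + 2 * κ * ρ₀ ^ 2 := by
    calc a' * b' ≤ (a + κ * ρ₀) * b' := by gcongr
      _ = a * b' + κ * ρ₀ * b' := by ring
      _ ≤ a * (b + κ * ρ₀) + κ * ρ₀ * ρ₀ := by gcongr
      _ = a * b + a * (κ * ρ₀) + κ * ρ₀ * ρ₀ := by ring
      _ ≤ a * b + ρ₀ * (κ * ρ₀) + κ * ρ₀ * ρ₀ := by gcongr
      _ = _ := by ring
  linarith

/-- integration over one coordinate in a product -/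
lemma resample_mul (x : V) {H r Φ : (V → ℝ) → ℝ} (hH : Nice H) (hΦ : Nice Φ)
    (hu : ∀ ξ t, Φ (Function.update ξ x t) = Φ ξ)
    (hr : ∀ ξ, ∫ t, H (Function.update ξ x t) ∂γ = r ξ) :
    ∫ ξ, H ξ * Φ ξ ∂(PP V) = ∫ ξ, r ξ * Φ ξ ∂(PP V) := by
  rw [integral_resample x (hH.mul hΦ)]
  refine integral_congr_ae (Filter.Eventually.of_forall fun ξ => ?_)
  simp only [hu]
  rw [integral_mul_const, hr]

/-- second moment method -/
lemma paley {ι : Type*} [DecidableEq ι] (I : Finset ι) (H : ι → (V → ℝ) → ℝ) (hH : ∀ i ∈ I, Nice (H i))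
    (h0 : ∀ i ξ, 0 ≤ H i ξ) (h1 : ∀ i ξ, H i ξ ≤ 1) {n e : ℝ} (hn : 0 < n) (he : 0 ≤ e)
    (hsum : ∑ i ∈ I, ∫ ξ, H i ξ ∂(PP V) = n)
    (hij : ∑ i ∈ I, ∑ j ∈ I.filter (· ≠ i), ∫ ξ, H i ξ * H j ξ ∂(PP V) ≤ n ^ 2 + e) :
    n ^ 2 / (n + n ^ 2 + e) ≤ (PP V).real {ξ | ∃ i ∈ I, 0 < H i ξ} := by
  set Z : (V → ℝ) → ℝ := fun ξ => ∑ i ∈ I, H i ξ with hZ
  have nZ : Nice Z := Nice.sum _ hH
  have EZ : ∫ ξ, Z ξ ∂(PP V) = n := by
    rw [← hsum, hZ]; exact integral_finsetSum _ fun i hi => (hH i hi).integrable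
  have EZ2 : ∫ ξ, Z ξ ^ 2 ∂(PP V) ≤ n + n ^ 2 + e := by
    have e1 : ∀ ξ, Z ξ ^ 2 ≤ ∑ i ∈ I, H i ξ + ∑ i ∈ I, ∑ j ∈ I.filter (· ≠ i), H i ξ * H j ξ := by
      intro ξ
      rw [hZ, pow_two, Finset.sum_mul_sum, ← Finset.sum_add_distrib]
      refine Finset.sum_le_sum fun i hi => ?_
      have : ∑ j ∈ I, H i ξ * H j ξ = H i ξ * H i ξ + ∑ j ∈ I.filter (· ≠ i), H i ξ * H j ξ := by
        rw [Finset.filter_ne', Finset.add_sum_erase I (fun j => H i ξ * H j ξ) hi]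
      rw [this]
      have := h0 i ξ
      have := h1 i ξ
      nlinarith
    have nij : Nice fun ξ => ∑ i ∈ I, ∑ j ∈ I.filter (· ≠ i), H i ξ * H j ξ :=
      Nice.sum _ fun i hi => Nice.sum _ fun j hj => (hH i hi).mul (hH j (Finset.mem_filter.1 hj).1)
    calc ∫ ξ, Z ξ ^ 2 ∂(PP V)
        ≤ ∫ ξ, (∑ i ∈ I, H i ξ + ∑ i ∈ I, ∑ j ∈ I.filter (· ≠ i), H i ξ * H j ξ) ∂(PP V) :=
          integral_mono (nZ.pow 2).integrable (nZ.add nij).integrable e1
      _ = n + ∑ i ∈ I, ∑ j ∈ I.filter (· ≠ i), ∫ ξ, H i ξ * H j ξ ∂(PP V) := by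
          rw [integral_add nZ.integrable nij.integrable]
          congr 1
          rw [integral_finsetSum]
          · refine Finset.sum_congr rfl fun i hi => ?_
            rw [integral_finsetSum]
            exact fun j hj => ((hH i hi).mul (hH j (Finset.mem_filter.1 hj).1)).integrable
          · intro i hi
            exact (Nice.sum _ fun j hj =>
              (hH i hi).mul (hH j (Finset.mem_filter.1 hj).1)).integrable
      _ ≤ _ := by linarith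
  set P := {ξ | ∃ i ∈ I, 0 < H i ξ} with hP
  have hPm : MeasurableSet P := by
    have : P = ⋃ i ∈ I, {ξ | 0 < H i ξ} := by ext ξ; simp [hP]
    rw [this]
    exact Finset.measurableSet_biUnion _ fun i hi => measurableSet_lt measurable_const (hH i hi).1
  have hZP : ∀ ξ, ξ ∉ P → Z ξ = 0 := by
    intro ξ hξ
    refine Finset.sum_eq_zero fun i hi => ?_
    have : ¬ 0 < H i ξ := fun h => hξ ⟨i, hi, h⟩
    exact le_antisymm (not_lt.1 this) (h0 i ξ)
  set D := n + n ^ 2 + e with hD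
  have hD0 : 0 < D := by positivity
  have nP := nice_ind hPm (D / n)
  have key : 0 ≤ ∫ ξ, (Z ξ - P.indicator (fun _ => D / n) ξ) ^ 2 ∂(PP V) :=
    integral_nonneg fun _ => sq_nonneg _
  have e2 : ∀ ξ, (Z ξ - P.indicator (fun _ => D / n) ξ) ^ 2
      = Z ξ ^ 2 - 2 * (D / n) * Z ξ + P.indicator (fun _ => (D / n) ^ 2) ξ := by
    intro ξ
    by_cases h : ξ ∈ P
    · rw [Set.indicator_of_mem h, Set.indicator_of_mem h]; ring
    · rw [Set.indicator_of_notMem h, Set.indicator_of_notMem h, hZP ξ h]; ring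
  simp only [e2] at key
  rw [integral_add ((nZ.pow 2).sub (nZ.const_mul _)).integrable (nice_ind hPm _).integrable,
    integral_sub (nZ.pow 2).integrable (nZ.const_mul _).integrable, integral_const_mul, EZ,
    E_ind hPm] at key
  have e3 : 2 * (D / n) * n = 2 * D := by field_simp
  rw [e3] at key
  have e4 : D ≤ (D / n) ^ 2 * (PP V).real P := by linarith
  rw [div_le_iff₀ hD0]
  have e5 : (D / n) ^ 2 = D ^ 2 / n ^ 2 := by rw [div_pow]
  rw [e5, div_mul_eq_mul_div, le_div_iff₀ (by positivity)] at e4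
  have e6 : D * n ^ 2 ≤ D * ((PP V).real P * D) := by nlinarith
  exact le_of_mul_le_mul_left e6 hD0

end general

section torus
variable {d L : ℕ} [NeZero L] {σ s : ℝ} {z : ℂ}

/-- the self energy at `ei i` without the direction `i` -/
noncomputable def Si (i : Fin d) (σ : ℝ) (z : ℂ) (ξ : Tor d L → ℝ) : ℂ :=
  SE (ND L (univ.erase i)) ∅ (pot σ ξ) z (ei i)

/-- the self energy at `ei i` without the directions `i`, `j` -/
noncomputable def Sij (i j : Fin d) (σ : ℝ) (z : ℂ) (ξ : Tor d L → ℝ) : ℂ :=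
  SE (ND L ((univ.erase i).erase j)) ∅ (pot σ ξ) z (ei i)

/-- the cut off contribution -/
noncomputable def Hi (i : Fin d) (σ s : ℝ) (z : ℂ) (ξ : Tor d L → ℝ) : ℝ :=
  hfun s (((den σ (z + Si i σ z ξ) (ξ (ei i)))⁻¹).im)

lemma Hi_nonneg (i : Fin d) (ξ : Tor d L → ℝ) : 0 ≤ Hi i σ s z ξ := hfun_nonneg _ _
lemma Hi_le_one (i : Fin d) (ξ : Tor d L → ℝ) : Hi i σ s z ξ ≤ 1 := hfun_le_one _ _

lemma nice_Si (hL : 3 ≤ L) (hz : 0 < z.im) (i : Fin d) :
    Nice fun ξ : Tor d L → ℝ => Si i σ z ξ := nice_SE (steps_ND hL _) hz _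

lemma nice_Sij (hL : 3 ≤ L) (hz : 0 < z.im) (i j : Fin d) :
    Nice fun ξ : Tor d L → ℝ => Sij i j σ z ξ := nice_SE (steps_ND hL _) hz _

lemma Si_im (hL : 3 ≤ L) (hz : 0 < z.im) (i : Fin d) (ξ : Tor d L → ℝ) :
    0 ≤ (Si i σ z ξ).im := SE_im_nonneg (steps_ND hL _) hz _ _

lemma Sij_im (hL : 3 ≤ L) (hz : 0 < z.im) (i j : Fin d) (ξ : Tor d L → ℝ) :
    0 ≤ (Sij i j σ z ξ).im := SE_im_nonneg (steps_ND hL _) hz _ _

lemma nice_Hi (hL : 3 ≤ L) (hz : 0 < z.im) (i : Fin d) :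
    Nice fun ξ : Tor d L → ℝ => Hi i σ s z ξ := by
  refine ⟨?_, 1, fun ξ => ?_⟩
  · unfold Hi
    refine (continuous_hfun s).measurable.comp (Complex.measurable_im.comp (Measurable.inv ?_))
    unfold den
    have h1 : Measurable fun ξ : Tor d L → ℝ => ((σ * ξ (ei i) : ℝ) : ℂ) := by fun_prop
    exact h1.sub (measurable_const.add (nice_Si hL hz i).1)
  · rw [Real.norm_eq_abs, abs_of_nonneg (Hi_nonneg i ξ)]; exact Hi_le_one i ξ

lemma Si_update_self (hL : 3 ≤ L) (hz : 0 < z.im) (i : Fin d) (ξ : Tor d L → ℝ) (t : ℝ) :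
    Si i σ z (Function.update ξ (ei i) t) = Si i σ z ξ := SE_update (steps_ND hL _) hz _ _ _

/-- the self energy depends only on a layer -/
lemma SE_layer {N N₁ : Finset (Tor d L)} {e x : Tor d L} {ℓ : Tor d L →+ ZMod L}
    (h : Lay N N₁ e ℓ) (hz : 0 < z.im) {v v' : Tor d L → ℝ} (hv : ∀ w, ℓ w = ℓ x → v w = v' w) :
    SE N₁ ∅ v z x = SE N₁ ∅ v' z x := by
  unfold SE
  rw [h.sol_bx_congr hz (v' := v') (Λ' := insert x ∅) (fun w hw _ => hv w hw)
    (fun _ _ => Iff.rfl)]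

lemma Si_update_ne (hL : 3 ≤ L) (hz : 0 < z.im) {i j : Fin d} (hij : i ≠ j) (ξ : Tor d L → ℝ)
    (t : ℝ) : Si i σ z (Function.update ξ (ei j) t) = Si i σ z ξ := by
  unfold Si
  refine SE_layer (lay_ND hL (mem_univ i)) hz fun w hw => ?_
  unfold pot
  rw [Function.update_of_ne]
  rintro rfl
  rw [evi_apply, evi_apply, ei_apply, ei_apply, if_neg hij, if_pos rfl] at hw
  exact one_ne hL hw.symm

lemma Sij_dep (hL : 3 ≤ L) (hz : 0 < z.im) {i j : Fin d} (hij : i ≠ j) :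
    DepOn (univ.filter fun w : Tor d L => w i = 1 ∧ w j = 0) (Sij (L := L) i j σ z) := by
  intro ξ ξ' h
  unfold Sij
  have l1 : Lay (ND L (univ.erase j)) (ND L ((univ.erase i).erase j)) (ei i) (evi L i) := by
    rw [Finset.erase_right_comm]
    exact lay_ND hL (by simp [hij])
  have l2 : Lay (ND L (univ.erase i)) (ND L ((univ.erase i).erase j)) (ei j) (evi L j) :=
    lay_ND hL (by simp [hij.symm])
  set v'' : Tor d L → ℝ := fun w => if w i = 1 then σ * ξ w else σ * ξ' w with hv''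
  have e1 : SE (ND L ((univ.erase i).erase j)) ∅ (pot σ ξ) z (ei i)
      = SE (ND L ((univ.erase i).erase j)) ∅ v'' z (ei i) := by
    refine SE_layer l1 hz fun w hw => ?_
    rw [evi_apply, evi_apply, ei_apply, if_pos rfl] at hw
    simp [hv'', pot, hw]
  have e2 : SE (ND L ((univ.erase i).erase j)) ∅ v'' z (ei i)
      = SE (ND L ((univ.erase i).erase j)) ∅ (pot σ ξ') z (ei i) := by
    refine SE_layer l2 hz fun w hw => ?_
    rw [evi_apply, evi_apply, ei_apply, if_neg hij.symm] at hw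
    simp only [hv'', pot]
    split_ifs with hw1
    · rw [h w (by simp [hw1, hw])]
    · rfl
  rw [e1, e2]

lemma E_Hi (hL : 3 ≤ L) (hz : 0 < z.im) (i : Fin d) :
    ∫ ξ, Hi i σ s z ξ ∂(PP (Tor d L)) = ∫ ξ, rho σ s (z + Si i σ z ξ) ∂(PP (Tor d L)) := by
  rw [integral_resample (ei i) (nice_Hi hL hz i)]
  refine integral_congr_ae (Filter.Eventually.of_forall fun ξ => ?_)
  simp only [Hi, Si_update_self hL hz, Function.update_self]
  rfl

lemma E_Hi_Hj (hL : 3 ≤ L) (hσ : 0 < σ) (hs : 0 < s) (hz : 0 < z.im) {i j : Fin d}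
    (hij : i ≠ j) :
    ∫ ξ, Hi i σ s z ξ * Hi j σ s z ξ ∂(PP (Tor d L))
      = ∫ ξ, rho σ s (z + Si i σ z ξ) * rho σ s (z + Si j σ z ξ) ∂(PP (Tor d L)) := by
  have hne : (ei j : Tor d L) ≠ ei i := ei_ne hL hij.symm
  rw [resample_mul (ei i) (r := fun ξ => rho σ s (z + Si i σ z ξ)) (nice_Hi hL hz i)
    (nice_Hi hL hz j)]
  · have : ∀ ξ : Tor d L → ℝ, rho σ s (z + Si i σ z ξ) * Hi j σ s z ξ
        = Hi j σ s z ξ * rho σ s (z + Si i σ z ξ) := fun ξ => mul_comm _ _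
    simp only [this]
    rw [resample_mul (ei j) (r := fun ξ => rho σ s (z + Si j σ z ξ)) (nice_Hi hL hz j)
      (nice_rho hσ hs hz (nice_Si hL hz i) (Si_im hL hz i))]
    · refine integral_congr_ae (Filter.Eventually.of_forall fun ξ => ?_)
      simp only; ring
    · intro ξ t
      rw [Si_update_ne hL hz hij]
    · intro ξ
      simp only [Hi, Si_update_self hL hz, Function.update_self]
      rfl
  · intro ξ t
    simp only [Hi]
    rw [Si_update_ne hL hz hij.symm, Function.update_of_ne hne]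
  · intro ξ
    simp only [Hi, Si_update_self hL hz, Function.update_self]
    rfl

/-- the mean rate -/
noncomputable def ni (L : ℕ) [NeZero L] (i : Fin d) (σ s : ℝ) (z : ℂ) : ℝ :=
  ∫ ξ, rho σ s (z + SE (ND L (univ.erase i)) ∅ (pot σ ξ) z 0) ∂(PP (Tor d L))

lemma E_rho_Si (hL : 3 ≤ L) (hσ : 0 < σ) (hs : 0 < s) (hz : 0 < z.im) (i : Fin d) :
    ∫ ξ, rho σ s (z + Si i σ z ξ) ∂(PP (Tor d L)) = ni L i σ s z := by
  have hn : Nice fun ξ : Tor d L → ℝ =>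
      rho σ s (z + SE (ND L (univ.erase i)) ∅ (pot σ ξ) z 0) :=
    nice_rho hσ hs hz (nice_SE (steps_ND hL _) hz _)
      (fun ξ => SE_im_nonneg (steps_ND hL _) hz _ _)
  unfold ni
  rw [← E_shift (ei i) hn]
  refine integral_congr_ae (Filter.Eventually.of_forall fun ξ => ?_)
  simp only
  unfold Si
  rw [SE_shift (steps_ND hL _) hz]

/-- on the good event a large contribution gives a large self energy -/
lemma SE_large (hL : 3 ≤ L) (hz : 0 < z.im) (hz1 : z.im ≤ 1) (hs : 0 < s) {δ : ℝ} (hδ0 : 0 ≤ δ)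
    (hδ1 : δ ≤ 1) (hδ : 4 * δ ≤ z.im ^ 2 * s ^ 2) {i : Fin d} {ξ : Tor d L → ℝ}
    (hg : ξ ∈ Good (ND L univ) (ND L (univ.erase i)) (ei i) σ z δ)
    (hH : 0 < Hi i σ s z ξ) : s ^ 2 ≤ (SE (ND L univ) ∅ (pot σ ξ) z 0).im := by
  have lay := lay_ND (L := L) hL (mem_univ i)
  obtain ⟨g1, g2⟩ := hg
  have hx : 2 * s ^ 2 ≤ ((den σ (z + Si i σ z ξ) (ξ (ei i)))⁻¹).im := by
    by_contra hcon
    push Not at hcon
    unfold Hi at hH
    rw [hfun_eq_zero hs hcon.le] at hH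
    exact lt_irrefl _ hH
  have hne : (ei i : Tor d L) ≠ 0 := ei_ne_zero hL i
  have dec := SE_decomp (v := pot σ ξ) (z := z) lay.s hz (x := 0) (y := ei i) hne
  have hb : bx (ND L univ) 0 (ei i : Tor d L) = 1 := by
    unfold bx
    rw [zero_sub, if_pos (mem_ND.2 ⟨i, mem_univ i, Or.inr rfl⟩)]
  have e0 : (SE (ND L univ) ∅ (pot σ ξ) z 0)
      = nb (ND L univ) (sol (ND L univ) {0} (pot σ ξ) z (bx (ND L univ) 0)) 0 := by
    unfold SE; rw [insert_empty_eq]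
  rw [e0, dec, hb, Complex.add_im]
  have i1 : 0 ≤ (nb (ND L univ) (sol (ND L univ) {ei i, 0} (pot σ ξ) z (bx (ND L univ) 0)) 0).im := by
    rw [im_nb_sol lay.s hz]; exact mul_nonneg hz.le (nsq_nonneg _)
  set χ := nb (ND L univ) (sol (ND L univ) {ei i, 0} (pot σ ξ) z (bx (ND L univ) (ei i))) 0 with hχ
  set S' := SE (ND L univ) {0} (pot σ ξ) z (ei i) with hS'
  set S := Si i σ z ξ with hS
  have g2' : ‖S' - S‖ ≤ δ := g2
  have imS' : 0 ≤ S'.im := SE_im_nonneg lay.s hz _ _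
  have imS : 0 ≤ S.im := Si_im hL hz i ξ
  have ed : ((pot σ ξ (ei i) : ℝ) : ℂ) - z - S' = den σ (z + S') (ξ (ei i)) := by
    unfold den pot; ring
  rw [ed]
  have j1 : z.im ≤ (z + S').im := by rw [Complex.add_im]; linarith
  have j2 : z.im ≤ (z + S).im := by rw [Complex.add_im]; linarith
  set D' := den σ (z + S') (ξ (ei i)) with hD'
  set D := den σ (z + S) (ξ (ei i)) with hD
  have hD'0 : D' ≠ 0 := den_ne σ (hz.trans_le j1) _
  have hD0 : D ≠ 0 := den_ne σ (hz.trans_le j2) _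
  have nD' : ‖D'⁻¹‖ ≤ z.im⁻¹ := by
    rw [norm_inv]
    exact inv_anti₀ hz (j1.trans (im_le_norm_den σ (hz.le.trans j1) _))
  have nD : ‖D⁻¹‖ ≤ z.im⁻¹ := by
    rw [norm_inv]
    exact inv_anti₀ hz (j2.trans (im_le_norm_den σ (hz.le.trans j2) _))
  have k1 : ‖D'⁻¹ - D⁻¹‖ ≤ z.im⁻¹ * z.im⁻¹ * δ := by
    have : D'⁻¹ - D⁻¹ = D'⁻¹ * D⁻¹ * (D - D') := by field_simp
    rw [this, norm_mul, norm_mul]
    have e2 : D - D' = S' - S := by rw [hD, hD']; unfold den; ring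
    rw [e2]
    gcongr
  have k2 : ‖(1 - χ) ^ 2 / D' - D⁻¹‖ ≤ z.im⁻¹ * z.im⁻¹ * δ + z.im⁻¹ * (3 * δ) := by
    have : (1 - χ) ^ 2 / D' - D⁻¹ = (D'⁻¹ - D⁻¹) + D'⁻¹ * (χ ^ 2 - 2 * χ) := by
      field_simp; ring
    rw [this]
    refine (norm_add_le _ _).trans (add_le_add k1 ?_)
    rw [norm_mul]
    have : ‖χ ^ 2 - 2 * χ‖ ≤ 3 * δ := by
      calc ‖χ ^ 2 - 2 * χ‖ ≤ ‖χ ^ 2‖ + ‖2 * χ‖ := norm_sub_le _ _
        _ = ‖χ‖ * ‖χ‖ + 2 * ‖χ‖ := by rw [norm_pow, norm_mul]; simp; ring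
        _ ≤ 1 * δ + 2 * δ := by gcongr; exact g1.trans hδ1
        _ = 3 * δ := by ring
    gcongr
  have hzi : 1 ≤ z.im⁻¹ := (one_le_inv₀ hz).2 hz1
  have k3 : z.im⁻¹ * z.im⁻¹ * δ + z.im⁻¹ * (3 * δ) ≤ s ^ 2 := by
    calc z.im⁻¹ * z.im⁻¹ * δ + z.im⁻¹ * (3 * δ)
        = z.im⁻¹ * z.im⁻¹ * δ + z.im⁻¹ * 1 * (3 * δ) := by ring
      _ ≤ z.im⁻¹ * z.im⁻¹ * δ + z.im⁻¹ * z.im⁻¹ * (3 * δ) := by gcongr
      _ = z.im⁻¹ * z.im⁻¹ * (4 * δ) := by ring
      _ ≤ z.im⁻¹ * z.im⁻¹ * (z.im ^ 2 * s ^ 2) := by gcongr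
      _ = s ^ 2 := by field_simp
  have k4 : |((1 - χ) ^ 2 / D' - D⁻¹).im| ≤ s ^ 2 := (Complex.abs_im_le_norm _).trans (k2.trans k3)
  rw [Complex.sub_im] at k4
  have := (abs_le.1 k4).1
  linarith

lemma P_Hi_bad (hL : 3 ≤ L) (hσ : 0 < σ) (hs : 0 < s) (hz : 0 < z.im) {δ π : ℝ} (i : Fin d)
    (hG : (PP (Tor d L)).real (Good (ND L univ) (ND L (univ.erase i)) (ei i) σ z δ)ᶜ ≤ π) :
    (PP (Tor d L)).real ({ξ | 0 < Hi i σ s z ξ}
      ∩ (Good (ND L univ) (ND L (univ.erase i)) (ei i) σ z δ)ᶜ) ≤ 1 / (σ * s ^ 2) * π := by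
  set G := Good (ND L univ) (ND L (univ.erase i)) (ei i) σ z δ with hGdef
  have hGm : MeasurableSet G := measurable_Good (lay_ND hL (mem_univ i)) hz δ
  have hm : MeasurableSet {ξ : Tor d L → ℝ | 0 < Hi i σ s z ξ} :=
    measurableSet_lt measurable_const (nice_Hi hL hz i).1
  have nI : Nice fun ξ : Tor d L → ℝ => ((den σ (z + Si i σ z ξ) (ξ (ei i)))⁻¹).im := by
    refine ⟨?_, z.im⁻¹, fun ξ => ?_⟩
    · refine Complex.measurable_im.comp (Measurable.inv ?_)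
      unfold den
      have h1 : Measurable fun ξ : Tor d L → ℝ => ((σ * ξ (ei i) : ℝ) : ℂ) := by fun_prop
      exact h1.sub (measurable_const.add (nice_Si hL hz i).1)
    · have j2 : z.im ≤ (z + Si i σ z ξ).im := by
        rw [Complex.add_im]; linarith [Si_im (σ := σ) hL hz i ξ]
      rw [Real.norm_eq_abs]
      refine (Complex.abs_im_le_norm _).trans ?_
      rw [norm_inv]
      exact inv_anti₀ hz (j2.trans (im_le_norm_den σ (hz.le.trans j2) _))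
  have nG : Nice (Gᶜ.indicator fun _ => (1:ℝ)) := nice_ind hGm.compl 1
  have upd : ∀ ξ t, Gᶜ.indicator (fun _ => (1:ℝ)) (Function.update ξ (ei i) t)
      = Gᶜ.indicator (fun _ => (1:ℝ)) ξ := by
    intro ξ t
    have := Good_update (lay_ND (L := L) hL (mem_univ i)) hz δ (σ := σ) ξ t
    by_cases h : ξ ∈ Gᶜ
    · have h' : Function.update ξ (ei i) t ∈ Gᶜ := fun hh => h (this.1 hh)
      rw [Set.indicator_of_mem h, Set.indicator_of_mem h']
    · rw [Set.indicator_of_notMem h, Set.indicator_of_notMem]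
      rw [Set.mem_compl_iff, not_not] at h ⊢
      exact this.2 h
  have key : ∫ ξ, ((den σ (z + Si i σ z ξ) (ξ (ei i)))⁻¹).im * Gᶜ.indicator (fun _ => (1:ℝ)) ξ
        ∂(PP (Tor d L)) ≤ 2 / σ * ∫ ξ, Gᶜ.indicator (fun _ => (1:ℝ)) ξ ∂(PP (Tor d L)) := by
    refine E_le_of_resample (ei i) (k := fun ξ t => ((den σ (z + Si i σ z ξ) t)⁻¹).im)
      (nI.mul nG) nG (fun ξ => Set.indicator_nonneg (fun _ _ => zero_le_one) ξ)
      (fun ξ t => ?_) (fun ξ => ?_)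
    · rw [upd, Si_update_self hL hz, Function.update_self]
    · refine int_im_le hσ ?_
      rw [Complex.add_im]; linarith [Si_im (σ := σ) hL hz i ξ]
  rw [E_ind hGm.compl, one_mul] at key
  have e1 : (PP (Tor d L)).real ({ξ | 0 < Hi i σ s z ξ} ∩ Gᶜ)
      = ∫ ξ, ({ξ | 0 < Hi i σ s z ξ} ∩ Gᶜ).indicator (fun _ => (1:ℝ)) ξ ∂(PP (Tor d L)) := by
    rw [E_ind (hm.inter hGm.compl), one_mul]
  rw [e1]
  calc ∫ ξ, ({ξ | 0 < Hi i σ s z ξ} ∩ Gᶜ).indicator (fun _ => (1:ℝ)) ξ ∂(PP (Tor d L))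
      ≤ ∫ ξ, (1 / (2 * s ^ 2)) * (((den σ (z + Si i σ z ξ) (ξ (ei i)))⁻¹).im
        * Gᶜ.indicator (fun _ => (1:ℝ)) ξ) ∂(PP (Tor d L)) := by
        refine integral_mono (nice_ind (hm.inter hGm.compl) 1).integrable
          ((nI.mul nG).const_mul _).integrable fun ξ => ?_
        simp only
        have him : 0 ≤ ((den σ (z + Si i σ z ξ) (ξ (ei i)))⁻¹).im := by
          apply im_inv_den_nonneg
          rw [Complex.add_im]; linarith [Si_im (σ := σ) hL hz i ξ]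
        by_cases h : ξ ∈ {ξ | 0 < Hi i σ s z ξ} ∩ Gᶜ
        · rw [Set.indicator_of_mem h, Set.indicator_of_mem h.2]
          have hH : 0 < Hi i σ s z ξ := h.1
          have hx : 2 * s ^ 2 ≤ ((den σ (z + Si i σ z ξ) (ξ (ei i)))⁻¹).im := by
            by_contra hcon
            push Not at hcon
            unfold Hi at hH
            rw [hfun_eq_zero hs hcon.le] at hH
            exact lt_irrefl _ hH
          rw [mul_one, one_div, ← div_eq_inv_mul, le_div_iff₀ (by positivity)]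
          linarith
        · rw [Set.indicator_of_notMem h]
          have : 0 ≤ Gᶜ.indicator (fun _ => (1:ℝ)) ξ :=
            Set.indicator_nonneg (fun _ _ => zero_le_one) ξ
          positivity
    _ = (1 / (2 * s ^ 2)) * ∫ ξ, (((den σ (z + Si i σ z ξ) (ξ (ei i)))⁻¹).im
        * Gᶜ.indicator (fun _ => (1:ℝ)) ξ) ∂(PP (Tor d L)) := integral_const_mul _ _
    _ ≤ (1 / (2 * s ^ 2)) * (2 / σ * π) := by
        gcongr
        refine key.trans ?_
        gcongr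
    _ = _ := by field_simp

lemma sum_pairs_le {d : ℕ} (a : Fin d → ℝ) (ha : ∀ i, 0 ≤ a i) {c : ℝ} (hc : 0 ≤ c)
    (b : Fin d → Fin d → ℝ) (hb : ∀ i j, j ≠ i → b i j ≤ a i * a j + c) :
    ∑ i ∈ (univ : Finset (Fin d)), ∑ j ∈ univ.filter (· ≠ i), b i j
      ≤ (∑ i, a i) ^ 2 + c * d ^ 2 := by
  calc ∑ i ∈ (univ : Finset (Fin d)), ∑ j ∈ univ.filter (· ≠ i), b i j
      ≤ ∑ i ∈ (univ : Finset (Fin d)), ∑ j ∈ univ.filter (· ≠ i), (a i * a j + c) :=
        Finset.sum_le_sum fun i _ => Finset.sum_le_sum fun j hj => hb i j (Finset.mem_filter.1 hj).2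
    _ ≤ ∑ i ∈ (univ : Finset (Fin d)), ∑ j ∈ (univ : Finset (Fin d)), (a i * a j + c) := by
        refine Finset.sum_le_sum fun i _ => ?_
        refine Finset.sum_le_sum_of_subset_of_nonneg (Finset.filter_subset _ _) fun j _ _ => ?_
        have := ha i
        have := ha j
        positivity
    _ = _ := by
        simp only [Finset.sum_add_distrib, Finset.sum_const, Finset.card_univ, Fintype.card_fin,
          nsmul_eq_mul]
        rw [pow_two (∑ i : Fin d, a i), Finset.sum_mul_sum]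
        ring

/-- the second moment bound at a fixed energy -/
lemma P_ge (hL : 3 ≤ L) (hσ : 0 < σ) (hs : 0 < s) (hz : 0 < z.im) (hz1 : z.im ≤ 1) {δ π : ℝ}
    (hδ0 : 0 ≤ δ) (hδ1 : δ ≤ 1) (hδ : 4 * δ ≤ z.im ^ 2 * s ^ 2)
    (hG : ∀ i : Fin d,
      (PP (Tor d L)).real (Good (ND L univ) (ND L (univ.erase i)) (ei i) σ z δ)ᶜ ≤ π)
    (hS : ∀ i j : Fin d, i ≠ j →
      (PP (Tor d L)).real {ξ | δ < ‖Si i σ z ξ - Sij i j σ z ξ‖} ≤ π)
    {n : ℝ} (hn0 : 0 < n) (hn : ∑ i : Fin d, ni L i σ s z = n) :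
    n ^ 2 / (n + n ^ 2 + 4 * (2 * δ / z.im + π) * (1 / (σ * s ^ 2)) ^ 2 * d ^ 2)
        - d * (1 / (σ * s ^ 2) * π)
      ≤ (PP (Tor d L)).real {ξ | s ^ 2 ≤ (SE (ND L univ) ∅ (pot σ ξ) z 0).im} := by
  classical
  have hd0 : 0 < d := by
    rcases Nat.eq_zero_or_pos d with h | h
    · subst h; simp at hn; exact absurd hn.symm hn0.ne'
    · exact h
  have hπ : 0 ≤ π := measureReal_nonneg.trans (hG ⟨0, hd0⟩)
  set κ := 2 * δ / z.im + π with hκ
  have hκ0 : 0 ≤ κ := by positivity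
  set ρ₀ := 1 / (σ * s ^ 2) with hρ₀
  have hρ0 : 0 < ρ₀ := by positivity
  have hsum : ∑ i ∈ (univ : Finset (Fin d)), ∫ ξ, Hi i σ s z ξ ∂(PP (Tor d L)) = n := by
    rw [← hn]
    refine Finset.sum_congr rfl fun i _ => ?_
    rw [E_Hi hL hz, E_rho_Si hL hσ hs hz]
  have hij : ∑ i ∈ (univ : Finset (Fin d)), ∑ j ∈ univ.filter (· ≠ i),
      ∫ ξ, Hi i σ s z ξ * Hi j σ s z ξ ∂(PP (Tor d L)) ≤ n ^ 2 + 4 * κ * ρ₀ ^ 2 * d ^ 2 := by
    have b : ∀ i j : Fin d, j ≠ i →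
        ∫ ξ, Hi i σ s z ξ * Hi j σ s z ξ ∂(PP (Tor d L))
          ≤ ni L i σ s z * ni L j σ s z + 4 * κ * ρ₀ ^ 2 := by
      intro i j hji
      rw [E_Hi_Hj hL hσ hs hz hji.symm]
      have dj : Disjoint (univ.filter fun w : Tor d L => w i = 1 ∧ w j = 0)
          (univ.filter fun w : Tor d L => w j = 1 ∧ w i = 0) := by
        rw [Finset.disjoint_filter]
        rintro w _ ⟨h1, _⟩ ⟨_, h2⟩
        rw [h1] at h2; exact one_ne hL h2
      have := decor hσ hs hz (nice_Si hL hz i) (nice_Sij hL hz i j) (nice_Si hL hz j)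
        (nice_Sij hL hz j i) (Si_im hL hz i) (Sij_im hL hz i j) (Si_im hL hz j)
        (Sij_im hL hz j i) hδ0 (hS i j hji.symm) (hS j i hji) dj (Sij_dep hL hz hji.symm)
        (Sij_dep hL hz hji)
      rw [E_rho_Si hL hσ hs hz, E_rho_Si hL hσ hs hz] at this
      exact this
    have nn : ∀ i : Fin d, 0 ≤ ni L i σ s z := fun i => integral_nonneg fun _ => rho_nonneg _ _ _
    have := sum_pairs_le (fun i => ni L i σ s z) nn (c := 4 * κ * ρ₀ ^ 2) (by positivity)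
      (fun i j => ∫ ξ, Hi i σ s z ξ * Hi j σ s z ξ ∂(PP (Tor d L))) b
    rw [hn] at this
    exact this
  have pz := paley (V := Tor d L) univ (fun i => Hi i σ s z) (fun i _ => nice_Hi hL hz i)
    (fun i ξ => Hi_nonneg i ξ) (fun i ξ => Hi_le_one i ξ) hn0
    (e := 4 * κ * ρ₀ ^ 2 * d ^ 2) (by positivity) hsum hij
  have hsub : {ξ : Tor d L → ℝ | ∃ i ∈ (univ : Finset (Fin d)), 0 < Hi i σ s z ξ}
      ⊆ {ξ | s ^ 2 ≤ (SE (ND L univ) ∅ (pot σ ξ) z 0).im}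
        ∪ ⋃ i ∈ (univ : Finset (Fin d)), ({ξ | 0 < Hi i σ s z ξ}
          ∩ (Good (ND L univ) (ND L (univ.erase i)) (ei i) σ z δ)ᶜ) := by
    rintro ξ ⟨i, _, hi⟩
    by_cases hg : ξ ∈ Good (ND L univ) (ND L (univ.erase i)) (ei i) σ z δ
    · exact Or.inl (SE_large hL hz hz1 hs hδ0 hδ1 hδ hg hi)
    · right
      simp only [Set.mem_iUnion]
      exact ⟨i, mem_univ i, hi, hg⟩
  have h1 := measureReal_mono (μ := PP (Tor d L)) hsub
  have h2 : (PP (Tor d L)).real (⋃ i ∈ (univ : Finset (Fin d)), ({ξ | 0 < Hi i σ s z ξ}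
          ∩ (Good (ND L univ) (ND L (univ.erase i)) (ei i) σ z δ)ᶜ)) ≤ d * (ρ₀ * π) := by
    refine (measureReal_biUnion_finset_le _ _).trans ?_
    calc ∑ i ∈ (univ : Finset (Fin d)), (PP (Tor d L)).real ({ξ | 0 < Hi i σ s z ξ}
          ∩ (Good (ND L univ) (ND L (univ.erase i)) (ei i) σ z δ)ᶜ)
        ≤ ∑ i ∈ (univ : Finset (Fin d)), ρ₀ * π :=
          Finset.sum_le_sum fun i _ => P_Hi_bad hL hσ hs hz i (hG i)
      _ = d * (ρ₀ * π) := by simp
  have h3 := measureReal_union_le (μ := PP (Tor d L))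
    {ξ | s ^ 2 ≤ (SE (ND L univ) ∅ (pot σ ξ) z 0).im}
    (⋃ i ∈ (univ : Finset (Fin d)), ({ξ | 0 < Hi i σ s z ξ}
          ∩ (Good (ND L univ) (ND L (univ.erase i)) (ei i) σ z δ)ᶜ))
  linarith

end torus

end Pool.Agent.H989
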