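import Mathlib

/-!
Resolvents of discrete Schrödinger operators on a finite abelian group, with sites removed.
-/

set_option linter.unusedSectionVars false
set_option linter.unusedVariables false

open Finset Complex
open scoped ComplexConjugate

namespace Pool.Agent.H989

variable {V : Type*} [AddCommGroup V] [Fintype V] [DecidableEq V]

/-- sum over the neighbours -/
def nb (N : Finset V) (f : V → ℂ) (x : V) : ℂ := ∑ n ∈ N, f (x + n)

/-- square of the `ℓ²` norm -/
noncomputable def nsq (f : V → ℂ) : ℝ := ∑ x, ‖f x‖ ^ 2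

/-- bilinear product -/
def dot (f g : V → ℂ) : ℂ := ∑ x, f x * g x

/-- the neighbours of `x`, as a function -/
def bx (N : Finset V) (x : V) : V → ℂ := fun w => if x - w ∈ N then 1 else 0

/-- admissible sets of steps -/
structure Steps (N : Finset V) : Prop where
  neg : ∀ n ∈ N, -n ∈ N
  zero : (0 : V) ∉ N

lemma nsq_nonneg (f : V → ℂ) : 0 ≤ nsq f := Finset.sum_nonneg fun _ _ => by positivity

lemma nsq_eq_zero {f : V → ℂ} (h : nsq f = 0) : f = 0 := by
  have := (Finset.sum_eq_zero_iff_of_nonneg (fun x _ => by positivity)).1 h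
  funext x
  have := this x (mem_univ x)
  simpa using this

lemma sum_neg_steps {N : Finset V} (hN : Steps N) {M : Type*} [AddCommMonoid M] (F : V → M) :
    ∑ n ∈ N, F (-n) = ∑ n ∈ N, F n :=
  Finset.sum_nbij' (fun n => -n) (fun n => -n) (fun n hn => hN.neg n hn) (fun n hn => hN.neg n hn)
    (fun n _ => neg_neg n) (fun n _ => neg_neg n) (fun n _ => rfl)

lemma dot_nb {N : Finset V} (hN : Steps N) (f g : V → ℂ) : dot f (nb N g) = dot (nb N f) g := by
  unfold dot nb
  calc ∑ x, f x * ∑ n ∈ N, g (x + n) = ∑ n ∈ N, ∑ x, f x * g (x + n) := by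
        rw [Finset.sum_comm]; simp [Finset.mul_sum]
    _ = ∑ n ∈ N, ∑ x, f (x + -n) * g x := by
        refine Finset.sum_congr rfl fun n _ => ?_
        rw [← Equiv.sum_comp (Equiv.addRight n) (fun x => f (x + -n) * g x)]
        simp
    _ = ∑ n ∈ N, ∑ x, f (x + n) * g x := sum_neg_steps hN (fun n => ∑ x, f (x + n) * g x)
    _ = ∑ x, (∑ n ∈ N, f (x + n)) * g x := by
        rw [Finset.sum_comm]; simp [Finset.sum_mul]

lemma nb_eq_dot {N : Finset V} (f : V → ℂ) (x : V) (hN : Steps N) :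
    nb N f x = dot (bx N x) f := by
  unfold nb dot bx
  simp only [ite_mul, one_mul, zero_mul]
  rw [← Finset.sum_filter]
  symm
  refine Finset.sum_nbij' (fun w => w - x) (fun n => x + n) ?_ ?_ ?_ ?_ ?_
  · intro w hw
    simp only [mem_filter, mem_univ, true_and] at hw
    have := hN.neg _ hw
    simpa using this
  · intro n hn
    simp only [mem_filter, mem_univ, true_and]
    have := hN.neg _ hn
    simpa using this
  · intro w _; simp
  · intro n _; simp
  · intro w _; simp

/-- `f` solves `(H - z) f = b` off `Λ` and vanishes on `Λ`. -/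
def IsSol (N Λ : Finset V) (v : V → ℝ) (z : ℂ) (b f : V → ℂ) : Prop :=
  (∀ x ∈ Λ, f x = 0) ∧ ∀ x, x ∉ Λ → ((v x : ℂ) - z) * f x + nb N f x = b x

variable {N Λ : Finset V} {v : V → ℝ} {z : ℂ}

lemma im_dot_conj_nb (hN : Steps N) (f : V → ℂ) :
    (dot (fun x => conj (f x)) (nb N f)).im = 0 := by
  have h : conj (dot (fun x => conj (f x)) (nb N f)) = dot (fun x => conj (f x)) (nb N f) := by
    conv_rhs => rw [dot_nb hN]
    unfold dot nb
    rw [map_sum]
    refine Finset.sum_congr rfl fun x _ => ?_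
    rw [map_mul, map_sum]
    simp [mul_comm]
  exact Complex.conj_eq_iff_im.1 h

lemma IsSol.energy (hN : Steps N) {b f : V → ℂ} (h : IsSol N Λ v z b f) :
    z.im * nsq f = -(∑ x, conj (f x) * b x).im := by
  have h1 : ∑ x, conj (f x) * b x
      = ∑ x, conj (f x) * (((v x : ℂ) - z) * f x) + dot (fun x => conj (f x)) (nb N f) := by
    unfold dot
    rw [← Finset.sum_add_distrib]
    refine Finset.sum_congr rfl fun x _ => ?_
    by_cases hx : x ∈ Λ
    · simp [h.1 x hx]
    · rw [← h.2 x hx]; ring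
  rw [h1, Complex.add_im, im_dot_conj_nb hN, add_zero, Complex.im_sum, ← Finset.sum_neg_distrib,
    nsq, Finset.mul_sum]
  refine Finset.sum_congr rfl fun x _ => ?_
  have : conj (f x) * (((v x : ℂ) - z) * f x) = ((v x : ℂ) - z) * ((‖f x‖ ^ 2 : ℝ) : ℂ) := by
    have := Complex.conj_mul' (f x)
    push_cast
    rw [← this]; ring
  rw [this, Complex.im_mul_ofReal]
  simp

lemma IsSol.sub {b b' f f' : V → ℂ} (h : IsSol N Λ v z b f) (h' : IsSol N Λ v z b' f') :
    IsSol N Λ v z (b - b') (f - f') := by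
  refine ⟨fun x hx => by simp [h.1 x hx, h'.1 x hx], fun x hx => ?_⟩
  have h1 := h.2 x hx
  have h2 := h'.2 x hx
  have h3 : nb N (f - f') x = nb N f x - nb N f' x := by simp [nb, Finset.sum_sub_distrib]
  rw [h3, Pi.sub_apply, Pi.sub_apply, ← h1, ← h2]; ring

lemma IsSol.add {b b' f f' : V → ℂ} (h : IsSol N Λ v z b f) (h' : IsSol N Λ v z b' f') :
    IsSol N Λ v z (b + b') (f + f') := by
  refine ⟨fun x hx => by simp [h.1 x hx, h'.1 x hx], fun x hx => ?_⟩
  have h1 := h.2 x hx
  have h2 := h'.2 x hx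
  have h3 : nb N (f + f') x = nb N f x + nb N f' x := by simp [nb, Finset.sum_add_distrib]
  rw [h3, Pi.add_apply, Pi.add_apply, ← h1, ← h2]; ring

lemma IsSol.smul {b f : V → ℂ} (c : ℂ) (h : IsSol N Λ v z b f) :
    IsSol N Λ v z (c • b) (c • f) := by
  refine ⟨fun x hx => by simp [h.1 x hx], fun x hx => ?_⟩
  have h1 := h.2 x hx
  have h3 : nb N (c • f) x = c * nb N f x := by simp [nb, Finset.mul_sum]
  rw [h3, Pi.smul_apply, Pi.smul_apply, ← h1]; simp; ring

lemma IsSol.unique (hN : Steps N) (hz : 0 < z.im) {b f f' : V → ℂ} (h : IsSol N Λ v z b f)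
    (h' : IsSol N Λ v z b f') : f = f' := by
  have h1 := (h.sub h').energy hN
  have h2 : nsq (f - f') = 0 := by
    have : z.im * nsq (f - f') = 0 := by rw [h1]; simp
    rcases mul_eq_zero.1 this with h | h
    · exact absurd h hz.ne'
    · exact h
  exact sub_eq_zero.1 (nsq_eq_zero h2)

lemma IsSol.nsq_le (hN : Steps N) (hz : 0 < z.im) {b f : V → ℂ} (h : IsSol N Λ v z b f) :
    z.im ^ 2 * nsq f ≤ nsq b := by
  have h1 := h.energy hN
  have h2 : -(∑ x, conj (f x) * b x).im ≤ ‖∑ x, conj (f x) * b x‖ := by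
    have := Complex.abs_im_le_norm (∑ x, conj (f x) * b x)
    exact (neg_le_abs _).trans this
  have h3 : ‖∑ x, conj (f x) * b x‖ ≤ Real.sqrt (nsq f) * Real.sqrt (nsq b) := by
    calc ‖∑ x, conj (f x) * b x‖ ≤ ∑ x, ‖f x‖ * ‖b x‖ := by
          refine (norm_sum_le _ _).trans (Finset.sum_le_sum fun x _ => ?_)
          rw [norm_mul, Complex.norm_conj]
      _ ≤ _ := by
          exact Real.sum_mul_le_sqrt_mul_sqrt _ _ _
  have h4 : z.im * nsq f ≤ Real.sqrt (nsq f) * Real.sqrt (nsq b) := by rw [h1]; exact h2.trans h3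
  have hf := nsq_nonneg f
  have hb := nsq_nonneg b
  have h5 : Real.sqrt (nsq f) * (z.im * Real.sqrt (nsq f)) ≤ Real.sqrt (nsq f) * Real.sqrt (nsq b) := by
    calc Real.sqrt (nsq f) * (z.im * Real.sqrt (nsq f))
        = z.im * (Real.sqrt (nsq f) * Real.sqrt (nsq f)) := by ring
      _ = z.im * nsq f := by rw [Real.mul_self_sqrt hf]
      _ ≤ _ := h4
  by_cases h0 : Real.sqrt (nsq f) = 0
  · have : nsq f = 0 := by
      have := Real.mul_self_sqrt hf
      rw [h0] at this; linarith [this]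
    rw [this]; simpa using hb
  · have hpos : 0 < Real.sqrt (nsq f) := lt_of_le_of_ne (Real.sqrt_nonneg _) (Ne.symm h0)
    have h6 := le_of_mul_le_mul_left h5 hpos
    calc z.im ^ 2 * nsq f = (z.im * Real.sqrt (nsq f)) ^ 2 := by
          rw [mul_pow, Real.sq_sqrt hf]
      _ ≤ (Real.sqrt (nsq b)) ^ 2 := by
          apply pow_le_pow_left₀ _ h6
          positivity
      _ = nsq b := Real.sq_sqrt hb

/-- the matrix of the operator, with the identity on `Λ` -/
def mat (N Λ : Finset V) (v : V → ℝ) (z : ℂ) : Matrix V V ℂ := fun x y =>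
  if x ∈ Λ ∨ y ∈ Λ then (if x = y then 1 else 0)
  else (if y - x ∈ N then 1 else 0) + (if x = y then (v x : ℂ) - z else 0)

lemma mat_mulVec_of_mem {x : V} (hx : x ∈ Λ) (f : V → ℂ) : (mat N Λ v z).mulVec f x = f x := by
  simp [Matrix.mulVec, dotProduct, mat, hx]

lemma mat_mulVec_of_notMem {x : V} (hx : x ∉ Λ) {f : V → ℂ} (hf : ∀ y ∈ Λ, f y = 0) :
    (mat N Λ v z).mulVec f x = ((v x : ℂ) - z) * f x + nb N f x := by
  have h1 : ∀ y, mat N Λ v z x y * f y
      = (if y - x ∈ N then f y else 0) + (if x = y then ((v x : ℂ) - z) * f y else 0) := by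
    intro y
    by_cases hy : y ∈ Λ
    · simp [hf y hy]
    · simp only [mat, hx, hy, or_self, if_false, add_mul, ite_mul, one_mul, zero_mul]
  simp only [Matrix.mulVec, dotProduct, h1, Finset.sum_add_distrib]
  rw [Finset.sum_ite_eq univ x (fun y => ((v x : ℂ) - z) * f y)]
  simp only [mem_univ, if_true]
  rw [add_comm]
  congr 1
  rw [← Finset.sum_filter]
  unfold nb
  refine Finset.sum_nbij' (fun w => w - x) (fun n => x + n) ?_ ?_ ?_ ?_ ?_
  · intro w hw; simpa using hw
  · intro n hn; simpa using hn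
  · intro w _; simp
  · intro n _; simp
  · intro w _; simp

lemma mat_det_ne_zero (hN : Steps N) (hz : 0 < z.im) : (mat N Λ v z).det ≠ 0 := by
  intro h0
  obtain ⟨f, hf0, hf⟩ := Matrix.exists_mulVec_eq_zero_iff.2 h0
  apply hf0
  have h1 : ∀ x ∈ Λ, f x = 0 := fun x hx => by
    rw [← mat_mulVec_of_mem (N := N) (v := v) (z := z) hx f, hf]; rfl
  have h2 : IsSol N Λ v z 0 f := ⟨h1, fun x hx => by
    rw [← mat_mulVec_of_notMem hx h1, hf]⟩
  have h3 : IsSol N Λ v z 0 0 := ⟨fun _ _ => rfl, fun x _ => by simp [nb]⟩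
  exact h2.unique hN hz h3

/-- the solution of `(H - z) f = b` off `Λ`, `f = 0` on `Λ` -/
noncomputable def sol (N Λ : Finset V) (v : V → ℝ) (z : ℂ) (b : V → ℂ) : V → ℂ :=
  ((mat N Λ v z)⁻¹).mulVec (fun x => if x ∈ Λ then 0 else b x)

lemma isSol_sol (hN : Steps N) (hz : 0 < z.im) (b : V → ℂ) :
    IsSol N Λ v z b (sol N Λ v z b) := by
  have hu : IsUnit (mat N Λ v z).det := (mat_det_ne_zero hN hz).isUnit
  have h1 : (mat N Λ v z).mulVec (sol N Λ v z b) = fun x => if x ∈ Λ then 0 else b x := by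
    rw [sol, Matrix.mulVec_mulVec, Matrix.mul_nonsing_inv _ hu, Matrix.one_mulVec]
  have h2 : ∀ x ∈ Λ, sol N Λ v z b x = 0 := fun x hx => by
    rw [← mat_mulVec_of_mem (N := N) (v := v) (z := z) hx (sol N Λ v z b), h1]; simp [hx]
  refine ⟨h2, fun x hx => ?_⟩
  rw [← mat_mulVec_of_notMem hx h2, h1]; simp [hx]

lemma sol_eq (hN : Steps N) (hz : 0 < z.im) {b f : V → ℂ} (h : IsSol N Λ v z b f) :
    sol N Λ v z b = f := (isSol_sol hN hz b).unique hN hz h

lemma IsSol.im_dot (hN : Steps N) {b : V → ℝ} {f : V → ℂ}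
    (h : IsSol N Λ v z (fun x => (b x : ℂ)) f) : (dot (fun x => (b x : ℂ)) f).im = z.im * nsq f := by
  rw [h.energy hN]
  unfold dot
  rw [Complex.im_sum, Complex.im_sum, ← Finset.sum_neg_distrib]
  refine Finset.sum_congr rfl fun x _ => ?_
  simp [mul_comm]

lemma IsSol.dot_comm (hN : Steps N) {b b' f f' : V → ℂ} (h : IsSol N Λ v z b f)
    (h' : IsSol N Λ v z b' f') : dot b f' = dot b' f := by
  have e1 : dot b f' = dot (fun x => ((v x : ℂ) - z) * f x) f' + dot (nb N f) f' := by
    unfold dot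
    rw [← Finset.sum_add_distrib]
    refine Finset.sum_congr rfl fun x _ => ?_
    by_cases hx : x ∈ Λ
    · simp [h'.1 x hx]
    · rw [← h.2 x hx]; ring
  have e2 : dot b' f = dot (fun x => ((v x : ℂ) - z) * f' x) f + dot (nb N f') f := by
    unfold dot
    rw [← Finset.sum_add_distrib]
    refine Finset.sum_congr rfl fun x _ => ?_
    by_cases hx : x ∈ Λ
    · simp [h.1 x hx]
    · rw [← h'.2 x hx]; ring
  rw [e1, e2, ← dot_nb hN f f']
  congr 1
  · unfold dot; exact Finset.sum_congr rfl fun x _ => by ring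
  · unfold dot; exact Finset.sum_congr rfl fun x _ => by ring

/-- removal of one site -/
lemma IsSol.remove (hN : Steps N) {b f : V → ℂ} (h : IsSol N Λ v z b f) {x : V}
    (hx : x ∉ Λ) : IsSol N (insert x Λ) v z (b - f x • bx N x) (fun w => if w = x then 0 else f w) := by
  refine ⟨fun w hw => ?_, fun w hw => ?_⟩
  · rcases Finset.mem_insert.1 hw with rfl | hw
    · simp
    · simp [h.1 w hw]
  · have hwx : w ≠ x := fun e => hw (by simp [e])
    have hwΛ : w ∉ Λ := fun e => hw (by simp [e])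
    have h1 := h.2 w hwΛ
    have h2 : nb N (fun w => if w = x then 0 else f w) w = nb N f w - f x * bx N x w := by
      unfold nb bx
      have : ∀ n ∈ N, (if w + n = x then (0 : ℂ) else f (w + n))
          = f (w + n) - (if n = x - w then f x else 0) := by
        intro n _
        by_cases hn : w + n = x
        · have : n = x - w := by rw [← hn]; abel
          simp [hn, this]
        · have : n ≠ x - w := fun e => hn (by rw [e]; abel)
          simp [hn, this]
      rw [Finset.sum_congr rfl this, Finset.sum_sub_distrib]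
      congr 1
      rw [Finset.sum_ite_eq' N (x - w) (fun _ => f x)]
      by_cases hxN : x - w ∈ N <;> simp [hxN]
    rw [h2]
    simp only [hwx, if_false, Pi.sub_apply, Pi.smul_apply, smul_eq_mul]
    rw [← h1]; ring

lemma sol_sub (hN : Steps N) (hz : 0 < z.im) (b b' : V → ℂ) :
    sol N Λ v z (b - b') = sol N Λ v z b - sol N Λ v z b' :=
  sol_eq hN hz ((isSol_sol hN hz b).sub (isSol_sol hN hz b'))

lemma sol_add (hN : Steps N) (hz : 0 < z.im) (b b' : V → ℂ) :
    sol N Λ v z (b + b') = sol N Λ v z b + sol N Λ v z b' :=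
  sol_eq hN hz ((isSol_sol hN hz b).add (isSol_sol hN hz b'))

lemma sol_smul (hN : Steps N) (hz : 0 < z.im) (c : ℂ) (b : V → ℂ) :
    sol N Λ v z (c • b) = c • sol N Λ v z b :=
  sol_eq hN hz ((isSol_sol hN hz b).smul c)

/-- the self energy at `x` -/
noncomputable def SE (N Λ : Finset V) (v : V → ℝ) (z : ℂ) (x : V) : ℂ :=
  nb N (sol N (insert x Λ) v z (bx N x)) x

lemma bx_real (N : Finset V) (x : V) :
    bx N x = fun w => (((if x - w ∈ N then 1 else 0 : ℝ)) : ℂ) := by
  funext w; unfold bx; split_ifs <;> simp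

lemma SE_im (hN : Steps N) (hz : 0 < z.im) (x : V) :
    (SE N Λ v z x).im = z.im * nsq (sol N (insert x Λ) v z (bx N x)) := by
  unfold SE
  rw [nb_eq_dot _ _ hN]
  have h := isSol_sol (Λ := insert x Λ) (v := v) hN hz (bx N x)
  rw [bx_real] at h ⊢
  exact h.im_dot hN

lemma sol_remove (hN : Steps N) (hz : 0 < z.im) (b : V → ℂ) {x : V} (hx : x ∉ Λ) :
    sol N Λ v z b = sol N (insert x Λ) v z b
      + sol N Λ v z b x • (Pi.single x 1 - sol N (insert x Λ) v z (bx N x)) := by
  have h := (isSol_sol (v := v) (Λ := Λ) hN hz b).remove hN hx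
  have h2 := sol_eq hN hz h
  rw [sol_sub hN hz, sol_smul hN hz] at h2
  funext w
  have h3 := congrFun h2 w
  simp only [Pi.sub_apply, Pi.smul_apply, smul_eq_mul, Pi.add_apply] at h3 ⊢
  by_cases hw : w = x
  · subst hw
    have e1 := (isSol_sol (v := v) (Λ := insert w Λ) hN hz b).1 w (by simp)
    have e2 := (isSol_sol (v := v) (Λ := insert w Λ) hN hz (bx N w)).1 w (by simp)
    rw [e1, e2]; simp
  · simp only [hw, if_false] at h3
    rw [Pi.single_eq_of_ne hw]
    linear_combination -h3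

lemma nb_add (N : Finset V) (f g : V → ℂ) (x : V) : nb N (f + g) x = nb N f x + nb N g x := by
  simp [nb, Finset.sum_add_distrib]

lemma nb_sub (N : Finset V) (f g : V → ℂ) (x : V) : nb N (f - g) x = nb N f x - nb N g x := by
  simp [nb, Finset.sum_sub_distrib]

lemma nb_smul (N : Finset V) (c : ℂ) (f : V → ℂ) (x : V) : nb N (c • f) x = c * nb N f x := by
  simp [nb, Finset.mul_sum]

lemma nb_single (hN : Steps N) (x y : V) : nb N (Pi.single x 1) y = bx N x y := by
  unfold nb bx
  have : ∀ n ∈ N, (Pi.single x (1 : ℂ) : V → ℂ) (y + n) = if n = x - y then 1 else 0 := by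
    intro n _
    by_cases hn : n = x - y
    · subst hn; simp
    · have : y + n ≠ x := fun e => hn (by rw [← e]; abel)
      simp [hn, Pi.single_apply, this]
  rw [Finset.sum_congr rfl this, Finset.sum_ite_eq' N (x - y) (fun _ => (1:ℂ))]

/-- the value at the site `x` -/
lemma sol_apply_mul (hN : Steps N) (hz : 0 < z.im) (b : V → ℂ) {x : V} (hx : x ∉ Λ) :
    sol N Λ v z b x * ((v x : ℂ) - z - SE N Λ v z x)
      = b x - nb N (sol N (insert x Λ) v z b) x := by
  have h := (isSol_sol (v := v) (Λ := Λ) hN hz b).2 x hx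
  have h2 : nb N (sol N Λ v z b) x = nb N (sol N (insert x Λ) v z b) x
      - sol N Λ v z b x * SE N Λ v z x := by
    conv_lhs => rw [sol_remove hN hz b hx]
    rw [nb_add, nb_smul, nb_sub, nb_single hN]
    have : bx N x x = 0 := by simp [bx, hN.zero]
    rw [this, SE]; ring
  rw [h2] at h
  rw [← h]; ring

lemma den_im (hN : Steps N) (hz : 0 < z.im) (x : V) :
    ((v x : ℂ) - z - SE N Λ v z x).im
      = -(z.im + z.im * nsq (sol N (insert x Λ) v z (bx N x))) := by
  rw [Complex.sub_im, Complex.sub_im, SE_im hN hz]; simp; ring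

lemma den_ne_zero (hN : Steps N) (hz : 0 < z.im) (x : V) :
    ((v x : ℂ) - z - SE N Λ v z x) ≠ 0 := by
  intro h
  have h1 := den_im (Λ := Λ) (v := v) hN hz x
  rw [h] at h1
  have h2 := nsq_nonneg (sol N (insert x Λ) v z (bx N x))
  have : 0 ≤ z.im * nsq (sol N (insert x Λ) v z (bx N x)) := by positivity
  simp only [Complex.zero_im] at h1
  linarith

lemma sol_apply (hN : Steps N) (hz : 0 < z.im) (b : V → ℂ) {x : V} (hx : x ∉ Λ) :
    sol N Λ v z b x
      = (b x - nb N (sol N (insert x Λ) v z b) x) / ((v x : ℂ) - z - SE N Λ v z x) := by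
  rw [eq_div_iff (den_ne_zero hN hz x)]
  exact sol_apply_mul hN hz b hx

/-- the solutions depend only on the potential off `Λ` -/
lemma sol_congr (hN : Steps N) (hz : 0 < z.im) {v' : V → ℝ} (b : V → ℂ)
    (h : ∀ x, x ∉ Λ → v x = v' x) : sol N Λ v z b = sol N Λ v' z b := by
  refine sol_eq hN hz ?_
  have h1 := isSol_sol (v := v') (Λ := Λ) hN hz b
  refine ⟨h1.1, fun x hx => ?_⟩
  rw [h x hx]; exact h1.2 x hx

end Pool.Agent.H989
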